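import Pool.Agent.Work.MP_be9894_co.AA.Transfer
import Mathlib
import Pool.Agent.Work.MP_be9894_co.H2Transfer

-- merged part: Pool.Agent.Work.MP_be9894_co.AA.BBall
section
/-!
Moments of the ball sizes.

`ball_walk`: induction on `D` for a walk, then a shortest one (as in `inH_walk`, `walk_cut` of `Walk.lean`).
`ball_ext`: take the walk from `x` to `y`, restart it at its last vertex `t` in `S`, choose types (`rel_adj`, `step`), apply `walk_apex`.  If the apex index is
positive then `ω.1 t = z 1 ∉ S`.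
`ball_ind`: induction on `j` for all `S, Y, Φ`; `j = 0` is `pitman`.  For the step write `card ^ (j+1) = ∑ y ∈ ball, card ^ j` and send `y` to the datum `(l, t, a, z)`
of `ball_ext` (`l ≤ D`, `t ∈ S`, `a ≤ l`, `z : Fin l → V` the new vertices; `y` is `t` or the last new vertex).  The datum defines `S' = S ∪ new vertices`, `Y' = Y ∪` the `l` vertices
`z i`, `i ≠ a` (none of them in `Y`: new vertices are outside `S`, and `t ∉ Y` when `0 < a` because `Φ` maps `Y` into `S`; data violating this give no `ω`), and `Φ'`.  There are at most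
`card S * (D+1) * n ^ l` data of length `l`.  See `far_pit`, `far_data` in `Far.lean` for a similar encoding.
-/

set_option autoImplicit false

namespace Pool.Agent.Work.MP_be9894_co.AA

open Finset

variable {V : Type} [Fintype V]

lemma bball_walk {r : V → V → Prop} {x : V} (D : ℕ) : ∀ y ∈ ball r x D,
    ∃ d ≤ D, ∃ z : ℕ → V, (∀ i ≤ d, z i ∈ ball r x D) ∧ z 0 = x ∧ z d = y ∧
      (∀ i ≤ d, ∀ j ≤ d, z i = z j → i = j) ∧ ∀ i < d, r (z i) (z (i + 1)) ∨ r (z (i + 1)) (z i) := by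
  induction D with
  | zero =>
    exact fun y h => ⟨0, le_rfl, fun _ => x, fun _ _ => mem_ball_zero.2 rfl, rfl,
      (mem_ball_zero.1 h).symm, fun i _ j _ _ => by omega, fun i _ => by omega⟩
  | succ D ih =>
    intro y h
    by_cases k : y ∈ ball r x D
    · obtain ⟨d, a, z, b, c⟩ := ih y k
      exact ⟨d, by omega, z, fun i hi => ball_mono D.le_succ (b i hi), c⟩
    obtain ⟨t, ht, e⟩ := (mem_ball_succ.1 h).resolve_left k
    obtain ⟨d, a, z, b, c, f, g, s⟩ := ih t ht
    refine ⟨d + 1, by omega, fun i => if i ≤ d then z i else y, fun i _ => ?_, by simpa using c,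
      by simp, fun i _ j _ => ?_, fun i hi => ?_⟩
    · beta_reduce
      split_ifs with p
      exacts [ball_mono D.le_succ (b i p), h]
    · beta_reduce
      split_ifs with p q q
      exacts [g i p j q, fun e => absurd (e ▸ b i p) k, fun e => absurd (e ▸ b j q) k,
        fun _ => by omega]
    · by_cases p : i < d
      · simpa [p.le, Nat.succ_le_of_lt p] using s i p
      · obtain rfl : i = d := by omega
        simpa [f] using e

lemma ball_walk {r : V → V → Prop} {x y : V} {D : ℕ} (h : y ∈ ball r x D) :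
    ∃ d ≤ D, ∃ z : ℕ → V, z 0 = x ∧ z d = y ∧ (∀ i ≤ d, ∀ j ≤ d, z i = z j → i = j) ∧
      ∀ i < d, r (z i) (z (i + 1)) ∨ r (z (i + 1)) (z i) := by
  obtain ⟨d, a, z, -, b⟩ := bball_walk D y h
  exact ⟨d, a, z, b⟩

lemma ball_ext {ω : Om V} {x y : V} {D : ℕ} (S : Finset V) (hx : x ∈ S) (h : y ∈ ball (rel ω) x D) :
    ∃ l ≤ D, ∃ z : ℕ → V, ∃ a ≤ l, z 0 ∈ S ∧ z l = y ∧ (∀ i, 0 < i → i ≤ l → z i ∉ S) ∧
      (∀ i ≤ l, ∀ j ≤ l, z i = z j → i = j) ∧ (∀ i < a, ω.1 (z i) = z (i + 1)) ∧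
      ∀ i, a ≤ i → i < l → ω.1 (z (i + 1)) = z i := by
  classical
  obtain ⟨d, hd, z, z0, zd, hz, hs⟩ := ball_walk h
  have h1 : z (Nat.findGreatest (fun i => z i ∈ S) d) ∈ S :=
    Nat.findGreatest_spec (P := fun i => z i ∈ S) d.zero_le (z0 ▸ hx)
  have h2 := fun i => Nat.findGreatest_is_greatest (P := fun i => z i ∈ S) (n := d) (k := i)
  have h3 := Nat.findGreatest_le (P := fun i => z i ∈ S) d
  generalize Nat.findGreatest (fun i => z i ∈ S) d = k at h1 h2 h3
  have h4 : ∀ i ≤ d - k, ∀ j ≤ d - k, z (k + i) = z (k + j) → i = j := fun i _ j _ e => by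
    have := hz _ (by omega) _ (by omega) e
    omega
  obtain ⟨a, ha, up, dn⟩ := walk_apex (ω := ω) (z := fun i => z (k + i))
    (τ := fun i => if rel ω (z (k + i)) (z (k + i + 1)) then false else true) h4 fun i hi => by
      split_ifs with p
      · exact p
      · exact (hs (k + i) (by omega)).resolve_left p
  exact ⟨d - k, by omega, fun i => z (k + i), a, ha, h1, (congrArg z (Nat.add_sub_cancel' h3)).trans zd,
    fun i _ _ => h2 _ (by omega) (by omega), h4, fun i hi => (up i hi).1,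
    fun i a b => (dn i a b).1⟩

variable [DecidableEq V]

open Classical in
/-- walks that start in `S` and leave it at once, with an apex -/
noncomputable def bball_data (S : Finset V) (l : ℕ) : Finset ((Fin (l + 1) → V) × Fin (l + 1)) :=
  ((Fintype.piFinset (Fin.cons S fun _ => univ : Fin (l + 1) → Finset V)).filter fun z =>
    Function.Injective z ∧ ∀ i, i ≠ 0 → z i ∉ S) ×ˢ univ

/-- the event attached to a datum -/
def bball_ev {l : ℕ} (t : (Fin (l + 1) → V) × Fin (l + 1)) (ω : Om V) : Prop :=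
  ∀ i : Fin l, ω.1 (t.1 (t.2.succAbove i)) = if i.castSucc < t.2 then t.1 i.succ else t.1 i.castSucc

lemma bball_card (S : Finset V) (l : ℕ) :
    (bball_data S l).card ≤ S.card * Fintype.card V ^ l * (l + 1) := by
  rw [bball_data, card_product, card_univ, Fintype.card_fin]
  refine Nat.mul_le_mul_right _ ((card_filter_le _ _).trans_eq ?_)
  simp [Fin.prod_univ_succ]

open Classical in
lemma bball_le {S : Finset V} {x : V} (hx : x ∈ S) (ω : Om V) (D : ℕ) : (ball (rel ω) x D).card ≤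
    ∑ l ∈ range (D + 1), ((bball_data S l).filter fun t => bball_ev t ω).card := by
  have h : ball (rel ω) x D ⊆ (range (D + 1)).biUnion fun l =>
      ((bball_data S l).filter fun t => bball_ev t ω).image fun t => t.1 (Fin.last l) := by
    intro y hy
    obtain ⟨l, hl, z, a, ha, z0, zl, h1, h2, up, dn⟩ := ball_ext S hx hy
    refine mem_biUnion.2 ⟨l, mem_range.2 (by omega), mem_image.2 ⟨(fun i => z i, ⟨a, by omega⟩),
      mem_filter.2 ⟨mem_product.2 ⟨mem_filter.2 ⟨Fintype.mem_piFinset.2 fun i => ?_,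
        fun i j e => Fin.ext (h2 i (by omega) j (by omega) e),
        fun i hi => h1 i (Fin.pos_iff_ne_zero.2 hi) (by omega)⟩, mem_univ _⟩, fun i => ?_⟩, zl⟩⟩
    · exact Fin.cases z0 (fun _ => mem_univ _) i
    · simp only [Fin.succAbove]
      split_ifs with h
      · exact up i h
      · exact dn i (not_lt.1 h) i.2
  exact (card_le_card h).trans (card_biUnion_le.trans (sum_le_sum fun d _ => card_image_le))

open Classical in
lemma bball_step {S Y : Finset V} {Φ : V → V} (hY : Y ⊆ S) (hΦ : ∀ y ∈ Y, Φ y ∈ S) {l B : ℕ}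
    (f : Om V → ℕ) (ih : ∀ (S' Y : Finset V) (Φ : V → V), S ⊆ S' → S'.card ≤ S.card + l → Y ⊆ S' →
      (∀ y ∈ Y, Φ y ∈ S') → (∑ ω ∈ evt (fun ω : Om V => ∀ y ∈ Y, ω.1 y = Φ y ∧ Φ y ≠ y), f ω) *
        Fintype.card V ^ Y.card ≤ B)
    {t : (Fin (l + 1) → V) × Fin (l + 1)} (ht : t ∈ bball_data S l) :
    (∑ ω ∈ (evt fun ω : Om V => ∀ y ∈ Y, ω.1 y = Φ y ∧ Φ y ≠ y).filter (bball_ev t), f ω) *
      Fintype.card V ^ Y.card * Fintype.card V ^ l ≤ B := by
  obtain ⟨z, a⟩ := t
  obtain ⟨h0, hi, h1⟩ := mem_filter.1 (mem_product.1 ht).1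
  rcases ((evt fun ω : Om V => ∀ y ∈ Y, ω.1 y = Φ y ∧ Φ y ≠ y).filter
    (bball_ev (z, a))).eq_empty_or_nonempty with e | ⟨ω, hω⟩
  · simp [e]
  obtain ⟨h2, h3⟩ := mem_filter.1 hω
  replace h2 := (mem_evt.1 h2).2
  have hc : Function.Injective fun i : Fin l => z (a.succAbove i) :=
    hi.comp Fin.succAbove_right_injective
  have hz : ∀ i, z i ∈ S ∪ univ.image fun i : Fin l => z i.succ := fun i =>
    Fin.cases (mem_union_left _ (Fintype.mem_piFinset.1 h0 0))
      (fun i => mem_union_right _ (mem_image_of_mem _ (mem_univ i))) i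
  have hd : Disjoint Y (univ.image fun i : Fin l => z (a.succAbove i)) := by
    refine disjoint_left.2 fun y hy e => ?_
    obtain ⟨i, -, rfl⟩ := mem_image.1 e
    have k := hΦ _ hy
    rw [← (h2 _ hy).1, h3 i] at k
    have k0 := hY hy
    simp only [Fin.succAbove] at k0
    split_ifs at k k0
    · exact h1 _ i.succ_ne_zero k
    · exact h1 _ i.succ_ne_zero k0
  have h4 := ih (S ∪ univ.image fun i : Fin l => z i.succ)
    (Y ∪ univ.image fun i : Fin l => z (a.succAbove i)) ω.1 subset_union_left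
    ((card_union_le _ _).trans (Nat.add_le_add_left (card_image_le.trans (by simp)) _))
    (union_subset (hY.trans subset_union_left) (image_subset_iff.2 fun i _ => hz _)) fun y hy => by
      rcases mem_union.1 hy with hy | hy
      · exact mem_union_left _ ((h2 y hy).1 ▸ hΦ y hy)
      · obtain ⟨i, -, rfl⟩ := mem_image.1 hy
        rw [h3 i]
        split_ifs <;> exact hz _
  rw [card_union_of_disjoint hd, card_image_of_injective _ hc, card_univ, Fintype.card_fin, pow_add,
    ← mul_assoc] at h4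
  refine le_trans (Nat.mul_le_mul_right _ (Nat.mul_le_mul_right _
    (sum_le_sum_of_subset fun ω' hω' => ?_))) h4
  obtain ⟨h5, h6⟩ := mem_filter.1 hω'
  refine mem_evt.2 ⟨(mem_evt.1 h5).1, fun y hy => ?_⟩
  rcases mem_union.1 hy with hy | hy
  · rw [(h2 y hy).1]
    exact (mem_evt.1 h5).2 y hy
  · obtain ⟨i, -, rfl⟩ := mem_image.1 hy
    refine ⟨(h6 i).trans (h3 i).symm, ?_⟩
    rw [h3 i]
    simp only [Fin.succAbove]
    split_ifs
    · exact hi.ne (Fin.castSucc_lt_succ (i := i)).ne'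
    · exact hi.ne (Fin.castSucc_lt_succ (i := i)).ne

lemma ball_ind (D j : ℕ) (x : V) (S Y : Finset V) (Φ : V → V) (hx : x ∈ S) (hY : Y ⊆ S) (hΦ : ∀ y ∈ Y, Φ y ∈ S) :
    (∑ ω ∈ evt (fun ω : Om V => ∀ y ∈ Y, ω.1 y = Φ y ∧ Φ y ≠ y), (ball (rel ω) x D).card ^ j) *
        Fintype.card V ^ Y.card ≤ ((S.card + j * D) * (D + 1) ^ 2) ^ j * (OmF V).card := by
  classical
  induction j generalizing S Y Φ with
  | zero => simpa using pitman Y Φ
  | succ j ih =>
    have hn : 0 < Fintype.card V := Fintype.card_pos_iff.2 ⟨x⟩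
    set B := ((S.card + (j + 1) * D) * (D + 1) ^ 2) ^ j * (OmF V).card
    set E := evt fun ω : Om V => ∀ y ∈ Y, ω.1 y = Φ y ∧ Φ y ≠ y
    have h1 : ∑ ω ∈ E, (ball (rel ω) x D).card ^ (j + 1) ≤ ∑ l ∈ range (D + 1),
        ∑ t ∈ bball_data S l, ∑ ω ∈ E.filter (bball_ev t), (ball (rel ω) x D).card ^ j := by
      simp only [sum_filter, sum_comm (t := E)]
      refine sum_le_sum fun ω _ => ?_
      simp only [← sum_filter, sum_const, smul_eq_mul, ← sum_mul]
      rw [pow_succ']
      exact Nat.mul_le_mul_right _ (bball_le hx ω D)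
    have h2 : ∀ l ∈ range (D + 1), (∑ t ∈ bball_data S l, ∑ ω ∈ E.filter (bball_ev t),
        (ball (rel ω) x D).card ^ j) * Fintype.card V ^ Y.card ≤ S.card * (D + 1) * B := by
      intro l hl
      have hl := mem_range.1 hl
      refine Nat.le_of_mul_le_mul_right ?_ (pow_pos hn l)
      rw [sum_mul, sum_mul]
      refine (sum_le_card_nsmul _ _ B fun t ht => bball_step hY hΦ _ (fun S' Y Φ a b c d =>
        (ih S' Y Φ (a hx) c d).trans (Nat.mul_le_mul_right _ (Nat.pow_le_pow_left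
          (Nat.mul_le_mul_right _ (by rw [add_mul]; omega)) _))) ht).trans ?_
      calc _ ≤ S.card * Fintype.card V ^ l * (D + 1) * B :=
            Nat.mul_le_mul_right _ ((bball_card S l).trans (Nat.mul_le_mul_left _ hl))
        _ = _ := by ring
    refine (Nat.mul_le_mul_right _ h1).trans ?_
    rw [sum_mul]
    refine (sum_le_card_nsmul _ _ _ h2).trans ?_
    calc _ = S.card * (D + 1) ^ 2 * B := by rw [card_range, smul_eq_mul]; ring
      _ ≤ (S.card + (j + 1) * D) * (D + 1) ^ 2 * B := by gcongr; omega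
      _ = _ := by simp only [B]; ring

theorem ball_count (D j M : ℕ) :
    (evt fun ω : Om V => ∃ x, M < (ball (rel ω) x D).card).card * M ^ j ≤
      Fintype.card V * ((1 + j * D) * (D + 1) ^ 2) ^ j * (OmF V).card := by
  calc _ ≤ ∑ ω ∈ evt fun ω : Om V => ∃ x, M < (ball (rel ω) x D).card,
        ∑ x, (ball (rel ω) x D).card ^ j := by
        refine card_nsmul_le_sum _ _ _ fun ω hω => ?_
        obtain ⟨x, hx⟩ := (mem_evt.1 hω).2
        exact (Nat.pow_le_pow_left hx.le j).trans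
          (single_le_sum (f := fun x => (ball (rel ω) x D).card ^ j) (fun _ _ => Nat.zero_le _)
            (mem_univ x))
    _ ≤ ∑ ω ∈ evt fun ω : Om V => ∀ y ∈ (∅ : Finset V), ω.1 y = id y ∧ id y ≠ y,
        ∑ x, (ball (rel ω) x D).card ^ j :=
        sum_le_sum_of_subset fun ω hω => mem_evt.2 ⟨(mem_evt.1 hω).1, by simp⟩
    _ ≤ _ := by
        rw [sum_comm, mul_assoc]
        refine sum_le_card_nsmul _ _ _ fun x _ => ?_
        simpa using ball_ind D j x {x} ∅ id (mem_singleton_self x) (empty_subset _) (by simp)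

/-- either a far pair exists (`far_sum`) or every hull lies in a ball -/
theorem hull_count (K D j M : ℕ) (hM : 0 < M) :
    ((evt fun ω : Om V => ∃ v, M < (hull (rel ω) v K).card).card : ℝ) ≤
      (Fintype.card V * tl K D (Fintype.card V) +
        Fintype.card V * ((1 + (j : ℝ) * D) * ((D : ℝ) + 1) ^ 2) ^ j / (M : ℝ) ^ j) * (OmF V).card := by
  have h1 : (evt fun ω : Om V => ∃ v, M < (hull (rel ω) v K).card) ⊆
      (evt fun ω : Om V => (farP (rel ω) K D).Nonempty) ∪
        evt fun ω : Om V => ∃ x, M < (ball (rel ω) x D).card := fun ω hω => by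
    obtain ⟨a, v, hv⟩ := mem_evt.1 hω
    refine mem_union.2 (or_iff_not_imp_left.2 fun k => mem_evt.2 ⟨a, v, hv.trans_le
      (card_le_card fun y hy => by_contra fun e => k (mem_evt.2 ⟨a, (v, y), ?_⟩))⟩)
    exact mem_farP.2 ⟨mem_hull.1 hy, e⟩
  have h2 : ((evt fun ω : Om V => (farP (rel ω) K D).Nonempty).card : ℝ) ≤
      ∑ ω ∈ OmF V, ((farP (rel ω) K D).card : ℝ) := by
    refine le_trans ?_ (sum_le_sum_of_subset_of_nonneg (evt_subset fun ω : Om V =>
      (farP (rel ω) K D).Nonempty) fun _ _ _ => Nat.cast_nonneg _)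
    rw [← nsmul_one]
    exact card_nsmul_le_sum _ _ _ fun ω hω => by exact_mod_cast (mem_evt.1 hω).2.card_pos
  have h3 := far_sum (V := V) K D
  have h4 := (Nat.cast_le (α := ℝ)).2 (ball_count (V := V) D j M)
  have h5 := (Nat.cast_le (α := ℝ)).2 ((card_le_card h1).trans (card_union_le _ _))
  push_cast at h4 h5
  rw [← le_div_iff₀ (by positivity)] at h4
  rw [add_mul, div_mul_eq_mul_div]
  linarith only [h2, h3, h4, h5]

end Pool.Agent.Work.MP_be9894_co.AA
end

-- merged part: Pool.Agent.Work.MP_be9894_co.AA.Cut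
section
/-!
A small best hull rarely sits at the centroid.

`sub_disj`: `inH_cut` with `sub_cut`, twice: `v ∉ sub y` (else reaching `p y` passes through `y`; `par_not_mem_sub`), and then
reaching a vertex of `sub y` passes through the step from `p y` to `y` (`inH_step`, `inH_mono`).
`down_sum`: `sub y ⊆ comp H y`.  For `t ∉ H` follow the orbit: either it meets `H`, and the vertex before the first entry lies in
`dn`, or it avoids `H` and `t ∈ comp H ρ` for the root `ρ`.
`cut_top`: `top_cut` with `relX_le`, `inH_unused` and `rel_cases`.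
-/

set_option autoImplicit false

namespace Pool.Agent.Work.MP_be9894_co.AA

open Finset

variable {V : Type} [Fintype V]

open Classical in
/-- vertices hanging below `H` -/
noncomputable def dn (p : V → V) (H : Finset V) : Finset V := univ.filter fun y => y ∉ H ∧ p y ∈ H

lemma mem_dn {p : V → V} {H : Finset V} {y : V} : y ∈ dn p H ↔ y ∉ H ∧ p y ∈ H := by simp [dn]

lemma sub_disj {ω : Om V} (h : IsRT ω.1) {v y t : V} {k : ℕ} (hy : y ∈ dn ω.1 (hull (rel ω) v k))
    (ht : t ∈ sub ω.1 y) : t ∉ hull (rel ω) v k := by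
  obtain ⟨hy1, hy2⟩ := mem_dn.1 hy
  have hne : ω.1 y ≠ y := fun e => hy1 (e ▸ hy2)
  have hv : v ∉ sub ω.1 y := by
    intro hv
    obtain ⟨j, hj, h1, _⟩ := inH_cut (r := rel ω) (↑(sub ω.1 y) : Set V) (s := y) (t := ω.1 y)
      (fun a b ha hb hab => sub_cut ha hb hab) hv (par_not_mem_sub h hne) (mem_hull.1 hy2)
    exact hy1 (mem_hull.2 (inH_mono hj h1))
  intro htH
  obtain ⟨j, hj, h1, h2⟩ := inH_cut (r := rel ω) ((↑(sub ω.1 y) : Set V)ᶜ) (s := ω.1 y) (t := y)
    (fun a b ha hb hab => by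
      have := sub_cut (ω := ω) (y := y) (a := b) (b := a) (by simpa using hb) (by simpa using ha) hab.symm
      exact ⟨this.2, this.1⟩) (by simpa using hv) (by simpa using ht) (mem_hull.1 htH)
  exact hy1 (mem_hull.2 (inH_mono hj (inH_step h1 h2)))

lemma cut_chain {ω : Om V} {H : Finset V} {y : V} (k : ℕ) :
    ∀ u, ω.1^[k] u = y → (∀ j ≤ k, ω.1^[j] u ∉ H) → u ∈ comp (rel ω) H y := by
  induction k with
  | zero =>
    intro u hu _
    rw [mem_comp, ← hu]
    exact Relation.ReflTransGen.refl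
  | succ k ih =>
    intro u hu hH
    have h1 := ih (ω.1 u) hu (fun j hj => hH (j + 1) (by omega))
    by_cases he : ω.1 u = u
    · rwa [he] at h1
    · rw [mem_comp] at h1 ⊢
      exact h1.tail ⟨rel_adj.2 ⟨he, Or.inr rfl⟩, hH 1 (by omega), hH 0 (by omega)⟩

lemma cut_sub_iter {p : V → V} {y u : V} (hu : u ∈ sub p y) :
    ∃ k, p^[k] u = y ∧ ∀ j ≤ k, p^[j] u ∈ sub p y := by
  obtain ⟨k, hk⟩ := mem_sub.1 hu
  refine ⟨k, hk, fun j hj => mem_sub.2 ⟨k - j, ?_⟩⟩
  rw [← Function.iterate_add_apply, Nat.sub_add_cancel hj, hk]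

lemma down_sum {ω : Om V} (h : IsRT ω.1) {v : V} {k : ℕ} (hv : v ∈ top (rel ω) k) (hB : ¬ Big (rel ω) k) :
    (∀ y ∈ dn ω.1 (hull (rel ω) v k), 2 * (sub ω.1 y).card ≤ Fintype.card V) ∧
      Fintype.card V ≤ 2 * ((hull (rel ω) v k).card + ∑ y ∈ dn ω.1 (hull (rel ω) v k), (sub ω.1 y).card) := by
  classical
  set H := hull (rel ω) v k with hH
  have hc : ∀ u, u ∉ H → 2 * (comp (rel ω) H u).card ≤ Fintype.card V := by
    intro u hu
    by_contra hlt
    exact hB ⟨v, hv, u, hu, not_le.1 hlt⟩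
  refine ⟨fun y hy => ?_, ?_⟩
  · have hs : sub ω.1 y ⊆ comp (rel ω) H y := by
      intro u hu
      obtain ⟨j, h1, h2⟩ := cut_sub_iter hu
      exact cut_chain j u h1 (fun i hi => sub_disj h hy (h2 i hi))
    have := card_le_card hs
    have := hc y (mem_dn.1 hy).1
    omega
  · obtain ⟨ρ, _, hρ⟩ := h
    have hcov : ∀ t, t ∈ H ∨ t ∈ (dn ω.1 H).biUnion (sub ω.1) ∨ (ρ ∉ H ∧ t ∈ comp (rel ω) H ρ) := by
      intro t
      by_cases hex : ∃ j, ω.1^[j] t ∈ H
      · have hj := Nat.find_spec hex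
        rcases hj0 : Nat.find hex with _ | j
        · rw [hj0] at hj
          exact Or.inl hj
        · refine Or.inr (Or.inl (mem_biUnion.2 ⟨ω.1^[j] t, mem_dn.2 ⟨Nat.find_min hex (by omega), ?_⟩,
            mem_sub.2 ⟨j, rfl⟩⟩))
          rw [hj0, Function.iterate_succ_apply'] at hj
          exact hj
      · push Not at hex
        obtain ⟨j, hj⟩ := hρ t
        exact Or.inr (Or.inr ⟨hj ▸ hex j, cut_chain j t hj (fun i _ => hex i)⟩)
    have hb : ((dn ω.1 H).biUnion (sub ω.1)).card ≤ ∑ y ∈ dn ω.1 H, (sub ω.1 y).card := card_biUnion_le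
    by_cases hρH : ρ ∈ H
    · have hs : (univ : Finset V) ⊆ H ∪ (dn ω.1 H).biUnion (sub ω.1) := by
        intro t _
        rcases hcov t with h1 | h1 | h1
        · exact mem_union_left _ h1
        · exact mem_union_right _ h1
        · exact absurd hρH h1.1
      have := le_trans (card_le_card hs) (card_union_le _ _)
      rw [card_univ] at this
      omega
    · have hs : (univ : Finset V) ⊆ (H ∪ (dn ω.1 H).biUnion (sub ω.1)) ∪ comp (rel ω) H ρ := by
        intro t _
        rcases hcov t with h1 | h1 | h1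
        · exact mem_union_left _ (mem_union_left _ h1)
        · exact mem_union_left _ (mem_union_right _ h1)
        · exact mem_union_right _ h1.2
      have a1 := le_trans (card_le_card hs) (card_union_le _ _)
      have a2 := card_union_le H ((dn ω.1 H).biUnion (sub ω.1))
      have a3 := hc ρ hρH
      rw [card_univ] at a1
      omega

lemma cut_top {ω : Om V} {v y : V} {k : ℕ} (hU : Uniq (rel ω) k) (hv : v ∈ top (rel ω) k)
    (hy : y ∉ hull (rel ω) v k) : ∀ t ∈ top (relX ω y) k, hull (relX ω y) t k = hull (rel ω) v k := by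
  intro t ht
  have hh : ∀ j ≤ k, hull (relX ω y) v j = hull (rel ω) v j := by
    intro j hj
    ext u
    rw [mem_hull, mem_hull]
    exact ⟨inH_rel (fun _ _ => relX_le), inH_unused (fun _ _ => rel_cases y)
      (fun h => hy (mem_hull.2 (inH_mono hj h)))⟩
  obtain ⟨h1, h2⟩ := (top_cut (fun _ _ => relX_le) hv hh).2 t ht
  rw [h2]
  exact hU t h1 v hv

end Pool.Agent.Work.MP_be9894_co.AA
end

-- merged part: Pool.Agent.Work.MP_be9894_co.AA.CutCount
section
/-!
The weighted count for the centroid case.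

`cut_count`: for `ω` in the event fix `v ∈ top` (`top_nonempty`); give `(ω, y, x)` with `y ∈ dn`, `x ∉ sub y` the weight
`card (sub y)`; the total is at least `card * n ^ 2 / 8`.  Map it to `(ω', y, ω.1 y)` with `ω' = mv ω y x (ω.2 y)`: `ω' ∈ OmF`
(`update_RT`), `sub` is unchanged (`sub_update`), and `ω.1 y` lies in the hull of a fixed member of `top (relX ω' y) k`, which
has at most `M` elements (`relX_mv`, `cut_top`).  The map is injective (`mv_mv`, `mv_par`, `mv_bit`).
-/

set_option autoImplicit false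

namespace Pool.Agent.Work.MP_be9894_co.AA

open Finset

variable {V : Type} [Fintype V]

variable [DecidableEq V]

open Classical in
/-- candidates for the old parent -/
noncomputable def cutcount_cand (k M : ℕ) (r : V → V → Prop) : Finset V :=
  if h : (top r k).Nonempty then (if (hull r h.choose k).card ≤ M then hull r h.choose k else ∅) else ∅

omit [DecidableEq V] in
lemma cutcount_card (k M : ℕ) (r : V → V → Prop) : (cutcount_cand k M r).card ≤ M := by
  unfold cutcount_cand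
  split_ifs with h1 h2
  · exact h2
  · simp
  · simp

omit [DecidableEq V] in
lemma cutcount_eq {k M : ℕ} {r : V → V → Prop} {H : Finset V} (h : (top r k).Nonempty)
    (hH : ∀ t ∈ top r k, hull r t k = H) (hM : H.card ≤ M) : cutcount_cand k M r = H := by
  unfold cutcount_cand
  rw [dif_pos h, hH _ h.choose_spec, if_pos hM]

lemma cutcount_inj {α β : Type} [DecidableEq β] {S : Finset α} {T : Finset β} {f : α → ℕ} {g : β → ℕ} (φ : α → β)
    (h1 : Set.InjOn φ S) (h2 : S.image φ ⊆ T) (h3 : ∀ a ∈ S, f a ≤ g (φ a)) : ∑ a ∈ S, f a ≤ ∑ b ∈ T, g b := by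
  calc _ ≤ ∑ a ∈ S, g (φ a) := sum_le_sum h3
    _ = ∑ b ∈ S.image φ, g b := (sum_image h1).symm
    _ ≤ _ := sum_le_sum_of_subset h2

theorem cut_count (k M : ℕ) (hM : 4 * M ≤ Fintype.card V) :
    (evt fun ω : Om V => Uniq (rel ω) k ∧ ¬ Big (rel ω) k ∧ ∀ v, (hull (rel ω) v k).card ≤ M).card *
        Fintype.card V ^ 2 ≤ 8 * M * ∑ ω ∈ OmF V, ∑ y, (sub ω.1 y).card := by
  set n := Fintype.card V with hn
  set E := evt fun ω : Om V => Uniq (rel ω) k ∧ ¬ Big (rel ω) k ∧ ∀ v, (hull (rel ω) v k).card ≤ M with hE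
  rcases E.eq_empty_or_nonempty with h0 | ⟨ω0, hω0⟩
  · rw [h0]
    simp
  have : Nonempty V := ⟨(mem_evt.1 hω0).1.choose⟩
  choose v hv using fun ω : Om V => top_nonempty (r := rel ω) k
  set S : Finset (Σ _ : Om V, Σ _ : V, V) :=
    E.sigma fun ω => (dn ω.1 (hull (rel ω) (v ω) k)).sigma fun y => univ \ sub ω.1 y with hS
  set T : Finset (Σ _ : Om V, Σ _ : V, V) :=
    (OmF V).sigma fun ω => univ.sigma fun y => cutcount_cand k M (relX ω y) with hT
  have h1 : E.card * n ^ 2 ≤ 8 * ∑ e ∈ S, (sub e.1.1 e.2.1).card := by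
    rw [hS, sum_sigma, mul_sum]
    refine le_trans (by simp) (card_nsmul_le_sum E _ (n ^ 2) ?_)
    intro ω hω
    obtain ⟨hRT, _, hB, hH⟩ := mem_evt.1 hω
    obtain ⟨a1, a2⟩ := down_sum hRT (hv ω) hB
    rw [sum_sigma]
    have a3 : n * ∑ y ∈ dn ω.1 (hull (rel ω) (v ω) k), (sub ω.1 y).card ≤
        2 * ∑ y ∈ dn ω.1 (hull (rel ω) (v ω) k), ∑ _x ∈ univ \ sub ω.1 y, (sub ω.1 y).card := by
      rw [mul_sum, mul_sum]
      refine sum_le_sum fun y hy => ?_
      rw [sum_const, smul_eq_mul, card_univ_sdiff, ← mul_assoc]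
      refine Nat.mul_le_mul_right _ ?_
      have := a1 y hy
      omega
    have a4 := hH (v ω)
    have a5 : n ≤ 4 * ∑ y ∈ dn ω.1 (hull (rel ω) (v ω) k), (sub ω.1 y).card := by omega
    have a6 := Nat.mul_le_mul_left n a5
    linarith only [a3, a6]
  have h2 : ∑ e ∈ S, (sub e.1.1 e.2.1).card ≤ ∑ e ∈ T, (sub e.1.1 e.2.1).card := by
    classical
    refine cutcount_inj (fun e => ⟨mv e.1 e.2.1 e.2.2 (e.1.2 e.2.1), e.2.1, e.1.1 e.2.1⟩) ?_ ?_ ?_
    · rintro ⟨ω, y, x⟩ _ ⟨ω', y', x'⟩ _ he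
      simp only [Sigma.mk.injEq, heq_eq_eq] at he
      obtain ⟨e1, rfl, e3⟩ := he
      have e4 : ω.2 y = ω'.2 y := by rw [← mv_bit ω y x (ω.2 y), e1, mv_bit]
      have e5 : x = x' := by rw [← mv_par ω y x (ω.2 y), e1, mv_par]
      have e6 : ω = ω' := by rw [← mv_mv ω y x (ω.2 y), e1, e3, e4, mv_mv]
      rw [e5, e6]
    · intro e' he'
      obtain ⟨⟨ω, y, x⟩, he, rfl⟩ := mem_image.1 he'
      simp only [hS, mem_sigma, mem_sdiff, mem_univ, true_and] at he
      obtain ⟨hω, hy, hx⟩ := he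
      obtain ⟨hRT, hU, _, hH⟩ := mem_evt.1 hω
      obtain ⟨hy1, hy2⟩ := mem_dn.1 hy
      simp only [hT, mem_sigma, mem_univ, true_and]
      refine ⟨mem_OmF.2 (update_RT hRT (fun e => hy1 (e ▸ hy2)) hx), ?_⟩
      rw [relX_mv, cutcount_eq (top_nonempty k) (cut_top hU (hv ω) hy1) (hH _)]
      exact hy2
    · rintro ⟨ω, y, x⟩ _
      simp only [mv_fst, sub_update, le_refl]
  have h3 : ∑ e ∈ T, (sub e.1.1 e.2.1).card ≤ M * ∑ ω ∈ OmF V, ∑ y, (sub ω.1 y).card := by
    rw [hT, sum_sigma, mul_sum]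
    refine sum_le_sum fun ω _ => ?_
    rw [sum_sigma, mul_sum]
    refine sum_le_sum fun y _ => ?_
    dsimp only
    rw [sum_const, smul_eq_mul]
    exact Nat.mul_le_mul_right _ (cutcount_card _ _ _)
  calc _ ≤ _ := h1
    _ ≤ 8 * (M * ∑ ω ∈ OmF V, ∑ y, (sub ω.1 y).card) := Nat.mul_le_mul_left _ (h2.trans h3)
    _ = _ := by ring

end Pool.Agent.Work.MP_be9894_co.AA
end

-- merged part: Pool.Agent.Work.MP_be9894_co.AA.BSub
section
/-!
The number of subtrees of a given size.

`card_OmF`: `pitman_OmF`, `pitman_closed`, `FF_top` (see the proof of `pitman`).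
`sub_count`: for a fixed set `S` with `j` elements, the pairs `(ω, y)` with `sub ω.1 y = S` inject into `OmF ↥S × OmF ↥Sᶜ × ↥Sᶜ`: restrict `update ω.1 y y` to `S` (a tree rooted at `y`:
`sub_up`), restrict `ω.1` to the complement (`sub_down`; the root lies there because `j < n`), and record `ω.1 y` (`par_not_mem_sub`); the bits restrict.  `y` is the fixed point of the
first map.  Sum over `S ∈ powersetCard j univ`.
-/

set_option autoImplicit false

namespace Pool.Agent.Work.MP_be9894_co.AA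

open Finset

variable {V : Type} [Fintype V] [DecidableEq V]

theorem card_OmF (hn : 0 < Fintype.card V) :
    (OmF V).card = Fintype.card V ^ (Fintype.card V - 1) * 2 ^ Fintype.card V := by
  have h6 := pitman_closed (∅ : Finset V) id (Fintype.card V - 1) 0 (by rw [card_empty]; omega)
  have h7 : (FF (∅ : Finset V) id (Fintype.card V - (∅ : Finset V).card)).card = 1 :=
    le_antisymm (FF_top _ _) (card_pos.2 ⟨id, pitman_mem.2
      ⟨fun u => ⟨0, rfl⟩, by simp, fun y hy => absurd hy (notMem_empty y)⟩⟩)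
  rw [zero_add, Nat.choose_zero_right, mul_one, h7, one_mul] at h6
  rw [pitman_OmF id, h6]

omit [Fintype V] [DecidableEq V] in
lemma bsub_res {q : V → V} {S : Finset V} (h : ∀ u ∈ S, q u ∈ S) {ρ : V} (hρ : ρ ∈ S)
    (h1 : q ρ = ρ) (h2 : ∀ u ∈ S, ∃ k, q^[k] u = ρ) :
    IsRT fun u : S => (⟨q u, h u u.2⟩ : S) := by
  refine ⟨⟨ρ, hρ⟩, Subtype.ext h1, fun u => (h2 u u.2).imp fun k hk => Subtype.ext ?_⟩
  exact (Function.Semiconj.iterate_right (f := Subtype.val)
    (ga := fun u : S => (⟨q u, h u u.2⟩ : S)) (gb := q) (fun _ => rfl) k u).trans hk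

lemma bsub_fib {S : Finset V} (h2 : S.card < Fintype.card V) (s : Finset (Σ _ : Om V, V))
    (hs : ∀ a ∈ s, IsRT a.1.1 ∧ sub a.1.1 a.2 = S) :
    s.card ≤ (OmF S).card * ((OmF (Sᶜ : Finset V)).card * Fintype.card (Sᶜ : Finset V)) := by
  rw [← card_univ, ← card_product, ← card_product]
  refine card_le_card_of_forall_subsingleton (fun a c =>
    (∃ h : a.2 ∈ S, c.1.1 ⟨a.2, h⟩ = ⟨a.2, h⟩) ∧ a.1.1 a.2 = c.2.2 ∧
      (∀ u : S, (u.1 ≠ a.2 → a.1.1 u = c.1.1 u) ∧ a.1.2 u = c.1.2 u) ∧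
      ∀ u : (Sᶜ : Finset V), a.1.1 u = c.2.1.1 u ∧ a.1.2 u = c.2.1.2 u) ?_ ?_
  · rintro ⟨⟨p, b⟩, y⟩ ha
    obtain ⟨hp, rfl⟩ := hs _ ha
    dsimp only at hp h2 ⊢
    obtain ⟨ρ, k1, k2⟩ := id hp
    have hρ : ρ ∉ sub p y := fun k => by
      obtain ⟨l, hl⟩ := mem_sub.1 k
      rw [Function.iterate_fixed k1] at hl
      rw [eq_univ_of_forall fun u => mem_sub.2 (hl ▸ k2 u), card_univ] at h2
      exact lt_irrefl _ h2
    have hy : p y ≠ y := fun e => hρ (hp.fix_eq e k1 ▸ self_mem_sub p y)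
    have a1 : ∀ u ∈ sub p y, Function.update p y y u ∈ sub p y := fun u hu => by
      by_cases e : u = y
      · rw [e, Function.update_self]
        exact self_mem_sub p y
      · rw [Function.update_of_ne e]
        exact sub_up hu e
    have a2 : ∀ u ∈ (sub p y)ᶜ, p u ∈ (sub p y)ᶜ := fun u hu =>
      mem_compl.2 fun k => mem_compl.1 hu (sub_down k)
    exact ⟨((fun u => ⟨_, a1 u u.2⟩, fun u => b u), (fun u => ⟨_, a2 u u.2⟩, fun u => b u),
      ⟨p y, mem_compl.2 (par_not_mem_sub hp hy)⟩), mem_product.2 ⟨mem_OmF.2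
        (bsub_res a1 (self_mem_sub p y) (Function.update_self ..) fun u hu =>
          mem_sub.1 (by rwa [sub_update])), mem_product.2 ⟨mem_OmF.2
        (bsub_res a2 (mem_compl.2 hρ) k1 fun u _ => k2 u), mem_univ _⟩⟩,
      ⟨self_mem_sub p y, Subtype.ext (Function.update_self ..)⟩, rfl,
      fun u => ⟨fun e => (Function.update_of_ne e _ _).symm, rfl⟩, fun u => ⟨rfl, rfl⟩⟩
  · rintro c hc ⟨ω, y⟩ ⟨-, ⟨hy, a1⟩, a2, a3, a4⟩ ⟨ω', y'⟩ ⟨-, ⟨hy', b1⟩, b2, b3, b4⟩
    obtain rfl : y = y' := congrArg Subtype.val ((mem_OmF.1 (mem_product.1 hc).1).fix_eq a1 b1)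
    have key : ∀ u, ω.1 u = ω'.1 u ∧ ω.2 u = ω'.2 u := fun u => by
      by_cases hu : u ∈ S
      · refine ⟨?_, (a3 ⟨u, hu⟩).2.trans (b3 ⟨u, hu⟩).2.symm⟩
        by_cases e : u = y
        · exact e ▸ a2.trans b2.symm
        · exact ((a3 ⟨u, hu⟩).1 e).trans ((b3 ⟨u, hu⟩).1 e).symm
      · have hu' := mem_compl.2 hu
        exact ⟨(a4 ⟨u, hu'⟩).1.trans (b4 ⟨u, hu'⟩).1.symm, (a4 ⟨u, hu'⟩).2.trans (b4 ⟨u, hu'⟩).2.symm⟩
    rw [show ω = ω' from Prod.ext (funext fun u => (key u).1) (funext fun u => (key u).2)]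

theorem sub_count {j : ℕ} (h1 : 1 ≤ j) (h2 : j < Fintype.card V) :
    ∑ ω ∈ OmF V, (univ.filter fun y => (sub ω.1 y).card = j).card ≤
      (Fintype.card V).choose j * j ^ (j - 1) * (Fintype.card V - j) ^ (Fintype.card V - j) * 2 ^ Fintype.card V := by
  rw [← card_sigma]
  refine (card_le_mul_card_image_of_maps_to (f := fun a : Σ _ : Om V, V => sub a.1.1 a.2)
    (t := powersetCard j univ) (fun a ha => ?_)
    (j ^ (j - 1) * (Fintype.card V - j) ^ (Fintype.card V - j) * 2 ^ Fintype.card V)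
    fun S hS => ?_).trans_eq ?_
  · have := mem_filter.1 (mem_sigma.1 ha).2
    exact mem_powersetCard.2 ⟨subset_univ _, this.2⟩
  · obtain rfl := (mem_powersetCard.1 hS).2
    refine (bsub_fib h2 _ fun a ha => ⟨mem_OmF.1 (mem_sigma.1 (mem_filter.1 ha).1).1,
      (mem_filter.1 ha).2⟩).trans_eq ?_
    have e : Fintype.card (Sᶜ : Finset V) = Fintype.card V - S.card := by
      rw [Fintype.card_coe, card_compl]
    rw [card_OmF (by rwa [Fintype.card_coe]), card_OmF (by omega), e, Fintype.card_coe]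
    obtain ⟨d, hd⟩ := Nat.exists_eq_add_of_lt h2
    rw [hd, add_assoc, Nat.add_sub_cancel_left, Nat.add_sub_cancel]
    ring
  · rw [card_powersetCard, card_univ]
    ring

end Pool.Agent.Work.MP_be9894_co.AA
end

-- merged part: Pool.Agent.Work.MP_be9894_co.AA.BStir
section
/-!
Real analysis for the subtree weights.

`stir`: `n! ≤ e √n (n/e)^n` (`Stirling.stirlingSeq` is antitone from `1` on, `Stirling.stirlingSeq_one`) and `√(2 π j) (j/e)^j ≤ j!` (`Stirling.le_factorial_stirling`), with `e ≤ 2 π`.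
`wt_sum`: the term is `n √n min j t / (t j √j (n-j) √(n-j))` when `j + t < n`.  For `2 j ≤ n` it is at most `3 min j t / (t j √j)`, for `n < 2 j` at most `3 / (i √i)` with `i = n - j > t`.
Telescoping: `1 / √j ≤ 2 (√j - √(j-1))` and `1 / (j √j) ≤ 2 (1 / √(j-1) - 1 / √j)`, so the three sums are at most `6 / √t` each.
-/

set_option autoImplicit false

namespace Pool.Agent.Work.MP_be9894_co.AA

open Finset

lemma bstir_up {n : ℕ} (h : 1 ≤ n) :
    (n.factorial : ℝ) ≤ Real.exp 1 * √n * (n / Real.exp 1) ^ n := by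
  obtain ⟨m, rfl⟩ : ∃ m, n = m + 1 := ⟨n - 1, by omega⟩
  have h1 : Stirling.stirlingSeq (m + 1) ≤ Stirling.stirlingSeq 1 :=
    Stirling.stirlingSeq'_antitone (Nat.zero_le m)
  have h2 : (0 : ℝ) < √2 := by positivity
  rw [Stirling.stirlingSeq_one, Stirling.stirlingSeq, div_le_iff₀ (by positivity),
    Real.sqrt_mul (by norm_num)] at h1
  refine h1.trans_eq ?_
  field_simp

lemma stir {n j : ℕ} (h1 : 1 ≤ j) (h2 : j < n) :
    (n.choose j : ℝ) * (j : ℝ) ^ j * ((n - j : ℕ) : ℝ) ^ (n - j) * (√j * √((n - j : ℕ) : ℝ)) ≤ √n * (n : ℝ) ^ n := by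
  obtain ⟨i, rfl⟩ : ∃ i, n = j + i := ⟨n - j, by omega⟩
  rw [Nat.add_sub_cancel_left]
  have a1 := Stirling.le_factorial_stirling j
  have a2 := Stirling.le_factorial_stirling i
  have a3 := bstir_up (n := j + i) (by omega)
  have a4 : ((j + i).choose j : ℝ) * (j.factorial * i.factorial) = (j + i).factorial := by
    have := Nat.choose_mul_factorial_mul_factorial (Nat.le_add_right j i)
    rw [Nat.add_sub_cancel_left, mul_assoc] at this
    exact_mod_cast this
  have p0 : (0 : ℝ) ≤ 2 * Real.pi := by positivity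
  have e0 := Real.exp_pos 1
  have e1 : Real.exp 1 ≤ 2 * Real.pi := by linarith only [Real.exp_one_lt_three, Real.pi_gt_three]
  rw [Real.sqrt_mul p0] at a1 a2
  have a5 : ((j + i).choose j : ℝ) * ((√(2 * Real.pi) * √j * (j / Real.exp 1) ^ j) *
      (√(2 * Real.pi) * √i * (i / Real.exp 1) ^ i)) ≤
      2 * Real.pi * √(j + i : ℕ) * ((j + i : ℕ) / Real.exp 1) ^ (j + i) := by
    refine le_trans (by gcongr) (a4.trans_le (a3.trans ?_))
    gcongr
  have a6 : √(2 * Real.pi) * √(2 * Real.pi) = 2 * Real.pi := Real.mul_self_sqrt p0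
  refine le_of_mul_le_mul_left ?_
    (show 0 < 2 * Real.pi / (Real.exp 1 ^ j * Real.exp 1 ^ i) by positivity)
  refine le_of_eq_of_le ?_ (a5.trans_eq ?_)
  · rw [div_pow, div_pow]
    nth_rewrite 1 [← a6]
    ring
  · rw [div_pow, pow_add (Real.exp 1)]
    ring

/-- weight of a move of a subtree with `j` vertices -/
noncomputable def wtS (n t j : ℕ) : ℝ := if j + t < n then ((min j t : ℕ) : ℝ) / (t * ((n - j : ℕ) : ℝ)) else 0

lemma wtS_nonneg (n t j : ℕ) : 0 ≤ wtS n t j := by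
  unfold wtS
  split_ifs
  · positivity
  · exact le_rfl

lemma bstir_a (m : ℕ) : ∑ j ∈ range (m + 1), 1 / √(j : ℝ) ≤ 2 * √m := by
  induction m with
  | zero => simp
  | succ m ih =>
    rw [sum_range_succ]
    have h1 : (0 : ℝ) < √(m + 1 : ℕ) := by positivity
    have h2 : √(m + 1 : ℕ) * √(m + 1 : ℕ) = m + 1 := by
      rw [Real.mul_self_sqrt (Nat.cast_nonneg _), Nat.cast_succ]
    have h3 : √m * √m = (m : ℝ) := Real.mul_self_sqrt (Nat.cast_nonneg _)
    have h4 : 1 / √(m + 1 : ℕ) ≤ 2 * √(m + 1 : ℕ) - 2 * √m := by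
      rw [div_le_iff₀ h1]
      linarith only [h2, h3, sq_nonneg (√(m + 1 : ℕ) - √m), sq_nonneg (√↑(m + (1 : ℕ)) - √↑m)]
    linarith only [ih, h4]

/-- the tail weight -/
noncomputable def bstir_h (t j : ℕ) : ℝ := if t < j then 1 / (j * √j) else 0

lemma bstir_h0 (t j : ℕ) : 0 ≤ bstir_h t j := by
  unfold bstir_h
  split_ifs
  · positivity
  · exact le_rfl

lemma bstir_step {a b : ℝ} (ha : 0 < a) (hb : 0 < b) (h : b * b = a * a + 1) :
    1 / (b * b * b) ≤ 2 / a - 2 / b := by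
  have h1 : a ≤ b := by (refine le_of_not_gt fun h_nl => ?_; linarith only [h_nl, h, ha, hb, mul_pos_of_neg_of_neg (Mathlib.Tactic.Linarith.sub_neg_of_lt ha) (Mathlib.Tactic.Linarith.sub_neg_of_lt h_nl), mul_pos_of_neg_of_neg (Mathlib.Tactic.Linarith.sub_neg_of_lt hb) (Mathlib.Tactic.Linarith.sub_neg_of_lt h_nl)])
  rw [div_sub_div _ _ ha.ne' hb.ne', div_le_div_iff₀ (by positivity) (by positivity)]
  have h2 : (b - a) * (a + b) = 1 := by linarith
  have h3 : a * (a + b) ≤ b * (b + b) := by gcongr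
  have h4 := mul_le_mul_of_nonneg_left h3 (mul_nonneg hb.le (sub_nonneg.2 h1))
  calc 1 * (a * b) = a * b * ((b - a) * (a + b)) := by rw [h2]; ring
    _ = b * (b - a) * (a * (a + b)) := by ring
    _ ≤ b * (b - a) * (b * (b + b)) := h4
    _ = _ := by ring

lemma bstir_b {t : ℕ} (ht : 0 < t) (m : ℕ) :
    ∑ j ∈ range (t + m + 1), bstir_h t j ≤ 2 / √t - 2 / √(t + m : ℕ) := by
  induction m with
  | zero =>
    simp only [Nat.add_zero, sub_self]
    exact (sum_eq_zero fun j hj => if_neg (by have := mem_range.1 hj; omega)).le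
  | succ m ih =>
    rw [← Nat.add_assoc, sum_range_succ, bstir_h, if_pos (by omega)]
    have h2 : √(t + m + 1 : ℕ) * √(t + m + 1 : ℕ) = (t + m + 1 : ℕ) :=
      Real.mul_self_sqrt (Nat.cast_nonneg _)
    have h4 := bstir_step (a := √(t + m : ℕ)) (b := √(t + m + 1 : ℕ)) (by positivity)
      (by positivity) (by rw [h2, Real.mul_self_sqrt (Nat.cast_nonneg _), Nat.cast_succ])
    rw [h2] at h4
    linarith only [ih, h4]

lemma bstir_c {t : ℕ} (ht : 0 < t) (n : ℕ) : ∑ j ∈ Ico 1 n, bstir_h t j ≤ 2 / √t := by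
  refine (sum_le_sum_of_subset_of_nonneg (fun j hj => mem_range.2 ?_)
    fun j _ _ => bstir_h0 t j).trans ((bstir_b ht n).trans (sub_le_self _ (by positivity)))
  have := mem_Ico.1 hj
  omega

lemma bstir_three {n i : ℕ} (h : n ≤ 2 * i) : (n : ℝ) * √n ≤ 3 * (i * √i) := by
  have h1 : (n : ℝ) ≤ 2 * i := by exact_mod_cast h
  have h0 : (0 : ℝ) ≤ i := Nat.cast_nonneg _
  have h2 : √n ≤ 3 / 2 * √i := by
    refine Real.sqrt_le_iff.2 ⟨by positivity, ?_⟩
    rw [mul_pow, Real.sq_sqrt h0]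
    linarith only [h1]
  calc (n : ℝ) * √n ≤ 2 * i * (3 / 2 * √i) := by gcongr
    _ = _ := by ring

lemma bstir_term {n t j : ℕ} (ht : 0 < t) (h1 : 1 ≤ j) (h2 : j < n) :
    (n : ℝ) * √n / (j * √j * √((n - j : ℕ) : ℝ)) * wtS n t j ≤
      3 / t * (if j ≤ t then 1 / √(j : ℝ) else 0) + 3 * bstir_h t j + 3 * bstir_h t (n - j) := by
  have a1 := bstir_h0 t j
  have a2 := bstir_h0 t (n - j)
  have a3 : 0 ≤ 3 / (t : ℝ) * (if j ≤ t then 1 / √(j : ℝ) else 0) := by
    split_ifs <;> positivity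
  have hi : 0 < n - j := by omega
  unfold wtS
  by_cases h : j + t < n
  swap
  · rw [if_neg h, mul_zero]
    linarith only [a1, a2, a3]
  rw [if_pos h]
  rcases le_total (2 * j) n with k | k
  · have b1 := bstir_three (n := n) (i := n - j) (by omega)
    have b2 : (n : ℝ) * √n / (j * √j * √((n - j : ℕ) : ℝ)) *
        (((min j t : ℕ) : ℝ) / (t * ((n - j : ℕ) : ℝ))) ≤
        3 * ((min j t : ℕ) : ℝ) / (t * (j * √j)) := by
      refine (mul_le_mul_of_nonneg_right (div_le_div_of_nonneg_right b1 (by positivity))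
        (by positivity)).trans_eq ?_
      field_simp
    refine b2.trans ?_
    rcases le_or_gt j t with e | e
    · have : 3 * (j : ℝ) / (t * (j * √j)) = 3 / t * (1 / √(j : ℝ)) := by field_simp
      rw [min_eq_left e, if_pos e, this]
      linarith only [a1, a2]
    · have : 3 * (t : ℝ) / (t * (j * √j)) = 3 * bstir_h t j := by
        rw [bstir_h, if_pos e]
        field_simp
      rw [min_eq_right e.le, this]
      linarith only [a2, a3]
  · have b1 := bstir_three k
    have b3 : ((min j t : ℕ) : ℝ) ≤ t := by exact_mod_cast min_le_right j t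
    have b2 : (n : ℝ) * √n / (j * √j * √((n - j : ℕ) : ℝ)) *
        (((min j t : ℕ) : ℝ) / (t * ((n - j : ℕ) : ℝ))) ≤ 3 * bstir_h t (n - j) := by
      rw [bstir_h, if_pos (by omega)]
      refine (mul_le_mul (div_le_div_of_nonneg_right b1 (by positivity))
        (div_le_div_of_nonneg_right b3 (by positivity)) (by positivity) (by positivity)).trans_eq ?_
      field_simp
    linarith only [a1, a3, b2]

lemma wt_sum (n t : ℕ) (ht : 0 < t) :
    ∑ j ∈ Ico 1 n, (n : ℝ) * √n / (j * √j * √((n - j : ℕ) : ℝ)) * wtS n t j ≤ 18 / √t := by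
  refine (sum_le_sum fun j hj => bstir_term ht (mem_Ico.1 hj).1 (mem_Ico.1 hj).2).trans ?_
  have a1 := bstir_c ht n
  have a2 : ∑ j ∈ Ico 1 n, bstir_h t (n - j) = ∑ j ∈ Ico 1 n, bstir_h t j :=
    sum_nbij' (fun j => n - j) (fun j => n - j)
      (fun j hj => mem_Ico.2 (by have := mem_Ico.1 hj; omega))
      (fun j hj => mem_Ico.2 (by have := mem_Ico.1 hj; omega))
      (fun j hj => by have := mem_Ico.1 hj; show n - (n - j) = j; omega)
      (fun j hj => by have := mem_Ico.1 hj; show n - (n - j) = j; omega) fun _ _ => rfl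
  have a3 : ∑ j ∈ Ico 1 n, (if j ≤ t then 1 / √(j : ℝ) else 0) ≤ 2 * √t := by
    rw [← sum_filter]
    exact (sum_le_sum_of_subset_of_nonneg
      (fun j hj => mem_range.2 (Nat.lt_succ_of_le (mem_filter.1 hj).2))
      fun j _ _ => by positivity).trans (bstir_a t)
  have a4 : 3 / (t : ℝ) * (2 * √t) = 6 / √t := by
    have h : √t * √t = (t : ℝ) := Real.mul_self_sqrt (Nat.cast_nonneg _)
    have h0 : (0 : ℝ) < √t := by positivity
    nth_rewrite 1 [← h]
    field_simp
    norm_num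
  have a5 := mul_le_mul_of_nonneg_left a3 (show 0 ≤ 3 / (t : ℝ) by positivity)
  rw [sum_add_distrib, sum_add_distrib, ← mul_sum, ← mul_sum, ← mul_sum, a2]
  calc _ ≤ 6 / √t + 3 * (2 / √t) + 3 * (2 / √t) := by linarith only [a1, a4, a5]
    _ = _ := by ring

end Pool.Agent.Work.MP_be9894_co.AA
end

-- merged part: Pool.Agent.Work.MP_be9894_co.AA.BCut
section
/-!
The component outside the best hull misses few vertices.

`down_sum2`: as `down_sum` in `Cut.lean` (`cut_chain`, `cut_sub_iter`, `sub_disj`).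
`cut_count2`: as `cut_count` in `CutCount.lean` (`cutcount_cand`, `cutcount_eq`), with the real weight `wtS n t (card (sub y))` for the move `(ω, y, x)`.  For fixed `ω, y` the `n - card (sub y)` moves have total
weight `min (card (sub y)) t / t`, and these add up to at least `1 / 2` over `y ∈ dn`.
`wt_total`: group the vertices `y` by `j = card (sub y)` (`1 ≤ j`; the weight vanishes unless `j < n`); `sub_count`, `card_OmF`, `stir`, `wt_sum`.
-/

set_option autoImplicit false

namespace Pool.Agent.Work.MP_be9894_co.AA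

open Finset

variable {V : Type} [Fintype V]

/-- every component outside a best hull misses more than `t` vertices -/
def NB (r : V → V → Prop) (K t : ℕ) : Prop :=
  ∀ v ∈ top r K, ∀ u, u ∉ hull r v K → (comp r (hull r v K) u).card + t < Fintype.card V

lemma down_sum2 {ω : Om V} (h : IsRT ω.1) {v : V} {K t : ℕ} (ht : t ≤ Fintype.card V) (hv : v ∈ top (rel ω) K)
    (hB : NB (rel ω) K t) :
    (∀ y ∈ dn ω.1 (hull (rel ω) v K), (sub ω.1 y).card + t < Fintype.card V) ∧
      t ≤ (hull (rel ω) v K).card + ∑ y ∈ dn ω.1 (hull (rel ω) v K), (sub ω.1 y).card := by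
  classical
  set H := hull (rel ω) v K with hH
  have hc : ∀ u, u ∉ H → (comp (rel ω) H u).card + t < Fintype.card V := hB v hv
  refine ⟨fun y hy => ?_, ?_⟩
  · have hs : sub ω.1 y ⊆ comp (rel ω) H y := by
      intro u hu
      obtain ⟨j, h1, h2⟩ := cut_sub_iter hu
      exact cut_chain j u h1 (fun i hi => sub_disj h hy (h2 i hi))
    have := card_le_card hs
    have := hc y (mem_dn.1 hy).1
    omega
  · obtain ⟨ρ, _, hρ⟩ := h
    have hcov : ∀ t, t ∈ H ∨ t ∈ (dn ω.1 H).biUnion (sub ω.1) ∨ (ρ ∉ H ∧ t ∈ comp (rel ω) H ρ) := by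
      intro t
      by_cases hex : ∃ j, ω.1^[j] t ∈ H
      · have hj := Nat.find_spec hex
        rcases hj0 : Nat.find hex with _ | j
        · rw [hj0] at hj
          exact Or.inl hj
        · refine Or.inr (Or.inl (mem_biUnion.2 ⟨ω.1^[j] t, mem_dn.2 ⟨Nat.find_min hex (by omega), ?_⟩,
            mem_sub.2 ⟨j, rfl⟩⟩))
          rw [hj0, Function.iterate_succ_apply'] at hj
          exact hj
      · push Not at hex
        obtain ⟨j, hj⟩ := hρ t
        exact Or.inr (Or.inr ⟨hj ▸ hex j, cut_chain j t hj (fun i _ => hex i)⟩)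
    have hb : ((dn ω.1 H).biUnion (sub ω.1)).card ≤ ∑ y ∈ dn ω.1 H, (sub ω.1 y).card := card_biUnion_le
    by_cases hρH : ρ ∈ H
    · have hs : (univ : Finset V) ⊆ H ∪ (dn ω.1 H).biUnion (sub ω.1) := by
        intro t _
        rcases hcov t with h1 | h1 | h1
        · exact mem_union_left _ h1
        · exact mem_union_right _ h1
        · exact absurd hρH h1.1
      have := le_trans (card_le_card hs) (card_union_le _ _)
      rw [card_univ] at this
      omega
    · have hs : (univ : Finset V) ⊆ (H ∪ (dn ω.1 H).biUnion (sub ω.1)) ∪ comp (rel ω) H ρ := by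
        intro t _
        rcases hcov t with h1 | h1 | h1
        · exact mem_union_left _ (mem_union_left _ h1)
        · exact mem_union_left _ (mem_union_right _ h1)
        · exact mem_union_right _ h1.2
      have a1 := le_trans (card_le_card hs) (card_union_le _ _)
      have a2 := card_union_le H ((dn ω.1 H).biUnion (sub ω.1))
      have a3 := hc ρ hρH
      rw [card_univ] at a1
      omega

omit [Fintype V] in
lemma bcut_min (S : Finset V) (f : V → ℕ) (t : ℕ) : min (∑ y ∈ S, f y) t ≤ ∑ y ∈ S, min (f y) t := by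
  classical
  induction S using Finset.induction_on with
  | empty => simp
  | insert a S ha ih =>
    rw [sum_insert ha, sum_insert ha]
    omega

lemma bcut_inj {α β : Type} [DecidableEq β] {S : Finset α} {T : Finset β} {f : α → ℝ} {g : β → ℝ} (φ : α → β)
    (h1 : Set.InjOn φ S) (h2 : S.image φ ⊆ T) (h3 : ∀ a ∈ S, f a ≤ g (φ a)) (h4 : ∀ b, 0 ≤ g b) :
    ∑ a ∈ S, f a ≤ ∑ b ∈ T, g b := by
  calc _ ≤ ∑ a ∈ S, g (φ a) := sum_le_sum h3
    _ = ∑ b ∈ S.image φ, g b := (sum_image h1).symm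
    _ ≤ _ := sum_le_sum_of_subset_of_nonneg h2 fun b _ _ => h4 b

variable [DecidableEq V]

lemma cut_count2 (K M t : ℕ) (h0 : 0 < t) (hM : 2 * M ≤ t) (ht : t ≤ Fintype.card V) :
    ((evt fun ω : Om V => Uniq (rel ω) K ∧ NB (rel ω) K t ∧ ∀ v, (hull (rel ω) v K).card ≤ M).card : ℝ) ≤
      2 * M * ∑ ω ∈ OmF V, ∑ y, wtS (Fintype.card V) t (sub ω.1 y).card := by
  set n := Fintype.card V with hn
  set E := evt fun ω : Om V => Uniq (rel ω) K ∧ NB (rel ω) K t ∧ ∀ v, (hull (rel ω) v K).card ≤ M with hE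
  rcases E.eq_empty_or_nonempty with h0 | ⟨ω0, hω0⟩
  · rw [h0, card_empty, Nat.cast_zero]
    exact mul_nonneg (by positivity) (sum_nonneg fun _ _ => sum_nonneg fun _ _ => wtS_nonneg _ _ _)
  have : Nonempty V := ⟨(mem_evt.1 hω0).1.choose⟩
  choose v hv using fun ω : Om V => top_nonempty (r := rel ω) K
  set S : Finset (Σ _ : Om V, Σ _ : V, V) :=
    E.sigma fun ω => (dn ω.1 (hull (rel ω) (v ω) K)).sigma fun y => univ \ sub ω.1 y with hS
  set T : Finset (Σ _ : Om V, Σ _ : V, V) :=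
    (OmF V).sigma fun ω => univ.sigma fun y => cutcount_cand K M (relX ω y) with hT
  have t0 : (0 : ℝ) < t := Nat.cast_pos.2 h0
  have h1 : (E.card : ℝ) ≤ 2 * ∑ e ∈ S, wtS n t (sub e.1.1 e.2.1).card := by
    rw [hS, sum_sigma, mul_sum]
    refine le_trans (by simp) (card_nsmul_le_sum E _ (1 : ℝ) ?_)
    intro ω hω
    obtain ⟨hRT, _, hB, hH⟩ := mem_evt.1 hω
    obtain ⟨a1, a2⟩ := down_sum2 hRT ht (hv ω) hB
    rw [sum_sigma]
    have a3 : ∑ y ∈ dn ω.1 (hull (rel ω) (v ω) K), ∑ _x ∈ univ \ sub ω.1 y, wtS n t (sub ω.1 y).card =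
        ((∑ y ∈ dn ω.1 (hull (rel ω) (v ω) K), min (sub ω.1 y).card t : ℕ) : ℝ) / t := by
      rw [Nat.cast_sum, sum_div]
      refine sum_congr rfl fun y hy => ?_
      have b1 := a1 y hy
      have b2 : (0 : ℝ) < ((n - (sub ω.1 y).card : ℕ) : ℝ) := Nat.cast_pos.2 (by omega)
      rw [sum_const, nsmul_eq_mul, card_univ_sdiff, wtS, if_pos b1, ← hn]
      field_simp
    have a4 := hH (v ω)
    have a5 := bcut_min (dn ω.1 (hull (rel ω) (v ω) K)) (fun y => (sub ω.1 y).card) t
    have a6 : t ≤ 2 * ∑ y ∈ dn ω.1 (hull (rel ω) (v ω) K), min (sub ω.1 y).card t := by omega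
    have a7 : (t : ℝ) ≤ 2 * ((∑ y ∈ dn ω.1 (hull (rel ω) (v ω) K), min (sub ω.1 y).card t : ℕ) : ℝ) := by
      exact_mod_cast a6
    dsimp only
    rw [a3, ← mul_div_assoc, le_div_iff₀ t0, one_mul]
    exact a7
  have h2 : ∑ e ∈ S, wtS n t (sub e.1.1 e.2.1).card ≤ ∑ e ∈ T, wtS n t (sub e.1.1 e.2.1).card := by
    classical
    refine bcut_inj (fun e => ⟨mv e.1 e.2.1 e.2.2 (e.1.2 e.2.1), e.2.1, e.1.1 e.2.1⟩) ?_ ?_ ?_
      fun _ => wtS_nonneg _ _ _
    · rintro ⟨ω, y, x⟩ _ ⟨ω', y', x'⟩ _ he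
      simp only [Sigma.mk.injEq, heq_eq_eq] at he
      obtain ⟨e1, rfl, e3⟩ := he
      have e4 : ω.2 y = ω'.2 y := by rw [← mv_bit ω y x (ω.2 y), e1, mv_bit]
      have e5 : x = x' := by rw [← mv_par ω y x (ω.2 y), e1, mv_par]
      have e6 : ω = ω' := by rw [← mv_mv ω y x (ω.2 y), e1, e3, e4, mv_mv]
      rw [e5, e6]
    · intro e' he'
      obtain ⟨⟨ω, y, x⟩, he, rfl⟩ := mem_image.1 he'
      simp only [hS, mem_sigma, mem_sdiff, mem_univ, true_and] at he
      obtain ⟨hω, hy, hx⟩ := he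
      obtain ⟨hRT, hU, _, hH⟩ := mem_evt.1 hω
      obtain ⟨hy1, hy2⟩ := mem_dn.1 hy
      simp only [hT, mem_sigma, mem_univ, true_and]
      refine ⟨mem_OmF.2 (update_RT hRT (fun e => hy1 (e ▸ hy2)) hx), ?_⟩
      rw [relX_mv, cutcount_eq (top_nonempty K) (cut_top hU (hv ω) hy1) (hH _)]
      exact hy2
    · rintro ⟨ω, y, x⟩ _
      simp only [mv_fst, sub_update, le_refl]
  have h3 : ∑ e ∈ T, wtS n t (sub e.1.1 e.2.1).card ≤
      M * ∑ ω ∈ OmF V, ∑ y, wtS n t (sub ω.1 y).card := by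
    rw [hT, sum_sigma, mul_sum]
    refine sum_le_sum fun ω _ => ?_
    rw [sum_sigma, mul_sum]
    refine sum_le_sum fun y _ => ?_
    dsimp only
    rw [sum_const, nsmul_eq_mul]
    exact mul_le_mul_of_nonneg_right (Nat.cast_le.2 (cutcount_card _ _ _)) (wtS_nonneg _ _ _)
  linarith only [h1, h2, h3]

lemma bcut_split (n t c : ℕ) : wtS n t c = ∑ j ∈ Ico 1 n, if c = j then wtS n t j else 0 := by
  rw [sum_ite_eq]
  split_ifs with h
  · rfl
  · rw [mem_Ico] at h
    unfold wtS
    split_ifs with h1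
    · have : c = 0 := by omega
      simp [this]
    · rfl

lemma wt_total (t : ℕ) (h0 : 0 < t) :
    ∑ ω ∈ OmF V, ∑ y, wtS (Fintype.card V) t (sub ω.1 y).card ≤ 18 / √t * (OmF V).card := by
  set n := Fintype.card V with hn
  have e1 : ∑ ω ∈ OmF V, ∑ y, wtS n t (sub ω.1 y).card =
      ∑ j ∈ Ico 1 n, ((∑ ω ∈ OmF V, (univ.filter fun y => (sub ω.1 y).card = j).card : ℕ) : ℝ) * wtS n t j := by
    simp only [Nat.cast_sum, sum_mul]
    rw [sum_comm (s := Ico 1 n)]
    refine sum_congr rfl fun ω _ => ?_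
    rw [sum_congr rfl fun y _ => bcut_split n t (sub ω.1 y).card, sum_comm]
    refine sum_congr rfl fun j _ => ?_
    rw [← sum_filter, sum_const, nsmul_eq_mul]
  rw [e1]
  refine le_trans (sum_le_sum fun j hj => ?_) ((sum_mul _ _ _).symm.trans_le
    (mul_le_mul_of_nonneg_right (wt_sum n t h0) (Nat.cast_nonneg _)))
  obtain ⟨j1, j2⟩ := mem_Ico.1 hj
  rw [mul_right_comm]
  refine mul_le_mul_of_nonneg_right ?_ (wtS_nonneg _ _ _)
  have a1 : ((∑ ω ∈ OmF V, (univ.filter fun y => (sub ω.1 y).card = j).card : ℕ) : ℝ) ≤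
      (n.choose j : ℝ) * (j : ℝ) ^ (j - 1) * ((n - j : ℕ) : ℝ) ^ (n - j) * 2 ^ n := by
    exact_mod_cast sub_count (V := V) j1 j2
  have a2 := stir j1 j2
  have a3 : ((OmF V).card : ℝ) = (n : ℝ) ^ (n - 1) * 2 ^ n := by
    exact_mod_cast card_OmF (V := V) (by omega)
  have b1 : (0 : ℝ) < j := Nat.cast_pos.2 j1
  have b2 : (0 : ℝ) < ((n - j : ℕ) : ℝ) := Nat.cast_pos.2 (by omega)
  have b3 : (j : ℝ) ^ j = j * (j : ℝ) ^ (j - 1) := by
    rw [← pow_succ', Nat.sub_add_cancel j1]
  have b4 : (n : ℝ) ^ n = n * (n : ℝ) ^ (n - 1) := by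
    rw [← pow_succ', Nat.sub_add_cancel (by omega)]
  rw [b3, b4] at a2
  refine a1.trans ?_
  rw [a3, ← mul_assoc, div_mul_eq_mul_div]
  refine mul_le_mul_of_nonneg_right ?_ (by positivity)
  rw [le_div_iff₀ (by positivity)]
  linarith only [a2]

end Pool.Agent.Work.MP_be9894_co.AA
end

-- merged part: Pool.Agent.Work.MP_be9894_co.AA.Stage
section
/-!
The greedy stages on the algebra side.

`inH_par`: `inH_cut` with `S` the complement of `side (dt v u)` (use `side_compl`, `adj_cases`; an edge leaving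
`side (dt v u)` is the edge from `u` to its parent: show `w ∈ side (dt v u) ↔ w = u ∨ (w ≠ v ∧ par v w ∈ side (dt v u))`).

`stage_zero`, `stage_succ`: apply `BS.top_coeff` with `τ = tp false i`, `G d :=` (`i = 0` and `d = (v, none)`) or
`d = dt v u` with `u ≠ v`, `u` in `hull i` and in no earlier hull; `cnt d = ((side d).filter (· ∈ hull i)).card`,
`bdp d = ∏ w ∈ (side d).filter (· ∈ bd v i), yh (dt v w)`.  The recursions follow from `prod_side`, `sum_side`:
a child `c = dt v t` of type `τ` is again good; for a child of the other type, `side c` misses `hull i` and meets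
`bd v i` only in `t`.  For `stage_succ` the complement of `hull j` is the disjoint union of the sides `dt v u`,
`u ∈ bd v j` (`side_cover`), all of type `tp false (j+1)` and good for `i = j + 1`.
-/

set_option autoImplicit false

namespace Pool.Agent.Work.MP_be9894_co.AA

open Finset Polynomial

namespace OT

variable {V : Type} [Fintype V] (T : OT V)

/-- If not, `t = par w' u` is a child of `u` for the root `w` (`adj_cases`), `t ≠ w'`, and `t` is again a counterexample
(`not_both`) with smaller `dep w'`. -/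
lemma par_adj {w w' u : V} (h : T.r w w' ∨ T.r w' w) (h1 : u ≠ w) (h2 : u ≠ w') : T.par w u = T.par w' u := by
  induction hn : T.dep w' u using Nat.strong_induction_on generalizing u with
  | _ n ih =>
    by_contra hne
    have hadj := T.adj_par w' u h2
    rcases T.adj_cases w hadj with ⟨_, h4⟩ | ⟨h3, h4⟩
    · exact hne h4
    · by_cases ht : T.par w' u = w'
      · rw [ht] at h4 h3
        rcases T.adj_cases w h with ⟨h5, _⟩ | ⟨_, h6⟩
        · exact h5 rfl
        · exact h1 (h4.symm.trans h6)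
      · have e := ih (T.dep w' (T.par w' u)) (by rw [← hn, T.dep_par w' u h2]; omega) h3 ht rfl
        exact T.not_both w' h2 rfl ht (e.symm.trans h4)

lemma mem_side_dt {v u w : V} (hu : u ≠ v) :
    w ∈ T.side (T.dt v u) ↔ w = u ∨ (w ≠ v ∧ T.par v w ∈ T.side (T.dt v u)) := by
  have hvnot : v ∉ T.side (T.dt v u) := by
    rw [T.mem_side]
    simp only [dt, not_not]
    exact ⟨hu, trivial⟩
  by_cases hwu : w = u
  · subst hwu
    exact ⟨fun _ => Or.inl rfl, fun _ => T.self_mem_side (T.dt v w)⟩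
  by_cases hwv : w = v
  · subst hwv
    exact ⟨fun h => absurd h hvnot, fun h => by
      rcases h with h | h
      · exact absurd h hwu
      · exact absurd rfl h.1⟩
  have hadj := T.adj_par v w hwv
  by_cases hp : T.par v w = u
  · refine ⟨fun _ => Or.inr ⟨hwv, ?_⟩, fun _ => ?_⟩
    · rw [hp]; exact T.self_mem_side (T.dt v u)
    · rw [T.mem_side]
      simp only [dt, Option.some.injEq, not_and]
      intro _ h2
      have h3 : T.par w u = w := by
        rw [hp] at hadj
        rcases T.adj_cases w hadj with ⟨h5, _⟩ | ⟨_, h6⟩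
        · exact absurd rfl h5
        · exact h6
      rw [h3] at h2
      exact T.not_both v hwv hp hu h2
  · have e : T.par w u = T.par (T.par v w) u := T.par_adj hadj (Ne.symm hwu) (Ne.symm hp)
    have key : w ∈ T.side (T.dt v u) ↔ T.par v w ∈ T.side (T.dt v u) := by
      rw [T.mem_side, T.mem_side]
      simp only [dt, Option.some.injEq, not_and]
      rw [e]
      constructor
      · intro h _; exact h (Ne.symm hwu)
      · intro h _; exact h (Ne.symm hp)
    rw [key]
    constructor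
    · intro h; exact Or.inr ⟨hwv, h⟩
    · rintro (h | h)
      · exact absurd h hwu
      · exact h.2

lemma ch_dt {v u : V} (hu : u ≠ v) {c : V × Option V} :
    c ∈ T.ch (T.dt v u) ↔ ∃ t, t ≠ v ∧ T.par v t = u ∧ c = T.dt v t := by
  rw [T.mem_ch]
  constructor
  · rintro ⟨h1, h2, h3⟩
    simp only [dt] at h1 h2 h3
    rcases T.adj_cases v h1 with ⟨h4, h5⟩ | ⟨_, h5⟩
    · refine ⟨c.1, h4, h5, ?_⟩
      ext1
      · rfl
      · simp only [dt, h5, h2]
    · exact absurd (by rw [h5]) h3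
  · rintro ⟨t, h1, h2, rfl⟩
    have hadj := T.adj_par v t h1
    rw [h2] at hadj
    refine ⟨hadj, by simp only [dt, h2], ?_⟩
    simp only [dt, ne_eq, Option.some.injEq]
    exact T.not_both v h1 h2 hu

lemma ch_root {v : V} {c : V × Option V} :
    c ∈ T.ch (v, none) ↔ ∃ t, t ≠ v ∧ T.par v t = v ∧ c = T.dt v t := by
  rw [T.mem_ch]
  constructor
  · rintro ⟨h1, h2, _⟩
    rcases T.adj_cases v h1 with ⟨h4, h5⟩ | ⟨h4, _⟩
    · refine ⟨c.1, h4, h5, ?_⟩
      ext1
      · rfl
      · simp only [dt] at h2 h5 ⊢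
        rw [h5, h2]
    · exact absurd rfl h4
  · rintro ⟨t, h1, h2, rfl⟩
    have hadj := T.adj_par v t h1
    rw [h2] at hadj
    exact ⟨hadj, by simp only [dt, h2], by simp⟩

lemma step_dt {v u : V} (hu : u ≠ v) (τ : Bool) : step T.r τ (T.par v u) u ↔ T.ty (T.dt v u) = τ := by
  have hadj := T.adj_par v u hu
  have ht := T.ty_some u (T.par v u)
  cases τ
  · simp only [step, dt, Bool.false_eq_true, if_false]
    rw [← Bool.not_eq_true, ht]
    constructor
    · intro h; exact T.asym _ _ h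
    · intro h; exact hadj.resolve_left h
  · simp only [step, dt, if_true]
    exact ht.symm

lemma inH_par {v u w : V} (hu : u ≠ v) (hw : w ∈ T.side (T.dt v u)) {j : ℕ} (h : inH T.r false v j w) :
    ∃ j' ≤ j, inH T.r false v j' (T.par v u) ∧ T.ty (T.dt v u) = tp false j' := by
  have hvnot : v ∉ T.side (T.dt v u) := by
    intro h
    rcases (T.mem_side_dt hu).1 h with h | h
    · exact hu h.symm
    · exact h.1 rfl
  have hS : ∀ a b, a ∈ {x | x ∉ T.side (T.dt v u)} → b ∉ {x | x ∉ T.side (T.dt v u)} →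
      (T.r a b ∨ T.r b a) → a = T.par v u ∧ b = u := by
    intro a b ha hb hab
    simp only [Set.mem_ofPred_eq, not_not] at ha hb
    rcases T.adj_cases v hab with ⟨h1, h2⟩ | ⟨h1, h2⟩
    · exact absurd ((T.mem_side_dt hu).2 (Or.inr ⟨h1, h2 ▸ hb⟩)) ha
    · rcases (T.mem_side_dt hu).1 hb with h3 | h3
      · subst h3; exact ⟨h2.symm, rfl⟩
      · rw [h2] at h3; exact absurd h3.2 ha
  obtain ⟨j', hj, h1, h2⟩ := inH_cut {x | x ∉ T.side (T.dt v u)} hS hvnot (by simpa using hw) h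
  exact ⟨j', hj, h1, (T.step_dt hu _).1 h2⟩

lemma bd_ty {v u : V} {j : ℕ} (h : u ∈ T.bd v j) : u ≠ v ∧ T.ty (T.dt v u) = tp false (j + 1) := by
  obtain ⟨h1, h2⟩ := T.mem_bd.1 h
  rw [mem_hull] at h1 h2
  have hu : u ≠ v := by
    rintro rfl
    exact h1 (inH_self _ _ _)
  refine ⟨hu, ?_⟩
  have h3 : T.ty (T.dt v u) ≠ tp false j := fun h3 => h1 (inH_step h2 ((T.step_dt hu _).2 h3))
  show T.ty (T.dt v u) = !tp false j
  revert h3
  cases T.ty (T.dt v u) <;> cases tp false j <;> simp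

lemma stage_bd_disj {v w u : V} {j : ℕ} (hu : u ∈ T.bd v j) (h : w ∈ T.side (T.dt v u)) :
    w ∉ hull T.r v j := by
  intro hw
  have hv := (T.bd_ty hu).1
  obtain ⟨j', hj, h1, h2⟩ := T.inH_par hv h (mem_hull.1 hw)
  exact (T.mem_bd.1 hu).1 (mem_hull.2 (inH_mono hj (inH_step h1 ((T.step_dt hv _).2 h2))))

lemma side_cover {v w : V} {j : ℕ} (h : w ∉ hull T.r v j) :
    ∃ u ∈ T.bd v j, w ∈ T.side (T.dt v u) := by
  revert h
  refine T.ind_down v (fun w => w ∉ hull T.r v j → ∃ u ∈ T.bd v j, w ∈ T.side (T.dt v u)) ?_ ?_ w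
  · intro h; exact absurd (mem_hull.2 (inH_self _ _ _)) h
  · intro w hw ih h
    by_cases hp : T.par v w ∈ hull T.r v j
    · exact ⟨w, T.mem_bd.2 ⟨h, hp⟩, T.self_mem_side (T.dt v w)⟩
    · obtain ⟨u, hu, hs⟩ := ih hp
      exact ⟨u, hu, (T.mem_side_dt (T.bd_ty hu).1).2 (Or.inr ⟨hw, hs⟩)⟩

lemma side_cover_unique {v w u u' : V} {j : ℕ} (hu : u ∈ T.bd v j) (hu' : u' ∈ T.bd v j)
    (h : w ∈ T.side (T.dt v u)) (h' : w ∈ T.side (T.dt v u')) : u = u' := by
  have hv := (T.bd_ty hu).1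
  have hv' := (T.bd_ty hu').1
  revert h h'
  refine T.ind_down v (fun w => w ∈ T.side (T.dt v u) → w ∈ T.side (T.dt v u') → u = u') ?_ ?_ w
  · intro h _
    rcases (T.mem_side_dt hv).1 h with h | h
    · exact absurd h.symm hv
    · exact absurd rfl h.1
  · intro w _ ih h h'
    rcases (T.mem_side_dt hv).1 h with h1 | h1 <;> rcases (T.mem_side_dt hv').1 h' with h2 | h2
    · exact h1.symm.trans h2
    · subst h1
      exact absurd (T.mem_bd.1 hu).2 (T.stage_bd_disj hu' h2.2)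
    · subst h2
      exact absurd (T.mem_bd.1 hu').2 (T.stage_bd_disj hu h1.2)
    · exact ih h1.2 h2.2

lemma side_bd_disj {v w u : V} {j : ℕ} (hu : u ∈ T.bd v j) (h : w ∈ T.side (T.dt v u)) :
    w ∉ hull T.r v j :=
  T.stage_bd_disj hu h

/-- the boundary darts depend only on the hull -/
lemma bd_congr {v w : V} {j : ℕ} (h : hull T.r v j = hull T.r w j) :
    T.bd v j = T.bd w j ∧ ∀ u ∈ T.bd v j, T.dt v u = T.dt w u := by
  have key : ∀ v w : V, hull T.r v j = hull T.r w j → ∀ u ∈ T.bd v j,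
      u ∈ T.bd w j ∧ T.par v u = T.par w u := by
    intro v w h u hu
    obtain ⟨h1, h2⟩ := T.mem_bd.1 hu
    have hv := (T.bd_ty hu).1
    have hw : w ∈ hull T.r v j := h ▸ mem_hull.2 (inH_self _ _ _)
    have hw' : w ∉ T.side (T.dt v u) := fun hs => T.side_bd_disj hu hs hw
    rw [T.mem_side, not_not] at hw'
    have e : T.par v u = T.par w u := by simpa [dt] using hw'.2
    exact ⟨T.mem_bd.2 ⟨h ▸ h1, h ▸ e ▸ h2⟩, e⟩
  refine ⟨?_, fun u hu => ?_⟩
  · ext u
    exact ⟨fun hu => (key v w h u hu).1, fun hu => (key w v h.symm u hu).1⟩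
  · simp only [dt, (key v w h u hu).2]

lemma comp_subset {v u x : V} {j : ℕ} (hu : u ∈ T.bd v j) (hx : x ∈ T.side (T.dt v u)) :
    comp T.r (hull T.r v j) x ⊆ T.side (T.dt v u) := by
  intro y hy
  rw [mem_comp] at hy
  have hv := (T.bd_ty hu).1
  induction hy with
  | refl => exact hx
  | @tail a b _ hab ih =>
    obtain ⟨hadj, ha, hb⟩ := hab
    rcases T.adj_cases v hadj with ⟨h1, h2⟩ | ⟨h1, h2⟩
    · rcases (T.mem_side_dt hv).1 ih with h3 | h3
      · subst h3
        exact absurd (h2 ▸ (T.mem_bd.1 hu).2) hb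
      · exact h2 ▸ h3.2
    · exact (T.mem_side_dt hv).2 (Or.inr ⟨h1, h2 ▸ ih⟩)

end OT

end Pool.Agent.Work.MP_be9894_co.AA
end

-- merged part: Pool.Agent.Work.MP_be9894_co.AA.Gam
section
/-!
The link with strict order-preserving maps.

`ZR_eq`: copy `ZP_eq` (and `fiber_card`, `prod_cont`) of `Work/MP_be9894_co/Poset.lean` with the condition
`∀ a b, r a b → f a < f b` in place of `StrictMono f`.
-/

set_option autoImplicit false

namespace Pool.Agent.Work.MP_be9894_co.AA

open Finset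

open Classical in
/-- weighted sum over the strict maps into a finite chain -/
noncomputable def ZR {V : Type} [Fintype V] (r : V → V → Prop) (N : ℕ) (x : ℕ → ℚ) : ℚ :=
  ∑ f : V → Fin N, if ∀ a b, r a b → f a < f b then ∏ a, x (f a) else 0

/-- equality of the strict order quasisymmetric functions, coefficientwise -/
def SameG {V V' : Type} [Fintype V] [Fintype V'] (r : V → V → Prop) (s : V' → V' → Prop) : Prop :=
  ∀ m : ℕ →₀ ℕ,
    Set.ncard {f : V → ℕ | (∀ a b, r a b → f a < f b) ∧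
        ∀ i : ℕ, (Finset.univ.filter (fun a => f a = i)).card = m i} =
    Set.ncard {g : V' → ℕ | (∀ a b, s a b → g a < g b) ∧
        ∀ i : ℕ, (Finset.univ.filter (fun b => g b = i)).card = m i}

/-- the content of a map -/
def gam_cont {α : Type} [Fintype α] {N : ℕ} (f : α → Fin N) : Fin N → ℕ :=
  fun i => (univ.filter (fun a => f a = i)).card

lemma gam_fiber {α : Type} [Fintype α] (r : α → α → Prop) (N : ℕ) (c : Fin N → ℕ) (m : ℕ →₀ ℕ)
    (hm : ∀ i, m i = if h : i < N then c ⟨i, h⟩ else 0) (A : Finset (α → Fin N))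
    (hA : ∀ f, f ∈ A ↔ ∀ a b, r a b → f a < f b) :
    (A.filter (fun f => gam_cont f = c)).card
      = Set.ncard {f : α → ℕ | (∀ a b, r a b → f a < f b) ∧
          ∀ i : ℕ, (Finset.univ.filter (fun a => f a = i)).card = m i} := by
  have hinj : Function.Injective (fun (f : α → Fin N) (a : α) => (f a : ℕ)) := by
    intro f g hfg; funext a; exact Fin.ext (congrFun hfg a)
  rw [← Set.ncard_coe_finset, ← Set.ncard_image_of_injective _ hinj]
  refine congrArg Set.ncard ?_
  ext g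
  simp only [coe_filter, hA, Set.mem_image, Set.mem_ofPred_eq]
  constructor
  · rintro ⟨f, ⟨hf, rfl⟩, rfl⟩
    refine ⟨fun a b hab => hf a b hab, fun i => ?_⟩
    rw [hm]
    split_ifs with hi
    · unfold gam_cont
      refine congrArg Finset.card ?_
      ext a
      simp [Fin.ext_iff]
    · rw [Finset.card_eq_zero, Finset.filter_eq_empty_iff]
      intro a _ ha
      exact hi (ha ▸ (f a).2)
  · rintro ⟨hg, hc⟩
    have hlt : ∀ a, g a < N := by
      intro a
      by_contra hh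
      have := hc (g a)
      rw [hm, dif_neg hh, Finset.card_eq_zero, Finset.filter_eq_empty_iff] at this
      exact this (mem_univ a) rfl
    refine ⟨fun a => ⟨g a, hlt a⟩, ⟨fun a b hab => hg a b hab, ?_⟩, rfl⟩
    funext i
    have := hc i
    rw [hm, dif_pos i.2] at this
    rw [← this]
    unfold gam_cont
    refine congrArg Finset.card ?_
    ext a
    simp [Fin.ext_iff]

lemma gam_prod {α : Type} [Fintype α] {N : ℕ} (x : ℕ → ℚ) (f : α → Fin N) :
    ∏ a, x (f a) = ∏ i : Fin N, x i ^ gam_cont f i := by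
  rw [← Finset.prod_fiberwise univ f (fun a => x (f a))]
  refine Finset.prod_congr rfl fun i _ => ?_
  rw [Finset.prod_congr rfl (g := fun _ => x i)]
  · simp [gam_cont]
  · intro a ha; rw [(Finset.mem_filter.1 ha).2]

lemma ZR_eq {V V' : Type} [Fintype V] [Fintype V'] {r : V → V → Prop} {s : V' → V' → Prop}
    (h : SameG r s) (N : ℕ) (x : ℕ → ℚ) : ZR r N x = ZR s N x := by
  classical
  unfold ZR
  rw [← Finset.sum_filter, ← Finset.sum_filter]
  simp only [gam_prod]
  generalize hA : univ.filter (fun f : V → Fin N => ∀ a b, r a b → f a < f b) = A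
  generalize hB : univ.filter (fun f : V' → Fin N => ∀ a b, s a b → f a < f b) = B
  have hA' : ∀ f, f ∈ A ↔ ∀ a b, r a b → f a < f b := fun f => by
    rw [← hA, Finset.mem_filter_univ]
  have hB' : ∀ f, f ∈ B ↔ ∀ a b, s a b → f a < f b := fun f => by
    rw [← hB, Finset.mem_filter_univ]
  rw [← Finset.sum_fiberwise_of_maps_to (s := A) (t := A.image gam_cont ∪ B.image gam_cont)
    (g := gam_cont) (fun f hf => mem_union_left _ (mem_image_of_mem _ hf)),
    ← Finset.sum_fiberwise_of_maps_to (s := B) (t := A.image gam_cont ∪ B.image gam_cont)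
    (g := gam_cont) (fun f hf => mem_union_right _ (mem_image_of_mem _ hf))]
  refine Finset.sum_congr rfl fun c _ => ?_
  rw [Finset.sum_congr (s₁ := A.filter (fun f => gam_cont f = c)) rfl
      (g := fun _ => ∏ i : Fin N, x i ^ c i) (fun f hf => by rw [(Finset.mem_filter.1 hf).2]),
    Finset.sum_congr (s₁ := B.filter (fun f => gam_cont f = c)) rfl
      (g := fun _ => ∏ i : Fin N, x i ^ c i) (fun f hf => by rw [(Finset.mem_filter.1 hf).2])]
  let m : ℕ →₀ ℕ := Finsupp.onFinset (range N) (fun i => if h : i < N then c ⟨i, h⟩ else 0) (by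
    intro i hi
    by_contra hh
    exact hi (dif_neg (by simpa using hh)))
  have hm : ∀ i, m i = if h : i < N then c ⟨i, h⟩ else 0 := fun i => rfl
  rw [Finset.sum_const, Finset.sum_const, gam_fiber r N c m hm A hA', gam_fiber s N c m hm B hB',
    h m]

end Pool.Agent.Work.MP_be9894_co.AA
end

-- merged part: Pool.Agent.Work.MP_be9894_co.AA.BFlow
section
/-!
Labellings whose tail sides have nonnegative sums are counted by an invariant.

`exists_rank`: count the arcs whose tail side misses the vertex.  Then `Relation.ReflTransGen T.r` is an order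
with `StrictMono f ↔ ∀ a b, r a b → f a < f b`, so `SameG` gives `H2.SameQ`.
For total sum zero, nonnegative sums on all lower sets are equivalent to `Flow` (`bflow_iff`), and `H2.Theta_eq` applies.
-/

set_option autoImplicit false

namespace Pool.Agent.Work.MP_be9894_co.AA

open Finset

variable {V V' : Type} [Fintype V] [Fintype V']

/-- the only edge leaving a side is the edge of the dart -/
lemma bflow_cut (T : OT V) {a b x y : V} (h : T.r x y ∨ T.r y x) (hx : x ∈ T.side (a, some b))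
    (hy : y ∉ T.side (a, some b)) : x = a ∧ y = b := by
  rw [T.mem_side, not_not] at hy
  rw [T.mem_side] at hx
  obtain ⟨h1, h2⟩ := hy
  have h3 : b = T.par y a := Option.some.inj h2
  have h4 : a = x := by
    by_contra h5
    exact hx ⟨h5, congrArg some (h3.trans (T.par_adj h h5 h1).symm)⟩
  refine ⟨h4.symm, ?_⟩
  rcases T.adj_cases y h with ⟨_, h6⟩ | ⟨h6, _⟩
  · rw [h3, h4, h6]
  · exact absurd rfl h6

/-- a tail side is a lower set -/
lemma bflow_low (T : OT V) {a b : V} (hab : T.r a b) {x y : V} (hx : x ∈ T.side (a, some b))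
    (h : T.r y x) : y ∈ T.side (a, some b) := by
  by_contra hy
  obtain ⟨h1, h2⟩ := bflow_cut T (Or.inr h) hx hy
  rw [h1, h2] at h
  exact T.asym _ _ hab h

lemma exists_rank (T : OT V) : ∃ f : V → ℕ, ∀ a b, T.r a b → f a < f b := by
  classical
  refine ⟨fun u => (univ.filter fun p : V × V => T.r p.1 p.2 ∧ u ∉ T.side (p.1, some p.2)).card,
    fun c d h => card_lt_card ⟨fun p hp => ?_, fun hs => ?_⟩⟩
  · rw [mem_filter] at hp ⊢
    exact ⟨hp.1, hp.2.1, fun hd => hp.2.2 (bflow_low T hp.2.1 hd h)⟩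
  · have h1 : d ∉ T.side (c, some d) := fun hd =>
      (T.side_compl (Or.inl h) d).1 hd (T.self_mem_side (d, some c))
    have h2 := hs (mem_filter.2 ⟨mem_univ (c, d), h, h1⟩)
    exact (mem_filter.1 h2).2.2 (T.self_mem_side (c, some d))

/-- the order generated by the arcs -/
lemma bflow_po (T : OT V) : ∃ P : PartialOrder V,
    (∀ f : V → ℕ, @StrictMono V ℕ P.toPreorder _ f ↔ ∀ a b, T.r a b → f a < f b) ∧
    ∀ I : Finset V, @H2.Low V P I ↔ ∀ a ∈ I, ∀ b, T.r b a → b ∈ I := by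
  have key : ∀ f : V → ℕ, (∀ a b, T.r a b → f a < f b) → ∀ x y, Relation.ReflTransGen T.r x y →
      x = y ∨ f x < f y := by
    intro f hf x y hxy
    induction hxy with
    | refl => exact Or.inl rfl
    | tail _ h ih =>
      rcases ih with e | e
      · exact Or.inr (e ▸ hf _ _ h)
      · exact Or.inr (e.trans (hf _ _ h))
  obtain ⟨g, hg⟩ := exists_rank T
  let P : PartialOrder V :=
    { le := Relation.ReflTransGen T.r
      le_refl := fun _ => Relation.ReflTransGen.refl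
      le_trans := fun _ _ _ => Relation.ReflTransGen.trans
      le_antisymm := fun a b h1 h2 => by
        rcases key g hg a b h1 with e | e
        · exact e
        · rcases key g hg b a h2 with e' | e'
          · exact e'.symm
          · omega }
  refine ⟨P, fun f => ⟨fun hf a b hab => hf ?_, fun hf a b hab => ?_⟩, fun I => ⟨fun hI a ha b hb => ?_,
    fun hI a ha b hb => ?_⟩⟩
  · refine lt_of_le_of_ne (Relation.ReflTransGen.single hab) ?_
    rintro rfl
    exact T.asym _ _ hab hab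
  · exact (key f hf a b hab.le).resolve_left hab.ne
  · exact hI a ha b (Relation.ReflTransGen.single hb)
  · have hb' : Relation.ReflTransGen T.r b a := hb
    clear hb
    induction hb' with
    | refl => exact ha
    | tail _ h ih => exact ih (hI _ ha _ h)

lemma bflow_same (T : OT V) (T' : OT V') (h : SameG T.r T'.r) (P : PartialOrder V) (P' : PartialOrder V')
    (hP : ∀ f : V → ℕ, StrictMono f ↔ ∀ a b, T.r a b → f a < f b)
    (hP' : ∀ f : V' → ℕ, StrictMono f ↔ ∀ a b, T'.r a b → f a < f b) : H2.SameQ V V' := by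
  intro m
  simp only [hP, hP']
  exact h m

theorem card_of_same (T : OT V) (T' : OT V') (h : SameG T.r T'.r) : Fintype.card V = Fintype.card V' := by
  obtain ⟨P, hP, _⟩ := bflow_po T
  obtain ⟨P', hP', _⟩ := bflow_po T'
  obtain ⟨f, hf⟩ := exists_rank T
  obtain ⟨g, _, _, hg⟩ := H2.exists_strict (bflow_same T T' h P P' hP hP') (univ.sup f + 1) f ((hP f).2 hf)
    (fun a => Nat.lt_succ_of_le (Finset.le_sup (mem_univ a)))
  obtain ⟨e, _⟩ := H2.exists_equiv_of_ct hg
  exact Fintype.card_congr e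

/-- every tail side has a nonnegative sum -/
def Flow (T : OT V) (Y : V → ℚ) : Prop := ∀ a b, T.r a b → 0 ≤ ∑ w ∈ T.side (a, some b), Y w

lemma bflow_compl (T : OT V) (Y : V → ℚ) (h0 : ∑ w, Y w = 0) {u v : V} (h : T.r u v ∨ T.r v u) :
    ∑ w ∈ T.side (u, some v), Y w = -∑ w ∈ T.side (v, some u), Y w := by
  classical
  have e : T.side (u, some v) = (T.side (v, some u))ᶜ := by
    ext w
    rw [mem_compl]
    exact T.side_compl h w
  have h2 := Finset.sum_compl_add_sum (T.side (v, some u)) Y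
  rw [e]
  linarith only [h0, h2]

lemma flow_root (T : OT V) (Y : V → ℚ) (h0 : ∑ w, Y w = 0) (v : V) : Flow T Y ↔ ∀ u, u ≠ v →
    (T.ty (T.dt v u) = true → 0 ≤ ∑ w ∈ T.side (T.dt v u), Y w) ∧
    (T.ty (T.dt v u) = false → ∑ w ∈ T.side (T.dt v u), Y w ≤ 0) := by
  constructor
  · intro H u hu
    refine ⟨fun h => H _ _ ((T.ty_some _ _).1 h), fun h => ?_⟩
    have h1 : ¬ T.r u (T.par v u) := fun h2 => by
      have h3 : T.ty (T.dt v u) = true := (T.ty_some _ _).2 h2
      rw [h] at h3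
      exact Bool.false_ne_true h3
    have h2 := (T.adj_par v u hu).resolve_left h1
    have h3 := H _ _ h2
    have h4 : ∑ w ∈ T.side (T.dt v u), Y w = _ := bflow_compl T Y h0 (Or.inr h2)
    linarith
  · intro H a b hab
    rcases T.all v a b hab with ⟨h1, h2⟩ | ⟨h1, h2⟩
    · have e : T.dt v a = (a, some b) := by rw [OT.dt, h2]
      have h3 := (H a h1).1
      rw [e] at h3
      exact h3 ((T.ty_some _ _).2 hab)
    · have e : T.dt v b = (b, some a) := by rw [OT.dt, h2]
      have h3 := (H b h1).2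
      rw [e] at h3
      have h4 : T.ty (b, some a) = false := by
        by_contra h5
        exact T.asym _ _ hab ((T.ty_some _ _).1 (by simpa using h5))
      have h5 := h3 h4
      have h6 := bflow_compl T Y h0 (Or.inl hab)
      linarith

/-- for total sum zero, the tail sides control all lower sets -/
lemma bflow_iff (T : OT V) (Y : V → ℚ) (h0 : ∑ w, Y w = 0) : Flow T Y ↔
    ∀ I : Finset V, (∀ a ∈ I, ∀ b, T.r b a → b ∈ I) → 0 ≤ ∑ a ∈ I, Y a := by
  classical
  refine ⟨fun H I hI => ?_, fun H a b hab => H _ fun x hx y h => bflow_low T hab hx h⟩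
  rcases I.eq_empty_or_nonempty with rfl | ⟨z, _⟩
  · simp
  set φ : V → ℚ := fun a => if a ∈ I then 1 else 0 with hφ
  have hm : ∀ a b, T.r a b → φ b ≤ φ a := by
    intro a b hab
    simp only [hφ]
    split_ifs with a1 a2 a2
    · exact le_rfl
    · exact absurd (hI b a1 a hab) a2
    · exact zero_le_one
    · exact le_rfl
  have key : ∀ d : V × Option V, 0 ≤ ∑ u ∈ T.side d, Y u * (φ u - φ d.1) := by
    intro d
    induction hn : (T.side d).card using Nat.strong_induction_on generalizing d with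
    | _ n ih =>
      rw [T.sum_side, sub_self, mul_zero, zero_add]
      refine Finset.sum_nonneg fun c hc => ?_
      have e : ∑ u ∈ T.side c, Y u * (φ u - φ d.1) =
          ∑ u ∈ T.side c, Y u * (φ u - φ c.1) + (∑ u ∈ T.side c, Y u) * (φ c.1 - φ d.1) := by
        rw [Finset.sum_mul, ← Finset.sum_add_distrib]
        exact Finset.sum_congr rfl fun u _ => by ring
      have hlt : (T.side c).card < n := by
        have h1 := T.card_side d
        have h2 : (T.side c).card ≤ ∑ c ∈ T.ch d, (T.side c).card :=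
          Finset.single_le_sum (f := fun c => (T.side c).card) (fun _ _ => Nat.zero_le _) hc
        omega
      rw [e]
      refine add_nonneg (ih _ hlt c rfl) ?_
      obtain ⟨h1, h2, _⟩ := T.mem_ch.1 hc
      have ec : T.side c = T.side (c.1, some d.1) := by rw [← h2]
      rw [ec]
      rcases h1 with h | h
      · exact mul_nonneg (H _ _ h) (sub_nonneg.2 (hm _ _ h))
      · refine mul_nonneg_of_nonpos_of_nonpos ?_ (sub_nonpos.2 (hm _ _ h))
        rw [bflow_compl T Y h0 (Or.inr h)]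
        exact neg_nonpos.2 (H _ _ h)
  have h1 := key (z, none)
  rw [T.side_none] at h1
  simp only [mul_sub, Finset.sum_sub_distrib, ← Finset.sum_mul, h0, zero_mul, sub_zero] at h1
  simp only [hφ, mul_ite, mul_one, mul_zero] at h1
  rwa [← Finset.sum_filter, Finset.filter_mem_eq_inter, univ_inter] at h1

open Classical in
/-- labellings with content `c` -/
noncomputable def labs {Λ : Type} [Fintype Λ] (T : OT V) (c : Λ → ℕ) (val : Λ → ℚ) : Finset (V → Λ) :=
  univ.filter fun y => (∀ l, (univ.filter fun a => y a = l).card = c l) ∧ Flow T fun a => val (y a)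

open Classical in
lemma mem_labs {Λ : Type} [Fintype Λ] {T : OT V} {c : Λ → ℕ} {val : Λ → ℚ} {y : V → Λ} : y ∈ labs T c val ↔
    (∀ l, (univ.filter fun a => y a = l).card = c l) ∧ Flow T fun a => val (y a) := by simp [labs]

open Classical in
lemma bflow_theta {Λ : Type} [Fintype Λ] (T : OT V) (P : PartialOrder V)
    (hP : ∀ I : Finset V, H2.Low I ↔ ∀ a ∈ I, ∀ b, T.r b a → b ∈ I) (c : Λ → ℕ) (val : Λ → ℚ)
    (h0 : ∑ l, (c l : ℚ) * val l = 0) :
    H2.Theta V (fun _ _ => (1 : ℤ)) (fun c' => c' = c) (fun _ => val) = ((labs T c val).card : ℤ) := by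
  unfold H2.Theta labs
  rw [Finset.card_filter, Nat.cast_sum]
  refine Finset.sum_congr rfl fun y _ => ?_
  have e : (H2.ct y = c ∧ ∀ I : Finset V, H2.Low I → 0 ≤ ∑ a ∈ I, val (y a)) ↔
      (∀ l, (univ.filter fun a => y a = l).card = c l) ∧ Flow T fun a => val (y a) := by
    rw [funext_iff]
    refine and_congr_right fun hc => ?_
    have h1 : ∑ a, val (y a) = 0 := by
      rw [← h0, ← Finset.sum_fiberwise univ y (fun a => val (y a))]
      refine Finset.sum_congr rfl fun l _ => ?_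
      rw [Finset.sum_congr rfl (g := fun _ => val l) (fun a ha => by rw [(mem_filter.1 ha).2]),
        Finset.sum_const, nsmul_eq_mul, ← hc l]
      rfl
    rw [bflow_iff T _ h1]
    simp only [hP]
  by_cases h : (∀ l, (univ.filter fun a => y a = l).card = c l) ∧ Flow T fun a => val (y a)
  · rw [if_pos (e.2 h), if_pos h]
    simp
  · rw [if_neg (fun h' => h (e.1 h')), if_neg h]
    simp

theorem flow_count {Λ : Type} [Fintype Λ] (T : OT V) (T' : OT V') (h : SameG T.r T'.r) (c : Λ → ℕ) (val : Λ → ℚ)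
    (h0 : ∑ l, (c l : ℚ) * val l = 0) : (labs T c val).card = (labs T' c val).card := by
  classical
  obtain ⟨P, hP, hL⟩ := bflow_po T
  obtain ⟨P', hP', hL'⟩ := bflow_po T'
  have h1 := bflow_theta T P hL c val h0
  have h2 := bflow_theta T' P' hL' c val h0
  have h3 := H2.Theta_eq (bflow_same T T' h P P' hP hP') (fun _ _ => (1 : ℤ)) (fun c' => c' = c)
    (fun _ => val)
  exact Nat.cast_injective (h1.symm.trans (h3.trans h2))

end Pool.Agent.Work.MP_be9894_co.AA
end

-- merged part: Pool.Agent.Work.MP_be9894_co.AA.BCond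
section
/-!
Stage labellings.  A vertex `x` is labelled when `ℓ x ≤ k`.

`side_sub`, `side_laminar`: `mem_side_dt` and induction (`ind_down v` on the element).
`cond_sub`: show by `ind_down v` that for `u ≠ v` and a labelled `x` of least label in `side (dt v u)` one has `inH v (ℓ x) u`
(`step_dt`, `inH_step`, `inH_mono`; the side of the parent is larger, so its least label is smaller).
`cond_first`: `inH_par` for `x` gives `j' ≤ fs v x` with the parent reached by stage `j'` and the type of stage `j'`; so `fs v u ≤ j'`.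
`reach`: `ind_down v`, `inH_adj`.
`top_of_le`, `top_lex`: induction on the stage.  `uniq_add`: `hull v (j+1)` depends only on `hull v j`.
`inH_enter`: induction (`hull_ind`), `tp_add`.
-/

set_option autoImplicit false

namespace Pool.Agent.Work.MP_be9894_co.AA

open Finset

variable {V V' : Type}

/-- entering a set through its gate `t` -/
lemma inH_enter {r : V → V → Prop} (S : Set V) {t : V} (hS : ∀ a b, a ∉ S → b ∈ S → (r a b ∨ r b a) → b = t)
    {b : Bool} {v x : V} {a j : ℕ} (hv : v ∉ S) (ht : ¬ inH r b v a t) (hx : x ∈ S) (h : inH r b v j x) :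
    a + 1 ≤ j ∧ inH r (tp b (a + 1)) t (j - (a + 1)) x := by
  refine hull_ind (fun j x => x ∈ S → a + 1 ≤ j ∧ inH r (tp b (a + 1)) t (j - (a + 1)) x)
    (fun h => absurd h hv) (fun j x ih hx => ⟨by have := (ih hx).1; omega, inH_mono (by omega) (ih hx).2⟩)
    (fun j x y h1 ih h2 hy => ?_) j x h hx
  by_cases e : x ∈ S
  · refine ⟨(ih e).1, inH_step (ih e).2 ?_⟩
    rwa [← tp_add, Nat.add_sub_cancel' (ih e).1]
  · obtain rfl := hS x y e hy (hull_or h2)
    exact ⟨not_lt.1 fun h3 => ht (inH_mono (by omega) (inH_step h1 h2)), inH_self _ _ _⟩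

lemma sign_sum {n : ℕ} (S : Finset V) (hS : S.card ≤ n) (Y : V → ℚ) {a s : ℚ} (ha : 0 < a) (hs : s = 1 ∨ s = -1)
    {x0 : V} (hx0 : x0 ∈ S) (h0 : Y x0 = s * a) (h : ∀ x ∈ S, Y x = s * a ∨ |Y x| * (n + 1) ≤ a) :
    0 < s * ∑ x ∈ S, Y x := by
  classical
  have h1 : s * (s * a) = a := by rcases hs with rfl | rfl <;> ring
  have h2 : ∀ x ∈ S.erase x0, -a ≤ (n + 1) * (s * Y x) := fun x hx => by
    rcases h x (mem_of_mem_erase hx) with e | e
    · rw [e, h1]
      have : (0 : ℚ) ≤ (n + 1) * a := by positivity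
      linarith only [ha, this]
    · have h3 : -|Y x| ≤ s * Y x := by
        rcases hs with rfl | rfl
        · linarith [neg_abs_le (Y x)]
        · linarith [le_abs_self (Y x)]
      have h4 := mul_le_mul_of_nonneg_left h3 (by positivity : (0 : ℚ) ≤ n + 1)
      linarith
  have h5 := card_nsmul_le_sum _ _ _ h2
  have h6 : ((S.erase x0).card : ℚ) ≤ n := by exact_mod_cast card_erase_le.trans hS
  have h7 := mul_le_mul_of_nonneg_right h6 ha.le
  rw [nsmul_eq_mul, ← mul_sum, ← mul_sum] at h5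
  refine pos_of_mul_pos_left (b := (n : ℚ) + 1) ?_ (by positivity)
  rw [← add_sum_erase S Y hx0, h0, mul_add s, h1]
  linarith

variable [Fintype V] [Fintype V']

lemma top_of_le {r : V → V → Prop} {k : ℕ} {v w : V} (hv : v ∈ top r k)
    (h : ∀ i ≤ k, (hull r v i).card ≤ (hull r w i).card) : w ∈ top r k := by
  induction k with
  | zero => exact mem_top_zero.2 fun x => (mem_top_zero.1 hv x).trans (h 0 le_rfl)
  | succ k ih =>
    obtain ⟨h1, h2⟩ := mem_top_succ.1 hv
    exact mem_top_succ.2 ⟨ih h1 fun i hi => h i (by omega), fun x hx => (h2 x hx).trans (h _ le_rfl)⟩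

lemma top_lex {r : V → V → Prop} {r' : V' → V' → Prop} {k : ℕ} {v w : V} {v' w' : V'} (hv : v ∈ top r k)
    (hv' : v' ∈ top r' k) (h1 : ∀ i ≤ k, (hull r v i).card ≤ (hull r' w' i).card)
    (h2 : ∀ i ≤ k, (hull r' v' i).card ≤ (hull r w i).card) : ∀ i ≤ k, (hull r v i).card = (hull r' v' i).card := by
  induction k with
  | zero =>
    intro i hi
    obtain rfl : i = 0 := by omega
    have a1 := mem_top_zero.1 hv w
    have a2 := mem_top_zero.1 hv' w'
    have a3 := h1 0 le_rfl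
    have a4 := h2 0 le_rfl
    omega
  | succ k ih =>
    obtain ⟨b1, b2⟩ := mem_top_succ.1 hv
    obtain ⟨c1, c2⟩ := mem_top_succ.1 hv'
    have e := ih b1 c1 (fun i hi => h1 i (by omega)) fun i hi => h2 i (by omega)
    intro i hi
    rcases Nat.lt_or_eq_of_le hi with hi | rfl
    · exact e i (by omega)
    have a1 := b2 w (top_of_le b1 fun i hi => (e i hi).trans_le (h2 i (by omega)))
    have a2 := c2 w' (top_of_le c1 fun i hi => (e i hi).ge.trans (h1 i (by omega)))
    have a3 := h1 _ le_rfl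
    have a4 := h2 _ le_rfl
    omega

lemma bcond_succ {r : V → V → Prop} {v w : V} {j : ℕ} (h : hull r v j = hull r w j) :
    hull r v (j + 1) = hull r w (j + 1) := by
  ext u
  rw [mem_hull, mem_hull]
  exact exists_congr fun s => and_congr_left' (by rw [← mem_hull, h, mem_hull])

lemma uniq_add {r : V → V → Prop} {k j : ℕ} (h : Uniq r k) (hj : k ≤ j) : top r j = top r k ∧ Uniq r j := by
  induction j, hj using Nat.le_induction with
  | base => exact ⟨rfl, h⟩
  | succ j hj ih =>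
    refine ⟨Eq.trans (Subset.antisymm (top_anti j.le_succ) fun v hv => ?_) ih.1, fun v hv w hw =>
      bcond_succ (ih.2 v (top_anti j.le_succ hv) w (top_anti j.le_succ hw))⟩
    exact mem_top_succ.2 ⟨hv, fun w hw => (congrArg card (bcond_succ (ih.2 w hw v hv))).le⟩

namespace OT

variable (T : OT V)

lemma root_not_mem_dt {v u : V} (hu : u ≠ v) : v ∉ T.side (T.dt v u) := by
  exact fun h => T.mem_side.1 h ⟨hu, rfl⟩

lemma side_sub {v u u' : V} (hu : u ≠ v) (h : u' ∈ T.side (T.dt v u)) : T.side (T.dt v u') ⊆ T.side (T.dt v u) := by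
  have hu' : u' ≠ v := fun e => T.root_not_mem_dt hu (e ▸ h)
  intro x
  refine T.ind_down v (fun x => x ∈ T.side (T.dt v u') → x ∈ T.side (T.dt v u))
    (fun hx => absurd hx (T.root_not_mem_dt hu')) (fun x _ ih hx => ?_) x
  rcases (T.mem_side_dt hu').1 hx with e | e
  · exact e ▸ h
  · exact (T.mem_side_dt hu).2 (Or.inr ⟨e.1, ih e.2⟩)

lemma side_laminar {v u u' x : V} (hu : u ≠ v) (hu' : u' ≠ v) (h : x ∈ T.side (T.dt v u))
    (h' : x ∈ T.side (T.dt v u')) :
    T.side (T.dt v u) ⊆ T.side (T.dt v u') ∨ T.side (T.dt v u') ⊆ T.side (T.dt v u) := by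
  revert h h'
  refine T.ind_down v (fun x => x ∈ T.side (T.dt v u) → x ∈ T.side (T.dt v u') → _)
    (fun hx => absurd hx (T.root_not_mem_dt hu)) (fun x _ ih h h' => ?_) x
  rcases (T.mem_side_dt hu).1 h with e | e
  · exact Or.inl (T.side_sub hu' (e ▸ h'))
  rcases (T.mem_side_dt hu').1 h' with e' | e'
  · exact Or.inr (T.side_sub hu (e' ▸ h))
  · exact ih e.2 e'.2

/-- the dart seen from another root outside the side -/
lemma dt_eq {v w u : V} (h : w ∉ T.side (T.dt v u)) : u ≠ w ∧ T.dt w u = T.dt v u := by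
  obtain ⟨h1, h2⟩ := not_not.1 (mt T.mem_side.2 h)
  exact ⟨h1, Prod.ext rfl h2.symm⟩

/-- the gate of a side -/
lemma side_gate {v u a b : V} (hu : u ≠ v) (ha : a ∉ T.side (T.dt v u)) (hb : b ∈ T.side (T.dt v u))
    (h : T.r a b ∨ T.r b a) : b = u := by
  rcases T.adj_cases v h with ⟨h1, h2⟩ | ⟨_, h2⟩
  · exact absurd ((T.mem_side_dt hu).2 (Or.inr ⟨h1, h2 ▸ hb⟩)) ha
  · exact ((T.mem_side_dt hu).1 hb).resolve_right fun h3 => ha (h2 ▸ h3.2)

lemma sum_bd_card (v : V) (j : ℕ) :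
    (hull T.r v j).card + ∑ u ∈ T.bd v j, (T.side (T.dt v u)).card = Fintype.card V := by
  classical
  rw [← card_add_card_compl (hull T.r v j), ← card_biUnion fun u hu u' hu' hne =>
    disjoint_left.2 fun _ h h' => hne (T.side_cover_unique hu hu' h h')]
  congr 2
  ext w
  rw [mem_biUnion, mem_compl]
  exact ⟨fun ⟨_, hu, h⟩ => T.side_bd_disj hu h, T.side_cover⟩

/-- the type of each dart away from `v` is the type of the least label in its side -/
def Cond (v : V) (k : ℕ) (ℓ : V → ℕ) : Prop :=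
  ∀ u, u ≠ v → ∀ x ∈ T.side (T.dt v u), ℓ x ≤ k → (∀ x' ∈ T.side (T.dt v u), ℓ x ≤ ℓ x') →
    T.ty (T.dt v u) = tp false (ℓ x)

lemma cond_sub {v x : V} {k : ℕ} {ℓ : V → ℕ} (h : T.Cond v k ℓ) (hx : x ≠ v) (hl : ℓ x ≤ k) :
    inH T.r false v (ℓ x) x := by
  have key : ∀ u, u ≠ v → ∀ x ∈ T.side (T.dt v u), ℓ x ≤ k → inH T.r false v (ℓ x) u := by
    refine T.ind_down v _ (fun e => absurd rfl e) fun u hu ih _ x hx hl => ?_
    obtain ⟨y, hy, hm⟩ := exists_min_image _ ℓ ⟨x, hx⟩
    have hk := (hm x hx).trans hl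
    refine inH_mono (hm x hx) (inH_step ?_ ((T.step_dt hu _).2 (h u hu y hy hk hm)))
    by_cases e : T.par v u = v
    · rw [e]
      exact inH_self _ _ _
    · exact ih e y (T.side_sub e ((T.mem_side_dt e).2 (Or.inr ⟨hu, T.self_mem_side _⟩)) hy) hk
  exact key x hx x (T.self_mem_side _) hl

lemma reach (v x : V) : ∃ j, inH T.r false v j x := by
  exact T.ind_down v (fun x => ∃ j, inH T.r false v j x) ⟨0, inH_self _ _ _⟩
    (fun u hu ⟨j, hj⟩ => ⟨j + 1, inH_adj hj (T.adj_par v u hu).symm⟩) x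

/-- first stage -/
noncomputable def fs (v x : V) : ℕ := sInf {j | inH T.r false v j x}

lemma fs_le {v x : V} {j : ℕ} : T.fs v x ≤ j ↔ inH T.r false v j x := by
  exact ⟨fun h => inH_mono h (Nat.sInf_mem (T.reach v x)), fun h => Nat.sInf_le h⟩

lemma cond_first (v : V) (k : ℕ) : T.Cond v k (T.fs v) := by
  intro u hu x hx _ hm
  obtain ⟨j, h1, h2, h3⟩ := T.inH_par hu hx (T.fs_le.1 le_rfl)
  have h4 := T.fs_le.2 (inH_step h2 ((T.step_dt hu _).2 h3))
  rw [h3, le_antisymm h1 ((hm u (T.self_mem_side _)).trans h4)]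

end OT

end Pool.Agent.Work.MP_be9894_co.AA
end

-- merged part: Pool.Agent.Work.MP_be9894_co.AA.BLab
section
/-!
The best hull sizes and the number of best starting points are invariants.

Let `n = card V`, `B = (n+1)^2`, `s i = if tp false i then 1 else -1`.  Labels `Λ = Option (Option (Fin (k+1)))`: `none` (value `0`),
`some none` (the centre, used once, value minus the sum of all other values), `some (some i)` (value `s i / B ^ i`).  For a
size vector `e` (the hull sizes of some vertex) the content is `e 0 - 1` for stage `0`, `e (i+1) - e i` for stage `i+1`, `n - e k` for `none`.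
* If `y ∈ labs` with centre `v`, put `ℓ x = i` for `y x = some (some i)` and `k + 1` otherwise.  `flow_root` at `v` and `sign_sum`
  (`root_not_mem_dt`) give `Cond v k ℓ`, so by `cond_sub` the set `insert v {x | ℓ x ≤ i}`, of size `e i`, lies in `hull v i`.
* If `card (hull v i) = e i` for all `i ≤ k`, the labelling by `fs v` lies in `labs` (`cond_first`, `sign_sum`, `fs_le`; a side without
  labels has sum zero).
`lab_le` follows with `flow_count` and `card_of_same`; `top_size` from `lab_le` both ways and `top_lex`.  For `top_count` take `e` from a member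
of `top`: the centre map is a bijection from `labs` onto `top` (`top_of_le`, `top_card`; equal sizes force
`insert v {x | ℓ x ≤ i} = hull v i`, which determines `y`).  Note `SameG` is symmetric.
-/

set_option autoImplicit false

namespace Pool.Agent.Work.MP_be9894_co.AA

open Finset

variable {V V' : Type} [Fintype V] [Fintype V']

/-- sign of stage `i` -/
def blab_s (i : ℕ) : ℚ := if tp false i then 1 else -1

/-- value of the label `i` -/
def blab_w (n k i : ℕ) : ℚ := if i ≤ k then blab_s i * (1 / ((n : ℚ) + 1) ^ i) else 0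

/-- content: `none` is the centre, `some (k+1)` means no label -/
def blab_c (k : ℕ) (E : ℕ → ℕ) : Option (Fin (k + 2)) → ℕ
  | none => 1
  | some i => E (i + 1) - E i

def blab_val (n k : ℕ) (E : ℕ → ℕ) : Option (Fin (k + 2)) → ℚ
  | none => -∑ i : Fin (k + 2), (blab_c k E (some i) : ℚ) * blab_w n k i
  | some i => blab_w n k i

lemma blab_zero (n k : ℕ) (E : ℕ → ℕ) : ∑ l, (blab_c k E l : ℚ) * blab_val n k E l = 0 := by
  rw [Fintype.sum_option]
  simp [blab_val, blab_c]

/-- the stage written at `x` -/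
def blab_l {k : ℕ} (y : V → Option (Fin (k + 2))) (x : V) : ℕ := (y x).elim (k + 1) Fin.val

omit [Fintype V] in
lemma blab_l_le {k : ℕ} (y : V → Option (Fin (k + 2))) (x : V) : blab_l y x ≤ k + 1 := by
  unfold blab_l
  cases y x with
  | none => exact le_rfl
  | some i => exact Nat.lt_succ_iff.1 i.2

omit [Fintype V] in
lemma blab_some {k : ℕ} {y : V → Option (Fin (k + 2))} {v : V} (hv : ∀ x, y x = none ↔ x = v) (x : V)
    (i : Fin (k + 2)) : y x = some i ↔ x ≠ v ∧ blab_l y x = i := by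
  rw [Ne, ← hv x]
  unfold blab_l
  cases y x with
  | none => simp
  | some j => simp [Fin.ext_iff]

lemma blab_mem {k : ℕ} {T : OT V} {c : Option (Fin (k + 2)) → ℕ} {val : Option (Fin (k + 2)) → ℚ}
    {y : V → Option (Fin (k + 2))} : y ∈ labs T c val ↔
    (∀ l, (univ.filter fun a => y a = l).card = c l) ∧ Flow T fun a => val (y a) := by
  rw [mem_labs]
  refine and_congr_left fun _ => forall_congr' fun l => ?_
  congr!

lemma blab_total {k n : ℕ} {E : ℕ → ℕ} {y : V → Option (Fin (k + 2))}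
    (h : ∀ l, (univ.filter fun a => y a = l).card = blab_c k E l) : ∑ x, blab_val n k E (y x) = 0 := by
  rw [← blab_zero n k E, ← sum_fiberwise univ y fun x => blab_val n k E (y x)]
  refine sum_congr rfl fun l _ => ?_
  rw [sum_congr rfl fun x hx => by rw [(mem_filter.1 hx).2], sum_const, h l, nsmul_eq_mul]

lemma blab_sign (T : OT V) {k : ℕ} {ℓ : V → ℕ} (S : Finset V) {x : V} (hx : x ∈ S) (hl : ℓ x ≤ k)
    (hmin : ∀ x' ∈ S, ℓ x ≤ ℓ x') : 0 < blab_s (ℓ x) * ∑ z ∈ S, blab_w (Fintype.card V) k (ℓ z) := by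
  have _ := T
  have hB : (1 : ℚ) ≤ (Fintype.card V : ℚ) + 1 := by simp
  refine sign_sum (n := Fintype.card V) S (card_le_univ S) _ (a := 1 / ((Fintype.card V : ℚ) + 1) ^ ℓ x)
    (by positivity) (by unfold blab_s; split_ifs <;> simp) hx (by simp [blab_w, hl]) fun z hz => ?_
  rcases (hmin z hz).eq_or_lt with e | e
  · exact Or.inl (by rw [← e]; simp [blab_w, hl])
  · right
    unfold blab_w
    split_ifs with h
    · have : |blab_s (ℓ z)| = 1 := by unfold blab_s; split_ifs <;> simp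
      rw [abs_mul, this, one_mul, abs_of_pos (by positivity), div_mul_eq_mul_div, one_mul,
        div_le_div_iff₀ (by positivity) (by positivity), one_mul, ← pow_succ']
      exact pow_le_pow_right₀ hB e
    · simp only [abs_zero, zero_mul]
      positivity

lemma blab_flow (T : OT V) {k : ℕ} {E : ℕ → ℕ} {y : V → Option (Fin (k + 2))} {v : V}
    (hv : ∀ x, y x = none ↔ x = v) (h0 : ∑ x, blab_val (Fintype.card V) k E (y x) = 0) :
    Flow T (fun a => blab_val (Fintype.card V) k E (y a)) ↔ T.Cond v k (blab_l y) := by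
  rw [flow_root T _ h0 v]
  refine forall_congr' fun u => forall_congr' fun hu => ?_
  have e : ∑ w ∈ T.side (T.dt v u), blab_val (Fintype.card V) k E (y w)
      = ∑ w ∈ T.side (T.dt v u), blab_w (Fintype.card V) k (blab_l y w) := by
    refine sum_congr rfl fun w hw => ?_
    have hne : y w ≠ none := fun e => T.root_not_mem_dt hu (((hv w).1 e) ▸ hw)
    unfold blab_l
    cases hy : y w with
    | none => exact absurd hy hne
    | some i => rfl
  rw [e]
  constructor
  · rintro ⟨h1, h2⟩ x hx hl hmin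
    have := blab_sign T _ hx hl hmin
    unfold blab_s at this
    cases ht : T.ty (T.dt v u) <;> cases hp : tp false (blab_l y x) <;> simp [hp] at this ⊢
    · linarith only [this, h2, ht, h2 ht]
    · linarith [h1 ht]
  · intro h
    obtain ⟨x, hx, hmin⟩ := exists_min_image (T.side (T.dt v u)) (blab_l y) ⟨u, T.self_mem_side _⟩
    by_cases hl : blab_l y x ≤ k
    · have h1 := blab_sign T _ hx hl hmin
      unfold blab_s at h1
      rw [← h x hx hl hmin] at h1
      constructor <;> intro ht <;> simp [ht] at h1 <;> linarith only [h1]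
    · have e0 : ∑ w ∈ T.side (T.dt v u), blab_w (Fintype.card V) k (blab_l y w) = 0 :=
        sum_eq_zero fun z hz => if_neg fun hz' => hl ((hmin z hz).trans hz')
      rw [e0]
      exact ⟨fun _ => le_rfl, fun _ => le_rfl⟩

open Classical in
/-- the centre and the vertices with a label below `i` -/
noncomputable def blab_U (v : V) (ℓ : V → ℕ) (i : ℕ) : Finset V := univ.filter fun x => x = v ∨ ℓ x < i

lemma blab_mem_U {v x : V} {ℓ : V → ℕ} {i : ℕ} : x ∈ blab_U v ℓ i ↔ x = v ∨ ℓ x < i := by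
  simp only [blab_U, mem_filter, mem_univ, true_and]

lemma blab_U_zero (v : V) (ℓ : V → ℕ) : (blab_U v ℓ 0).card = 1 :=
  card_eq_one.2 ⟨v, by ext x; simp [blab_mem_U]⟩

lemma blab_U_succ {k : ℕ} {y : V → Option (Fin (k + 2))} {v : V} (hv : ∀ x, y x = none ↔ x = v)
    (i : Fin (k + 2)) : (blab_U v (blab_l y) (i + 1)).card
      = (blab_U v (blab_l y) i).card + (univ.filter fun a => y a = some i).card := by
  classical
  rw [← card_union_of_disjoint]
  · congr 1
    ext x
    simp only [blab_mem_U, mem_union, mem_filter, mem_univ, true_and, blab_some hv]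
    by_cases e : x = v
    · simp [e]
    · simp only [e, false_or, ne_eq, not_false_eq_true, true_and]
      omega
  · rw [disjoint_left]
    intro x h1 h2
    rw [blab_mem_U] at h1
    obtain ⟨h3, h4⟩ := (blab_some hv x i).1 (mem_filter.1 h2).2
    rcases h1 with e | e
    · exact h3 e
    · omega

lemma blab_C (T : OT V) {k : ℕ} {E : ℕ → ℕ} (hE0 : E 0 = 1) (hE : ∀ i, E i ≤ E (i + 1))
    {y : V → Option (Fin (k + 2))} (hy : y ∈ labs T (blab_c k E) (blab_val (Fintype.card V) k E)) :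
    ∃ v, (∀ x, y x = none ↔ x = v) ∧ ∀ i ≤ k, blab_U v (blab_l y) (i + 1) ⊆ hull T.r v i ∧
      (blab_U v (blab_l y) (i + 1)).card = E (i + 1) := by
  obtain ⟨h1, h2⟩ := blab_mem.1 hy
  obtain ⟨v, hv⟩ := card_eq_one.1 (h1 none)
  have hv' : ∀ x, y x = none ↔ x = v := fun x => by
    rw [← mem_singleton (b := x), ← hv]
    simp
  have hc := (blab_flow T hv' (blab_total h1)).1 h2
  have key : ∀ i ≤ k + 2, (blab_U v (blab_l y) i).card = E i := by
    intro i
    induction i with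
    | zero => exact fun _ => by rw [blab_U_zero, hE0]
    | succ i ih =>
      intro hi
      have := blab_U_succ hv' ⟨i, hi⟩
      rw [h1] at this
      simp only [blab_c] at this
      rw [this, ih (by omega)]
      have := hE i
      omega
  refine ⟨v, hv', fun i hi => ⟨fun x hx => mem_hull.2 ?_, key _ (by omega)⟩⟩
  by_cases e : x = v
  · exact e ▸ inH_self _ _ _
  · have hl : blab_l y x ≤ i := Nat.lt_succ_iff.1 ((blab_mem_U.1 hx).resolve_left e)
    exact inH_mono hl (T.cond_sub hc e (hl.trans hi))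

open Classical in
/-- the labelling by first stages -/
noncomputable def blab_y (T : OT V) (k : ℕ) (v x : V) : Option (Fin (k + 2)) :=
  if x = v then none else some ⟨min (T.fs v x) (k + 1), by omega⟩

lemma blab_y_none (T : OT V) (k : ℕ) (v x : V) : blab_y T k v x = none ↔ x = v := by
  unfold blab_y
  split_ifs with e <;> simp [e]

lemma blab_y_l (T : OT V) (k : ℕ) {v x : V} (hx : x ≠ v) :
    blab_l (blab_y T k v) x = min (T.fs v x) (k + 1) := by
  simp [blab_l, blab_y, hx]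

lemma blab_D (T : OT V) {k : ℕ} {E : ℕ → ℕ} (hE0 : E 0 = 1) (hn : E (k + 2) = Fintype.card V) {v : V}
    (hv : ∀ i ≤ k, (hull T.r v i).card = E (i + 1)) :
    blab_y T k v ∈ labs T (blab_c k E) (blab_val (Fintype.card V) k E) := by
  have hv' := blab_y_none T k v
  have key : ∀ i ≤ k + 2, (blab_U v (blab_l (blab_y T k v)) i).card = E i := by
    rintro (_ | i) hi
    · rw [blab_U_zero, hE0]
    rcases Nat.lt_or_ge k i with h | h
    · obtain rfl : i = k + 1 := by omega
      rw [hn, ← card_univ]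
      congr 1
      exact eq_univ_of_forall fun x => blab_mem_U.2 (Or.inr (Nat.lt_succ_of_le (blab_l_le _ x)))
    · rw [← hv i h]
      congr 1
      ext x
      rw [blab_mem_U, mem_hull]
      by_cases e : x = v
      · simp [e, inH_self]
      · rw [blab_y_l T k e, ← T.fs_le]
        simp only [e, false_or]
        omega
  have h1 : ∀ l, (univ.filter fun a => blab_y T k v a = l).card = blab_c k E l := by
    rintro (_ | i)
    · exact card_eq_one.2 ⟨v, by ext x; simp [hv']⟩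
    · have := blab_U_succ hv' i
      rw [key _ (by omega), key _ (by omega)] at this
      simp only [blab_c]
      omega
  refine blab_mem.2 ⟨h1, (blab_flow T hv' (blab_total h1)).2 fun u hu x hx hl hmin => ?_⟩
  have hne : ∀ z ∈ T.side (T.dt v u), z ≠ v := fun z hz e => T.root_not_mem_dt hu (e ▸ hz)
  rw [blab_y_l T k (hne x hx)] at hl hmin ⊢
  have e : min (T.fs v x) (k + 1) = T.fs v x := by omega
  rw [e] at hl hmin ⊢
  refine T.cond_first v k u hu x hx hl fun z hz => (hmin z hz).trans ?_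
  rw [blab_y_l T k (hne z hz)]
  exact min_le_left _ _

/-- the size vector of a vertex -/
noncomputable def blab_E (T : OT V) (k : ℕ) (v : V) : ℕ → ℕ
  | 0 => 1
  | i + 1 => if i ≤ k then (hull T.r v i).card else Fintype.card V

lemma blab_E_mono (T : OT V) (k : ℕ) (v : V) (i : ℕ) : blab_E T k v i ≤ blab_E T k v (i + 1) := by
  have h0 : ∀ j, 1 ≤ (hull T.r v j).card := fun j => card_pos.2 ⟨v, mem_hull.2 (inH_self false v j)⟩
  rcases i with _ | i
  · simp only [blab_E, Nat.zero_le, if_true]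
    exact h0 0
  · simp only [blab_E]
    split_ifs with h1 h2 h2
    · exact card_le_card fun _ hu => mem_hull.2 (inH_mono (Nat.le_succ i) (mem_hull.1 hu))
    · exact card_le_univ _
    · omega
    · exact le_rfl

lemma blab_E_succ (T : OT V) {k i : ℕ} (v : V) (hi : i ≤ k) :
    (hull T.r v i).card = blab_E T k v (i + 1) := by simp [blab_E, hi]

lemma blab_E_last (T : OT V) (k : ℕ) (v : V) : blab_E T k v (k + 2) = Fintype.card V := by simp [blab_E]

lemma blab_F (T : OT V) {k : ℕ} {E : ℕ → ℕ} (hE0 : E 0 = 1) (hE : ∀ i, E i ≤ E (i + 1))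
    (hn : E (k + 2) = Fintype.card V) {v : V} (hv : v ∈ top T.r k)
    (he : ∀ i ≤ k, (hull T.r v i).card = E (i + 1)) :
    (top T.r k).card = (labs T (blab_c k E) (blab_val (Fintype.card V) k E)).card := by
  refine card_bij (fun w _ => blab_y T k w) (fun w hw => ?_) (fun w _ w' _ e => ?_) fun y hy => ?_
  · exact blab_D T hE0 hn fun i hi => by rw [top_card hw hv hi, he i hi]
  · exact (blab_y_none T k w' w).1 (by rw [← congrFun e w, blab_y_none])
  · obtain ⟨w, h1, h2⟩ := blab_C T hE0 hE hy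
    have hw : w ∈ top T.r k := top_of_le hv fun i hi => by
      rw [he i hi, ← (h2 i hi).2]
      exact card_le_card (h2 i hi).1
    refine ⟨w, hw, funext fun x => ?_⟩
    by_cases e : x = w
    · rw [(h1 x).2 e, blab_y_none]
      exact e
    have h3 : ∀ i ≤ k, blab_l y x < i + 1 ↔ T.fs w x ≤ i := fun i hi => by
      have := eq_of_subset_of_card_le (h2 i hi).1 (by rw [(h2 i hi).2, top_card hw hv hi, he i hi])
      rw [T.fs_le, ← mem_hull, ← this, blab_mem_U]
      simp [e]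
    have h4 := blab_l_le y x
    have h5 : min (T.fs w x) (k + 1) = blab_l y x := by
      have a1 := h3 (blab_l y x)
      have a2 := h3 (T.fs w x)
      omega
    refine Eq.symm ((blab_some h1 x ⟨min (T.fs w x) (k + 1), by omega⟩).2 ⟨e, h5.symm⟩ ▸ ?_)
    simp [blab_y, e]

lemma blab_symm {r : V → V → Prop} {r' : V' → V' → Prop} (h : SameG r r') : SameG r' r :=
  fun m => (h m).symm

lemma lab_le (T : OT V) (T' : OT V') (h : SameG T.r T'.r) (k : ℕ) (v : V) :
    ∃ w' : V', ∀ i ≤ k, (hull T.r v i).card ≤ (hull T'.r w' i).card := by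
  have h1 := blab_D T (E := blab_E T k v) rfl (blab_E_last T k v) fun i hi => blab_E_succ T v hi
  have h2 := card_pos.2 ⟨_, h1⟩
  rw [flow_count T T' h _ _ (blab_zero _ _ _), card_of_same T T' h] at h2
  obtain ⟨y, hy⟩ := card_pos.1 h2
  obtain ⟨w', -, h3⟩ := blab_C T' rfl (blab_E_mono T k v) hy
  refine ⟨w', fun i hi => ?_⟩
  rw [blab_E_succ T v hi, ← (h3 i hi).2]
  exact card_le_card (h3 i hi).1

theorem top_size (T : OT V) (T' : OT V') (h : SameG T.r T'.r) {k : ℕ} {v : V} {v' : V'} (hv : v ∈ top T.r k)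
    (hv' : v' ∈ top T'.r k) : ∀ i ≤ k, (hull T.r v i).card = (hull T'.r v' i).card := by
  obtain ⟨w', h1⟩ := lab_le T T' h k v
  obtain ⟨w, h2⟩ := lab_le T' T (blab_symm h) k v'
  exact top_lex hv hv' h1 h2

theorem top_count (T : OT V) (T' : OT V') (h : SameG T.r T'.r) (k : ℕ) :
    (top T.r k).card = (top T'.r k).card := by
  have hn := card_of_same T T' h
  rcases isEmpty_or_nonempty V with hV | hV
  · have h1 := card_le_univ (top T.r k)
    have h2 := card_le_univ (top T'.r k)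
    have h3 : Fintype.card V = 0 := Fintype.card_eq_zero
    omega
  have : Nonempty V' := Fintype.card_pos_iff.1 (hn ▸ Fintype.card_pos)
  obtain ⟨v, hv⟩ := top_nonempty (r := T.r) k
  obtain ⟨v', hv'⟩ := top_nonempty (r := T'.r) k
  rw [blab_F T rfl (blab_E_mono T k v) (blab_E_last T k v) hv fun i hi => blab_E_succ T v hi,
    blab_F T' rfl (blab_E_mono T k v) ((blab_E_last T k v).trans hn) hv' fun i hi => by
      rw [← top_size T T' h hv hv' i hi, blab_E_succ T v hi],
    flow_count T T' h _ _ (blab_zero _ _ _), hn]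

end Pool.Agent.Work.MP_be9894_co.AA
end

-- merged part: Pool.Agent.Work.MP_be9894_co.AA.BPair
section
/-!
Two tiers of labels.  `n = card V`, `B = (n+1)^2`, `s i = if tp false i then 1 else -1`.  A two-tier labelling is given by centres `v1`, `v2` and
label functions `ℓ1`, `ℓ2` (labelled means `≤ k`); `Y2` is its value.  This file treats the two geometric directions; the counting is
in `BMeet.lean`.

`pair_flow` (`flow_root` at `v1`): for `u ≠ v1`, if the side `S` of `dt v1 u` has a first-tier label, use `cond_first` for `v1` and `sign_sum` (all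
second-tier values, the centre value included, are small).  Otherwise `S` misses `hull v1 k`.  If `v2 ∉ S`, `dt_eq` and `cond_first` for `v2`.  If `v2 ∈ S`,
pass to the complement (`side_compl`, total zero): it is the side of `dt v2 (par v1 u)`, contains all of `hull v1 k`, whose values sum to zero,
and the type is the opposite one.

`pair_cond1`: `flow_root` at `v1`, `sign_sum`.
`pair_cond2`: let `u0 ∈ bd v1 k` with `v2 ∈ side (dt v1 u0)` (`side_cover`), `z0 = par v1 u0`.  First, all second-tier labels lie in `side (dt v1 u0)`: otherwise take `x`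
outside with the least second-tier label `m`; it lies in the side of some other `u2 ∈ bd v1 k`, which has no first-tier label and no centre, so
`ty (dt v1 u2) = tp false m = tp false (k+1)` (`bd_ty`); the complement of `side (dt v1 u0)` is `side (dt v2 z0)` and has the sign of `m`, so
`ty (dt v2 z0) = tp false (k+1) = ty (dt v1 u0)`, impossible for the two darts of one edge.  Then a side `S` of `dt v2 u` with a second-tier label either
misses `hull v1 k` or contains `side (dt v2 z0)` (`side_laminar`), hence all of it; in both cases its sum is the sum of its second-tier values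
(apply `sign_sum` to `S \\ hull v1 k`).
-/

set_option autoImplicit false

namespace Pool.Agent.Work.MP_be9894_co.AA

open Finset

variable {V : Type} [Fintype V]

/-- value of stage `i` -/
def sv (n i p : ℕ) : ℚ := (if tp false i then 1 else -1) / ((n + 1 : ℚ) ^ 2) ^ p

open Classical in
/-- value of a two-tier labelling with centre values `z1`, `z2` -/
noncomputable def Y2 (k : ℕ) (v1 v2 : V) (z1 z2 : ℚ) (ℓ1 ℓ2 : V → ℕ) (x : V) : ℚ :=
  if x = v1 then z1 else if x = v2 then z2 else if ℓ1 x ≤ k then sv (Fintype.card V) (ℓ1 x) (ℓ1 x)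
    else if ℓ2 x ≤ k then sv (Fintype.card V) (ℓ2 x) (k + 1 + ℓ2 x) else 0

open Classical in
/-- the data of a two-tier labelling: disjoint supports, each tier summing to zero -/
structure Two (k : ℕ) (v1 v2 : V) (z1 z2 : ℚ) (ℓ1 ℓ2 : V → ℕ) : Prop where
  ne : v1 ≠ v2
  c11 : k < ℓ1 v1
  c12 : k < ℓ1 v2
  c21 : k < ℓ2 v1
  c22 : k < ℓ2 v2
  disj : ∀ x, k < ℓ1 x ∨ k < ℓ2 x
  s1 : z1 + ∑ x ∈ univ.filter (fun x => ℓ1 x ≤ k), sv (Fintype.card V) (ℓ1 x) (ℓ1 x) = 0
  s2 : z2 + ∑ x ∈ univ.filter (fun x => ℓ2 x ≤ k), sv (Fintype.card V) (ℓ2 x) (k + 1 + ℓ2 x) = 0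

/-- sign of stage `i` -/
def bpair_s (i : ℕ) : ℚ := if tp false i then 1 else -1

lemma bpair_s_or (i : ℕ) : bpair_s i = 1 ∨ bpair_s i = -1 := by
  unfold bpair_s
  split_ifs
  · exact Or.inl rfl
  · exact Or.inr rfl

lemma bpair_sv (n i p : ℕ) : sv n i p = bpair_s i * (((n + 1 : ℚ) ^ 2) ^ p)⁻¹ := div_eq_mul_inv _ _

lemma bpair_pos (n p : ℕ) : (0 : ℚ) < (((n + 1 : ℚ) ^ 2) ^ p)⁻¹ := by positivity

lemma bpair_abs (n i p : ℕ) : |sv n i p| = (((n + 1 : ℚ) ^ 2) ^ p)⁻¹ := by
  rw [bpair_sv, abs_mul, abs_of_pos (bpair_pos n p)]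
  rcases bpair_s_or i with e | e <;> rw [e] <;> simp

lemma bpair_step (n : ℕ) {p q : ℕ} (h : p < q) :
    (((n + 1 : ℚ) ^ 2) ^ q)⁻¹ * (n + 1) ^ 2 ≤ (((n + 1 : ℚ) ^ 2) ^ p)⁻¹ := by
  have h1 : (1 : ℚ) ≤ (n + 1 : ℚ) ^ 2 := one_le_pow₀ (by linarith only [(Nat.cast_nonneg n : (0 : ℚ) ≤ n)])
  have h2 : ((n + 1 : ℚ) ^ 2) ^ (p + 1) ≤ ((n + 1 : ℚ) ^ 2) ^ q := pow_le_pow_right₀ h1 h
  have h3 : (((n + 1 : ℚ) ^ 2) ^ q)⁻¹ ≤ (((n + 1 : ℚ) ^ 2) ^ (p + 1))⁻¹ := inv_anti₀ (by positivity) h2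
  refine (mul_le_mul_of_nonneg_right h3 (by positivity)).trans (le_of_eq ?_)
  rw [pow_succ]
  field_simp

lemma bpair_small (n i : ℕ) {p q : ℕ} (h : p < q) :
    |sv n i q| * (n + 1) ≤ (((n + 1 : ℚ) ^ 2) ^ p)⁻¹ := by
  rw [bpair_abs]
  refine le_trans (mul_le_mul_of_nonneg_left ?_ (bpair_pos n q).le) (bpair_step n h)
  linarith only [(Nat.cast_nonneg n : (0 : ℚ) ≤ n), mul_nonneg_of_nonpos_of_nonpos (Mathlib.Tactic.Linarith.sub_nonpos_of_le (Mathlib.Tactic.Linarith.natCast_nonneg ℚ n)) (Mathlib.Tactic.Linarith.sub_nonpos_of_le (Mathlib.Tactic.Linarith.natCast_nonneg ℚ n))]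

/-- the sign condition of one dart -/
def bpair_P (t : Bool) (σ : ℚ) : Prop := (t = true → 0 ≤ σ) ∧ (t = false → σ ≤ 0)

lemma bpair_P_of {i : ℕ} {σ : ℚ} (h : 0 < bpair_s i * σ) : bpair_P (tp false i) σ := by
  unfold bpair_s at h
  constructor <;> intro e <;> rw [e] at h <;> simp at h <;> linarith

lemma bpair_of_P {i : ℕ} {σ : ℚ} {t : Bool} (h : 0 < bpair_s i * σ) (hP : bpair_P t σ) : t = tp false i := by
  unfold bpair_s at h
  generalize tp false i = τ at h
  cases t <;> cases τ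
  · rfl
  · simp only [if_true, one_mul] at h
    linarith only [h, hP, hP.2 rfl]
  · simp only [Bool.false_eq_true, if_false] at h
    linarith [hP.1 rfl]
  · rfl

section two

variable {k : ℕ} {v1 v2 : V} {z1 z2 : ℚ} {ℓ1 ℓ2 : V → ℕ} (h : Two k v1 v2 z1 z2 ℓ1 ℓ2)
include h

lemma bpair_z2 {p : ℕ} (hp : p ≤ k) :
    |z2| * (Fintype.card V + 1) ≤ (((Fintype.card V + 1 : ℚ) ^ 2) ^ p)⁻¹ := by
  classical
  have e : z2 = -∑ x ∈ univ.filter (fun x => ℓ2 x ≤ k), sv (Fintype.card V) (ℓ2 x) (k + 1 + ℓ2 x) :=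
    eq_neg_of_add_eq_zero_left (by convert h.s2)
  have h0 : (0 : ℚ) ≤ Fintype.card V := Nat.cast_nonneg _
  have h1 : |z2| ≤ (Fintype.card V : ℚ) * (((Fintype.card V + 1 : ℚ) ^ 2) ^ (k + 1))⁻¹ := by
    rw [e, abs_neg]
    refine (abs_sum_le_sum_abs _ _).trans ((sum_le_card_nsmul _ _
      (((Fintype.card V + 1 : ℚ) ^ 2) ^ (k + 1))⁻¹ fun x _ => ?_).trans ?_)
    · rw [bpair_abs]
      exact inv_anti₀ (by positivity) (pow_le_pow_right₀ (one_le_pow₀ (by linarith only [])) (Nat.le_add_right _ _))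
    · rw [nsmul_eq_mul]
      exact mul_le_mul_of_nonneg_right (Nat.cast_le.2 (card_le_univ _)) (bpair_pos _ _).le
  have h2 := bpair_step (Fintype.card V) (show p < k + 1 by omega)
  have h3 := bpair_pos (Fintype.card V) (k + 1)
  have h4 := mul_le_mul_of_nonneg_right h1 (show (0 : ℚ) ≤ Fintype.card V + 1 by linarith only [])
  refine h4.trans (le_trans ?_ h2)
  generalize (((Fintype.card V + 1 : ℚ) ^ 2) ^ (k + 1))⁻¹ = c at h3
  linarith only [h3, h0, mul_nonneg h3.le h0]

lemma bpair_Y1 {x : V} (hx : ℓ1 x ≤ k) :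
    Y2 k v1 v2 z1 z2 ℓ1 ℓ2 x = sv (Fintype.card V) (ℓ1 x) (ℓ1 x) := by
  have e1 : x ≠ v1 := fun e => absurd (e ▸ hx) (not_le.2 h.c11)
  have e2 : x ≠ v2 := fun e => absurd (e ▸ hx) (not_le.2 h.c12)
  simp only [Y2, if_neg e1, if_neg e2, if_pos hx]

lemma bpair_not1 {x : V} (hx : ℓ2 x ≤ k) : ¬ (x = v1 ∨ ℓ1 x ≤ k) := by
  rintro (e | e)
  · exact absurd (e ▸ hx) (not_le.2 h.c21)
  · have := h.disj x
    omega

lemma bpair_Y2 {x : V} (hx : ℓ2 x ≤ k) :
    Y2 k v1 v2 z1 z2 ℓ1 ℓ2 x = sv (Fintype.card V) (ℓ2 x) (k + 1 + ℓ2 x) := by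
  have e0 := not_or.1 (bpair_not1 h hx)
  have e2 : x ≠ v2 := fun e => absurd (e ▸ hx) (not_le.2 h.c22)
  simp only [Y2, if_neg e0.1, if_neg e2, if_neg e0.2, if_pos hx]

omit h in
lemma bpair_Y0 {x : V} (e1 : x ≠ v1) (e2 : x ≠ v2) (e3 : ¬ ℓ1 x ≤ k) (e4 : ¬ ℓ2 x ≤ k) :
    Y2 k v1 v2 z1 z2 ℓ1 ℓ2 x = 0 := by
  simp only [Y2, if_neg e1, if_neg e2, if_neg e3, if_neg e4]

lemma bpair_sign1 {S : Finset V} (hv : v1 ∉ S) {x : V} (hx : x ∈ S) (hl : ℓ1 x ≤ k)
    (hm : ∀ x' ∈ S, ℓ1 x ≤ ℓ1 x') : 0 < bpair_s (ℓ1 x) * ∑ w ∈ S, Y2 k v1 v2 z1 z2 ℓ1 ℓ2 w := by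
  refine sign_sum S (card_le_univ S) _ (bpair_pos (Fintype.card V) (ℓ1 x)) (bpair_s_or _) hx
    (by rw [bpair_Y1 h hl, bpair_sv]) fun y hy => ?_
  have e1 : y ≠ v1 := fun e => hv (e ▸ hy)
  by_cases e2 : y = v2
  · refine Or.inr ?_
    have : Y2 k v1 v2 z1 z2 ℓ1 ℓ2 y = z2 := by simp only [Y2, if_neg e1, if_pos e2]
    rw [this]
    exact bpair_z2 h hl
  by_cases e3 : ℓ1 y ≤ k
  · rw [bpair_Y1 h e3]
    rcases (hm y hy).eq_or_lt with e | e
    · exact Or.inl (by rw [← e, bpair_sv])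
    · exact Or.inr (bpair_small _ _ e)
  by_cases e4 : ℓ2 y ≤ k
  · rw [bpair_Y2 h e4]
    exact Or.inr (bpair_small _ _ (by omega))
  · rw [bpair_Y0 e1 e2 e3 e4]
    exact Or.inr (by simpa using (bpair_pos (Fintype.card V) (ℓ1 x)).le)

open Classical in
lemma bpair_sum1 : ∑ w ∈ univ.filter (fun x => x = v1 ∨ ℓ1 x ≤ k), Y2 k v1 v2 z1 z2 ℓ1 ℓ2 w = 0 := by
  have e : univ.filter (fun x => x = v1 ∨ ℓ1 x ≤ k) = insert v1 (univ.filter fun x => ℓ1 x ≤ k) := by
    ext x
    simp
  have hn : v1 ∉ univ.filter fun x => ℓ1 x ≤ k := fun e => absurd (mem_filter.1 e).2 (not_le.2 h.c11)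
  rw [e, sum_insert hn, sum_congr rfl fun x hx => bpair_Y1 h (mem_filter.1 hx).2, ← h.s1]
  simp only [Y2, if_pos]

open Classical in
/-- the first tier can be dropped -/
lemma bpair_drop {S : Finset V}
    (hS : (∀ x, x = v1 ∨ ℓ1 x ≤ k → x ∈ S) ∨ ∀ x, x = v1 ∨ ℓ1 x ≤ k → x ∉ S) :
    ∑ w ∈ S, Y2 k v1 v2 z1 z2 ℓ1 ℓ2 w =
      ∑ w ∈ S.filter (fun x => ¬ (x = v1 ∨ ℓ1 x ≤ k)), Y2 k v1 v2 z1 z2 ℓ1 ℓ2 w := by
  rw [← sum_filter_add_sum_filter_not S (fun x => x = v1 ∨ ℓ1 x ≤ k)]
  rcases hS with hS | hS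
  · have e : S.filter (fun x => x = v1 ∨ ℓ1 x ≤ k) = univ.filter (fun x => x = v1 ∨ ℓ1 x ≤ k) := by
      ext x
      simp only [mem_filter, mem_univ, true_and]
      exact ⟨fun e => e.2, fun e => ⟨hS x e, e⟩⟩
    rw [e, bpair_sum1 h, zero_add]
  · rw [filter_eq_empty_iff.2 fun x hx e => hS x e hx, sum_empty, zero_add]

lemma bpair_total : ∑ w, Y2 k v1 v2 z1 z2 ℓ1 ℓ2 w = 0 := by
  classical
  rw [bpair_drop h (Or.inl fun x _ => mem_univ x)]
  have hn : v2 ∉ univ.filter fun x => ℓ2 x ≤ k := fun e => absurd (mem_filter.1 e).2 (not_le.2 h.c22)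
  have e1 : v2 ≠ v1 := h.ne.symm
  rw [← sum_subset (s₁ := insert v2 (univ.filter fun x => ℓ2 x ≤ k)), sum_insert hn,
    sum_congr rfl fun x hx => bpair_Y2 h (mem_filter.1 hx).2, ← h.s2]
  · simp only [Y2, if_neg e1, if_pos]
  · intro x hx
    refine mem_filter.2 ⟨mem_univ _, ?_⟩
    rcases mem_insert.1 hx with rfl | hx
    · exact not_or.2 ⟨e1, not_le.2 h.c12⟩
    · exact bpair_not1 h (mem_filter.1 hx).2
  · intro x hx hx'
    have e2 := not_or.1 (mem_filter.1 hx).2
    simp only [mem_insert, mem_filter, mem_univ, true_and, not_or] at hx'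
    exact bpair_Y0 e2.1 hx'.1 e2.2 hx'.2

lemma bpair_sign2 {S : Finset V} (hv : v2 ∉ S)
    (hS : (∀ x, x = v1 ∨ ℓ1 x ≤ k → x ∈ S) ∨ ∀ x, x = v1 ∨ ℓ1 x ≤ k → x ∉ S) {x : V} (hx : x ∈ S)
    (hl : ℓ2 x ≤ k) (hm : ∀ x' ∈ S, ℓ2 x ≤ ℓ2 x') :
    0 < bpair_s (ℓ2 x) * ∑ w ∈ S, Y2 k v1 v2 z1 z2 ℓ1 ℓ2 w := by
  classical
  rw [bpair_drop h hS]
  refine sign_sum _ (card_le_univ _) _ (bpair_pos (Fintype.card V) (k + 1 + ℓ2 x)) (bpair_s_or _)
    (mem_filter.2 ⟨hx, bpair_not1 h hl⟩) (by rw [bpair_Y2 h hl, bpair_sv]) fun y hy => ?_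
  obtain ⟨hy, e0⟩ := mem_filter.1 hy
  by_cases e4 : ℓ2 y ≤ k
  · rw [bpair_Y2 h e4]
    rcases (hm y hy).eq_or_lt with e | e
    · exact Or.inl (by rw [← e, bpair_sv])
    · exact Or.inr (bpair_small _ _ (by omega))
  · rw [bpair_Y0 (not_or.1 e0).1 (fun e : y = v2 => hv (e ▸ hy)) (not_or.1 e0).2 e4]
    exact Or.inr (by simpa using (bpair_pos (Fintype.card V) (k + 1 + ℓ2 x)).le)

lemma bpair_zero {S : Finset V} (hv : v2 ∉ S)
    (hS : (∀ x, x = v1 ∨ ℓ1 x ≤ k → x ∈ S) ∨ ∀ x, x = v1 ∨ ℓ1 x ≤ k → x ∉ S)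
    (hl : ∀ x ∈ S, ¬ ℓ2 x ≤ k) : ∑ w ∈ S, Y2 k v1 v2 z1 z2 ℓ1 ℓ2 w = 0 := by
  classical
  rw [bpair_drop h hS]
  refine sum_eq_zero fun y hy => ?_
  obtain ⟨hy, e0⟩ := mem_filter.1 hy
  exact bpair_Y0 (not_or.1 e0).1 (fun e => hv (e ▸ hy)) (not_or.1 e0).2 (hl y hy)

end two

/-- the least label of a side is a least first stage -/
lemma bpair_first (T : OT V) {k : ℕ} {v u x : V} {ℓ : V → ℕ}
    (h1 : ∀ x, x ≠ v → (ℓ x = T.fs v x ∨ (k < ℓ x ∧ k < T.fs v x))) (hu : u ≠ v)
    (hx : x ∈ T.side (T.dt v u)) (hl : ℓ x ≤ k) (hm : ∀ x' ∈ T.side (T.dt v u), ℓ x ≤ ℓ x') :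
    T.ty (T.dt v u) = tp false (ℓ x) := by
  have hn : ∀ y ∈ T.side (T.dt v u), y ≠ v := fun y hy e => T.root_not_mem_dt hu (e ▸ hy)
  have e : ℓ x = T.fs v x := (h1 x (hn x hx)).resolve_right fun e => by omega
  rw [e]
  refine T.cond_first v k u hu x hx (e ▸ hl) fun y hy => ?_
  have := hm y hy
  rcases h1 y (hn y hy) with e' | e' <;> omega

/-- the opposite dart -/
lemma bpair_flip (T : OT V) {v u w : V} (hu : u ≠ v) (hw : w ∈ T.side (T.dt v u)) :
    T.par v u ≠ w ∧ (∀ x, x ∈ T.side (T.dt w (T.par v u)) ↔ x ∉ T.side (T.dt v u)) ∧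
      T.ty (T.dt w (T.par v u)) = !T.ty (T.dt v u) := by
  have ha := T.adj_par v u hu
  have h1 := (T.side_compl ha w).1 hw
  rw [T.mem_side, not_not] at h1
  have e : T.dt w (T.par v u) = (T.par v u, some u) := Prod.ext rfl h1.2.symm
  refine ⟨h1.1, fun x => by rw [e]; exact T.side_compl ha.symm x, ?_⟩
  rw [e]
  have t1 := T.ty_some (T.par v u) u
  have t2 : T.ty (T.dt v u) = true ↔ T.r u (T.par v u) := T.ty_some u (T.par v u)
  have a1 := T.asym u (T.par v u)
  cases e1 : T.ty (T.par v u, some u) <;> cases e2 : T.ty (T.dt v u) <;> rw [e1] at t1 <;> rw [e2] at t2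
  · exact (ha.elim (fun k => by simpa using t2.2 k) fun k => by simpa using t1.2 k : False).elim
  · rfl
  · rfl
  · exact (a1 (t2.1 rfl) (t1.1 rfl)).elim

lemma pair_flow (T : OT V) {k : ℕ} {v1 v2 : V} {z1 z2 : ℚ} {ℓ1 ℓ2 : V → ℕ} (h : Two k v1 v2 z1 z2 ℓ1 ℓ2)
    (h1 : ∀ x, x ≠ v1 → (ℓ1 x = T.fs v1 x ∨ (k < ℓ1 x ∧ k < T.fs v1 x)))
    (h2 : ∀ x, x ≠ v2 → (ℓ2 x = T.fs v2 x ∨ (k < ℓ2 x ∧ k < T.fs v2 x))) :
    Flow T (Y2 k v1 v2 z1 z2 ℓ1 ℓ2) := by
  classical
  have second : ∀ u, u ≠ v2 → ((∀ x, x = v1 ∨ ℓ1 x ≤ k → x ∈ T.side (T.dt v2 u)) ∨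
      ∀ x, x = v1 ∨ ℓ1 x ≤ k → x ∉ T.side (T.dt v2 u)) →
      bpair_P (T.ty (T.dt v2 u)) (∑ w ∈ T.side (T.dt v2 u), Y2 k v1 v2 z1 z2 ℓ1 ℓ2 w) := by
    intro u hu hS
    have hv := T.root_not_mem_dt hu
    by_cases e : ∃ x ∈ T.side (T.dt v2 u), ℓ2 x ≤ k
    · obtain ⟨y, hy, hl⟩ := e
      obtain ⟨x, hx, hm⟩ := exists_min_image _ ℓ2 ⟨y, hy⟩
      have hl' := (hm y hy).trans hl
      rw [bpair_first T h2 hu hx hl' hm]
      exact bpair_P_of (bpair_sign2 h hv hS hx hl' hm)
    · rw [bpair_zero h hv hS fun x hx hl => e ⟨x, hx, hl⟩]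
      exact ⟨fun _ => le_rfl, fun _ => le_rfl⟩
  refine (flow_root T _ (bpair_total h) v1).2 fun u hu => ?_
  change bpair_P _ _
  have hv := T.root_not_mem_dt hu
  by_cases e : ∃ x ∈ T.side (T.dt v1 u), ℓ1 x ≤ k
  · obtain ⟨y, hy, hl⟩ := e
    obtain ⟨x, hx, hm⟩ := exists_min_image _ ℓ1 ⟨y, hy⟩
    have hl' := (hm y hy).trans hl
    rw [bpair_first T h1 hu hx hl' hm]
    exact bpair_P_of (bpair_sign1 h hv hx hl' hm)
  have hd : ∀ x, x = v1 ∨ ℓ1 x ≤ k → x ∉ T.side (T.dt v1 u) := by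
    rintro x (rfl | hl) hx
    · exact hv hx
    · exact e ⟨x, hx, hl⟩
  by_cases e2 : v2 ∈ T.side (T.dt v1 u)
  · obtain ⟨f1, f2, f3⟩ := bpair_flip T hu e2
    have k1 := second _ f1 (Or.inl fun x hx => (f2 x).2 (hd x hx))
    have e3 : T.side (T.dt v2 (T.par v1 u)) = (T.side (T.dt v1 u))ᶜ := by
      ext x
      rw [f2, mem_compl]
    have e4 := sum_add_sum_compl (T.side (T.dt v1 u)) (Y2 k v1 v2 z1 z2 ℓ1 ℓ2)
    rw [bpair_total h] at e4
    rw [f3, e3] at k1
    constructor <;> intro e5 <;> rw [e5] at k1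
    · linarith [k1.2 rfl]
    · linarith [k1.1 rfl]
  · obtain ⟨f1, f2⟩ := T.dt_eq e2
    have k1 := second u f1 (Or.inr (f2 ▸ hd))
    rwa [f2] at k1

lemma pair_cond1 (T : OT V) {k : ℕ} {v1 v2 : V} {z1 z2 : ℚ} {ℓ1 ℓ2 : V → ℕ} (h : Two k v1 v2 z1 z2 ℓ1 ℓ2)
    (hF : Flow T (Y2 k v1 v2 z1 z2 ℓ1 ℓ2)) : T.Cond v1 k ℓ1 := by
  intro u hu x hx hl hm
  exact bpair_of_P (bpair_sign1 h (T.root_not_mem_dt hu) hx hl hm)
    ((flow_root T _ (bpair_total h) v1).1 hF u hu)

lemma pair_cond2 (T : OT V) {k : ℕ} {v1 v2 : V} {z1 z2 : ℚ} {ℓ1 ℓ2 : V → ℕ} (h : Two k v1 v2 z1 z2 ℓ1 ℓ2)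
    (hF : Flow T (Y2 k v1 v2 z1 z2 ℓ1 ℓ2)) (hH : ∀ x, x ∈ hull T.r v1 k ↔ x = v1 ∨ ℓ1 x ≤ k) :
    T.Cond v2 k ℓ2 := by
  have F1 := (flow_root T _ (bpair_total h) v1).1 hF
  have F2 := (flow_root T _ (bpair_total h) v2).1 hF
  have hv2 : v2 ∉ hull T.r v1 k := fun e => ((hH v2).1 e).elim h.ne.symm (not_le.2 h.c12)
  obtain ⟨u0, hu0, hs0⟩ := T.side_cover hv2
  obtain ⟨b1, b2⟩ := T.bd_ty hu0
  obtain ⟨f1, f2, f3⟩ := bpair_flip T b1 hs0
  have hin : ∀ x, x = v1 ∨ ℓ1 x ≤ k → x ∈ T.side (T.dt v2 (T.par v1 u0)) := fun x hx =>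
    (f2 x).2 fun e => T.side_bd_disj hu0 e ((hH x).2 hx)
  have A : ∀ y ∈ T.side (T.dt v2 (T.par v1 u0)), ¬ ℓ2 y ≤ k := by
    intro y hy hl
    obtain ⟨x, hx, hm⟩ := exists_min_image _ ℓ2 ⟨y, hy⟩
    have hl' := (hm y hy).trans hl
    have t1 := bpair_of_P (bpair_sign2 h (T.root_not_mem_dt f1) (Or.inl hin) hx hl' hm) (F2 _ f1)
    obtain ⟨u2, hu2, hs2⟩ := T.side_cover (v := v1) (j := k) fun e => bpair_not1 h hl' ((hH x).1 e)
    obtain ⟨c1, c2⟩ := T.bd_ty hu2
    have sub : ∀ w ∈ T.side (T.dt v1 u2), w ∉ T.side (T.dt v1 u0) := fun w hw hw' =>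
      (f2 x).1 hx (T.side_cover_unique hu2 hu0 hw hw' ▸ hs2)
    have t2 := bpair_of_P (bpair_sign2 h (fun e => sub v2 e hs0)
      (Or.inr fun w hw e => T.side_bd_disj hu2 e ((hH w).2 hw)) hs2 hl'
      fun w hw => hm w ((f2 w).2 (sub w hw))) (F1 _ c1)
    rw [f3, b2, ← c2, t2] at t1
    simp at t1
  intro u hu x hx hl hm
  refine bpair_of_P (bpair_sign2 h (T.root_not_mem_dt hu) ?_ hx hl hm) (F2 u hu)
  by_cases e : ∃ y, (y = v1 ∨ ℓ1 y ≤ k) ∧ y ∈ T.side (T.dt v2 u)
  · obtain ⟨y, hy, hy'⟩ := e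
    rcases T.side_laminar hu f1 hy' (hin y hy) with k1 | k1
    · exact (A x (k1 hx) hl).elim
    · exact Or.inl fun w hw => k1 (hin w hw)
  · exact Or.inr fun y hy hy' => e ⟨y, hy, hy'⟩

end Pool.Agent.Work.MP_be9894_co.AA
end

-- merged part: Pool.Agent.Work.MP_be9894_co.AA.BMeet
section
/-!
If the best hull of `T` is unique, any two best hulls of `T'` meet.

Suppose `hull v' k` and `hull w' k` are disjoint; both have the size vector `e` (`top_card`).  Labels `Λ = Option (Bool × Option (Fin (k+1)))`: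
`none` has value `0`, `some (t, none)` is the centre of tier `t` (used once, value minus the sum of the values of its tier), `some (false, some i)` has value
`sv n i i`, `some (true, some i)` has value `sv n i (k+1+i)`; both tiers have content `e 0 - 1`, `e (i+1) - e i`; `none` has content `n - 2 e k`.  The labelling of `T'` by
`fs v'` on `hull v' k` and `fs w'` on `hull w' k` lies in `labs` (`pair_flow`), so by `flow_count` (`card_of_same`) some `y` lies in `labs T`.  Read off centres `v1`, `v2` and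
labels `ℓ1`, `ℓ2` (`k + 1` when absent); `val ∘ y = Y2 ..`.  `pair_cond1`, `cond_sub` give `insert v1 {x | ℓ1 x ≤ i} ⊆ hull v1 i` with size `e i`; with `top_size`, `top_of_le`,
`top_card` (and `top_nonempty`) `v1 ∈ top T.r k` and equality holds at `i = k`.  `pair_cond2` gives `v2 ∈ top T.r k` in the same way, and `v2 ∉ hull v1 k` contradicts `Uniq`.
-/

set_option autoImplicit false

namespace Pool.Agent.Work.MP_be9894_co.AA

open Finset

variable {V V' : Type} [Fintype V] [Fintype V']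

lemma bmeet_sum {k : ℕ} {v1 v2 : V} {z1 z2 : ℚ} {ℓ1 ℓ2 : V → ℕ} (h : Two k v1 v2 z1 z2 ℓ1 ℓ2) :
    ∑ x, Y2 k v1 v2 z1 z2 ℓ1 ℓ2 x = 0 := by
  classical
  have e : ∀ x, Y2 k v1 v2 z1 z2 ℓ1 ℓ2 x = ((if x = v1 then z1 else 0) +
      (if ℓ1 x ≤ k then sv (Fintype.card V) (ℓ1 x) (ℓ1 x) else 0)) + ((if x = v2 then z2 else 0) +
      if ℓ2 x ≤ k then sv (Fintype.card V) (ℓ2 x) (k + 1 + ℓ2 x) else 0) := by
    intro x
    unfold Y2
    by_cases h1 : x = v1
    · subst h1
      simp [h.ne, h.c11.not_ge, h.c21.not_ge]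
    · by_cases h2 : x = v2
      · subst h2
        simp [h1, h.c12.not_ge, h.c22.not_ge]
      · rcases h.disj x with h3 | h3 <;> simp [h1, h2, h3.not_ge]
  have s1 := h.s1
  have s2 := h.s2
  rw [sum_filter] at s1 s2
  simp only [e, sum_add_distrib, sum_ite_eq', mem_univ, if_true]
  rw [s1, s2, add_zero]

lemma bmeet_two (σ : V ≃ V') {k : ℕ} {v1 v2 : V'} {z1 z2 : ℚ} {ℓ1 ℓ2 : V' → ℕ}
    (h : Two k v1 v2 z1 z2 ℓ1 ℓ2) :
    Two k (σ.symm v1) (σ.symm v2) z1 z2 (fun x => ℓ1 (σ x)) (fun x => ℓ2 (σ x)) := by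
  have hc := Fintype.card_congr σ
  refine ⟨σ.symm.injective.ne h.ne, by simpa using h.c11, by simpa using h.c12,
    by simpa using h.c21, by simpa using h.c22, fun x => h.disj _, ?_, ?_⟩
  · rw [← h.s1, hc]
    congr 1
    exact sum_equiv σ (by simp) fun _ _ => rfl
  · rw [← h.s2, hc]
    congr 1
    exact sum_equiv σ (by simp) fun _ _ => rfl

lemma bmeet_Y2 (σ : V ≃ V') (k : ℕ) (v1 v2 : V') (z1 z2 : ℚ) (ℓ1 ℓ2 : V' → ℕ) :
    Y2 k (σ.symm v1) (σ.symm v2) z1 z2 (fun x => ℓ1 (σ x)) (fun x => ℓ2 (σ x)) =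
      fun x => Y2 k v1 v2 z1 z2 ℓ1 ℓ2 (σ x) := by
  classical
  funext x
  unfold Y2
  rw [Fintype.card_congr σ]
  have e : ∀ v, (x = σ.symm v) = (σ x = v) := fun v => propext σ.eq_symm_apply
  rw [e, e]

lemma bmeet_top (T : OT V) (T' : OT V') (h : SameG T.r T'.r) (σ : V ≃ V') {k : ℕ} {v' : V'}
    (hv : v' ∈ top T'.r k) {ℓ : V' → ℕ} (hℓ : ∀ x, x ≠ v' → ℓ x = T'.fs v' x)
    (hc : T.Cond (σ.symm v') k fun x => ℓ (σ x)) :
    σ.symm v' ∈ top T.r k ∧ ∀ x, x ∈ hull T.r (σ.symm v') k ↔ σ x ∈ hull T'.r v' k := by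
  have h1 : ∀ i ≤ k, (hull T'.r v' i).map σ.symm.toEmbedding ⊆ hull T.r (σ.symm v') i := by
    intro i hi x hx
    rw [mem_map_equiv, Equiv.symm_symm, mem_hull, ← OT.fs_le] at hx
    rw [mem_hull]
    by_cases hx' : x = σ.symm v'
    · rw [hx']
      exact inH_self _ _ _
    · have h2 : ℓ (σ x) ≤ i := by
        rwa [hℓ _ fun e => hx' (σ.eq_symm_apply.2 e)]
      exact inH_mono h2 (T.cond_sub hc hx' (h2.trans hi))
  have : Nonempty V := ⟨σ.symm v'⟩
  obtain ⟨u, hu⟩ := top_nonempty (r := T.r) k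
  have h2 : σ.symm v' ∈ top T.r k := top_of_le hu fun i hi => by
    rw [top_size T T' h hu hv i hi, ← card_map σ.symm.toEmbedding]
    exact card_le_card (h1 i hi)
  refine ⟨h2, fun x => ?_⟩
  rw [← eq_of_subset_of_card_le (h1 k le_rfl) (by rw [card_map, top_size T T' h h2 hv k le_rfl]),
    mem_map_equiv, Equiv.symm_symm]

theorem top_meet (T : OT V) (T' : OT V') (h : SameG T.r T'.r) {k : ℕ} (hU : Uniq T.r k) {v' w' : V'}
    (hv : v' ∈ top T'.r k) (hw : w' ∈ top T'.r k) : ∃ x, x ∈ hull T'.r v' k ∧ x ∈ hull T'.r w' k := by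
  classical
  by_contra hno
  have hd : ∀ x, k < T'.fs v' x ∨ k < T'.fs w' x := fun x => by
    by_contra h1
    rw [not_or, not_lt, not_lt, OT.fs_le, OT.fs_le] at h1
    exact hno ⟨x, mem_hull.2 h1.1, mem_hull.2 h1.2⟩
  have hs : ∀ u : V', T'.fs u u ≤ k := fun u => T'.fs_le.2 (inH_self _ _ _)
  have hne : v' ≠ w' := fun e => by
    subst e
    exact (hd v').elim (hs v').not_gt (hs v').not_gt
  let ℓ : V' → V' → ℕ := fun u x => if x = u then k + 1 else T'.fs u x
  have hℓ : ∀ u x, x ≠ u → ℓ u x = T'.fs u x := fun u x hx => if_neg hx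
  have hℓ' : ∀ u, k < ℓ u u := fun u => by simp [ℓ]
  have hℓ'' : ∀ u x, k < T'.fs u x → k < ℓ u x := fun u x hx => by
    by_cases e : x = u
    · rw [e]; exact hℓ' u
    · rwa [hℓ u x e]
  obtain ⟨z1, z2, h2⟩ : ∃ z1 z2, Two k v' w' z1 z2 (ℓ v') (ℓ w') :=
    ⟨_, _, hne, hℓ' v', hℓ'' _ _ ((hd w').resolve_right (hs w').not_gt),
      hℓ'' _ _ ((hd v').resolve_left (hs v').not_gt), hℓ' w',
      fun x => (hd x).imp (hℓ'' _ _) (hℓ'' _ _), neg_add_cancel _, neg_add_cancel _⟩
  have hF := pair_flow T' h2 (fun x hx => Or.inl (hℓ _ x hx)) (fun x hx => Or.inl (hℓ _ x hx))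
  have hcnt := flow_count T T' h (fun _ : V' => 1) (Y2 k v' w' z1 z2 (ℓ v') (ℓ w'))
    (by simpa using bmeet_sum h2)
  have hpos : (labs T' (fun _ : V' => 1) (Y2 k v' w' z1 z2 (ℓ v') (ℓ w'))).Nonempty :=
    ⟨id, mem_labs.2 ⟨fun l => card_eq_one.2 ⟨l, by ext a; simp⟩, hF⟩⟩
  rw [← card_pos, ← hcnt, card_pos] at hpos
  obtain ⟨y, hy⟩ := hpos
  obtain ⟨hy1, hy2⟩ := mem_labs.1 hy
  have hb : Function.Bijective y := (Function.bijective_iff_existsUnique y).2 fun l => by
    obtain ⟨a, ha⟩ := card_eq_one.1 (hy1 l)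
    have h3 : ∀ b, y b = l ↔ b = a := fun b => by simpa using Finset.ext_iff.1 ha b
    exact ⟨a, (h3 a).2 rfl, fun b hb => (h3 b).1 hb⟩
  let σ : V ≃ V' := Equiv.ofBijective y hb
  have h3 := bmeet_two σ h2
  have h4 : Flow T (Y2 k (σ.symm v') (σ.symm w') z1 z2 (fun x => ℓ v' (σ x)) fun x => ℓ w' (σ x)) := by
    rw [bmeet_Y2]
    exact hy2
  obtain ⟨a1, a2⟩ := bmeet_top T T' h σ hv (hℓ v') (pair_cond1 T h3 h4)
  obtain ⟨b1, b2⟩ := bmeet_top T T' h σ hw (hℓ w') (pair_cond2 T h3 h4 fun x => by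
    rw [a2, mem_hull, ← OT.fs_le, σ.eq_symm_apply]
    by_cases e : σ x = v'
    · rw [e]
      exact iff_of_true (hs v') (Or.inl rfl)
    · rw [hℓ _ _ e, or_iff_right e])
  have h5 : σ.symm w' ∈ hull T.r (σ.symm w') k := mem_hull.2 (inH_self _ _ _)
  exact hno ⟨_, (a2 _).1 (hU _ a1 _ b1 ▸ h5), (b2 _).1 h5⟩

end Pool.Agent.Work.MP_be9894_co.AA
end

-- merged part: Pool.Agent.Work.MP_be9894_co.AA.Stage2
section
/-!
Top coefficients at each stage (plan in the header of `Stage.lean`; `BS.P_eq` for stage zero).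
-/

set_option autoImplicit false

namespace Pool.Agent.Work.MP_be9894_co.AA

open Finset Polynomial

namespace OT

variable {V : Type} [Fintype V] (T : OT V)

lemma stage2_prod {α : Type} (s : Finset α) (f : α → QA[X]) (n : α → ℕ) (a : α → QA)
    (h : ∀ u ∈ s, (f u).natDegree ≤ n u ∧ (f u).coeff (n u) = (-1) ^ (n u) * a u) :
    (∏ u ∈ s, f u).natDegree ≤ ∑ u ∈ s, n u ∧
      (∏ u ∈ s, f u).coeff (∑ u ∈ s, n u) = (-1) ^ (∑ u ∈ s, n u) * ∏ u ∈ s, a u := by
  classical
  induction s using Finset.induction_on with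
  | empty => simp
  | insert x s hx ih =>
    have h1 := h x (mem_insert_self _ _)
    have h2 := ih fun u hu => h u (mem_insert_of_mem hu)
    rw [prod_insert hx, prod_insert hx, sum_insert hx]
    refine ⟨natDegree_mul_le.trans (add_le_add h1.1 h2.1), ?_⟩
    rw [coeff_mul_add_eq_of_natDegree_le h1.1 h2.1, h1.2, h2.2, pow_add]
    ring

/-- good darts at stage `i` -/
def stage2G (v : V) (i : ℕ) (d : V × Option V) : Prop :=
  inH T.r false v i d.1 ∧ (∀ i' < i, ¬ inH T.r false v i' d.1) ∧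
    ∀ c, c ∈ T.ch d ↔ ∃ t, t ≠ v ∧ T.par v t = d.1 ∧ c = T.dt v t

open Classical in
noncomputable def stage2cnt (v : V) (i : ℕ) (d : V × Option V) : ℕ :=
  ∑ w ∈ T.side d, if w ∈ hull T.r v i then 1 else 0

open Classical in
noncomputable def stage2bdp (v : V) (i : ℕ) (d : V × Option V) : QA :=
  ∏ w ∈ T.side d, if w ∈ T.bd v i then T.bs.yh (T.dt v w) else 1

lemma stage2_self (v t : V) : t ∈ T.side (T.dt v t) := T.self_mem_side (T.dt v t)

lemma stage2_hG (v : V) (i : ℕ) (d : V × Option V) (hd : T.stage2G v i d) (c : V × Option V)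
    (hc : c ∈ T.bs.ch d) (hty : T.bs.ty c = tp false i) : T.stage2G v i c := by
  obtain ⟨h1, h2, h3⟩ := hd
  obtain ⟨t, ht, hp, rfl⟩ := (h3 c).1 hc
  refine ⟨?_, ?_, fun c => T.ch_dt ht⟩
  · have hs := (T.step_dt ht (tp false i)).2 hty
    rw [hp] at hs
    exact inH_step h1 hs
  · intro i' hi' h
    obtain ⟨j', hj', h4, -⟩ := T.inH_par ht (T.stage2_self v t) h
    rw [hp] at h4
    exact h2 j' (by omega) h4

lemma stage2_other (v : V) (i : ℕ) (d : V × Option V) (hd : T.stage2G v i d) {t : V} (ht : t ≠ v)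
    (hp : T.par v t = d.1) (hty : ¬ T.ty (T.dt v t) = tp false i) :
    (∀ w ∈ T.side (T.dt v t), w ∉ hull T.r v i) ∧ t ∈ T.bd v i := by
  obtain ⟨h1, h2, -⟩ := hd
  have key : ∀ w ∈ T.side (T.dt v t), w ∉ hull T.r v i := by
    intro w hw h
    obtain ⟨j', hj', h4, h5⟩ := T.inH_par ht hw (mem_hull.1 h)
    rw [hp] at h4
    rcases hj'.lt_or_eq with hlt | heq
    · exact h2 j' hlt h4
    · exact hty (heq ▸ h5)
  refine ⟨key, T.mem_bd.2 ⟨key t (T.stage2_self v t), ?_⟩⟩
  rw [hp]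
  exact mem_hull.2 h1

lemma stage2_hc (v : V) (i : ℕ) (d : V × Option V) (hd : T.stage2G v i d) :
    T.stage2cnt v i d =
      1 + ∑ c ∈ T.bs.ch d, if T.bs.ty c = tp false i then T.stage2cnt v i c else 0 := by
  have h1 : d.1 ∈ hull T.r v i := mem_hull.2 hd.1
  unfold stage2cnt
  rw [T.sum_side d, if_pos h1]
  congr 1
  refine sum_congr rfl fun c hc => ?_
  by_cases hty : T.bs.ty c = tp false i
  · rw [if_pos hty]
  · rw [if_neg hty]
    obtain ⟨t, ht, hp, rfl⟩ := (hd.2.2 c).1 hc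
    exact sum_eq_zero fun w hw => if_neg ((T.stage2_other v i d hd ht hp hty).1 w hw)

lemma stage2_hb (v : V) (i : ℕ) (d : V × Option V) (hd : T.stage2G v i d) :
    T.stage2bdp v i d =
      ∏ c ∈ T.bs.ch d, if T.bs.ty c = tp false i then T.stage2bdp v i c else T.bs.yh c := by
  have h1 : d.1 ∉ T.bd v i := fun h => (T.mem_bd.1 h).1 (mem_hull.2 hd.1)
  unfold stage2bdp
  rw [T.prod_side d, if_neg h1, one_mul]
  refine prod_congr rfl fun c hc => ?_
  by_cases hty : T.bs.ty c = tp false i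
  · rw [if_pos hty]
  · rw [if_neg hty]
    obtain ⟨t, ht, hp, rfl⟩ := (hd.2.2 c).1 hc
    have hb := (T.stage2_other v i d hd ht hp hty).2
    rw [prod_eq_single_of_mem t (T.stage2_self v t), if_pos hb]
    intro w hw hwt
    refine if_neg fun hw' => hwt ?_
    exact T.side_cover_unique hw' hb (T.stage2_self v w) hw

lemma stage2_part {M : Type} [CommMonoid M] (v : V) (j : ℕ) (φ : V → M) (s : Finset V)
    (hs : ∀ w, w ∈ s ↔ w ∉ hull T.r v j) :
    ∏ u ∈ T.bd v j, ∏ w ∈ T.side (T.dt v u), φ w = ∏ w ∈ s, φ w := by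
  classical
  rw [← prod_biUnion]
  · refine prod_congr ?_ fun _ _ => rfl
    ext w
    rw [mem_biUnion, hs]
    exact ⟨fun ⟨u, hu, hw⟩ => T.side_bd_disj hu hw, fun h => T.side_cover h⟩
  · intro u hu u' hu' hne
    refine disjoint_left.2 fun w hw hw' => hne ?_
    exact T.side_cover_unique hu hu' hw hw'

theorem stage_zero (v : V) :
    (T.bs.P (v, none)).natDegree ≤ (hull T.r v 0).card - 1 ∧
      (T.bs.P (v, none)).coeff ((hull T.r v 0).card - 1) = (-1) ^ ((hull T.r v 0).card - 1) * T.Fm v 0 := by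
  classical
  have hd : T.stage2G v 0 (v, none) :=
    ⟨inH_self _ _ _, fun i' hi' => absurd hi' (Nat.not_lt_zero _), fun c => T.ch_root⟩
  have h := (T.bs.top_coeff (tp false 0) (T.stage2G v 0) (T.stage2cnt v 0) (T.stage2bdp v 0)
    (T.stage2_hG v 0) (T.stage2_hc v 0) (T.stage2_hb v 0) (v, none) hd).1
  have e1 : T.stage2cnt v 0 (v, none) = (hull T.r v 0).card := by
    unfold stage2cnt
    rw [T.side_none]
    simp
  have e2 : T.stage2bdp v 0 (v, none) = T.Fm v 0 := by
    unfold stage2bdp Fm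
    rw [T.side_none]
    simp
  rw [e1, e2] at h
  rw [T.bs.P_eq]
  exact h

theorem stage_succ (v : V) (j : ℕ) :
    (hm (tp false (j + 1)) (T.Fm v j)).natDegree ≤ (hull T.r v (j + 1)).card - (hull T.r v j).card ∧
      (hm (tp false (j + 1)) (T.Fm v j)).coeff ((hull T.r v (j + 1)).card - (hull T.r v j).card)
        = (-1) ^ ((hull T.r v (j + 1)).card - (hull T.r v j).card) * T.Fm v (j + 1) := by
  classical
  have hgood : ∀ u ∈ T.bd v j, T.stage2G v (j + 1) (T.dt v u) := by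
    intro u hu
    obtain ⟨hu1, hu2⟩ := T.bd_ty hu
    obtain ⟨hu3, hu4⟩ := T.mem_bd.1 hu
    refine ⟨?_, ?_, fun c => T.ch_dt hu1⟩
    · exact inH_step (inH_mono (Nat.le_succ j) (mem_hull.1 hu4)) ((T.step_dt hu1 _).2 hu2)
    · intro i' hi' h
      exact hu3 (mem_hull.2 (inH_mono (by omega) h))
  have h := stage2_prod (T.bd v j) (fun u => hm (tp false (j + 1)) (T.bs.yh (T.dt v u)))
    (fun u => T.stage2cnt v (j + 1) (T.dt v u)) (fun u => T.stage2bdp v (j + 1) (T.dt v u))
    (fun u hu => (T.bs.top_coeff (tp false (j + 1)) (T.stage2G v (j + 1)) (T.stage2cnt v (j + 1))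
      (T.stage2bdp v (j + 1)) (T.stage2_hG v (j + 1)) (T.stage2_hc v (j + 1)) (T.stage2_hb v (j + 1))
      (T.dt v u) (hgood u hu)).2 (T.bd_ty hu).2)
  have hsub : hull T.r v j ⊆ hull T.r v (j + 1) := fun w hw =>
    mem_hull.2 (inH_mono (Nat.le_succ j) (mem_hull.1 hw))
  have hs : ∀ w, w ∈ (hull T.r v j)ᶜ ↔ w ∉ hull T.r v j := fun w => mem_compl
  have e1 : ∑ u ∈ T.bd v j, T.stage2cnt v (j + 1) (T.dt v u) =
      (hull T.r v (j + 1)).card - (hull T.r v j).card := by
    have := T.stage2_part (M := Multiplicative ℕ) v j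
      (fun w => Multiplicative.ofAdd (if w ∈ hull T.r v (j + 1) then 1 else 0)) _ hs
    simp only [← ofAdd_sum, Multiplicative.ofAdd.injective.eq_iff] at this
    unfold stage2cnt
    rw [← card_sdiff_of_subset hsub]
    refine Eq.trans (by convert this) ?_
    rw [← card_filter]
    congr 1
    ext w
    simp [and_comm]
  have e2 : ∏ u ∈ T.bd v j, T.stage2bdp v (j + 1) (T.dt v u) = T.Fm v (j + 1) := by
    have := T.stage2_part v j
      (fun w => if w ∈ T.bd v (j + 1) then T.bs.yh (T.dt v w) else 1) _ hs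
    unfold stage2bdp Fm
    refine Eq.trans (by convert this) ?_
    rw [← prod_filter]
    refine prod_congr ?_ fun _ _ => rfl
    ext w
    simp only [mem_filter, mem_compl]
    exact ⟨fun h => h.2, fun h => ⟨fun h' => (T.mem_bd.1 h).1 (hsub h'), h⟩⟩
  rw [e1, e2] at h
  have e3 : hm (tp false (j + 1)) (T.Fm v j) =
      ∏ u ∈ T.bd v j, hm (tp false (j + 1)) (T.bs.yh (T.dt v u)) := by
    unfold Fm
    rw [map_prod]
  rw [e3]
  exact h

end OT

end Pool.Agent.Work.MP_be9894_co.AA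
end

-- merged part: Pool.Agent.Work.MP_be9894_co.AA.Greedy
section
/-!
The joint lexicographic selection.  Induct on `k` with the extra invariant that all `v ∈ S`, `v' ∈ S'` have hulls of
one common size `μ` at stage `k`.  Step: let `μ'` be the maximum of the hull sizes at stage `k+1` over `S` and `S'`,
apply `hm (tp false (k+1))` to the identity, take the coefficient of `X ^ (μ' - μ)` (`coeff_eq_zero_of_natDegree_lt` for the
others; hulls grow by `inH_mono`), and cancel the sign.  Stage zero: coefficient of `X ^ (μ - 1)` in `HH`.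
-/

set_option autoImplicit false

namespace Pool.Agent.Work.MP_be9894_co.AA

open Finset Polynomial

lemma greedy_coeff {V : Type} (S : Finset V) (a : V → ℕ) (p : V → QA[X]) (F : V → QA) {μ m : ℕ}
    (h0 : ∀ v ∈ S, μ ≤ a v) (h1 : ∀ v ∈ S, a v ≤ m)
    (hp : ∀ v ∈ S, (p v).natDegree ≤ a v - μ ∧ (p v).coeff (a v - μ) = (-1) ^ (a v - μ) * F v) :
    (∑ v ∈ S, p v).coeff (m - μ) = (-1) ^ (m - μ) * ∑ v ∈ S.filter (fun v => a v = m), F v := by
  rw [finsetSum_coeff, sum_filter, mul_sum]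
  refine sum_congr rfl fun v hv => ?_
  split_ifs with e
  · rw [← e, (hp v hv).2]
  · have := h0 v hv
    have := h1 v hv
    have := (hp v hv).1
    rw [mul_zero]
    exact coeff_eq_zero_of_natDegree_lt (by omega)

lemma greedy_sel {V V' : Type} (S : Finset V) (S' : Finset V') (hne : S.Nonempty ∨ S'.Nonempty)
    (a : V → ℕ) (a' : V' → ℕ) (p : V → QA[X]) (p' : V' → QA[X]) (F : V → QA) (F' : V' → QA) {μ : ℕ}
    (h0 : ∀ v ∈ S, μ ≤ a v) (h0' : ∀ v ∈ S', μ ≤ a' v)
    (hp : ∀ v ∈ S, (p v).natDegree ≤ a v - μ ∧ (p v).coeff (a v - μ) = (-1) ^ (a v - μ) * F v)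
    (hp' : ∀ v ∈ S', (p' v).natDegree ≤ a' v - μ ∧ (p' v).coeff (a' v - μ) = (-1) ^ (a' v - μ) * F' v)
    (h : ∑ v ∈ S, p v = ∑ v ∈ S', p' v) :
    ∃ m, (∀ v ∈ S, a v ≤ m) ∧ (∀ v ∈ S', a' v ≤ m) ∧
      ((S.filter fun v => a v = m).Nonempty ∨ (S'.filter fun v => a' v = m).Nonempty) ∧
      ∑ v ∈ S.filter (fun v => a v = m), F v = ∑ v ∈ S'.filter (fun v => a' v = m), F' v := by
  have h1 : ∀ v ∈ S, a v ≤ max (S.sup a) (S'.sup a') := fun v hv => (le_sup hv).trans (le_max_left _ _)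
  have h1' : ∀ v ∈ S', a' v ≤ max (S.sup a) (S'.sup a') := fun v hv =>
    (le_sup hv).trans (le_max_right _ _)
  refine ⟨_, h1, h1', ?_, ?_⟩
  · have k : ∀ {W : Type} (U : Finset W) (b : W → ℕ) (m : ℕ), U.Nonempty → U.sup b = m →
        (U.filter fun v => b v = m).Nonempty := by
      intro W U b m hU e
      obtain ⟨v, hv, e'⟩ := exists_mem_eq_sup U hU b
      exact ⟨v, mem_filter.2 ⟨hv, by rw [← e', e]⟩⟩
    rcases S.eq_empty_or_nonempty with rfl | hS
    · exact Or.inr (k _ _ _ (by simpa using hne) (by simp))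
    rcases S'.eq_empty_or_nonempty with rfl | hS'
    · exact Or.inl (k _ _ _ hS (by simp))
    rcases le_total (S.sup a) (S'.sup a') with e | e
    · exact Or.inr (k _ _ _ hS' (max_eq_right e).symm)
    · exact Or.inl (k _ _ _ hS (max_eq_left e).symm)
  · have e := greedy_coeff S a p F h0 h1 hp
    rw [h, greedy_coeff S' a' p' F' h0' h1' hp'] at e
    exact (mul_left_cancel₀ (pow_ne_zero _ (by norm_num)) e).symm

lemma greedy_top {V : Type} (S U : Finset V) (a : V → ℕ) {m : ℕ} (h1 : ∀ v ∈ S, a v ≤ m)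
    (hU : ∀ v, v ∈ U ↔ v ∈ S ∧ ∀ w ∈ S, a w ≤ a v) :
    S.filter (fun v => a v = m) = U ∨ S.filter (fun v => a v = m) = ∅ := by
  rcases (S.filter fun v => a v = m).eq_empty_or_nonempty with e | ⟨x, hx⟩
  · exact Or.inr e
  · obtain ⟨hx, ex⟩ := mem_filter.1 hx
    refine Or.inl (Finset.ext fun v => ?_)
    rw [mem_filter, hU]
    refine and_congr_right fun hv => ⟨fun e w hw => e ▸ h1 w hw, fun e => ?_⟩
    exact le_antisymm (h1 v hv) (ex ▸ e x hx)

lemma greedy_next {V : Type} [Fintype V] (r : V → V → Prop) {k m : ℕ} {S : Finset V}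
    (hS : S = top r k ∨ S = ∅) (h1 : ∀ v ∈ S, (hull r v (k + 1)).card ≤ m) :
    S.filter (fun v => (hull r v (k + 1)).card = m) = top r (k + 1) ∨
      S.filter (fun v => (hull r v (k + 1)).card = m) = ∅ := by
  rcases hS with rfl | rfl
  · exact greedy_top _ _ _ h1 fun v => mem_top_succ
  · exact Or.inr (filter_empty _)

lemma greedy_mono {V : Type} [Fintype V] (r : V → V → Prop) (v : V) (k : ℕ) :
    (hull r v k).card ≤ (hull r v (k + 1)).card :=
  card_le_card fun _ hu => mem_hull.2 (inH_mono (Nat.le_succ k) (mem_hull.1 hu))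

lemma greedy_pos {V : Type} [Fintype V] (r : V → V → Prop) (v : V) : 1 ≤ (hull r v 0).card :=
  card_pos.2 ⟨v, mem_hull.2 (inH_self false v 0)⟩

lemma greedy_aux {V V' : Type} [Fintype V] [Fintype V'] [Nonempty V] (T : OT V) (T' : OT V')
    (h : T.HH = T'.HH) (k : ℕ) :
    ∃ (S : Finset V) (S' : Finset V') (μ : ℕ), (S = top T.r k ∨ S = ∅) ∧ (S' = top T'.r k ∨ S' = ∅) ∧
      (S.Nonempty ∨ S'.Nonempty) ∧ (∀ v ∈ S, (hull T.r v k).card = μ) ∧
      (∀ v ∈ S', (hull T'.r v k).card = μ) ∧ ∑ v ∈ S, T.Fm v k = ∑ v ∈ S', T'.Fm v k := by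
  induction k with
  | zero =>
    obtain ⟨m, h1, h1', hne, e⟩ := greedy_sel univ univ (Or.inl univ_nonempty)
      (fun v => (hull T.r v 0).card) (fun v => (hull T'.r v 0).card) _ _ _ _
      (fun v _ => greedy_pos T.r v) (fun v _ => greedy_pos T'.r v)
      (fun v _ => T.stage_zero v) (fun v _ => T'.stage_zero v) h
    exact ⟨_, _, m, greedy_top _ _ _ h1 fun v => by simp [mem_top_zero],
      greedy_top _ _ _ h1' fun v => by simp [mem_top_zero], hne,
      fun v hv => (mem_filter.1 hv).2, fun v hv => (mem_filter.1 hv).2, e⟩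
  | succ k ih =>
    obtain ⟨S, S', μ, hS, hS', hne, hc, hc', e⟩ := ih
    have e' := congrArg (hm (tp false (k + 1))) e
    rw [map_sum, map_sum] at e'
    obtain ⟨m, h1, h1', hne', e''⟩ := greedy_sel (μ := μ) S S' hne
      (fun v => (hull T.r v (k + 1)).card) (fun v => (hull T'.r v (k + 1)).card) _ _ _ _
      (fun v hv => hc v hv ▸ greedy_mono T.r v k) (fun v hv => hc' v hv ▸ greedy_mono T'.r v k)
      (fun v hv => hc v hv ▸ T.stage_succ v k) (fun v hv => hc' v hv ▸ T'.stage_succ v k) e'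
    exact ⟨_, _, m, greedy_next _ hS h1, greedy_next _ hS' h1', hne',
      fun v hv => (mem_filter.1 hv).2, fun v hv => (mem_filter.1 hv).2, e''⟩

theorem greedy {V V' : Type} [Fintype V] [Fintype V'] [Nonempty V] (T : OT V) (T' : OT V')
    (h : T.HH = T'.HH) (k : ℕ) :
    ∃ (S : Finset V) (S' : Finset V'), (S = top T.r k ∨ S = ∅) ∧ (S' = top T'.r k ∨ S' = ∅) ∧
      (S.Nonempty ∨ S'.Nonempty) ∧ ∑ v ∈ S, T.Fm v k = ∑ v ∈ S', T'.Fm v k := by
  obtain ⟨S, S', _, h1, h2, h3, -, -, h4⟩ := greedy_aux T T' h k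
  exact ⟨S, S', h1, h2, h3, h4⟩

end Pool.Agent.Work.MP_be9894_co.AA
end

-- merged part: Pool.Agent.Work.MP_be9894_co.AA.BLayer
section
/-!
`layer`: let `S = side (dt w u)`, `s = n - card S`, `f j = card (hull w j ∩ S)`.  `dt_eq` gives `dt a u = dt w u`; `inH_par` and `bd_ty` show that `u` is reached
from `a` by a stage `j' ≤ K` of the type `tp false (K+1)`, so `j' ≤ K - 1` and `u ∈ hull a (K-1)`, with `tp false (K-1) = tp false (K+1)`.  `inH_enter` (gate `u`, `side_gate`,
`root_not_mem_dt`) and `hull_trans` give `hull w (j+2) ∩ S ⊆ hull a j` for `j ≥ K - 1`, so `f (j+2) ≤ card (hull w j) ≤ f j + s`; `f K = 0` (`side_bd_disj`) and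
`f (K + 2 J) = card S`.

`greedy2`: induction on `k` as in `greedy_aux` (`greedy_coeff`, `stage_zero`, `stage_succ`, `top_card`, `top_anti`).

`prime_match`: `match_dvd` gives `i ∈ s` with `K i = K j * w'`; `K_prime i` applied to `K j * w' = K i * 1` shows `sz i ≤ sz j` (the other case gives `w' = 0`), so `w'` is a
constant, and `matching` for singletons finishes.
-/

set_option autoImplicit false

namespace Pool.Agent.Work.MP_be9894_co.AA

open Finset

variable {V V' : Type} [Fintype V] [Fintype V']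

theorem layer (T : OT V) {K J : ℕ} {w a u : V} (hK : 1 ≤ K) (hu : u ∈ T.bd w K) (ha : a ∉ T.side (T.dt w u))
    (hau : u ∈ hull T.r a K) (heq : ∀ j, K - 1 ≤ j → (hull T.r a j).card = (hull T.r w j).card)
    (hJ : ∀ x, inH T.r false w J x) :
    (T.side (T.dt w u)).card ≤ J * (Fintype.card V - (T.side (T.dt w u)).card) := by
  classical
  obtain ⟨m, rfl⟩ : ∃ m, K = m + 1 := ⟨K - 1, by omega⟩
  obtain ⟨huw, hty⟩ := T.bd_ty hu
  obtain ⟨hua, hdt⟩ := T.dt_eq ha
  have e : tp false (m + 1 + 1) = tp false m := Bool.not_not _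
  have h1 : inH T.r false a m u := by
    obtain ⟨j, hj, h2, h3⟩ := T.inH_par hua (T.stage2_self a u) (mem_hull.1 hau)
    refine inH_mono (Nat.lt_succ_iff.1 (hj.lt_of_ne fun k => ?_))
      (inH_step h2 ((T.step_dt hua _).2 h3))
    rw [hdt, hty, k] at h3
    exact (Bool.not_ne_self _) h3
  set S := T.side (T.dt w u) with hS
  have h2 : ∀ j, m ≤ j → (hull T.r w (j + 2) ∩ S).card ≤
      (hull T.r w j ∩ S).card + (Fintype.card V - S.card) := by
    intro j hj
    have h3 : hull T.r w (j + 2) ∩ S ⊆ hull T.r a j := fun x hx => by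
      obtain ⟨h4, h5⟩ := mem_inter.1 hx
      have h6 := (inH_enter (S : Set V) (fun a b ha hb => T.side_gate huw ha hb)
        (T.root_not_mem_dt huw) (fun k => (T.mem_bd.1 hu).1 (mem_hull.2 k)) h5 (mem_hull.1 h4)).2
      rw [e] at h6
      exact mem_hull.2 (inH_mono (by omega) (hull_trans h1 h6))
    have h4 : hull T.r w j ⊆ (hull T.r w j ∩ S) ∪ Sᶜ := fun x hx => by
      by_cases h : x ∈ S <;> simp [hx, h]
    have h5 := (card_le_card h4).trans (card_union_le _ _)
    rw [card_compl] at h5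
    exact (card_le_card h3).trans ((heq j hj).trans_le h5)
  have h3 : ∀ i, (hull T.r w (m + 1 + 2 * i) ∩ S).card ≤ i * (Fintype.card V - S.card) := by
    intro i
    induction i with
    | zero =>
      refine (card_eq_zero.2 (eq_empty_of_forall_notMem fun x hx => ?_)).trans_le (Nat.zero_le _)
      exact T.side_bd_disj hu (mem_inter.1 hx).2 (mem_inter.1 hx).1
    | succ i ih =>
      rw [add_one_mul i]
      exact (h2 (m + 1 + 2 * i) (by omega)).trans (Nat.add_le_add_right ih _)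
  refine le_trans (card_le_card fun x hx => mem_inter.2 ⟨?_, hx⟩) (h3 J)
  exact mem_hull.2 (inH_mono (by omega) (hJ x))

lemma blayer_sel {V V' : Type} (S U : Finset V) (S' U' : Finset V') (a : V → ℕ) (a' : V' → ℕ)
    (p : V → Polynomial QA) (p' : V' → Polynomial QA) (F : V → QA) (F' : V' → QA) {μ : ℕ}
    (hU : ∀ v, v ∈ U ↔ v ∈ S ∧ ∀ w ∈ S, a w ≤ a v) (hU' : ∀ v, v ∈ U' ↔ v ∈ S' ∧ ∀ w ∈ S', a' w ≤ a' v)
    (hne : U.Nonempty) (hne' : U'.Nonempty) (he : ∀ v ∈ U, ∀ v' ∈ U', a v = a' v')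
    (h0 : ∀ v ∈ S, μ ≤ a v) (h0' : ∀ v ∈ S', μ ≤ a' v)
    (hp : ∀ v ∈ S, (p v).natDegree ≤ a v - μ ∧ (p v).coeff (a v - μ) = (-1) ^ (a v - μ) * F v)
    (hp' : ∀ v ∈ S', (p' v).natDegree ≤ a' v - μ ∧ (p' v).coeff (a' v - μ) = (-1) ^ (a' v - μ) * F' v)
    (h : ∑ v ∈ S, p v = ∑ v ∈ S', p' v) : ∑ v ∈ U, F v = ∑ v ∈ U', F' v := by
  obtain ⟨x, hx⟩ := hne
  obtain ⟨x', hx'⟩ := hne'
  obtain ⟨h2, h1⟩ := (hU x).1 hx
  obtain ⟨h2', h1'⟩ := (hU' x').1 hx'
  have e := greedy_coeff S a p F h0 h1 hp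
  rw [(greedy_top S U a h1 hU).resolve_right (Nonempty.ne_empty ⟨x, mem_filter.2 ⟨h2, rfl⟩⟩), h,
    he x hx x' hx', greedy_coeff S' a' p' F' h0' h1' hp',
    (greedy_top S' U' a' h1' hU').resolve_right
      (Nonempty.ne_empty ⟨x', mem_filter.2 ⟨h2', rfl⟩⟩)] at e
  exact (mul_left_cancel₀ (pow_ne_zero _ (by norm_num)) e).symm

theorem greedy2 [Nonempty V] [Nonempty V'] (T : OT V) (T' : OT V') (h : T.HH = T'.HH)
    (hsz : ∀ j, ∀ v ∈ top T.r j, ∀ v' ∈ top T'.r j, (hull T.r v j).card = (hull T'.r v' j).card) (k : ℕ) :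
    ∑ v ∈ top T.r k, T.Fm v k = ∑ v ∈ top T'.r k, T'.Fm v k := by
  induction k with
  | zero =>
    exact blayer_sel univ _ univ _ (fun v => (hull T.r v 0).card) (fun v => (hull T'.r v 0).card)
      _ _ _ _ (fun v => by simp [mem_top_zero]) (fun v => by simp [mem_top_zero]) (top_nonempty 0)
      (top_nonempty 0) (hsz 0) (fun v _ => greedy_pos T.r v) (fun v _ => greedy_pos T'.r v)
      (fun v _ => T.stage_zero v) (fun v _ => T'.stage_zero v) h
  | succ k ih =>
    obtain ⟨x, hx⟩ := top_nonempty (r := T.r) k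
    have hc : ∀ v ∈ top T.r k, (hull T.r v k).card = (hull T.r x k).card :=
      fun v hv => top_card hv hx le_rfl
    have hc' : ∀ v ∈ top T'.r k, (hull T'.r v k).card = (hull T.r x k).card :=
      fun v hv => (hsz k x hx v hv).symm
    have e := congrArg (hm (tp false (k + 1))) ih
    rw [map_sum, map_sum] at e
    exact blayer_sel (μ := (hull T.r x k).card) _ _ _ _ (fun v => (hull T.r v (k + 1)).card)
      (fun v => (hull T'.r v (k + 1)).card) _ _ _ _ (fun v => mem_top_succ) (fun v => mem_top_succ)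
      (top_nonempty _) (top_nonempty _) (hsz (k + 1))
      (fun v hv => hc v hv ▸ greedy_mono T.r v k) (fun v hv => hc' v hv ▸ greedy_mono T'.r v k)
      (fun v hv => hc v hv ▸ T.stage_succ v k) (fun v hv => hc' v hv ▸ T'.stage_succ v k) e

lemma BS.prime_match {ι : Type} (B : BS ι) (s : Finset ι) (j : ι) {a : ℚ} (ha : a ≠ 0) {w : Polynomial QA}
    (hw : w ∈ HomX (∑ i ∈ s, (B.sz i : ℤ) - B.sz j)) (h : a • ∏ i ∈ s, B.K i = B.K j * w) :
    ∃ i ∈ s, B.key i = B.key j := by
  obtain ⟨i, hi, u, hu, e⟩ := B.match_dvd j s ha hw h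
  have hu0 : u ≠ 0 := fun k => B.K_ne i (by rw [e, k, mul_zero])
  have h1 : B.sz j ≤ B.sz i := not_lt.1 fun k => hu0 (homX_neg (by omega) hu)
  have h2 : B.sz i ≤ B.sz j := by
    rcases B.K_prime i (B.K_hom j) hu (u := 1) (by simpa using homX_one)
      (by rw [e, mul_one]) with ⟨z, hz, e'⟩ | ⟨z, hz, e'⟩
    · exact not_lt.1 fun k => B.K_ne j (by rw [e', homX_neg (by omega) hz, mul_zero])
    · have := B.sz_pos j
      exact absurd (by rw [e', homX_neg (by omega) hz, mul_zero]) hu0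
  rw [le_antisymm h2 h1, sub_self] at hu
  obtain ⟨c, rfl⟩ := homX_zero hu
  rw [mul_comm, ← Polynomial.algebraMap_apply, ← Algebra.smul_def] at e
  exact ⟨i, hi, by simpa using B.matching {i} {j} 1 c one_ne_zero (by simpa using e)⟩

end Pool.Agent.Work.MP_be9894_co.AA
end

-- merged part: Pool.Agent.Work.MP_be9894_co.AA.Eta
section
/-!
The recursion for the weighted count of strict maps.

`eta_eq`: root at `z`.  For a dart `d = dt z u` or `(z, none)` let `Φ d i` be the sum over maps `f : V → ℕ` with values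
`< N` on `side d`, `0` outside, `f d.1 = i`, strict along the arcs inside `side d`, of the weight `∏ x (f w)`.  Show by
`BS.ind` that `η d k = ∑ i < k, Φ d i` for `k ≤ N`, from
`Φ d i = x i * ∏ c, (if ty c then ∑ j < i, Φ c j else ∑ j ∈ Ioo i N, Φ c j)`.
(See `sum_prod` in `Work/MP_be9894_co/H2Tree.lean` for one way to factor such a sum; another way: peel off a deepest
vertex as in `Roots.lean`, `inv_step`.)
-/

set_option autoImplicit false

namespace Pool.Agent.Work.MP_be9894_co.AA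

open Finset

lemma eta_upd {V : Type} [Fintype V] [DecidableEq V] {N : ℕ} (u : V) (F : (V → Fin N) → ℚ) :
    ∑ f, ∑ j, F (Function.update f u j) = N * ∑ f, F f := by
  have inv : Function.Involutive
      (fun q : (V → Fin N) × Fin N => (Function.update q.1 u q.2, q.1 u)) := by
    rintro ⟨f, j⟩
    simp
  have h := Equiv.sum_comp inv.toPerm (fun q => F q.1)
  rw [Fintype.sum_prod_type, Fintype.sum_prod_type] at h
  refine h.trans ?_
  simp [Finset.mul_sum]

open Classical in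
/-- the weight after the vertices of `W` have been expanded -/
noncomputable def eta_H {V : Type} {N : ℕ} (z : V) (p : V → V) (L : V → ℕ → ℕ → ℚ)
    (E : V → ℕ → ℚ) (W : Finset V) (f : V → Fin N) (t : V) : ℚ :=
  if t ∈ W then L t (f t) (f (p t)) else if t = z ∨ p t ∈ W then E t (f (p t)) else 1

open Classical in
lemma eta_step {V : Type} [Fintype V] {N : ℕ} {z : V} {p : V → V} {L : V → ℕ → ℕ → ℚ}
    {E : V → ℕ → ℚ} (hz : p z = z) (hL : ∀ j i i', L z j i = L z j i')
    (hE : ∀ u, ∀ i < N, E u i = ∑ j ∈ range N, L u j i *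
      ∏ t ∈ univ.filter (fun t => t ≠ z ∧ p t = u), E t j)
    {W : Finset V} (hW : ∀ t ∈ W, p t ∈ W) {u : V} (hu : u ∉ W) (hp : u = z ∨ p u ∈ W)
    (f : V → Fin N) :
    ∑ j, ∏ t, eta_H z p L E (insert u W) (Function.update f u j) t = ∏ t, eta_H z p L E W f t := by
  have e1 : eta_H z p L E W f u = E u (f (p u)) := by simp [eta_H, hu, hp]
  rw [← mul_prod_erase univ _ (mem_univ u), e1, hE u _ (f (p u)).2, sum_range, sum_mul]
  refine sum_congr rfl fun j _ => ?_
  have e2 : eta_H z p L E (insert u W) (Function.update f u j) u = L u j (f (p u)) := by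
    rw [eta_H, if_pos (mem_insert_self _ _), Function.update_self]
    rcases hp with rfl | hp
    · exact hL _ _ _
    · rw [Function.update_of_ne (fun e : p u = u => hu (e ▸ hp))]
  have e3 : ∀ t ∈ univ.erase u, eta_H z p L E (insert u W) (Function.update f u j) t =
      (if t ≠ z ∧ p t = u then E t j else 1) * eta_H z p L E W f t := by
    intro t ht
    have htu : t ≠ u := ne_of_mem_erase ht
    by_cases h1 : t ∈ W
    · have h2 : p t ≠ u := fun e => hu (e ▸ hW t h1)
      simp [eta_H, h1, h2, htu]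
    by_cases h2 : p t = u
    · have h3 : t ≠ z := fun e => htu (by rw [← h2, e, hz])
      simp [eta_H, h1, h2, h3, htu, hu]
    · simp [eta_H, h1, h2, htu]
  have e4 : ∏ t ∈ univ.erase u, (if t ≠ z ∧ p t = u then E t j else 1) =
      ∏ t ∈ univ.filter (fun t => t ≠ z ∧ p t = u), E t j := by
    rw [prod_filter, ← mul_prod_erase univ _ (mem_univ u), if_neg, one_mul]
    rintro ⟨a, b⟩
    exact hp.elim a fun h => hu (b ▸ h)
  rw [← mul_prod_erase univ _ (mem_univ u), e2, prod_congr rfl e3, prod_mul_distrib, e4, mul_assoc]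

open Classical in
lemma eta_tree {V : Type} [Fintype V] {N : ℕ} (hN : 0 < N) {z : V} {p : V → V}
    {L : V → ℕ → ℕ → ℚ} {E : V → ℕ → ℚ} (hz : p z = z) (hL : ∀ j i i', L z j i = L z j i')
    (hE : ∀ u, ∀ i < N, E u i = ∑ j ∈ range N, L u j i *
      ∏ t ∈ univ.filter (fun t => t ≠ z ∧ p t = u), E t j)
    (ind : ∀ Q : V → Prop, (∀ u, (u = z ∨ Q (p u)) → Q u) → ∀ u, Q u) :
    ∑ f : V → Fin N, ∏ t, L t (f t) (f (p t)) = E z 0 := by
  have key : ∀ (n : ℕ) (W : Finset V), (∀ t ∈ W, p t ∈ W) → Fintype.card V = W.card + n →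
      (N : ℚ) ^ n * ∑ f : V → Fin N, ∏ t, L t (f t) (f (p t)) =
        ∑ f : V → Fin N, ∏ t, eta_H z p L E W f t := by
    intro n
    induction n with
    | zero =>
      intro W _ hc
      obtain rfl : W = univ := eq_univ_of_card W hc.symm
      simp [eta_H]
    | succ n ih =>
      intro W hW hc
      obtain ⟨u, hp, hu⟩ : ∃ u, (u = z ∨ p u ∈ W) ∧ u ∉ W := by
        by_contra h
        push Not at h
        have : W = univ := eq_univ_of_forall (ind (· ∈ W) h)
        rw [this, card_univ] at hc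
        omega
      have hW' : ∀ t ∈ insert u W, p t ∈ insert u W := fun t ht => by
        rcases mem_insert.1 ht with rfl | ht
        · rcases hp with rfl | hp
          · rw [hz]; exact ht
          · exact mem_insert_of_mem hp
        · exact mem_insert_of_mem (hW t ht)
      rw [pow_succ', mul_assoc, ih _ hW' (by rw [card_insert_of_notMem hu]; omega), ← eta_upd u]
      exact sum_congr rfl fun f _ => eta_step hz hL hE hW hu hp f
  have h := key (Fintype.card V) ∅ (by simp) (by simp)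
  have e : ∀ f : V → Fin N, ∏ t, eta_H z p L E ∅ f t = E z 0 := fun f => by
    rw [prod_eq_single z (fun t _ ht => by simp [eta_H, ht]) (by simp)]
    simp only [eta_H, notMem_empty, if_false, true_or, if_true]
    rw [hE z _ (f (p z)).2, hE z 0 hN]
    exact sum_congr rfl fun j _ => by rw [hL j _ 0]
  simp only [e, sum_const, card_univ, Fintype.card_fun, Fintype.card_fin, nsmul_eq_mul,
    Nat.cast_pow] at h
  exact mul_left_cancel₀ (pow_ne_zero _ (Nat.cast_ne_zero.2 hN.ne')) h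

theorem eta_eq {V : Type} [Fintype V] (T : OT V) (N : ℕ) (x : ℕ → ℚ) (η : V × Option V → ℕ → ℚ)
    (h0 : ∀ d, η d 0 = 0)
    (hs : ∀ d, ∀ k < N, η d (k + 1) = η d k +
      x k * ∏ c ∈ T.ch d, (if T.ty c then η c k else η c N - η c (k + 1))) (z : V) :
    η (z, none) N = ZR T.r N x := by
  classical
  rcases Nat.eq_zero_or_pos N with rfl | hN
  · have : IsEmpty (V → Fin 0) := ⟨fun f => (f z).elim0⟩
    simp [h0, ZR]
  let g : V × Option V → ℕ → ℚ := fun d k =>
    x k * ∏ c ∈ T.ch d, (if T.ty c then η c k else η c N - η c (k + 1))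
  have tel : ∀ d, ∀ k ≤ N, η d k = ∑ j ∈ range k, g d j := fun d k hk => by
    induction k with
    | zero => simp [h0]
    | succ k ih => rw [sum_range_succ, ← ih (by omega), hs d k (by omega)]
  let p := T.par z
  let L : V → ℕ → ℕ → ℚ := fun u j i =>
    if u ≠ z → (if T.r u (p u) then j < i else i < j) then x j else 0
  let E : V → ℕ → ℚ := fun u i => if u = z then η (z, none) N else
    if T.ty (T.dt z u) then η (T.dt z u) i else η (T.dt z u) N - η (T.dt z u) (i + 1)
  have hg : ∀ d u, (∀ c, c ∈ T.ch d ↔ ∃ t, t ≠ z ∧ T.par z t = u ∧ c = T.dt z t) → ∀ j,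
      g d j = x j * ∏ t ∈ univ.filter (fun t => t ≠ z ∧ p t = u), E t j := fun d u h j => by
    have e : T.ch d = (univ.filter (fun t => t ≠ z ∧ p t = u)).image (T.dt z) := by
      ext c
      simp only [h, mem_image, mem_filter, mem_univ, true_and, and_assoc, eq_comm (a := c), p]
    simp only [g]
    rw [e, prod_image fun a _ b _ hab => congrArg Prod.fst hab]
    refine congrArg _ (prod_congr rfl fun t ht => ?_)
    simp only [E, if_neg (mem_filter.1 ht).2.1]
  have hE : ∀ u, ∀ i < N, E u i = ∑ j ∈ range N, L u j i *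
      ∏ t ∈ univ.filter (fun t => t ≠ z ∧ p t = u), E t j := fun u i hi => by
    by_cases hu : u = z
    · subst hu
      rw [show E u i = η (u, none) N from if_pos rfl, tel _ N le_rfl]
      refine sum_congr rfl fun j _ => ?_
      rw [hg _ u (fun c => T.ch_root) j, show L u j i = x j from if_pos fun h => (h rfl).elim]
    have e : ∀ j, L u j i * ∏ t ∈ univ.filter (fun t => t ≠ z ∧ p t = u), E t j =
        if (if T.r u (p u) then j < i else i < j) then g (T.dt z u) j else 0 := fun j => by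
      rw [hg _ u (fun c => T.ch_dt hu) j]
      simp only [L, hu, ne_eq, not_false_eq_true, forall_const, ite_mul, zero_mul]
    rw [sum_congr rfl fun j _ => e j, ← sum_filter, show E u i = _ from if_neg hu]
    have hty : T.ty (T.dt z u) = true ↔ T.r u (p u) := T.ty_some _ _
    by_cases hr : T.r u (p u)
    · rw [if_pos (hty.2 hr), tel _ i hi.le]
      refine sum_congr ?_ fun _ _ => rfl
      ext j
      simp only [hr, if_true, mem_filter, mem_range]
      omega
    · rw [if_neg fun h => hr (hty.1 h), tel _ N le_rfl, tel _ (i + 1) hi, ← sum_Ico_eq_sub _ hi]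
      refine sum_congr ?_ fun _ _ => rfl
      ext j
      simp only [hr, if_false, mem_filter, mem_range, mem_Ico]
      omega
  have h := eta_tree hN (p := p) (L := L) (E := E) (T.par_self z) (fun j i i' => by simp [L]) hE
    fun Q hQ => T.ind_down z Q (hQ z (Or.inl rfl)) fun u _ h => hQ u (Or.inr h)
  rw [show E z 0 = η (z, none) N from if_pos rfl] at h
  rw [← h, ZR]
  refine sum_congr (by ext; simp) fun f _ => ?_
  simp only [L]
  rw [prod_ite_zero]
  have k : (∀ u ∈ univ, u ≠ z → if T.r u (p u) then (f u : ℕ) < f (p u) else (f (p u) : ℕ) < f u) ↔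
      ∀ a b, T.r a b → f a < f b := by
    refine ⟨fun h1 a b hab => ?_, fun h1 u _ hu => ?_⟩
    · rcases T.all z a b hab with ⟨k1, k2⟩ | ⟨k1, k2⟩
      · have := h1 a (mem_univ _) k1
        simp only [p, k2, hab, if_true] at this
        exact this
      · have := h1 b (mem_univ _) k1
        simp only [p, k2, T.asym a b hab, if_false] at this
        exact this
    · split_ifs with hr
      · exact h1 _ _ hr
      · exact h1 _ _ ((T.adj_par z u hu).resolve_left hr)
  by_cases h1 : ∀ a b, T.r a b → f a < f b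
  · rw [if_pos h1, if_pos (k.2 h1)]
  · rw [if_neg h1, if_neg fun h2 => h1 (k.1 h2)]

end Pool.Agent.Work.MP_be9894_co.AA
end

-- merged part: Pool.Agent.Work.MP_be9894_co.AA.Iso
section
/-!
Equal values at two roots give an isomorphism.  Work in `T.bs.sum T'.bs`.  Adapt `iso_of_code` and `exists_match` of
`Work/MP_be9894_co/H2Iso.lean`: define `e : V → V'` by recursion on `dep z`, keeping the invariant that the dart of `u`
(towards `z`; `(z, none)` for the root) and the dart of `e u` (towards `z'`) have the same `y`; `ch_of_y` matches the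
children injectively with equal keys (so equal types), `ch_dt`, `ch_root` identify the children.  `e` is injective,
commutes with the parent maps, so it is bijective by cardinality and preserves arcs (`all`, `adj_par`, `ty_some`).
-/

set_option autoImplicit false

namespace Pool.Agent.Work.MP_be9894_co.AA

open Finset

lemma iso_exists_match {α β γ : Type} (b0 : β) (f : α → γ) (g : β → γ)
    (s : Finset α) (t : Finset β) (h : s.val.map f = t.val.map g) :
    ∃ σ : α → β, (∀ a ∈ s, σ a ∈ t ∧ g (σ a) = f a) ∧ ∀ a ∈ s, ∀ a' ∈ s, σ a = σ a' → a = a' := by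
  classical
  induction s using Finset.induction_on generalizing t with
  | empty => exact ⟨fun _ => b0, by simp, by simp⟩
  | insert a s ha ih =>
    rw [Finset.insert_val_of_notMem ha, Multiset.map_cons] at h
    have h1 : f a ∈ t.val.map g := h ▸ Multiset.mem_cons_self _ _
    obtain ⟨b, hb, hb2⟩ := Multiset.mem_map.1 h1
    have h2 : t.val = b ::ₘ (t.erase b).val := by
      rw [Finset.erase_val, Multiset.cons_erase hb]
    rw [h2, Multiset.map_cons, hb2, Multiset.cons_inj_right] at h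
    obtain ⟨σ, s1, s2⟩ := ih _ h
    have up : ∀ x ∈ s, Function.update σ a b x = σ x := fun x hx =>
      Function.update_of_ne (fun e : x = a => ha (e ▸ hx)) _ _
    refine ⟨Function.update σ a b, fun x hx => ?_, fun x hx y hy e => ?_⟩
    · rcases mem_insert.1 hx with rfl | hx
      · rw [Function.update_self]; exact ⟨hb, hb2⟩
      · rw [up x hx]; exact ⟨mem_of_mem_erase (s1 x hx).1, (s1 x hx).2⟩
    · rcases mem_insert.1 hx with rfl | hx' <;> rcases mem_insert.1 hy with rfl | hy'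
      · rfl
      · rw [Function.update_self, up y hy'] at e
        exact absurd e.symm (ne_of_mem_erase (s1 y hy').1)
      · rw [Function.update_self, up x hx'] at e
        exact absurd e (ne_of_mem_erase (s1 x hx').1)
      · rw [up x hx', up y hy'] at e
        exact s2 x hx' y hy' e

open Classical in
/-- the dart of `u` towards the root `z` -/
noncomputable def iso_dart {V : Type} (T : OT V) (z u : V) : V × Option V :=
  if u = z then (z, none) else T.dt z u

open Classical in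
/-- the children of `u` in the tree rooted at `z` -/
noncomputable def iso_kid {V : Type} [Fintype V] (T : OT V) (z u : V) : Finset V :=
  univ.filter fun t => t ≠ z ∧ T.par z t = u

lemma iso_mem_kid {V : Type} [Fintype V] (T : OT V) {z u t : V} :
    t ∈ iso_kid T z u ↔ t ≠ z ∧ T.par z t = u := by
  simp only [iso_kid, mem_filter, mem_univ, true_and]

lemma iso_dart_root {V : Type} (T : OT V) (z : V) : iso_dart T z z = (z, none) := if_pos rfl

lemma iso_dart_ne {V : Type} (T : OT V) {z u : V} (h : u ≠ z) : iso_dart T z u = T.dt z u :=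
  if_neg h

lemma iso_ch {V : Type} [Fintype V] (T : OT V) (z u : V) :
    T.ch (iso_dart T z u) =
      (iso_kid T z u).map ⟨T.dt z, fun _ _ e => congrArg Prod.fst e⟩ := by
  ext c
  simp only [mem_map, iso_mem_kid, Function.Embedding.coeFn_mk]
  by_cases hu : u = z
  · subst hu
    rw [iso_dart_root, T.ch_root]
    exact ⟨fun ⟨t, h1, h2, h3⟩ => ⟨t, ⟨h1, h2⟩, h3.symm⟩, fun ⟨t, ⟨h1, h2⟩, h3⟩ => ⟨t, h1, h2, h3.symm⟩⟩
  · rw [iso_dart_ne T hu, T.ch_dt hu]
    exact ⟨fun ⟨t, h1, h2, h3⟩ => ⟨t, ⟨h1, h2⟩, h3.symm⟩, fun ⟨t, ⟨h1, h2⟩, h3⟩ => ⟨t, h1, h2, h3.symm⟩⟩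

lemma iso_keys {V V' : Type} [Fintype V] [Fintype V'] (T : OT V) (T' : OT V') {z u : V} {z' u' : V'}
    (h : T.bs.y (iso_dart T z u) = T'.bs.y (iso_dart T' z' u')) :
    (iso_kid T z u).val.map (fun t => T.bs.key (T.dt z t)) =
      (iso_kid T' z' u').val.map (fun t => T'.bs.key (T'.dt z' t)) := by
  have h1 := (T.bs.sum T'.bs).ch_of_y (i := Sum.inl (iso_dart T z u))
    (j := Sum.inr (iso_dart T' z' u')) h
  have e1 : (T.bs.sum T'.bs).ch (Sum.inl (iso_dart T z u)) =
      (T.ch (iso_dart T z u)).map Function.Embedding.inl := rfl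
  have e2 : (T.bs.sum T'.bs).ch (Sum.inr (iso_dart T' z' u')) =
      (T'.ch (iso_dart T' z' u')).map Function.Embedding.inr := rfl
  rw [e1, e2, iso_ch, iso_ch, map_val, map_val, map_val, map_val, Multiset.map_map,
    Multiset.map_map, Multiset.map_map, Multiset.map_map] at h1
  exact h1

lemma iso_arc {V : Type} [Fintype V] (T : OT V) (z a b : V) :
    T.r a b ↔ (a ≠ z ∧ T.par z a = b) ∧ T.ty (T.dt z a) = true ∨
      (b ≠ z ∧ T.par z b = a) ∧ ¬ T.ty (T.dt z b) = true := by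
  simp only [OT.dt, T.ty_some]
  constructor
  · intro h
    rcases T.all z a b h with ⟨h1, h2⟩ | ⟨h1, h2⟩
    · exact Or.inl ⟨⟨h1, h2⟩, h2 ▸ h⟩
    · exact Or.inr ⟨⟨h1, h2⟩, h2 ▸ T.asym a b h⟩
  · rintro (⟨⟨-, h2⟩, h3⟩ | ⟨⟨h1, h2⟩, h3⟩)
    · exact h2 ▸ h3
    · exact h2 ▸ (T.adj_par z b h1).resolve_left h3

theorem iso_of_y {V V' : Type} [Fintype V] [Fintype V'] (T : OT V) (T' : OT V')
    (hc : Fintype.card V = Fintype.card V') (z : V) (z' : V')
    (h : T.bs.y (z, none) = T'.bs.y (z', none)) : Nonempty (T.r ≃r T'.r) := by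
  have ex : ∀ (x : V) (x' : V'), ∃ σ : V → V',
      T.bs.y (iso_dart T z x) = T'.bs.y (iso_dart T' z' x') →
      (∀ a ∈ iso_kid T z x, σ a ∈ iso_kid T' z' x' ∧
        T'.bs.key (T'.dt z' (σ a)) = T.bs.key (T.dt z a)) ∧
        ∀ a ∈ iso_kid T z x, ∀ a' ∈ iso_kid T z x, σ a = σ a' → a = a' := by
    intro x x'
    by_cases e : T.bs.y (iso_dart T z x) = T'.bs.y (iso_dart T' z' x')
    · obtain ⟨σ, hσ⟩ := iso_exists_match x' _ _ _ _ (iso_keys T T' e)
      exact ⟨σ, fun _ => hσ⟩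
    · exact ⟨fun _ => x', fun h1 => absurd h1 e⟩
  choose σ hσ using ex
  let E : ℕ → V → V' := fun k => Nat.rec (fun _ => z')
    (fun _ Ek x => σ (T.par z x) (Ek (T.par z x)) x) k
  let e : V → V' := fun x => E (T.dep z x) x
  have er : e z = z' := by simp only [e, T.dep_self]; rfl
  have es : ∀ x, x ≠ z → e x = σ (T.par z x) (e (T.par z x)) x := by
    intro x hx
    simp only [e]
    rw [T.dep_par z x hx]
  have mem : ∀ x, x ≠ z → x ∈ iso_kid T z (T.par z x) := fun x hx => (iso_mem_kid T).2 ⟨hx, rfl⟩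
  have inv : ∀ x, T.bs.y (iso_dart T z x) = T'.bs.y (iso_dart T' z' (e x)) := by
    refine T.ind_down z _ ?_ fun x hx ih => ?_
    · rw [er, iso_dart_root, iso_dart_root, h]
    · obtain ⟨h1, h2⟩ := (hσ _ _ ih).1 x (mem x hx)
      rw [← es x hx] at h1 h2
      rw [iso_dart_ne T hx, iso_dart_ne T' ((iso_mem_kid T').1 h1).1]
      exact (congrArg Prod.snd h2).symm
  have ech : ∀ x, x ≠ z → e x ≠ z' ∧ T'.par z' (e x) = e (T.par z x) := by
    intro x hx
    rw [← iso_mem_kid T', es x hx]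
    exact ((hσ _ _ (inv _)).1 x (mem x hx)).1
  have col : ∀ x, x ≠ z → T'.ty (T'.dt z' (e x)) = T.ty (T.dt z x) := by
    intro x hx
    rw [es x hx]
    exact congrArg Prod.fst ((hσ _ _ (inv _)).1 x (mem x hx)).2
  have inj : ∀ x y, e x = e y → x = y := by
    refine T.ind_down z _ (fun y h => ?_) fun x hx ih y h => ?_
    · by_contra hy
      exact (ech y (Ne.symm hy)).1 (h ▸ er)
    · have hy : y ≠ z := fun hy => (ech x hx).1 (by rw [h, hy, er])
      have h1 : T.par z x = T.par z y := ih _ (by rw [← (ech x hx).2, ← (ech y hy).2, h])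
      refine (hσ _ _ (inv _)).2 x (mem x hx) y ((iso_mem_kid T).2 ⟨hy, h1.symm⟩) ?_
      rw [← es x hx, h, es y hy, h1]
  have par : ∀ a b, (e a ≠ z' ∧ T'.par z' (e a) = e b) ↔ (a ≠ z ∧ T.par z a = b) := by
    intro a b
    constructor
    · rintro ⟨h1, h2⟩
      have h3 : a ≠ z := fun h => h1 (h ▸ er)
      exact ⟨h3, inj _ _ ((ech a h3).2 ▸ h2)⟩
    · rintro ⟨h1, rfl⟩
      exact ech a h1
  refine ⟨⟨Equiv.ofBijective e ((Fintype.bijective_iff_injective_and_card e).2
    ⟨fun x y h => inj x y h, hc⟩), fun {a b} => ?_⟩⟩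
  rw [Equiv.ofBijective_apply, Equiv.ofBijective_apply, iso_arc T z, iso_arc T' z', par, par]
  exact or_congr (and_congr_right fun h1 => by rw [col a h1.1])
    (and_congr_right fun h1 => by rw [col b h1.1])

end Pool.Agent.Work.MP_be9894_co.AA
end

-- merged part: Pool.Agent.Work.MP_be9894_co.AA.Det
section
/-!
The deterministic theorem.

`dec_of_same`: `exists_deform` for both trees; for `L = lst x N` (`lst x 0 = []`, `lst x (i+1) = x i :: lst x i`; every list
has this form) `η d k = ev (lst x k) (h L d)` satisfies `eta_eq`, so `ev L (γ (z, none)) = ZR`, and `γ = γ'` by `ZR_eq`, `ev_ext`.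

`big_side`: `φ = y (u, none) - y' (u', none)`; `sig φ = C φ + X * P d * (K (z, some u) - K' (z', some u'))` by
`prod_ch_split` and `P_of_y` in the sum system; `φ ∈ Kil (sz d)`: for `D` of degree `j` with `sz d ≤ j < n`, `DX D` kills
both `P (u, none)` and `P' (u', none)` (all children are smaller than `sz d`, using `card_side_add`, `sz_of_y`), so `D φ = 0` by
`sig_inj`; `j = n`: `IsDer.dec`; `j > n`: `IsDer.low`.  Then `thmA`.

`det`: `greedy`; with `Uniq` and `bd_congr` each sum is `card • Fm`, nonzero; `matching_yh` in the sum system (images of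
`bd` under the darts, types by `bd_ty`); the big component lies in a side (`side_cover`, `comp_subset`).
-/

set_option autoImplicit false

namespace Pool.Agent.Work.MP_be9894_co.AA

open Finset Polynomial

lemma det_gam {V : Type} [Fintype V] (T : OT V) (z : V) : ∃ γ : QA,
    T.bs.y (z, none) - γ ∈ Dec (Fintype.card V) ∧
      ∀ N x, ev ((List.range N).map x).reverse γ = ZR T.r N x := by
  obtain ⟨h, γ, h1, h2, h3, h4⟩ := T.bs.exists_deform
  refine ⟨γ (z, none), by simpa only [T.bs_sz, T.side_none, card_univ] using h1 (z, none),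
    fun N x => ?_⟩
  have e : ∀ k, ((List.range (k + 1)).map x).reverse = x k :: ((List.range k).map x).reverse :=
    fun k => by simp [List.range_succ]
  rw [h2]
  exact eta_eq T N x (fun d k => ev ((List.range k).map x).reverse
    (h ((List.range N).map x).reverse d)) (fun d => h3 _ d) (fun d k _ => by
      simp only [e]
      exact h4 _ d _ _) z

lemma dec_of_same {V V' : Type} [Fintype V] [Fintype V'] (T : OT V) (T' : OT V')
    (hc : Fintype.card V = Fintype.card V') (h : SameG T.r T'.r) (z : V) (z' : V') :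
    T.bs.y (z, none) - T'.bs.y (z', none) ∈ Dec (Fintype.card V) := by
  obtain ⟨γ, h1, h2⟩ := det_gam T z
  obtain ⟨γ', h3, h4⟩ := det_gam T' z'
  have e : γ = γ' := ev_ext fun l => by
    have e1 : l = ((List.range l.length).map fun i => l.reverse.getD i 0).reverse := by
      refine List.reverse_eq_iff.1 (List.ext_getElem (by simp) fun i h1 h2 => by
        rw [List.getElem_map, List.getElem_range, List.getD_eq_getElem _ _ h1])
    rw [e1, h2, h4, ZR_eq h]
  rw [← hc, ← e] at h3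
  simpa only [sub_sub_sub_cancel_right] using sub_mem h1 h3

theorem big_side {V V' : Type} [Fintype V] [Fintype V'] (T : OT V) (T' : OT V')
    (hc : Fintype.card V = Fintype.card V') {u z : V} {u' z' : V'}
    (hd : T.bs.y (u, none) - T'.bs.y (u', none) ∈ Dec (Fintype.card V))
    (h1 : T.r u z ∨ T.r z u) (h2 : T'.r u' z' ∨ T'.r z' u')
    (hy : T.bs.y (u, some z) = T'.bs.y (u', some z'))
    (hb : Fintype.card V < 2 * (T.side (u, some z)).card) :
    T.bs.y (u, none) = T'.bs.y (u', none) := by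
  have s1 : (T.side (u, some z)).card = (T'.side (u', some z')).card :=
    (T.bs.sum T'.bs).sz_of_y (i := .inl (u, some z)) (j := .inr (u', some z')) hy
  have s2 : T.bs.P (u, some z) = T'.bs.P (u', some z') := by
    simpa [BS.P, BS.sum, BS.K] using
      (T.bs.sum T'.bs).P_of_y (i := .inl (u, some z)) (j := .inr (u', some z')) hy
  have c1 := T.card_side_add h1
  have c2 := T'.card_side_add h2
  have p1 : T.bs.P (u, none) = T.bs.P (u, some z) * T.bs.K (z, some u) := T.prod_ch_split h1 _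
  have p2 : T'.bs.P (u', none) = T'.bs.P (u', some z') * T'.bs.K (z', some u') :=
    T'.prod_ch_split h2 _
  have y1 := T.bs.hy (u, none)
  have y2 := T'.bs.hy (u', none)
  have k1 := T.bs.K_hom (z, some u)
  have k2 := T'.bs.K_hom (z', some u')
  have k3 := T.bs.P_hom (u, some z)
  have n0 := T.bs.sz_pos (u, some z)
  rw [OT.bs_sz] at y1 y2 k1 k2 k3 n0
  rw [OT.side_none, card_univ] at y1 y2
  rw [← hc] at y2
  rw [show (T'.side (z', some u')).card = (T.side (z, some u)).card by omega] at k2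
  have hφ := sub_mem y1 y2
  have hk := sub_mem k1 k2
  have hs : sig (T.bs.y (u, none) - T'.bs.y (u', none)) = C (T.bs.y (u, none) - T'.bs.y (u', none))
      + X * T.bs.P (u, some z) * (T.bs.K (z, some u) - T'.bs.K (z', some u')) := by
    rw [map_sub, map_sub, T.bs.sig_y, T'.bs.sig_y, p1, p2, ← s2]
    ring
  refine sub_eq_zero.1 (T.bs.thmA (u, some z) _ _ _ (by omega) hφ (fun j D hj hD => ?_) ?_ hs)
  · rw [OT.bs_sz] at hj
    rcases lt_trichotomy j (Fintype.card V) with h3 | rfl | h3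
    · refine sig_inj (by omega) (hD.1 _ _ hφ) ?_
      rw [← hD.DX_sig, hs, map_add, DX_C, Derivation.leibniz, Derivation.leibniz, DX_X,
        hD.lowX (by omega) hk, hD.lowX (by omega) k3]
      simp only [smul_zero, add_zero]
    · exact hD.dec hd
    · exact hD.low h3 hφ
  · rwa [OT.bs_sz, ← c1, Nat.cast_add, add_sub_cancel_left]

lemma det_sum {V : Type} [Fintype V] (T : OT V) {k : ℕ} (hU : Uniq T.r k) {v : V}
    (hv : v ∈ top T.r k) : ((top T.r k).card : ℚ) ≠ 0 ∧ T.Fm v k ≠ 0 ∧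
      ∑ w ∈ top T.r k, T.Fm w k = ((top T.r k).card : ℚ) • T.Fm v k := by
  refine ⟨Nat.cast_ne_zero.2 (card_ne_zero_of_mem hv),
    prod_ne_zero_iff.2 fun u _ => T.bs.yh_ne _, ?_⟩
  rw [Nat.cast_smul_eq_nsmul, ← sum_const]
  refine sum_congr rfl fun w hw => ?_
  obtain ⟨h1, h2⟩ := T.bd_congr (hU w hw v hv)
  exact prod_congr h1 fun u hu => by rw [h2 u (h1 ▸ hu)]

theorem det {V V' : Type} [Fintype V] [Fintype V'] (T : OT V) (T' : OT V')
    (hc : Fintype.card V = Fintype.card V') (h : SameG T.r T'.r) (k : ℕ)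
    (hU : UU T.r k) (hU' : UU T'.r k) : Nonempty (T.r ≃r T'.r) := by
  obtain ⟨v, hv, x, hx, hb⟩ := hU.2
  obtain ⟨v', hv', -⟩ := hU'.2
  have : Nonempty V := ⟨v⟩
  have : Nonempty V' := ⟨v'⟩
  obtain ⟨a1, a2, a3⟩ := det_sum T hU.1 hv
  obtain ⟨b1, b2, b3⟩ := det_sum T' hU'.1 hv'
  obtain ⟨S, S', s1, s2, s3, s4⟩ := greedy T T' (HH_eq T T' _ (dec_of_same T T' hc h)) k
  have e : ((top T.r k).card : ℚ) • T.Fm v k = ((top T'.r k).card : ℚ) • T'.Fm v' k := by
    rcases s1 with rfl | rfl <;> rcases s2 with rfl | rfl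
    · rw [← a3, ← b3, s4]
    · exact absurd (a3.symm.trans s4) (smul_ne_zero a1 a2)
    · exact absurd (b3.symm.trans s4.symm) (smul_ne_zero b1 b2)
    · simp at s3
  have m := (T.bs.sum T'.bs).matching_yh (tp false (k + 1))
    ((T.bd v k).map ⟨fun u => .inl (T.dt v u), fun _ _ h => congrArg Prod.fst (Sum.inl.inj h)⟩)
    ((T'.bd v' k).map ⟨fun u => .inr (T'.dt v' u), fun _ _ h => congrArg Prod.fst (Sum.inr.inj h)⟩)
    (forall_mem_map.2 fun u hu => (T.bd_ty hu).2) (forall_mem_map.2 fun u hu => (T'.bd_ty hu).2)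
    _ _ a1 (by
      rw [prod_map, prod_map]
      exact e)
  obtain ⟨u, hu, hxu⟩ := T.side_cover hx
  obtain ⟨i, hi, hk⟩ := Multiset.mem_map.1 (m ▸ Multiset.mem_map_of_mem _ (mem_map_of_mem _ hu))
  obtain ⟨u', hu', rfl⟩ := mem_map.1 hi
  exact iso_of_y T T' hc u u' (big_side T T' hc (dec_of_same T T' hc h u u')
    (T.adj_par v u (T.bd_ty hu).1) (T'.adj_par v' u' (T'.bd_ty hu').1) (congrArg Prod.snd hk).symm
    (hb.trans_le (Nat.mul_le_mul_left 2 (card_le_card (T.comp_subset hu hxu)))))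

end Pool.Agent.Work.MP_be9894_co.AA
end

-- merged part: Pool.Agent.Work.MP_be9894_co.AA.BDet
section
/-!
The one-sided deterministic theorem.  Put `K = 2 k + 2`, `n = card V = card V'` (`card_of_same`).
* `top T.r j = top T.r k` for `j ≥ k` (`uniq_add`), hence `top T'.r j = top T'.r k` (`top_count`, `top_anti`); any two members of `top T'.r k` lie in each other's
  hull of stage `K` (`top_meet`, `inH_rev`, `inH_tri`).
* `greedy2` (`HH_eq`, `dec_of_same`, `top_size`) and `det_sum`: `c • Fm v K = ∑ v' ∈ top T'.r K, Fm v' K`.  The component of the hypothesis lies in a side `dt v u0`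
  (`side_cover`, `comp_subset`) of size `m` with `(J+1) (n - m) < n`, so `n < 2 m`.
* `big_exists`: some side on the right has size at least `m`.  Take `w' ∈ top`, `u' ∈ bd w' K` with the largest side, of size `m' ≥ m`.
* `common_side`: every `v' ∈ top T'.r K` has `u' ∈ bd v' K` and `dt v' u' = dt w' u'`.  (All of `V'` is reached from `w'` by stage `J`: `top_size` at stage `J + K`.)
* So the right side is `yh (dt w' u') * Q` with `Q` homogeneous (`sum_bd_card`, `top_size`); apply `C` or `sig` according to the type (`bd_ty`, as in `matching_yh`), then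
  `BS.prime_match` in the sum system, `sz_of_y`, `big_side`, `iso_of_y`.

`big_exists`: a slice `D` of `dt v u0` (`exists_slice`, `thmA`) kills all other factors on the left (`IsDer.low`, sizes by `sum_bd_card`), so it does not kill the left side
(`yh_ne`); if all sides on the right were smaller than `m` it would kill the right side.

`common_side`: `v' ∉ side (dt w' u')` by `side_bd_disj`; `dt_eq`.  If `u' ∈ hull v' K`, `layer` contradicts the size hypothesis.  If the parent `z` of `u'` were outside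
`hull v' K`, it would lie in a side `dt v' u1` (`side_cover`) containing `z` and `side (dt v' u')` (`mem_side_dt`, `side_sub`), larger than the maximum.
-/

set_option autoImplicit false

namespace Pool.Agent.Work.MP_be9894_co.AA

open Finset

variable {V V' : Type} [Fintype V] [Fintype V']

/-- unique best hull with a very large component outside -/
def UV (r : V → V → Prop) (k : ℕ) : Prop :=
  Uniq r k ∧ ∃ v ∈ top r k, ∃ J, 1 ≤ J ∧ (∀ x, inH r false v J x) ∧ ∃ u, u ∉ hull r v (2 * k + 2) ∧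
    (J + 1) * (Fintype.card V - (comp r (hull r v (2 * k + 2)) u).card) < Fintype.card V

lemma bdet_hom {ι : Type} (B : BS ι) (i : ι) : B.yh i ∈ Hom (B.sz i) := by
  unfold BS.yh sg
  split_ifs
  · exact B.hy i
  · exact neg_mem (B.hy i)

lemma bdet_prod {ι : Type} (D : Dn) (s : Finset ι) (f : ι → QA) (h : ∀ i ∈ s, D (f i) = 0) :
    D (∏ i ∈ s, f i) = 0 := by
  induction s using Finset.cons_induction with
  | empty => simp
  | cons a s ha ih =>
    rw [prod_cons, Derivation.leibniz, h a (mem_cons_self a s), ih fun i hi => h i (mem_cons_of_mem hi)]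
    simp

lemma bdet_phi (τ : Bool) : ∃ φ : QA →ₐ[ℚ] Polynomial QA,
    ∀ (ι : Type) (B : BS ι) (i : ι), B.ty i = τ → φ (B.yh i) = B.K i := by
  cases τ
  · exact ⟨sig, fun _ B i hi => by simp [BS.yh, BS.K, KK, sg, hi]⟩
  · exact ⟨Polynomial.CAlgHom, fun _ B i hi => by simp [BS.yh, BS.K, KK, sg, hi]⟩

lemma big_exists (T : OT V) (T' : OT V') {K : ℕ} {v u0 : V} (S' : Finset V') {c : ℚ} (hc : c ≠ 0) (hu : u0 ∈ T.bd v K)
    (hb : Fintype.card V < 2 * (T.side (T.dt v u0)).card) (h : c • T.Fm v K = ∑ v' ∈ S', T'.Fm v' K) :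
    ∃ v' ∈ S', ∃ u' ∈ T'.bd v' K, (T.side (T.dt v u0)).card ≤ (T'.side (T'.dt v' u')).card := by
  classical
  by_contra hcon
  push Not at hcon
  obtain ⟨D, hD, h1⟩ := T.bs.exists_slice (T.bs.thmA (T.dt v u0))
  rw [OT.bs_sz] at hD
  have hR : D (∑ v' ∈ S', T'.Fm v' K) = 0 := by
    rw [map_sum]
    refine sum_eq_zero fun v' hv' => bdet_prod D _ _ fun u' hu' => hD.low ?_ (bdet_hom T'.bs _)
    rw [OT.bs_sz]
    exact_mod_cast hcon v' hv' u' hu'
  have hQ : D (∏ u ∈ (T.bd v K).erase u0, T.bs.yh (T.dt v u)) = 0 := by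
    refine bdet_prod D _ _ fun u hu' => hD.low ?_ (bdet_hom T.bs _)
    rw [OT.bs_sz]
    have h2 := T.sum_bd_card v K
    rw [← add_sum_erase _ _ hu] at h2
    have h3 := single_le_sum (f := fun u => (T.side (T.dt v u)).card) (fun _ _ => Nat.zero_le _) hu'
    have h4 : (T.side (T.dt v u)).card < (T.side (T.dt v u0)).card := by omega
    exact_mod_cast h4
  have hy : D (T.bs.yh (T.dt v u0)) ≠ 0 := by
    unfold BS.yh sg
    split_ifs
    · rw [h1]
      exact one_ne_zero
    · rw [map_neg, h1]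
      exact neg_ne_zero.2 one_ne_zero
  rw [← h, OT.Fm, ← mul_prod_erase _ _ hu, Derivation.map_smul, Derivation.leibniz, hQ, smul_zero,
    zero_add, smul_eq_mul] at hR
  exact smul_ne_zero hc (mul_ne_zero (prod_ne_zero_iff.2 fun u _ => T.bs.yh_ne _) hy) hR

lemma common_side (T : OT V) {K J : ℕ} {w a u : V} (hK : 1 ≤ K) (hu : u ∈ T.bd w K) (ha : a ∈ hull T.r w K)
    (heq : ∀ j, (hull T.r a j).card = (hull T.r w j).card) (hJ : ∀ x, inH T.r false w J x)
    (hmax : ∀ u1 ∈ T.bd a K, (T.side (T.dt a u1)).card ≤ (T.side (T.dt w u)).card)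
    (hbig : (J + 1) * (Fintype.card V - (T.side (T.dt w u)).card) < Fintype.card V) :
    u ∈ T.bd a K ∧ T.dt a u = T.dt w u := by
  have h0 : a ∉ T.side (T.dt w u) := fun h => T.side_bd_disj hu h ha
  obtain ⟨h1, h2⟩ := T.dt_eq h0
  refine ⟨T.mem_bd.2 ⟨fun h3 => ?_, by_contra fun h3 => ?_⟩, h2⟩
  · have h4 := layer T hK hu h0 h3 (fun j _ => heq j) hJ
    have h5 := card_le_univ (T.side (T.dt w u))
    rw [add_mul, one_mul] at hbig
    omega
  · obtain ⟨u1, h4, h5⟩ := T.side_cover h3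
    have h6 := (T.bd_ty h4).1
    have h7 : u ∈ T.side (T.dt a u1) := (T.mem_side_dt h6).2 (Or.inr ⟨h1, h5⟩)
    have h8 : T.par a u ∉ T.side (T.dt a u) := by
      rw [T.mem_side, not_not]
      rcases T.adj_cases (T.par a u) (T.adj_par a u h1) with ⟨h9, h10⟩ | ⟨h9, _⟩
      · exact ⟨h9, congrArg some h10.symm⟩
      · exact absurd rfl h9
    have h9 := card_lt_card ((ssubset_iff_of_subset (T.side_sub h6 h7)).2 ⟨_, h5, h8⟩)
    have h10 := hmax u1 h4
    rw [h2] at h9
    omega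

theorem det2 (T : OT V) (T' : OT V') (h : SameG T.r T'.r) (k : ℕ) (hU : UV T.r k) : Nonempty (T.r ≃r T'.r) := by
  classical
  obtain ⟨hUq, v, hv, J, hJ1, hJ, x, hx, hb⟩ := hU
  have hc := card_of_same T T' h
  have : Nonempty V := ⟨v⟩
  have : Nonempty V' := Fintype.card_pos_iff.1 (hc ▸ Fintype.card_pos)
  have t1 : ∀ j, k ≤ j → top T.r j = top T.r k := fun j hj => (uniq_add hUq hj).1
  have t2 : ∀ j, k ≤ j → top T'.r j = top T'.r k := fun j hj =>
    eq_of_subset_of_card_le (top_anti hj) (by rw [← top_count T T' h, ← top_count T T' h, t1 j hj])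
  generalize hK : 2 * k + 2 = K at hx hb
  have hkK : k ≤ K := by omega
  obtain ⟨u0, hu0, hxu⟩ := T.side_cover hx
  have m1 := card_le_card (T.comp_subset hu0 hxu)
  have m2 := card_le_univ (T.side (T.dt v u0))
  have m3 : (J + 1) * (Fintype.card V - (T.side (T.dt v u0)).card) < Fintype.card V :=
    (Nat.mul_le_mul_left _ (by omega)).trans_lt hb
  have m4 : Fintype.card V < 2 * (T.side (T.dt v u0)).card := by
    have := Nat.mul_le_mul_right (Fintype.card V - (T.side (T.dt v u0)).card) (show 2 ≤ J + 1 by omega)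
    omega
  have hvK : v ∈ top T.r K := t1 K hkK ▸ hv
  obtain ⟨a1, -, a3⟩ := det_sum T (uniq_add hUq hkK).2 hvK
  have g := greedy2 T T' (HH_eq T T' _ (dec_of_same T T' hc h))
    (fun j v hv v' hv' => top_size T T' h hv hv' j le_rfl) K
  rw [a3] at g
  obtain ⟨v1, hv1, u1, hu1, m5⟩ := big_exists T T' _ a1 hu0 m4 g
  obtain ⟨⟨w', u'⟩, hp, hmax⟩ := exists_max_image
    (univ.filter fun p : V' × V' => p.1 ∈ top T'.r K ∧ p.2 ∈ T'.bd p.1 K)
    (fun p => (T'.side (T'.dt p.1 p.2)).card) ⟨(v1, u1), mem_filter.2 ⟨mem_univ _, hv1, hu1⟩⟩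
  obtain ⟨-, hw', hu'⟩ := mem_filter.1 hp
  have hmax' : ∀ a ∈ top T'.r K, ∀ u ∈ T'.bd a K,
      (T'.side (T'.dt a u)).card ≤ (T'.side (T'.dt w' u')).card := fun a ha u hu =>
    hmax (a, u) (mem_filter.2 ⟨mem_univ _, ha, hu⟩)
  have m6 := m5.trans (hmax' v1 hv1 u1 hu1)
  have up : ∀ a ∈ top T'.r K, ∀ j, a ∈ top T'.r (j + K) := fun a ha j => by
    rwa [t2 _ (by omega), ← t2 K hkK]
  have hJ' : ∀ x, inH T'.r false w' J x := fun x => by
    have h1 := top_size T T' h (show v ∈ top T.r (J + K) by rwa [t1 _ (by omega)]) (up w' hw' J) J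
      (by omega)
    rw [eq_univ_of_forall fun y => mem_hull.2 (hJ y), card_univ, hc] at h1
    exact mem_hull.1 ((card_eq_iff_eq_univ _).1 h1.symm ▸ mem_univ x)
  have cs : ∀ a ∈ top T'.r K, u' ∈ T'.bd a K ∧ T'.dt a u' = T'.dt w' u' := fun a ha => by
    obtain ⟨z, z1, z2⟩ := top_meet T T' h hUq (t2 K hkK ▸ hw') (t2 K hkK ▸ ha)
    refine common_side T' (J := J) (by omega) hu' (mem_hull.2 ?_)
      (fun j => top_card (up a ha j) (up w' hw' j) (by omega)) hJ' (hmax' a ha) ?_
    · exact inH_mono (by omega) (inH_tri (mem_hull.1 z1) (inH_rev (mem_hull.1 z2)))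
    · rw [← hc]
      exact (Nat.mul_le_mul_left _ (by omega)).trans_lt m3
  obtain ⟨φ, hφ⟩ := bdet_phi (tp false (K + 1))
  have g1 := congrArg φ g
  have e1 : φ (T.Fm v K) = ∏ u ∈ T.bd v K, T.bs.K (T.dt v u) := by
    rw [OT.Fm, map_prod]
    exact prod_congr rfl fun u hu => hφ _ _ _ (T.bd_ty hu).2
  have e2 : φ (∑ a ∈ top T'.r K, T'.Fm a K) = T'.bs.K (T'.dt w' u') *
      ∑ a ∈ top T'.r K, ∏ u ∈ (T'.bd a K).erase u', T'.bs.K (T'.dt a u) := by
    rw [map_sum, mul_sum]
    refine sum_congr rfl fun a ha => ?_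
    rw [← (cs a ha).2, mul_prod_erase _ (fun u => T'.bs.K (T'.dt a u)) (cs a ha).1, OT.Fm, map_prod]
    exact prod_congr rfl fun u hu => hφ _ _ _ (T'.bd_ty hu).2
  rw [map_smul, e1, e2] at g1
  obtain ⟨i, hi, hk⟩ := (T.bs.sum T'.bs).prime_match
    ((T.bd v K).map ⟨fun u => .inl (T.dt v u), fun _ _ h => congrArg Prod.fst (Sum.inl.inj h)⟩)
    (.inr (T'.dt w' u')) a1
    (w := ∑ a ∈ top T'.r K, ∏ u ∈ (T'.bd a K).erase u', T'.bs.K (T'.dt a u)) (by
      refine Submodule.sum_mem _ fun a ha => ?_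
      have h1 := homX_prod ((T'.bd a K).erase u') (fun u => T'.bs.K (T'.dt a u))
        (fun u => ((T'.side (T'.dt a u)).card : ℤ)) fun u _ => T'.bs.K_hom _
      have h2 := T.sum_bd_card v K
      have h3 := T'.sum_bd_card a K
      rw [← add_sum_erase _ _ (cs a ha).1, (cs a ha).2] at h3
      have h4 := top_size T T' h hvK ha K le_rfl
      rw [sum_map]
      change _ ∈ HomX (∑ u ∈ T.bd v K, ((T.side (T.dt v u)).card : ℤ) - (T'.side (T'.dt w' u')).card)
      rw [← Nat.cast_sum] at h1 ⊢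
      convert h1 using 2
      omega) (by
      rw [prod_map]
      exact g1)
  obtain ⟨u, hu, rfl⟩ := mem_map.1 hi
  have hy : T.bs.y (T.dt v u) = T'.bs.y (T'.dt w' u') := congrArg Prod.snd hk
  have s1 : (T.side (T.dt v u)).card = (T'.side (T'.dt w' u')).card :=
    (T.bs.sum T'.bs).sz_of_y (i := .inl (T.dt v u)) (j := .inr (T'.dt w' u')) hy
  have m7 : Fintype.card V < 2 * (T.side (T.dt v u)).card := by omega
  exact iso_of_y T T' hc u u' (big_side T T' hc (dec_of_same T T' hc h u u')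
    (T.adj_par v u (T.bd_ty hu).1) (T'.adj_par w' u' (T'.bd_ty hu').1) hy m7)

end Pool.Agent.Work.MP_be9894_co.AA
end

-- merged part: Pool.Agent.Work.MP_be9894_co.AA.Leaves
section
/-!
There are many leaves.

`one_child`: `∑ v, card (kids p v) = n - 1`; a vertex without children is a leaf or the root; so
`n - 1 ≥ (number with one child) + 2 * (number with at least two)`, and the three classes add up to `n`.  (If the root has
no child then `n = 1`.)

`leaves_count`: for `ω` in the event, `u` in `oneCh` with child `c`, and `x ≠ u`, put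
`p' = update (update p c (p u)) u x`, same bits.  `update_RT` twice (`p u ∉ sub p c` since `p u ∈ sub p c` would give
`p c = u ∈ sub p c`; `u` is a leaf after the first update).  `u` is a leaf of `p'`, and `leaves p' ⊆ insert u (leaves p)`.
The triple `(ω, u, x)` is recovered from `(ω', u, c)`: `x = p' u`, `p = update (update p' u (p' c)) c u`.  So
`card * (n - 2 θ) * (n - 1) ≤ card OmF * (θ + 1) * n`.
-/

set_option autoImplicit false

namespace Pool.Agent.Work.MP_be9894_co.AA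

open Finset

variable {V : Type} [Fintype V]

open Classical in
noncomputable def oneCh (p : V → V) : Finset V := univ.filter fun u => p u ≠ u ∧ (kids p u).card = 1

lemma mem_oneCh {p : V → V} {u : V} : u ∈ oneCh p ↔ p u ≠ u ∧ (kids p u).card = 1 := by simp [oneCh]

lemma one_child {p : V → V} (h : IsRT p) (hn : 2 ≤ Fintype.card V) :
    Fintype.card V ≤ (oneCh p).card + 2 * (leaves p).card := by
  classical
  obtain ⟨ρ, h1, h2⟩ := id h
  have hfix : ∀ u, p u = u → u = ρ := fun u hu => h.fix_eq hu h1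
  have hs : ∑ v, (kids p v).card = Fintype.card V - 1 := by
    rw [← card_univ, ← card_erase_of_mem (mem_univ ρ),
      card_eq_sum_card_fiberwise (f := p) (t := univ) fun _ _ => mem_univ _]
    refine sum_congr rfl fun v _ => congrArg card (Finset.ext fun u => ?_)
    rw [mem_kids, mem_filter, mem_erase]
    constructor
    · rintro ⟨rfl, h3⟩
      exact ⟨⟨fun e => h3 (by rw [e, h1]), mem_univ _⟩, rfl⟩
    · rintro ⟨⟨h3, -⟩, rfl⟩
      exact ⟨rfl, fun e => h3 (hfix u e.symm)⟩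
  have hρ : 0 < (kids p ρ).card := by
    obtain ⟨u, hu⟩ := Fintype.exists_ne_of_one_lt_card hn ρ
    obtain ⟨k, hk⟩ := h2 u
    by_contra h0
    have h3 : ∀ t, t ≠ ρ → p t ≠ ρ := fun t ht e => h0 (card_pos.2 ⟨t, mem_kids.2 ⟨e, ht⟩⟩)
    have h4 : ∀ k, p^[k] u ≠ ρ := fun k => by
      induction k with
      | zero => exact hu
      | succ k ih => rw [Function.iterate_succ_apply']; exact h3 _ ih
    exact h4 k hk
  have key : ∀ v ∈ (univ : Finset V), 2 ≤ (kids p v).card + (if v ∈ oneCh p then 1 else 0) +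
      2 * (if v ∈ leaves p then 1 else 0) + if v = ρ then 1 else 0 := fun v _ => by
    by_cases hv : v = ρ
    · subst hv
      rw [if_pos rfl]
      omega
    have h3 : p v ≠ v := fun e => hv (hfix v e)
    by_cases h0 : (kids p v).card = 0
    · rw [if_pos (mem_leaves.2 fun t e => ?_)]
      · omega
      · have : t ∈ kids p v := mem_kids.2 ⟨e, fun e' => h3 (e' ▸ e)⟩
        rw [card_eq_zero.1 h0] at this
        exact notMem_empty _ this
    by_cases h4 : (kids p v).card = 1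
    · rw [if_pos (mem_oneCh.2 ⟨h3, h4⟩)]
      omega
    omega
  have h5 := sum_le_sum key
  rw [sum_add_distrib, sum_add_distrib, sum_add_distrib, hs, ← mul_sum, sum_ite_mem, sum_ite_mem,
    sum_ite_eq', univ_inter, univ_inter, if_pos (mem_univ _)] at h5
  simp only [sum_const, smul_eq_mul, mul_one, card_univ] at h5
  omega

variable [DecidableEq V]

lemma leaves_move {p : V → V} (h : IsRT p) {u x : V} (hu : u ∈ oneCh p) (hx : x ≠ u) :
    ∃ (c : V) (p' : V → V), IsRT p' ∧ u ∈ leaves p' ∧ (leaves p').card ≤ (leaves p).card + 1 ∧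
      p' u = x ∧ Function.update (Function.update p' u (p' c)) c u = p := by
  obtain ⟨h1, h2⟩ := mem_oneCh.1 hu
  obtain ⟨c, hc⟩ := card_eq_one.1 h2
  obtain ⟨h3, h4⟩ := mem_kids.1 (hc ▸ mem_singleton_self c : c ∈ kids p u)
  have h5 : p c ≠ c := h3 ▸ h4.symm
  have h6 : IsRT (Function.update p c (p u)) :=
    update_RT h h5 fun e => par_not_mem_sub h h5 (h3 ▸ sub_down e)
  have h7 : u ∈ leaves (Function.update p c (p u)) := mem_leaves.2 fun t e => by
    by_cases ht : t = c
    · rw [ht, Function.update_self] at e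
      exact h1 e
    · rw [Function.update_of_ne ht] at e
      exact ht (mem_singleton.1 (hc ▸ mem_kids.2 ⟨e, fun e' => h1 (e' ▸ e)⟩))
  have h8 : Function.update (Function.update p c (p u)) u x c = p u := by
    rw [Function.update_of_ne h4, Function.update_self]
  refine ⟨c, Function.update (Function.update p c (p u)) u x,
    update_RT h6 (mem_leaves.1 h7 u) (by rw [sub_leaf h7, mem_singleton]; exact hx),
    leaf_update h7 hx, (card_le_card fun t ht => ?_).trans (card_insert_le u _),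
    Function.update_self .., funext fun s => ?_⟩
  · rw [mem_insert, or_iff_not_imp_left]
    refine fun h9 => mem_leaves.2 fun s e => ?_
    by_cases a1 : s = c
    · exact h9 (by rw [← e, a1, h3])
    by_cases a2 : s = u
    · exact mem_leaves.1 ht c (by rw [h8, ← a2, e])
    · exact mem_leaves.1 ht s (by rw [Function.update_of_ne a2, Function.update_of_ne a1, e])
  · by_cases a1 : s = c
    · rw [a1, Function.update_self, h3]
    by_cases a2 : s = u
    · rw [Function.update_of_ne a1, a2, Function.update_self, h8]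
    · rw [Function.update_of_ne a1, Function.update_of_ne a2, Function.update_of_ne a2,
        Function.update_of_ne a1]

theorem leaves_count (θ : ℕ) (h : 4 * θ + 4 ≤ Fintype.card V) :
    (evt fun ω : Om V => (leaves ω.1).card ≤ θ).card * Fintype.card V ≤ 4 * (θ + 1) * (OmF V).card := by
  classical
  have key := card_le_card_of_surjOn
    (s := (evt fun ω : Om V => (leaves ω.1).card ≤ θ + 1).sigma fun ω => leaves ω.1 ×ˢ univ)
    (t := (evt fun ω : Om V => (leaves ω.1).card ≤ θ).sigma fun ω =>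
      (oneCh ω.1).sigma fun u => univ.erase u)
    (fun z : Σ _ : Om V, V × V => (⟨(Function.update (Function.update z.1.1 z.2.1 (z.1.1 z.2.2))
      z.2.2 z.2.1, z.1.2), z.2.1, z.1.1 z.2.1⟩ : Σ _ : Om V, Σ _ : V, V)) (by
      rintro ⟨⟨p, o⟩, u, x⟩ hz
      simp only [coe_sigma, Set.mem_sigma_iff, mem_coe, mem_evt, mem_erase] at hz
      obtain ⟨⟨h1, h2⟩, h3, h4, -⟩ := hz
      obtain ⟨c, p', a1, a2, a3, a4, a5⟩ := leaves_move h1 h3 h4
      refine ⟨⟨(p', o), u, c⟩, ?_, ?_⟩
      · simp only [coe_sigma, Set.mem_sigma_iff, mem_coe, mem_evt, mem_product]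
        exact ⟨⟨a1, a3.trans (Nat.add_le_add_right h2 1)⟩, a2, mem_univ _⟩
      · simp only [a4, a5])
  rw [card_sigma, card_sigma] at key
  have h1 : (evt fun ω : Om V => (leaves ω.1).card ≤ θ).card •
      ((Fintype.card V - 2 * θ) * (Fintype.card V - 1)) ≤ _ :=
    (card_nsmul_le_sum _ _ _ fun ω hω => ?_).trans key
  swap
  · obtain ⟨h2, h3⟩ := mem_evt.1 hω
    have h4 := one_child h2 (by omega)
    rw [card_sigma, sum_const_nat fun u _ => card_erase_of_mem (mem_univ u), card_univ]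
    exact Nat.mul_le_mul_right _ (by omega)
  have h2 := h1.trans ((sum_le_card_nsmul _ _ ((θ + 1) * Fintype.card V) fun ω hω => by
    rw [card_product, card_univ]
    exact Nat.mul_le_mul_right _ (mem_evt.1 hω).2).trans
      (Nat.mul_le_mul_right _ (card_le_card (evt_subset _))))
  obtain ⟨m, hm⟩ : ∃ m, Fintype.card V = 4 * θ + 4 + m := Nat.exists_eq_add_of_le h
  rw [smul_eq_mul, hm, show 4 * θ + 4 + m - 2 * θ = 2 * θ + 4 + m by omega,
    show 4 * θ + 4 + m - 1 = 4 * θ + 3 + m by omega] at h2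
  rw [hm]
  refine Nat.le_of_mul_le_mul_right ?_ (show 0 < 4 * θ + 4 + m by omega)
  have h3 : (4 * θ + 4 + m) * (4 * θ + 4 + m) ≤ 4 * ((2 * θ + 4 + m) * (4 * θ + 3 + m)) := by
    linarith only [Nat.zero_le (θ * m), Nat.zero_le (θ * θ), Nat.zero_le (m * m), mul_self_nonneg ↑m, mul_self_nonneg ((4 : ℤ) * ↑θ + (4 : ℤ) + ↑m)]
  calc _ = _ * ((4 * θ + 4 + m) * (4 * θ + 4 + m)) := mul_assoc _ _ _
    _ ≤ _ * (4 * ((2 * θ + 4 + m) * (4 * θ + 3 + m))) := Nat.mul_le_mul_left _ h3
    _ = 4 * (_ * ((2 * θ + 4 + m) * (4 * θ + 3 + m))) := mul_left_comm _ _ _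
    _ ≤ 4 * ((OmF V).card * ((θ + 1) * (4 * θ + 4 + m))) := Nat.mul_le_mul_left _ h2
    _ = _ := by ring

end Pool.Agent.Work.MP_be9894_co.AA
end

-- merged part: Pool.Agent.Work.MP_be9894_co.AA.NearTop
section
/-!
Few vertices have a nearly maximal number of descendants.  Write `h v = card (hull (rel ω) v 0)`.

`hang`: `pend_leaf` and `pend_mv` relate `rel ω` and `rel ω'` to the common `relX ω l` (`Pend.other`, `Pend.leaf`,
`Pend.not_leaf`, `Pend.start`): `h' l = h v + 1` and `h' w ≤ h w` for `w ≠ l`, `h' v = h v`.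

`NN_step`: the triples `(ω, v, l)` with `ω ∈ gap (θ + 2 (j+1))`, `v ∈ NN (j+1)`, `l` a leaf outside `hull v 0` (at least `θ` of
them) map injectively to `(ω', l, ω.1 l, ω.2 l)` with `ω' ∈ gap (θ + 2 j)` and `l ∈ NN j` (`mv_mv`, `mv_par`, `leaves_update`).
`NN 0` has at most one element.  `near 2 ⊆ NN 3`.
-/

set_option autoImplicit false

namespace Pool.Agent.Work.MP_be9894_co.AA

open Finset

variable {V : Type} [Fintype V]

open Classical in
noncomputable def NN (r : V → V → Prop) (j : ℕ) : Finset V :=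
  univ.filter fun v => ∀ w, w ≠ v → (hull r w 0).card + 1 ≤ (hull r v 0).card + j

lemma mem_NN {r : V → V → Prop} {j : ℕ} {v : V} :
    v ∈ NN r j ↔ ∀ w, w ≠ v → (hull r w 0).card + 1 ≤ (hull r v 0).card + j := by simp [NN]

/-- the leaves outnumber every descendant set by `t` -/
def gap (t : ℕ) (ω : Om V) : Prop := ∀ v, (hull (rel ω) v 0).card + t ≤ (leaves ω.1).card

variable [DecidableEq V]

lemma hang {ω : Om V} {v l : V} (hl : l ∈ leaves ω.1) (hv : l ∉ hull (rel ω) v 0) :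
    (hull (rel (mv ω l v true)) l 0).card = (hull (rel ω) v 0).card + 1 ∧
      ∀ w, w ≠ l → (hull (rel (mv ω l v true)) w 0).card ≤ (hull (rel ω) w 0).card := by
  have hvl : v ≠ l := fun e => hv (e ▸ mem_hull.2 (inH_self false v 0))
  have P := pend_leaf hl
  have P' := pend_mv hl hvl true
  refine ⟨?_, fun w hw => card_le_card fun x hx => ?_⟩
  · rw [← card_insert_of_notMem hv]
    congr 1
    ext x
    rw [mem_insert, mem_hull, mem_hull, P'.start]
    by_cases hx : x = l
    · simp [hx]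
    · simp [hx, P.other hvl hx]
  · rw [mem_hull] at hx ⊢
    by_cases hxl : x = l
    · subst hxl
      obtain ⟨j', h1, h2, -⟩ := (P'.leaf hw).1 hx
      obtain rfl : j' = 0 := by omega
      exact absurd h2 (by simp [tp])
    · exact (P.other hw hxl).2 ((P'.other hw hxl).1 hx)

lemma NN_step (θ j : ℕ) :
    (∑ ω ∈ evt (gap (V := V) (θ + 2 * (j + 1))), (NN (rel ω) (j + 1)).card) * θ ≤
      2 * Fintype.card V * ∑ ω ∈ evt (gap (V := V) (θ + 2 * j)), (NN (rel ω) j).card := by
  classical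
  set A := (evt (gap (V := V) (θ + 2 * (j + 1)))).sigma fun ω =>
    (NN (rel ω) (j + 1)).sigma fun v => leaves ω.1 \ hull (rel ω) v 0 with hA
  set B := ((evt (gap (V := V) (θ + 2 * j))).sigma fun ω => NN (rel ω) j) ×ˢ
    (univ : Finset (V × Bool)) with hB
  have h1 : (∑ ω ∈ evt (gap (V := V) (θ + 2 * (j + 1))), (NN (rel ω) (j + 1)).card) * θ ≤
      A.card := by
    rw [hA, card_sigma, sum_mul]
    refine sum_le_sum fun ω hω => ?_
    rw [card_sigma, ← smul_eq_mul]
    refine card_nsmul_le_sum _ _ _ fun v _ => ?_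
    have h2 := (mem_evt.1 hω).2 v
    have h3 := le_card_sdiff (hull (rel ω) v 0) (leaves ω.1)
    omega
  have h2 : B.card =
      2 * Fintype.card V * ∑ ω ∈ evt (gap (V := V) (θ + 2 * j)), (NN (rel ω) j).card := by
    rw [hB, card_product, card_sigma, card_univ, Fintype.card_prod, Fintype.card_bool]
    ring
  rw [← h2]
  refine h1.trans ?_
  let F : (Σ _ : Om V, Σ _ : V, V) → (Σ _ : Om V, V) × (V × Bool) := fun z =>
    (⟨mv z.1 z.2.2 z.2.1 true, z.2.2⟩, z.1.1 z.2.2, z.1.2 z.2.2)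
  let G : (Σ _ : Om V, V) × (V × Bool) → (Σ _ : Om V, Σ _ : V, V) := fun z =>
    ⟨mv z.1.1 z.1.2 z.2.1 z.2.2, z.1.1.1 z.1.2, z.1.2⟩
  have hFG : Function.LeftInverse G F := by
    rintro ⟨ω, v, l⟩
    simp only [F, G, mv_mv, mv_par]
  refine card_le_card_of_injOn F ?_ hFG.injective.injOn
  rintro ⟨ω, v, l⟩ hz
  simp only [hA, coe_sigma, Set.mem_sigma_iff, mem_coe, mem_sigma, mem_sdiff, mem_evt,
    mem_NN] at hz
  obtain ⟨⟨hω, hg⟩, hv, hl, hlv⟩ := hz
  have hvl : v ≠ l := fun e => hlv (e ▸ mem_hull.2 (inH_self false v 0))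
  obtain ⟨e1, e2⟩ := hang hl hlv
  have e3 := leaves_update ω.1 l v
  simp only [hB, F, mem_coe, mem_product, mem_sigma, mem_univ, and_true, mem_evt, mem_NN]
  refine ⟨⟨leaf_mv_RT hω hl hvl true, fun w => ?_⟩, fun w hw => ?_⟩
  · rw [mv_fst]
    by_cases hw : w = l
    · have := hg v
      rw [hw, e1]
      omega
    · have := hg w
      have := e2 w hw
      omega
  · have := e2 w hw
    rw [e1]
    by_cases hwv : w = v
    · rw [hwv] at this ⊢
      omega
    · have := hv w hwv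
      omega

lemma NN_sum (θ j : ℕ) :
    (∑ ω ∈ evt (gap (V := V) (θ + 2 * j)), (NN (rel ω) j).card) * θ ^ j ≤
      (2 * Fintype.card V) ^ j * (OmF V).card := by
  induction j with
  | zero =>
    simp only [pow_zero, mul_one, one_mul]
    refine le_trans ?_ (card_le_card (evt_subset (gap (V := V) (θ + 2 * 0))))
    rw [card_eq_sum_ones (evt _)]
    refine sum_le_sum fun ω _ => card_le_one.2 fun a ha b hb => ?_
    by_contra hab
    have h1 := mem_NN.1 ha b (Ne.symm hab)
    have h2 := mem_NN.1 hb a hab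
    omega
  | succ j ih =>
    rw [pow_succ', ← mul_assoc, pow_succ', mul_assoc (2 * Fintype.card V)]
    refine (Nat.mul_le_mul_right _ (NN_step θ j)).trans ?_
    rw [mul_assoc (2 * Fintype.card V)]
    exact Nat.mul_le_mul_left _ ih

theorem near_count (θ r : ℕ) :
    (evt fun ω : Om V => gap (θ + 6) ω ∧ r < (near (rel ω) 2).card).card * r * θ ^ 3 ≤
      (2 * Fintype.card V) ^ 3 * (OmF V).card := by
  refine le_trans (Nat.mul_le_mul_right _ ?_) (NN_sum θ 3)
  rw [← smul_eq_mul]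
  refine (card_nsmul_le_sum _ (fun ω : Om V => (NN (rel ω) 3).card) _ fun ω hω => ?_).trans
    (sum_le_sum_of_subset fun ω hω => mem_evt.2 ⟨(mem_evt.1 hω).1, (mem_evt.1 hω).2.1⟩)
  refine (mem_evt.1 hω).2.2.le.trans (card_le_card fun v hv => mem_NN.2 fun w _ => ?_)
  have := mem_near.1 hv w
  omega

end Pool.Agent.Work.MP_be9894_co.AA
end

-- merged part: Pool.Agent.Work.MP_be9894_co.AA.TieCount
section
/-!
Ties are rare: a weighted injection.  For `ω` in the event choose `v ω`, `w ω` by `tie_pair`; `Zs_many` (with `rel_conn`) makes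
`ZF (rel ω) v w i` nonempty for `i < K`; at least `θ` leaves lie outside both hulls.  Give the tuple `(ω, i, l, u)`
(`i < K`, `l` such a leaf, `u ∈ ZF i`) the weight `1 / (card (ZF i) + 1)`; the total weight is at least `card * K * θ / 2`.
Map it to `(ω', v, w, l, ω.1 l, ω.2 l)` with `ω' = mv ω l u (tp false i)`.  By `tie_move`: `ω' ∈ OmF` (`leaf_mv_RT`),
`card (near (rel ω') 1) ≤ r + 1`, `v, w ∈ near (rel ω') 1`, `i = fd (rel ω') v w`, `l ∈ ZF (rel ω') v w i` and the weight is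
`1 / card (ZF (rel ω') v w i)`.  The map is injective (`mv_mv`, `mv_par`), and the weights of all such 6-tuples sum to at most
`card OmF * (r+1) ^ 2 * 2 n` (`Finset.sum_le_sum_of_subset_of_nonneg`, `Finset.sum_image` or `sum_le_sum_of_injOn`).
-/

set_option autoImplicit false

namespace Pool.Agent.Work.MP_be9894_co.AA

open Finset

variable {V : Type} [Fintype V]

open Classical in
noncomputable def ZF (r : V → V → Prop) (v w : V) (i : ℕ) : Finset V := univ.filter (Zs r v w i)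

lemma mem_ZF {r : V → V → Prop} {v w u : V} {i : ℕ} : u ∈ ZF r v w i ↔ Zs r v w i u := by simp [ZF]

/-- first stage at which the sizes differ -/
noncomputable def fd (r : V → V → Prop) (v w : V) : ℕ := sInf {j | (hull r v j).card ≠ (hull r w j).card}

variable [DecidableEq V]

lemma tiecount_upper (r : ℕ) :
    ∑ x ∈ ((OmF V).filter fun ω => (near (rel ω) 1).card ≤ r + 1).sigma fun ω =>
      (near (rel ω) 1 ×ˢ near (rel ω) 1).sigma fun p =>
        ZF (rel ω) p.1 p.2 (fd (rel ω) p.1 p.2) ×ˢ (univ : Finset (V × Bool)),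
      (1 : ℚ) / (ZF (rel x.1) x.2.1.1 x.2.1.2 (fd (rel x.1) x.2.1.1 x.2.1.2)).card ≤
      (OmF V).card * ((r + 1) ^ 2 * (Fintype.card V * 2)) := by
  rw [sum_sigma]
  refine (sum_le_card_nsmul _ _ (((r : ℚ) + 1) ^ 2 * (Fintype.card V * 2)) fun ω hω => ?_).trans ?_
  · rw [sum_sigma]
    refine (sum_le_card_nsmul _ _ ((Fintype.card V : ℚ) * 2) fun p _ => ?_).trans ?_
    · simp only [sum_const, card_product, card_univ, Fintype.card_prod, Fintype.card_bool,
        nsmul_eq_mul, Nat.cast_mul, Nat.cast_ofNat]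
      rw [mul_right_comm, mul_one_div]
      exact mul_le_of_le_one_left (by positivity) (div_self_le_one _)
    · have : ((near (rel ω) 1).card : ℚ) ≤ r + 1 := by exact_mod_cast (mem_filter.1 hω).2
      rw [card_product, nsmul_eq_mul, Nat.cast_mul, sq]
      gcongr
  · rw [nsmul_eq_mul]
    gcongr
    exact filter_subset _ _

theorem tie_count (k K r θ : ℕ) (hK : 3 * K + 2 ≤ k) :
    (evt fun ω : Om V => ¬ Uniq (rel ω) k ∧ (near (rel ω) 2).card ≤ r ∧
        ∀ v, 2 * (hull (rel ω) v k).card + θ ≤ (leaves ω.1).card).card * K * θ ≤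
      4 * Fintype.card V * (r + 1) ^ 2 * (OmF V).card := by
  classical
  set E := evt fun ω : Om V => ¬ Uniq (rel ω) k ∧ (near (rel ω) 2).card ≤ r ∧
    ∀ v, 2 * (hull (rel ω) v k).card + θ ≤ (leaves ω.1).card with hE
  rcases isEmpty_or_nonempty V with hV | hV
  · have : E = ∅ := eq_empty_of_forall_notMem fun ω h => (mem_evt.1 h).1.elim hV.elim
    simp [this]
  choose! v hv w hw x hx using fun (ω : Om V) (h : ω ∈ E) => tie_pair (mem_evt.1 h).2.1
  let L : Om V → Finset V := fun ω => leaves ω.1 \ (hull (rel ω) (v ω) k ∪ hull (rel ω) (w ω) k)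
  let A : Finset ((_ : Om V) × (_ : ℕ) × V × V) :=
    E.sigma fun ω => (range K).sigma fun i => L ω ×ˢ ZF (rel ω) (v ω) (w ω) i
  let f : ((_ : Om V) × (_ : ℕ) × V × V) → (_ : Om V) × (_ : V × V) × V × V × Bool := fun a =>
    ⟨mv a.1 a.2.2.1 a.2.2.2 (tp false a.2.1), (v a.1, w a.1), a.2.2.1, a.1.1 a.2.2.1, a.1.2 a.2.2.1⟩
  let g : ((_ : Om V) × (_ : V × V) × V × V × Bool) → (_ : Om V) × (_ : ℕ) × V × V := fun b =>
    ⟨mv b.1 b.2.2.1 b.2.2.2.1 b.2.2.2.2, fd (rel b.1) b.2.1.1 b.2.1.2, b.2.2.1, b.1.1 b.2.2.1⟩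
  have low : (E.card : ℚ) * (K * (θ / 2)) ≤
      ∑ a ∈ A, (1 : ℚ) / ((ZF (rel a.1) (v a.1) (w a.1) a.2.1).card + 1) := by
    rw [sum_sigma, ← nsmul_eq_mul]
    refine card_nsmul_le_sum _ _ _ fun ω hω => ?_
    rw [sum_sigma, ← nsmul_eq_mul]
    refine le_of_eq_of_le (by rw [card_range]) (card_nsmul_le_sum _ _ _ fun i hi => ?_)
    obtain ⟨h0, -, -, h3⟩ := mem_evt.1 hω
    have h1 : (1 : ℚ) ≤ (ZF (rel ω) (v ω) (w ω) i).card := by
      obtain ⟨u, hu⟩ := Zs_many (rel_conn h0) hK (hx ω hω).1 (hx ω hω).2 (mem_range.1 hi)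
      exact_mod_cast card_pos.2 ⟨u, mem_ZF.2 hu⟩
    have h2 : (θ : ℚ) ≤ (L ω).card := by
      have := le_card_sdiff (hull (rel ω) (v ω) k ∪ hull (rel ω) (w ω) k) (leaves ω.1)
      have := card_union_le (hull (rel ω) (v ω) k) (hull (rel ω) (w ω) k)
      have := h3 (v ω)
      have := h3 (w ω)
      exact_mod_cast (by simp only [L]; omega : θ ≤ (L ω).card)
    simp only [sum_const, card_product, nsmul_eq_mul, Nat.cast_mul]
    rw [mul_one_div, div_le_div_iff₀ (by positivity) (by positivity)]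
    have : (0 : ℚ) ≤ θ := by positivity
    linarith only [h2, h1, mul_nonneg_of_nonpos_of_nonpos (Mathlib.Tactic.Linarith.sub_nonpos_of_le (Mathlib.Tactic.Linarith.natCast_nonneg ℚ #(ZF (rel ω) (v ω) (w ω) i))) (Mathlib.Tactic.Linarith.sub_nonpos_of_le h2), mul_nonneg_of_nonpos_of_nonpos (Mathlib.Tactic.Linarith.sub_nonpos_of_le (Mathlib.Tactic.Linarith.natCast_nonneg ℚ θ)) (Mathlib.Tactic.Linarith.sub_nonpos_of_le h1)]
  have key : ∀ a ∈ A, g (f a) = a ∧
      f a ∈ (((OmF V).filter fun ω => (near (rel ω) 1).card ≤ r + 1).sigma fun ω =>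
        (near (rel ω) 1 ×ˢ near (rel ω) 1).sigma fun p =>
          ZF (rel ω) p.1 p.2 (fd (rel ω) p.1 p.2) ×ˢ (univ : Finset (V × Bool))) ∧
      (ZF (rel (f a).1) (f a).2.1.1 (f a).2.1.2 (fd (rel (f a).1) (f a).2.1.1 (f a).2.1.2)).card =
        (ZF (rel a.1) (v a.1) (w a.1) a.2.1).card + 1 := by
    rintro ⟨ω, i, l, u⟩ ha
    simp only [A, L, mem_sigma, mem_product, mem_sdiff, mem_union, not_or, mem_range, mem_ZF] at ha
    obtain ⟨hω, hi, ⟨hl, hlv, hlw⟩, hu⟩ := ha
    obtain ⟨t1, t2, t3, t4, t5, t6, t7, t8⟩ :=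
      tie_move (by omega : i ≤ k) (hv ω hω) (hw ω hω) hl hlv hlw hu
    have e : fd (rel (mv ω l u (tp false i))) (v ω) (w ω) = i :=
      IsLeast.csInf_eq ⟨t3, fun j hj => not_lt.1 fun h => hj (t2 j h)⟩
    have e2 : ZF (rel (mv ω l u (tp false i))) (v ω) (w ω) i = insert l (ZF (rel ω) (v ω) (w ω) i) := by
      ext t
      rw [mem_insert, mem_ZF, mem_ZF, t4]
    refine ⟨?_, ?_, ?_⟩
    · simp only [f, g, mv_mv, mv_par, e]
    · simp only [f, mem_sigma, mem_product, mem_filter, mem_OmF, e, e2, mem_univ, mem_insert_self]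
      refine ⟨⟨leaf_mv_RT (mem_evt.1 hω).1 hl t1 _, (card_le_card t8).trans
        ((card_insert_le _ _).trans (Nat.succ_le_succ (mem_evt.1 hω).2.2.1))⟩, ⟨t6, t7⟩, trivial, trivial⟩
    · simp only [f, e, e2]
      exact card_insert_of_notMem fun h => t5 (mem_ZF.1 h)
  have up := tiecount_upper (V := V) r
  refine (Nat.cast_le (α := ℚ)).1 ?_
  have := (low.trans_eq (sum_congr rfl fun a ha => by rw [(key a ha).2.2, Nat.cast_succ])).trans_eq
    (sum_image (f := fun x : (_ : Om V) × (_ : V × V) × V × V × Bool =>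
      (1 : ℚ) / (ZF (rel x.1) x.2.1.1 x.2.1.2 (fd (rel x.1) x.2.1.1 x.2.1.2)).card)
      (Set.LeftInvOn.injOn fun a ha => (key a ha).1)).symm
  have := (this.trans (sum_le_sum_of_subset_of_nonneg (image_subset_iff.2 fun a ha => (key a ha).2.1)
    fun _ _ _ => by positivity)).trans up
  push_cast
  linarith only [this]

end Pool.Agent.Work.MP_be9894_co.AA
end

-- merged part: Pool.Agent.Work.MP_be9894_co.AA.BMain
section
/-!
Union bound and assembly of the one-sided theorem.
-/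

set_option autoImplicit false

namespace Pool.Agent.Work.MP_be9894_co.AA

open Finset Filter Topology

theorem bad_bound2 {V : Type} [Fintype V] [DecidableEq V] (k θ M D r K t h j : ℕ) (h1 : 0 < θ) (h2 : 0 < M)
    (h3 : 0 < r) (h4 : 0 < K) (h4' : 0 < h) (h5 : 4 * (θ + 2 * M + 6) + 4 ≤ Fintype.card V) (h7 : 3 * K + 2 ≤ k)
    (h8 : 2 * M ≤ t) (h9 : (2 * h + 1) * t < Fintype.card V) :
    ((evt fun ω : Om V => ¬ UV (rel ω) k).card : ℝ) ≤
      bnd2 (Fintype.card V) k θ M D r K t h j * (OmF V).card := by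
  classical
  set E1 := evt fun ω : Om V => (leaves ω.1).card ≤ θ + 2 * M + 6 with hE1
  set E3 := evt fun ω : Om V => ∃ v, M < (hull (rel ω) v (2 * k + 2)).card with hE3
  set E4 := evt fun ω : Om V => gap (θ + 6) ω ∧ r < (near (rel ω) 2).card with hE4
  set E5 := evt fun ω : Om V => ¬ Uniq (rel ω) k ∧ (near (rel ω) 2).card ≤ r ∧
        ∀ v, 2 * (hull (rel ω) v k).card + θ ≤ (leaves ω.1).card with hE5
  set E6 := evt fun ω : Om V => Uniq (rel ω) (2 * k + 2) ∧ NB (rel ω) (2 * k + 2) t ∧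
        ∀ v, (hull (rel ω) v (2 * k + 2)).card ≤ M with hE6
  set E7 := evt fun ω : Om V => ∃ u, ω.1 (ω.1^[h] u) ≠ ω.1^[h] u with hE7
  have hsub : (evt fun ω : Om V => ¬ UV (rel ω) k) ⊆ E1 ∪ (E3 ∪ (E4 ∪ (E5 ∪ (E6 ∪ E7)))) := by
    intro ω hω
    obtain ⟨hRT, hU⟩ := mem_evt.1 hω
    simp only [mem_union, hE1, hE3, hE4, hE5, hE6, hE7, mem_evt]
    by_cases c1 : (leaves ω.1).card ≤ θ + 2 * M + 6
    · exact Or.inl ⟨hRT, c1⟩
    by_cases c3 : ∃ v, M < (hull (rel ω) v (2 * k + 2)).card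
    · exact Or.inr (Or.inl ⟨hRT, c3⟩)
    push Not at c1 c3
    have hm : ∀ v i, i ≤ 2 * k + 2 → (hull (rel ω) v i).card ≤ M := fun v i hi =>
      le_trans (card_le_card fun u hu => mem_hull.2 (inH_mono hi (mem_hull.1 hu))) (c3 v)
    by_cases c4 : r < (near (rel ω) 2).card
    · refine Or.inr (Or.inr (Or.inl ⟨hRT, fun v => ?_, c4⟩))
      have := hm v 0 (by omega)
      omega
    push Not at c4
    by_cases c5 : Uniq (rel ω) k
    swap
    · refine Or.inr (Or.inr (Or.inr (Or.inl ⟨hRT, c5, c4, fun v => ?_⟩)))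
      have := hm v k (by omega)
      omega
    obtain ⟨u1, u2⟩ := uniq_add (j := 2 * k + 2) c5 (by omega)
    by_cases c6 : NB (rel ω) (2 * k + 2) t
    · exact Or.inr (Or.inr (Or.inr (Or.inr (Or.inl ⟨hRT, u2, c6, c3⟩))))
    by_cases c7 : ∃ u, ω.1 (ω.1^[h] u) ≠ ω.1^[h] u
    · exact Or.inr (Or.inr (Or.inr (Or.inr (Or.inr ⟨hRT, c7⟩))))
    exfalso
    push Not at c7
    unfold NB at c6
    push Not at c6
    obtain ⟨v, hv, u, hu, hc⟩ := c6
    refine hU ⟨c5, v, u1 ▸ hv, 2 * h, by omega, fun x => reach_all hRT c7 v x, u, hu, ?_⟩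
    exact lt_of_le_of_lt (Nat.mul_le_mul_left _ (by omega)) h9
  have hcard : (evt fun ω : Om V => ¬ UV (rel ω) k).card ≤
      E1.card + (E3.card + (E4.card + (E5.card + (E6.card + E7.card)))) := by
    refine le_trans (card_le_card hsub) ?_
    refine le_trans (card_union_le _ _) (Nat.add_le_add_left ?_ _)
    refine le_trans (card_union_le _ _) (Nat.add_le_add_left ?_ _)
    refine le_trans (card_union_le _ _) (Nat.add_le_add_left ?_ _)
    refine le_trans (card_union_le _ _) (Nat.add_le_add_left ?_ _)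
    exact card_union_le _ _
  have hn : (0 : ℝ) < Fintype.card V := by exact_mod_cast (by omega : 0 < Fintype.card V)
  have hθ : (0 : ℝ) < θ := by exact_mod_cast h1
  have hM : (0 : ℝ) < M := by exact_mod_cast h2
  have hr : (0 : ℝ) < r := by exact_mod_cast h3
  have hK : (0 : ℝ) < K := by exact_mod_cast h4
  have ht : t ≤ Fintype.card V := le_trans (Nat.le_mul_of_pos_left t (by omega)) h9.le
  have b1 : (E1.card : ℝ) ≤ 4 * ((θ : ℝ) + 2 * M + 7) / Fintype.card V * (OmF V).card := by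
    have h := leaves_count (V := V) (θ + 2 * M + 6) h5
    have h' : (E1.card : ℝ) * Fintype.card V ≤ 4 * ((θ : ℝ) + 2 * M + 6 + 1) * (OmF V).card := by
      exact_mod_cast h
    rw [div_mul_eq_mul_div, le_div_iff₀ hn]
    linarith only [h']
  have b3 := hull_count (V := V) (2 * k + 2) D j M h2
  have b4 : (E4.card : ℝ) ≤ (2 * (Fintype.card V : ℝ)) ^ 3 / (r * (θ : ℝ) ^ 3) * (OmF V).card := by
    have h := near_count (V := V) θ r
    have h' : (E4.card : ℝ) * r * (θ : ℝ) ^ 3 ≤ (2 * (Fintype.card V : ℝ)) ^ 3 * (OmF V).card := by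
      exact_mod_cast h
    rw [div_mul_eq_mul_div, le_div_iff₀ (by positivity)]
    linarith only [h']
  have b5 : (E5.card : ℝ) ≤ 4 * (Fintype.card V : ℝ) * ((r : ℝ) + 1) ^ 2 / (K * θ) * (OmF V).card := by
    have h := tie_count (V := V) k K r θ h7
    have h' : (E5.card : ℝ) * K * θ ≤ 4 * (Fintype.card V : ℝ) * ((r : ℝ) + 1) ^ 2 * (OmF V).card := by
      exact_mod_cast h
    rw [div_mul_eq_mul_div, le_div_iff₀ (by positivity)]
    linarith only [h']
  have b6 : (E6.card : ℝ) ≤ 36 * (M : ℝ) / √t * (OmF V).card := by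
    have a1 := cut_count2 (V := V) (2 * k + 2) M t (by omega) h8 ht
    have a2 := mul_le_mul_of_nonneg_left (wt_total (V := V) t (by omega)) (by positivity : (0 : ℝ) ≤ 2 * M)
    calc _ ≤ _ := a1
      _ ≤ _ := a2
      _ = _ := by ring
  have b7 := height_count (V := V) h
  have hc : ((evt fun ω : Om V => ¬ UV (rel ω) k).card : ℝ) ≤
      E1.card + (E3.card + (E4.card + (E5.card + (E6.card + E7.card)))) := by exact_mod_cast hcard
  unfold bnd2
  linarith only [b1, b3, b4, b5, b6, b7, hc]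

theorem prob_small2 {ε : ℝ} (hε : 0 < ε) : ∃ k n0 : ℕ, ∀ n ≥ n0,
    ((evt fun ω : Om (Fin n) => ¬ UV (rel ω) k).card : ℝ) ≤ ε * (OmF (Fin n)).card := by
  obtain ⟨k, n0, h⟩ := params2 hε
  refine ⟨k, n0, fun n hn => ?_⟩
  obtain ⟨θ, M, D, r, K, t, hh, j, h1, h2, h3, h4, h4', h5, h7, h8, h9, h10⟩ := h n hn
  have hb := bad_bound2 (V := Fin n) k θ M D r K t hh j h1 h2 h3 h4 h4' (by rw [Fintype.card_fin]; exact h5) h7 h8
    (by rw [Fintype.card_fin]; exact h9)
  rw [Fintype.card_fin] at hb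
  exact le_trans hb (mul_le_mul_of_nonneg_right h10 (Nat.cast_nonneg _))

theorem dens2 {ε : ℝ} (hε : 0 < ε) : ∃ k n0 : ℕ, ∀ n ≥ n0, 0 < Set.ncard (OTs (Fin n)) ∧
    (1 - ε) * (Set.ncard (OTs (Fin n)) : ℝ) ≤ (Set.ncard {r | r ∈ OTs (Fin n) ∧ UV r k} : ℝ) := by
  obtain ⟨k, n0, h⟩ := prob_small2 (ε := ε / 2) (by positivity)
  refine ⟨k, n0 + 1, fun n hn => ?_⟩
  have hn1 : 0 < n := by omega
  have : Nonempty (Fin n) := ⟨⟨0, hn1⟩⟩
  obtain ⟨ω, hω⟩ := OmF_nonempty (V := Fin n)
  have hfin : (OTs (Fin n)).Finite := Set.toFinite _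
  refine ⟨(Set.ncard_pos hfin).2 ⟨rel ω, rel_tree (mem_OmF.1 hω)⟩, ?_⟩
  have h1 := fibre_ge (V := Fin n) (fun r => ¬ UV r k)
  have h2 := fibre_le (V := Fin n)
  have h3 := h n (by omega)
  rw [Fintype.card_fin] at h1 h2
  have h4 : Set.ncard (OTs (Fin n)) ≤
      Set.ncard {r | r ∈ OTs (Fin n) ∧ UV r k} + Set.ncard {r | r ∈ OTs (Fin n) ∧ ¬ UV r k} := by
    refine le_trans (Set.ncard_le_ncard (t := {r | r ∈ OTs (Fin n) ∧ UV r k} ∪ {r | r ∈ OTs (Fin n) ∧ ¬ UV r k})
      ?_ (Set.toFinite _)) (Set.ncard_union_le _ _)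
    intro r hr
    by_cases hU : UV r k
    · exact Or.inl ⟨hr, hU⟩
    · exact Or.inr ⟨hr, hU⟩
  have h1' : (Set.ncard {r | r ∈ OTs (Fin n) ∧ ¬ UV r k} : ℝ) * n ≤
      ((evt fun ω : Om (Fin n) => ¬ UV (rel ω) k).card : ℝ) := by exact_mod_cast h1
  have h2' : ((OmF (Fin n)).card : ℝ) ≤ 2 * n * (Set.ncard (OTs (Fin n)) : ℝ) := by exact_mod_cast h2
  have h4' : (Set.ncard (OTs (Fin n)) : ℝ) ≤
      (Set.ncard {r | r ∈ OTs (Fin n) ∧ UV r k} : ℝ) + (Set.ncard {r | r ∈ OTs (Fin n) ∧ ¬ UV r k} : ℝ) := by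
    exact_mod_cast h4
  have hnp : (0 : ℝ) < n := by exact_mod_cast hn1
  have h5 : (Set.ncard {r | r ∈ OTs (Fin n) ∧ ¬ UV r k} : ℝ) * n ≤ (ε * (Set.ncard (OTs (Fin n)) : ℝ)) * n := by
    have : ε / 2 * ((OmF (Fin n)).card : ℝ) ≤ ε / 2 * (2 * n * (Set.ncard (OTs (Fin n)) : ℝ)) :=
      mul_le_mul_of_nonneg_left h2' (by positivity)
    linarith only [h3, h1', this]
  have h6 := le_of_mul_le_mul_right h5 hnp
  linarith only [h4', h6]

theorem main2 : Tendsto (fun n : ℕ =>
    (Set.ncard {r : Fin n → Fin n → Prop | r ∈ OTs (Fin n) ∧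
      ∀ (β : Type) [Fintype β] (s : β → β → Prop), s ∈ OTs β → SameG r s → Nonempty (r ≃r s)} : ℝ) /
      ((OTs (Fin n)).ncard : ℝ)) atTop (𝓝 1) := by
  rw [Metric.tendsto_atTop]
  intro ε hε
  obtain ⟨k, n0, h⟩ := dens2 (ε := ε / 2) (by positivity)
  refine ⟨n0, fun n hn => ?_⟩
  obtain ⟨h1, h2⟩ := h n hn
  set G := {r : Fin n → Fin n → Prop | r ∈ OTs (Fin n) ∧
      ∀ (β : Type) [Fintype β] (s : β → β → Prop), s ∈ OTs β → SameG r s → Nonempty (r ≃r s)} with hG
  have h1' : (0 : ℝ) < (Set.ncard (OTs (Fin n)) : ℝ) := by exact_mod_cast h1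
  have hs : {r | r ∈ OTs (Fin n) ∧ UV r k} ⊆ G := by
    rintro r ⟨hr, hU⟩
    refine ⟨hr, fun β _ s hs hS => ?_⟩
    obtain ⟨T, rfl⟩ := exists_OT r hr.1 hr.2
    obtain ⟨T', rfl⟩ := exists_OT s hs.1 hs.2
    exact det2 T T' hS k hU
  have h3 : (Set.ncard {r | r ∈ OTs (Fin n) ∧ UV r k} : ℝ) ≤ (Set.ncard G : ℝ) := by
    exact_mod_cast Set.ncard_le_ncard hs (Set.toFinite _)
  have h4 : (Set.ncard G : ℝ) ≤ (Set.ncard (OTs (Fin n)) : ℝ) := by
    have hs2 : G ⊆ OTs (Fin n) := fun _ h => h.1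
    exact_mod_cast Set.ncard_le_ncard hs2 (Set.toFinite _)
  have h5 : (Set.ncard G : ℝ) / (Set.ncard (OTs (Fin n)) : ℝ) ≤ 1 := (div_le_one h1').2 h4
  have h6 : 1 - ε / 2 ≤ (Set.ncard G : ℝ) / (Set.ncard (OTs (Fin n)) : ℝ) := (le_div_iff₀ h1').2 (le_trans h2 h3)
  rw [Real.dist_eq, abs_lt]
  constructor <;> linarith only [hε, h6, h5]

end Pool.Agent.Work.MP_be9894_co.AA
end
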