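import Pool.Agent.Work.MP_be9894_co.AA.Far

/-!
Hulls are small.

`big_hull`: for `x, y ∈ hull v k` one has `inH false x (2k+2) y` (`inH_rev`, `inH_tri`); for each `x` at most
`(Δ+1) ^ D ≤ M / 2` of the `y` lie in the ball (`card_ball`), so `M ^ 2 ≤ 2 * card (farP ..)`; sum over the event.
-/

set_option autoImplicit false

namespace Pool.Agent.Work.MP_be9894_co.AA

open Finset

variable {V : Type} [Fintype V] [DecidableEq V]

lemma bighull_one {ω : Om V} {k D Δ M : ℕ} (hM : 2 * (Δ + 1) ^ D ≤ M) (h : ∀ v, (kids ω.1 v).card < Δ) {v : V}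
    (hv : M < (hull (rel ω) v k).card) : M ^ 2 ≤ 2 * (farP (rel ω) (2 * k + 2) D).card := by
  set H := hull (rel ω) v k with hH
  have h1 : (H.sigma fun x => H \ ball (rel ω) x D).card ≤ (farP (rel ω) (2 * k + 2) D).card := by
    refine card_le_card_of_injOn (fun e => (e.1, e.2)) ?_ ?_
    · intro e he
      rw [mem_coe, mem_sigma, mem_sdiff] at he
      rw [mem_coe, mem_farP]
      refine ⟨?_, he.2.2⟩
      have := inH_tri (inH_rev (mem_hull.1 he.1)) (mem_hull.1 he.2.1)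
      exact inH_mono (by omega) this
    · rintro ⟨a, b⟩ _ ⟨c, d⟩ _ he
      simp only [Prod.mk.injEq] at he
      obtain ⟨rfl, rfl⟩ := he
      rfl
  rw [card_sigma] at h1
  have h2 : ∀ x ∈ H, H.card - (Δ + 1) ^ D ≤ (H \ ball (rel ω) x D).card := by
    intro x _
    have := le_card_sdiff (ball (rel ω) x D) H
    have := card_ball h x D
    omega
  have h3 : H.card * (H.card - (Δ + 1) ^ D) ≤ ∑ x ∈ H, (H \ ball (rel ω) x D).card := by
    simpa using card_nsmul_le_sum H _ _ h2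
  have h4 : M ≤ 2 * (H.card - (Δ + 1) ^ D) := by omega
  calc M ^ 2 = M * M := sq M
    _ ≤ H.card * (2 * (H.card - (Δ + 1) ^ D)) := Nat.mul_le_mul hv.le h4
    _ = 2 * (H.card * (H.card - (Δ + 1) ^ D)) := by ring
    _ ≤ _ := Nat.mul_le_mul_left 2 (le_trans h3 h1)

theorem big_hull (k D Δ M : ℕ) (hM : 2 * (Δ + 1) ^ D ≤ M) :
    ((evt fun ω : Om V => (∀ v, (kids ω.1 v).card < Δ) ∧ ∃ v, M < (hull (rel ω) v k).card).card : ℝ) * (M : ℝ) ^ 2 ≤
      2 * Fintype.card V * (OmF V).card * tl (2 * k + 2) D (Fintype.card V) := by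
  set E := evt fun ω : Om V => (∀ v, (kids ω.1 v).card < Δ) ∧ ∃ v, M < (hull (rel ω) v k).card with hE
  have h1 : ∀ ω ∈ E, (M : ℝ) ^ 2 ≤ 2 * ((farP (rel ω) (2 * k + 2) D).card : ℝ) := by
    intro ω hω
    obtain ⟨_, h, v, hv⟩ := mem_evt.1 hω
    exact_mod_cast bighull_one hM h hv
  have h2 : (E.card : ℝ) * (M : ℝ) ^ 2 ≤ ∑ ω ∈ E, 2 * ((farP (rel ω) (2 * k + 2) D).card : ℝ) := by
    simpa using card_nsmul_le_sum E _ _ h1
  have h3 : ∑ ω ∈ E, 2 * ((farP (rel ω) (2 * k + 2) D).card : ℝ) ≤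
      ∑ ω ∈ OmF V, 2 * ((farP (rel ω) (2 * k + 2) D).card : ℝ) :=
    sum_le_sum_of_subset_of_nonneg (evt_subset _) (fun _ _ _ => by positivity)
  rw [← mul_sum, ← mul_sum] at h3
  have h4 := far_sum (V := V) (2 * k + 2) D
  rw [← mul_sum] at h2
  linarith

end Pool.Agent.Work.MP_be9894_co.AA
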