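import Mathlib

-- merged part: Pool.Agent.Work.MP_be9894_co.AA.Match
section
-- merged part: Pool.Agent.Work.MP_be9894_co.AA.Ring
section
/-!
The ring of quasisymmetric functions, realised as functions on lists of rationals.
The head of a list is the newest (top) level.  `Mf al` is the monomial function of the composition
whose parts are `a + 1` for `a` in `al`.

Plan for the proofs.
* `Mf_mul`: quasi-shuffle.  Let `B a f` be the function with `B a f [] = 0`,
  `B a f (x :: l) = B a f l + x ^ (a+1) * f l`; it is linear in `f`, `Mf (a :: al) = B a (Mf al)`, so it maps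
  `HomF d` into `HomF (d + a + 1)`, and
  `B a f * B b g = B a (f * B b g) + B b (B a f * g) + B (a+b+1) (f * g)` (induction on the list).
  Induct on the sum of the lengths.
* `hom_ind`: the span of all `Mf al` is closed under products, so it is the whole of `Asub`.
* domain: if `f l1 ≠ 0`, `g l2 ≠ 0`, pad with zeros in front (`Mf al (0 :: l) = Mf al l`) to a common length `N`;
  for each `f` in `Asub` there is `P : MvPolynomial (Fin N) ℚ` with `f (List.ofFn x) = eval x P` (induction on `N`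
  for `Mf`, or on the adjoin), and `MvPolynomial.funext` plus the domain property finish.
-/

set_option autoImplicit false

namespace Pool.Agent.Work.MP_be9894_co.AA

open Polynomial

def Mf : List ℕ → List ℚ → ℚ
  | [], _ => 1
  | _ :: _, [] => 0
  | a :: al, x :: l => Mf (a :: al) l + x ^ (a + 1) * Mf al l

/-- the size of the composition -/
def wt (al : List ℕ) : ℕ := (al.map (· + 1)).sum

def HomF (d : ℤ) : Submodule ℚ (List ℚ → ℚ) :=
  Submodule.span ℚ {f | ∃ al, (wt al : ℤ) = d ∧ f = Mf al}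

def Asub : Subalgebra ℚ (List ℚ → ℚ) := Algebra.adjoin ℚ (Set.range Mf)

/-- quasisymmetric functions -/
def QA : Type := ↥Asub

noncomputable instance : CommRing QA := inferInstanceAs (CommRing ↥Asub)
noncomputable instance : Algebra ℚ QA := inferInstanceAs (Algebra ℚ ↥Asub)

/-- the underlying function -/
noncomputable def fn : QA →ₐ[ℚ] (List ℚ → ℚ) := Asub.val

/-- the monomial function as an element of `QA` -/
def Mq (al : List ℕ) : QA := ⟨Mf al, Algebra.subset_adjoin ⟨al, rfl⟩⟩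

/-- homogeneous elements of degree `d` -/
noncomputable def Hom (d : ℤ) : Submodule ℚ QA := (HomF d).comap fn.toLinearMap

/-- evaluation at a list -/
noncomputable def ev (l : List ℚ) : QA →ₐ[ℚ] ℚ := (Pi.evalAlgHom ℚ (fun _ : List ℚ => ℚ) l).comp fn

lemma ev_apply (l : List ℚ) (f : QA) : ev l f = fn f l := rfl

lemma ev_Mq (l : List ℚ) (al : List ℕ) : ev l (Mq al) = Mf al l := rfl

lemma ev_inj {f : QA} (h : ∀ l, ev l f = 0) : f = 0 := Subtype.ext (funext h)

lemma ev_ext {f g : QA} (h : ∀ l, ev l f = ev l g) : f = g := Subtype.ext (funext h)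

lemma Mq_hom (al : List ℕ) : Mq al ∈ Hom (wt al) := Submodule.subset_span ⟨al, rfl, rfl⟩

/-- add one top part of size `a + 1` -/
def ring_B (a : ℕ) (f : List ℚ → ℚ) : List ℚ → ℚ
  | [] => 0
  | x :: l => ring_B a f l + x ^ (a + 1) * f l

lemma ring_B_Mf (a : ℕ) (al : List ℕ) : Mf (a :: al) = ring_B a (Mf al) := by
  funext l
  induction l with
  | nil => rfl
  | cons x l ih => rw [Mf, ring_B, ih]

/-- `ring_B` as a linear map -/
def ring_BL (a : ℕ) : (List ℚ → ℚ) →ₗ[ℚ] (List ℚ → ℚ) where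
  toFun := ring_B a
  map_add' f g := by
    funext l
    induction l with
    | nil => simp [ring_B]
    | cons x l ih =>
      simp only [ring_B, Pi.add_apply] at ih ⊢
      rw [ih]; ring
  map_smul' c f := by
    funext l
    induction l with
    | nil => simp [ring_B]
    | cons x l ih =>
      simp only [ring_B, Pi.smul_apply, smul_eq_mul, RingHom.id_apply] at ih ⊢
      rw [ih]; ring

lemma ring_wt_cons (a : ℕ) (al : List ℕ) : (wt (a :: al) : ℤ) = a + 1 + wt al := by
  simp [wt]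

lemma ring_B_hom (a : ℕ) {d e : ℤ} (he : e = a + 1 + d) {f : List ℚ → ℚ} (hf : f ∈ HomF d) :
    ring_B a f ∈ HomF e := by
  have : HomF d ≤ (HomF e).comap (ring_BL a) := Submodule.span_le.2 (by
    rintro _ ⟨al, h, rfl⟩
    exact Submodule.subset_span ⟨a :: al, by rw [ring_wt_cons, h, he], (ring_B_Mf a al).symm⟩)
  exact this hf

lemma ring_B_mul (a b : ℕ) (f g : List ℚ → ℚ) : ring_B a f * ring_B b g =
    ring_B a (f * ring_B b g) + ring_B b (ring_B a f * g) + ring_B (a + b + 1) (f * g) := by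
  funext l
  induction l with
  | nil => simp [ring_B]
  | cons x l ih =>
    simp only [ring_B, Pi.add_apply, Pi.mul_apply] at ih ⊢
    linear_combination ih

lemma ring_Mf_nil : Mf [] = 1 := funext fun l => by rw [Mf]; rfl

lemma ring_Mf_mem (al : List ℕ) : Mf al ∈ HomF (wt al) := Submodule.subset_span ⟨al, rfl, rfl⟩

lemma ring_span {S : Set (List ℚ → ℚ)} (hS : S ⊆ Set.range Mf) (P : QA → Prop) (h0 : P 0)
    (hM : ∀ al, Mf al ∈ S → P (Mq al)) (hadd : ∀ f g, P f → P g → P (f + g))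
    (hsm : ∀ (c : ℚ) f, P f → P (c • f)) {f : QA} (hf : fn f ∈ Submodule.span ℚ S) : P f := by
  have key : ∀ g ∈ Submodule.span ℚ S, ∃ f : QA, fn f = g ∧ P f := fun g hg => by
    induction hg using Submodule.span_induction with
    | mem g hg =>
      obtain ⟨al, rfl⟩ := hS hg
      exact ⟨Mq al, rfl, hM al hg⟩
    | zero => exact ⟨0, map_zero _, h0⟩
    | add g g' _ _ h h' =>
      obtain ⟨f, rfl, h⟩ := h
      obtain ⟨f', rfl, h'⟩ := h'
      exact ⟨f + f', map_add _ _ _, hadd _ _ h h'⟩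
    | smul c g _ h =>
      obtain ⟨f, rfl, h⟩ := h
      exact ⟨c • f, map_smul _ _ _, hsm _ _ h⟩
  obtain ⟨f', h1, h2⟩ := key _ hf
  have : f' = f := Subtype.ext h1
  exact this ▸ h2

lemma ring_wt_zero {al : List ℕ} (h : (wt al : ℤ) ≤ 0) : al = [] := by
  cases al with
  | nil => rfl
  | cons a al => rw [ring_wt_cons] at h; omega

lemma Mf_mul (al be : List ℕ) : Mf al * Mf be ∈ HomF ((wt al : ℤ) + wt be) := by
  induction al generalizing be with
  | nil => simpa [ring_Mf_nil, wt] using ring_Mf_mem be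
  | cons a al iha =>
    induction be with
    | nil => simpa [ring_Mf_nil, show wt [] = 0 from rfl] using ring_Mf_mem (a :: al)
    | cons b be ihb =>
      have h1 := iha (b :: be)
      have h2 := iha be
      rw [ring_B_Mf] at h1 ihb
      rw [ring_B_Mf, ring_B_Mf, ring_B_mul]
      refine add_mem (add_mem (ring_B_hom _ ?_ h1) (ring_B_hom _ ?_ ihb)) (ring_B_hom _ ?_ h2)
      all_goals simp only [ring_wt_cons]; push_cast; ring

lemma hom_mul {a b : ℤ} {f g : QA} (hf : f ∈ Hom a) (hg : g ∈ Hom b) : f * g ∈ Hom (a + b) := by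
  have key : ∀ f ∈ HomF a, ∀ g ∈ HomF b, f * g ∈ HomF (a + b) := fun f hf g hg => by
    induction hf, hg using Submodule.span_induction₂ with
    | mem_mem f g hf hg =>
      obtain ⟨al, rfl, rfl⟩ := hf
      obtain ⟨be, rfl, rfl⟩ := hg
      exact Mf_mul al be
    | zero_left g _ => rw [zero_mul]; exact zero_mem _
    | zero_right g _ => rw [mul_zero]; exact zero_mem _
    | add_left f f' g _ _ _ h h' => rw [add_mul]; exact add_mem h h'
    | add_right f g g' _ _ _ h h' => rw [mul_add]; exact add_mem h h'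
    | smul_left c f g _ _ h => rw [smul_mul_assoc]; exact Submodule.smul_mem _ c h
    | smul_right c f g _ _ h => rw [mul_smul_comm]; exact Submodule.smul_mem _ c h
  show fn (f * g) ∈ HomF (a + b)
  rw [map_mul]
  exact key _ hf _ hg

lemma ring_hom_span {d : ℤ} (P : QA → Prop) (h0 : P 0) (hM : ∀ al, (wt al : ℤ) = d → P (Mq al))
    (hadd : ∀ f g, P f → P g → P (f + g)) (hsm : ∀ (c : ℚ) f, P f → P (c • f))
    {f : QA} (hf : f ∈ Hom d) : P f := by
  refine ring_span (S := {f | ∃ al, (wt al : ℤ) = d ∧ f = Mf al})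
    (by rintro _ ⟨al, -, rfl⟩; exact ⟨al, rfl⟩) P h0 ?_ hadd hsm hf
  rintro al ⟨be, h1, h2⟩
  have : Mq al = Mq be := Subtype.ext h2
  exact this ▸ hM be h1

lemma ring_Mq_nil : Mq [] = 1 := Subtype.ext ring_Mf_nil

lemma hom_neg {d : ℤ} (hd : d < 0) {f : QA} (hf : f ∈ Hom d) : f = 0 := by
  refine ring_hom_span (fun f => f = 0) rfl (fun al h => by omega) ?_ ?_ hf
  · rintro _ _ rfl rfl; exact add_zero _
  · rintro c _ rfl; exact smul_zero _

lemma hom_zero {f : QA} (hf : f ∈ Hom 0) : ∃ c : ℚ, f = algebraMap ℚ QA c := by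
  refine ring_hom_span (fun f => ∃ c : ℚ, f = algebraMap ℚ QA c) ⟨0, (map_zero _).symm⟩
    (fun al h => ⟨1, ?_⟩) ?_ ?_ hf
  · rw [ring_wt_zero h.le, ring_Mq_nil, map_one]
  · rintro _ _ ⟨c, rfl⟩ ⟨c', rfl⟩; exact ⟨c + c', (map_add _ _ _).symm⟩
  · rintro c _ ⟨c', rfl⟩; exact ⟨c * c', by rw [map_mul, Algebra.smul_def]⟩

lemma hom_const (c : ℚ) : algebraMap ℚ QA c ∈ Hom 0 := by
  rw [Algebra.algebraMap_eq_smul_one, ← ring_Mq_nil]
  exact Submodule.smul_mem _ c (Mq_hom [])

lemma hom_one : (1 : QA) ∈ Hom 0 := by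
  rw [← ring_Mq_nil]
  exact Mq_hom []

/-- induction over a homogeneous component -/
lemma hom_span {d : ℤ} (P : QA → Prop) (h0 : P 0) (hM : ∀ al, (wt al : ℤ) = d → P (Mq al))
    (hadd : ∀ f g, P f → P g → P (f + g)) (hsm : ∀ (c : ℚ) f, P f → P (c • f))
    {f : QA} (hf : f ∈ Hom d) : P f := by
  exact ring_hom_span P h0 hM hadd hsm hf

/-- induction over the whole ring -/
lemma all_span (P : QA → Prop) (h0 : P 0) (hM : ∀ al, P (Mq al))
    (hadd : ∀ f g, P f → P g → P (f + g)) (hsm : ∀ (c : ℚ) f, P f → P (c • f)) (f : QA) : P f := by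
  refine ring_span (S := Set.range Mf) le_rfl P h0 (fun al _ => hM al) hadd hsm ?_
  have h1 : ∀ d, HomF d ≤ Submodule.span ℚ (Set.range Mf) := fun d =>
    Submodule.span_mono (by rintro _ ⟨al, -, rfl⟩; exact ⟨al, rfl⟩)
  have h2 : (fn f : List ℚ → ℚ) ∈ Subalgebra.toSubmodule (Algebra.adjoin ℚ (Set.range Mf)) := f.2
  rw [Algebra.adjoin_eq_span] at h2
  refine Submodule.span_le.2 (fun g hg => ?_) h2
  induction hg using Submonoid.closure_induction_left with
  | one => exact Submodule.subset_span ⟨[], ring_Mf_nil⟩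
  | mul_left x hx y _ h =>
    obtain ⟨al, rfl⟩ := hx
    have : Submodule.span ℚ (Set.range Mf) ≤
        (Submodule.span ℚ (Set.range Mf)).comap (LinearMap.mulLeft ℚ (Mf al)) :=
      Submodule.span_le.2 (by rintro _ ⟨be, rfl⟩; exact h1 _ (Mf_mul al be))
    exact this h

lemma ev_nil {d : ℤ} (hd : 0 < d) {f : QA} (hf : f ∈ Hom d) : ev [] f = 0 := by
  refine hom_span (fun f => ev [] f = 0) (map_zero _) (fun al h => ?_) ?_ ?_ hf
  · cases al with
    | nil => exact absurd h hd.ne
    | cons a al => rfl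
  · intro f g h h'; rw [map_add, h, h', add_zero]
  · intro c f h; rw [map_smul, h, smul_zero]

lemma ev_zero_cons (l : List ℚ) (f : QA) : ev (0 :: l) f = ev l f := by
  refine all_span (fun f => ev (0 :: l) f = ev l f) (by simp) (fun al => ?_) ?_ ?_ f
  · cases al with
    | nil => simp only [ring_Mq_nil, map_one]
    | cons a al => simp [ev_Mq, Mf]
  · intro f g h h'; rw [map_add, map_add, h, h']
  · intro c f h; rw [map_smul, map_smul, h]

lemma ring_filter (l : List ℚ) (al : List ℕ) : Mf al (l.filter (· ≠ 0)) = Mf al l := by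
  induction l generalizing al with
  | nil => rfl
  | cons x l ih =>
    cases al with
    | nil => rw [ring_Mf_nil]; rfl
    | cons a al =>
      by_cases hx : x = 0
      · rw [List.filter_cons_of_neg (by simpa using hx), ih, hx]
        simp [Mf]
      · rw [List.filter_cons_of_pos (by simpa using hx), Mf, Mf, ih, ih]

lemma ring_ev_filter (l : List ℚ) (f : QA) : ev (l.filter (· ≠ 0)) f = ev l f := by
  refine all_span (fun f => ev (l.filter (· ≠ 0)) f = ev l f) (by simp)
    (fun al => ring_filter l al) ?_ ?_ f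
  · intro f g h h'; rw [map_add, map_add, h, h']
  · intro c f h; rw [map_smul, map_smul, h]

lemma ring_poly_Mf (L : List ℚ[X]) (al : List ℕ) :
    ∃ P : ℚ[X], ∀ t, Mf al (L.map (eval t)) = P.eval t := by
  induction L generalizing al with
  | nil => exact ⟨C (Mf al []), fun t => by simp⟩
  | cons p L ih =>
    cases al with
    | nil => exact ⟨1, fun t => by simp [ring_Mf_nil]⟩
    | cons a al =>
      obtain ⟨P, hP⟩ := ih (a :: al)
      obtain ⟨Q, hQ⟩ := ih al
      exact ⟨P + p ^ (a + 1) * Q, fun t => by simp [Mf, hP, hQ]⟩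

lemma ring_poly (L : List ℚ[X]) (f : QA) :
    ∃ P : ℚ[X], ∀ t, ev (L.map (eval t)) f = P.eval t := by
  refine all_span (fun f => ∃ P : ℚ[X], ∀ t, ev (L.map (eval t)) f = P.eval t)
    ⟨0, fun t => by simp⟩ (fun al => ring_poly_Mf L al) ?_ ?_ f
  · rintro f g ⟨P, hP⟩ ⟨Q, hQ⟩
    exact ⟨P + Q, fun t => by rw [map_add, hP, hQ, eval_add]⟩
  · rintro c f ⟨P, hP⟩
    exact ⟨c • P, fun t => by rw [map_smul, hP, eval_smul]⟩

lemma qa_mul_eq_zero {f g : QA} (h : f * g = 0) : f = 0 ∨ g = 0 := by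
  by_contra hne
  obtain ⟨h1, h2⟩ := not_or.1 hne
  obtain ⟨l1, h1⟩ := not_forall.1 fun h => h1 (ev_inj h)
  obtain ⟨l2, h2⟩ := not_forall.1 fun h => h2 (ev_inj h)
  let L : List ℚ[X] := l1.map (fun c => C c * (1 - X)) ++ l2.map fun c => C c * X
  obtain ⟨P, hP⟩ := ring_poly L f
  obtain ⟨Q, hQ⟩ := ring_poly L g
  have h3 : P * Q = 0 := Polynomial.funext fun t => by
    rw [eval_mul, ← hP, ← hQ, ← map_mul, h, map_zero, eval_zero]
  rcases mul_eq_zero.1 h3 with rfl | rfl
  · have h4 := hP 0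
    have h5 : (L.map (eval 0)).filter (· ≠ 0) = l1.filter (· ≠ 0) := by
      simp [L, Function.comp_def]
    rw [← ring_ev_filter, h5, ring_ev_filter, eval_zero] at h4
    exact h1 h4
  · have h4 := hQ 1
    have h5 : (L.map (eval 1)).filter (· ≠ 0) = l2.filter (· ≠ 0) := by
      simp [L, Function.comp_def]
    rw [← ring_ev_filter, h5, ring_ev_filter, eval_zero] at h4
    exact h2 h4

instance : Nontrivial QA := ⟨⟨0, 1, fun h => by simpa using congrArg (ev []) h⟩⟩

instance : NoZeroDivisors QA := ⟨qa_mul_eq_zero⟩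

instance : IsDomain QA := NoZeroDivisors.to_isDomain QA

instance : CharZero QA := algebraRat.charZero QA

end Pool.Agent.Work.MP_be9894_co.AA
end

-- merged part: Pool.Agent.Work.MP_be9894_co.AA.Sigma
section
/-!
The shift `sig` (add a new top level `X`), its summation operator `Binv`, and homogeneous polynomials.

Plan.
* `poly_ext`: for each list `l` the polynomial `p.map (ev l)` vanishes at all rationals, so every coefficient of `p`
  vanishes at every list.
* `exists_hom`: by `all_span` every `f` has a polynomial; by `poly_ext` it is unique, so the choice is an algebra map.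
* `sig_Mq`: uniqueness again.  `sig_hom`: `hom_span` and `sig_Mq`.
* `sig_inj`: `ev (x :: l) f = ev l f`, so `ev l f = ev [] f = 0`.
* `exists_Binv`: for `a` and `f` there is a unique `B a f : QA` with `ev [] = 0` and
  `ev (x :: l) (B a f) = ev l (B a f) + x ^ (a+1) * ev l f` (`all_span`, `B a (Mq al) = Mq (a :: al)`), linear in `f`;
  put `Binv p = sum over k of B k (p.coeff (k+1))` (`Polynomial.lsum`).
-/

set_option autoImplicit false

namespace Pool.Agent.Work.MP_be9894_co.AA

open Polynomial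

/-- value of a polynomial over `QA` at the number `x` and the list `l` -/
noncomputable def evX (x : ℚ) (l : List ℚ) : QA[X] →+* ℚ := eval₂RingHom (ev l : QA →+* ℚ) x

lemma evX_C (x : ℚ) (l : List ℚ) (f : QA) : evX x l (C f) = ev l f := by simp [evX]

lemma evX_X (x : ℚ) (l : List ℚ) : evX x l X = x := by simp [evX]

lemma poly_ext {p q : QA[X]} (h : ∀ x l, evX x l p = evX x l q) : p = q := by
  ext k
  refine ev_ext fun l => ?_
  have h1 : p.map (ev l : QA →+* ℚ) = q.map (ev l : QA →+* ℚ) :=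
    Polynomial.funext fun x => by
      rw [eval_map, eval_map]
      exact h x l
  have h2 := congrArg (fun r => r.coeff k) h1
  simp only [coeff_map] at h2
  exact h2

lemma sigma_smul (x : ℚ) (l : List ℚ) (c : ℚ) (p : QA[X]) : evX x l (c • p) = c * evX x l p := by
  rw [Algebra.smul_def, map_mul, Polynomial.algebraMap_apply, evX_C, AlgHom.commutes]
  rfl

lemma sigma_cons (a : ℕ) (al : List ℕ) (x : ℚ) (l : List ℚ) :
    Mf (a :: al) (x :: l) = evX x l (C (Mq (a :: al)) + X ^ (a + 1) * C (Mq al)) := by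
  rw [map_add, map_mul, map_pow, evX_C, evX_C, evX_X, ev_Mq, ev_Mq, Mf]

lemma sigma_nil : Mq [] = 1 := ev_ext fun l => by rw [ev_Mq, map_one, Mf]

lemma exists_hom (s : ℚ → List ℚ → List ℚ)
    (hs : ∀ al, ∃ p : QA[X], ∀ x l, Mf al (s x l) = evX x l p) :
    ∃ φ : QA →ₐ[ℚ] QA[X], ∀ f x l, ev (s x l) f = evX x l (φ f) := by
  have hex : ∀ f : QA, ∃ p : QA[X], ∀ x l, ev (s x l) f = evX x l p := by
    refine all_span _ ⟨0, fun x l => by rw [map_zero, map_zero]⟩ hs ?_ ?_
    · rintro f g ⟨p, hp⟩ ⟨q, hq⟩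
      exact ⟨p + q, fun x l => by rw [map_add, map_add, hp, hq]⟩
    · rintro c f ⟨p, hp⟩
      exact ⟨c • p, fun x l => by rw [map_smul, sigma_smul, hp, smul_eq_mul]⟩
  choose φ hφ using hex
  refine ⟨{ toFun := φ
            map_one' := poly_ext fun x l => by rw [← hφ, map_one, map_one]
            map_mul' := fun f g => poly_ext fun x l => by
              rw [← hφ, map_mul, map_mul, hφ, hφ]
            map_zero' := poly_ext fun x l => by rw [← hφ, map_zero, map_zero]
            map_add' := fun f g => poly_ext fun x l => by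
              rw [← hφ, map_add, map_add, hφ, hφ]
            commutes' := fun c => poly_ext fun x l => by
              rw [← hφ, Polynomial.algebraMap_apply, evX_C, AlgHom.commutes, AlgHom.commutes] },
    hφ⟩

lemma exists_sig : ∃ φ : QA →ₐ[ℚ] QA[X], ∀ f x l, ev (x :: l) f = evX x l (φ f) := by
  refine exists_hom (fun x l => x :: l) fun al => ?_
  cases al with
  | nil => exact ⟨1, fun x l => by rw [map_one, Mf]⟩
  | cons a al => exact ⟨_, sigma_cons a al⟩

/-- the shift -/
noncomputable def sig : QA →ₐ[ℚ] QA[X] := exists_sig.choose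

lemma ev_cons (f : QA) (x : ℚ) (l : List ℚ) : ev (x :: l) f = evX x l (sig f) :=
  exists_sig.choose_spec f x l

lemma sig_Mq (a : ℕ) (al : List ℕ) :
    sig (Mq (a :: al)) = C (Mq (a :: al)) + X ^ (a + 1) * C (Mq al) := by
  refine poly_ext fun x l => ?_
  rw [← ev_cons, ev_Mq, sigma_cons]

/-- homogeneous polynomials, `X` having degree one -/
noncomputable def HomX (d : ℤ) : Submodule ℚ QA[X] where
  carrier := {p | ∀ k : ℕ, p.coeff k ∈ Hom (d - k)}
  add_mem' := fun ha hb k => by rw [coeff_add]; exact add_mem (ha k) (hb k)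
  zero_mem' := fun k => by simp
  smul_mem' := fun c p hp k => by rw [coeff_smul]; exact Submodule.smul_mem _ c (hp k)

lemma mem_HomX {d : ℤ} {p : QA[X]} : p ∈ HomX d ↔ ∀ k : ℕ, p.coeff k ∈ Hom (d - k) := Iff.rfl

lemma homX_mul {a b : ℤ} {p q : QA[X]} (hp : p ∈ HomX a) (hq : q ∈ HomX b) :
    p * q ∈ HomX (a + b) := by
  intro k
  rw [coeff_mul]
  refine Submodule.sum_mem _ fun c hc => ?_
  have h1 := hom_mul (hp c.1) (hq c.2)
  have h2 : (c.1 : ℤ) + c.2 = k := by exact_mod_cast Finset.HasAntidiagonal.mem_antidiagonal.1 hc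
  rwa [show a - c.1 + (b - c.2) = a + b - k by omega] at h1

lemma homX_C {d : ℤ} {f : QA} (hf : f ∈ Hom d) : C f ∈ HomX d := by
  intro k
  rw [coeff_C]
  split_ifs with h
  · subst h
    simpa using hf
  · exact Submodule.zero_mem _

lemma homX_X : (X : QA[X]) ∈ HomX 1 := by
  intro k
  rw [coeff_X]
  split_ifs with h
  · subst h
    simpa using hom_one
  · exact Submodule.zero_mem _

lemma homX_one : (1 : QA[X]) ∈ HomX 0 := by
  exact homX_C hom_one

lemma homX_neg {d : ℤ} (hd : d < 0) {p : QA[X]} (hp : p ∈ HomX d) : p = 0 := by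
  ext k
  exact hom_neg (by omega) (hp k)

lemma homX_zero {p : QA[X]} (hp : p ∈ HomX 0) : ∃ c : ℚ, p = C (algebraMap ℚ QA c) := by
  obtain ⟨c, hc⟩ := hom_zero (f := p.coeff 0) (by simpa using hp 0)
  refine ⟨c, ?_⟩
  ext k
  rw [coeff_C]
  split_ifs with h
  · rw [h, hc]
  · exact hom_neg (by omega) (hp k)

lemma homX_prod {ι : Type} (s : Finset ι) (p : ι → QA[X]) (d : ι → ℤ) (h : ∀ i ∈ s, p i ∈ HomX (d i)) :
    ∏ i ∈ s, p i ∈ HomX (∑ i ∈ s, d i) := by
  induction s using Finset.cons_induction with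
  | empty => exact homX_one
  | cons a s ha ih =>
    rw [Finset.prod_cons, Finset.sum_cons]
    exact homX_mul (h a (Finset.mem_cons_self a s))
      (ih fun i hi => h i (Finset.mem_cons_of_mem hi))

lemma sig_coeff_zero (f : QA) : (sig f).coeff 0 = f := by
  refine ev_ext fun l => ?_
  rw [← ev_zero_cons l f, ev_cons, evX, coe_eval₂RingHom, eval₂_at_zero]
  rfl

lemma sigma_wt (a : ℕ) (al : List ℕ) : (wt (a :: al) : ℤ) = ((a + 1 : ℕ) : ℤ) + wt al := by
  simp [wt]

lemma sigma_pow (n : ℕ) : (X ^ n : QA[X]) ∈ HomX n := by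
  induction n with
  | zero => exact homX_one
  | succ n ih =>
    rw [pow_succ, Nat.cast_succ]
    exact homX_mul ih homX_X

lemma sig_hom {d : ℤ} {f : QA} (hf : f ∈ Hom d) : sig f ∈ HomX d := by
  refine hom_span (fun f => sig f ∈ HomX d) ?_ ?_ ?_ ?_ hf
  · rw [map_zero]
    exact Submodule.zero_mem _
  · rintro al rfl
    cases al with
    | nil =>
      rw [sigma_nil, map_one]
      exact homX_one
    | cons a al =>
      rw [sig_Mq]
      refine Submodule.add_mem _ (homX_C (Mq_hom _)) ?_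
      rw [sigma_wt]
      exact homX_mul (sigma_pow (a + 1)) (homX_C (Mq_hom al))
  · intro f g hf hg
    rw [map_add]
    exact Submodule.add_mem _ hf hg
  · intro c f hf
    rw [map_smul]
    exact Submodule.smul_mem _ c hf

lemma sig_inj {d : ℤ} (hd : 0 < d) {f : QA} (hf : f ∈ Hom d) (h : sig f = C f) : f = 0 := by
  refine ev_inj fun l => ?_
  induction l with
  | nil => exact ev_nil hd hf
  | cons x l ih => rw [ev_cons, h, evX_C, ih]

lemma sigma_uniq {g g' : QA} (h0 : ev [] g = ev [] g')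
    (h : ∀ x l, ev (x :: l) g - ev l g = ev (x :: l) g' - ev l g') : g = g' := by
  refine ev_ext fun l => ?_
  induction l with
  | nil => exact h0
  | cons x l ih =>
    have := h x l
    linarith

lemma sigma_B (a : ℕ) : ∃ B : QA →ₗ[ℚ] QA, (∀ f, ev [] (B f) = 0) ∧
    (∀ f x l, ev (x :: l) (B f) = ev l (B f) + x ^ (a + 1) * ev l f) ∧
      ∀ (d : ℤ) (f : QA), f ∈ Hom d → B f ∈ Hom (((a + 1 : ℕ) : ℤ) + d) := by
  have hex : ∀ f : QA, ∃ g : QA, ev [] g = 0 ∧
      ∀ x l, ev (x :: l) g = ev l g + x ^ (a + 1) * ev l f := by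
    refine all_span _ ⟨0, map_zero _, fun x l => by simp⟩
      (fun al => ⟨Mq (a :: al), rfl, fun x l => rfl⟩) ?_ ?_
    · rintro f g ⟨p, p0, hp⟩ ⟨q, q0, hq⟩
      refine ⟨p + q, by rw [map_add, p0, q0, add_zero], fun x l => ?_⟩
      simp only [map_add, hp, hq]
      ring
    · rintro c f ⟨p, p0, hp⟩
      refine ⟨c • p, by rw [map_smul, p0, smul_zero], fun x l => ?_⟩
      simp only [map_smul, hp, smul_eq_mul]
      ring
  choose B h1 h2 using hex
  have hadd : ∀ f g, B (f + g) = B f + B g := fun f g =>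
    sigma_uniq (by rw [map_add, h1, h1, h1, add_zero]) fun x l => by
      simp only [map_add, h2]
      ring
  have hsm : ∀ (c : ℚ) f, B (c • f) = c • B f := fun c f =>
    sigma_uniq (by rw [map_smul, h1, h1, smul_zero]) fun x l => by
      simp only [map_smul, h2, smul_eq_mul]
      ring
  have hM : ∀ al, B (Mq al) = Mq (a :: al) := fun al =>
    sigma_uniq (h1 _) fun x l => by
      rw [h2, ev_Mq, ev_Mq, ev_Mq, Mf]
      ring
  let B' : QA →ₗ[ℚ] QA := { toFun := B, map_add' := hadd, map_smul' := hsm }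
  refine ⟨B', h1, h2, fun d f hf => ?_⟩
  refine hom_span (fun f => B' f ∈ Hom (((a + 1 : ℕ) : ℤ) + d)) ?_ ?_ ?_ ?_ hf
  · rw [map_zero]
    exact Submodule.zero_mem _
  · rintro al rfl
    rw [← sigma_wt, show B' (Mq al) = Mq (a :: al) from hM al]
    exact Mq_hom _
  · intro f g hf hg
    rw [map_add]
    exact Submodule.add_mem _ hf hg
  · intro c f hf
    rw [map_smul]
    exact Submodule.smul_mem _ c hf

lemma exists_Binv : ∃ B : QA[X] →ₗ[ℚ] QA,
    (∀ p : QA[X], p.coeff 0 = 0 → sig (B p) = C (B p) + p) ∧ (∀ p, ev [] (B p) = 0) ∧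
      ∀ (d : ℤ) (p : QA[X]), p ∈ HomX d → B p ∈ Hom d := by
  choose B h1 h2 h3 using sigma_B
  let F : ℕ → QA →ₗ[ℚ] QA := fun n => Nat.casesOn n 0 B
  have hF : ∀ p : QA[X], Polynomial.lsum F p = ∑ n ∈ p.support, F n (p.coeff n) := fun p => rfl
  refine ⟨Polynomial.lsum F, fun p hp => poly_ext fun x l => ?_, fun p => ?_, fun d p hp => ?_⟩
  · rw [← ev_cons, map_add, evX_C, hF, map_sum, map_sum, evX, coe_eval₂RingHom, eval₂_eq_sum,
      Polynomial.sum, ← Finset.sum_add_distrib]
    refine Finset.sum_congr rfl fun n hn => ?_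
    cases n with
    | zero => exact absurd hp (mem_support_iff.1 hn)
    | succ n =>
      rw [mul_comm]
      exact h2 n _ x l
  · rw [hF, map_sum]
    refine Finset.sum_eq_zero fun n _ => ?_
    cases n with
    | zero => exact map_zero _
    | succ n => exact h1 n _
  · rw [hF]
    refine Submodule.sum_mem _ fun n _ => ?_
    cases n with
    | zero => exact Submodule.zero_mem _
    | succ n =>
      have h4 := h3 n _ _ (hp (n + 1))
      rwa [add_sub_cancel] at h4

/-- the summation operator -/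
noncomputable def Binv : QA[X] →ₗ[ℚ] QA := exists_Binv.choose

lemma sig_Binv (p : QA[X]) (hp : p.coeff 0 = 0) : sig (Binv p) = C (Binv p) + p :=
  exists_Binv.choose_spec.1 p hp

lemma ev_nil_Binv (p : QA[X]) : ev [] (Binv p) = 0 := exists_Binv.choose_spec.2.1 p

lemma Binv_hom {d : ℤ} {p : QA[X]} (hp : p ∈ HomX d) : Binv p ∈ Hom d :=
  exists_Binv.choose_spec.2.2 d p hp

/-- decomposable elements of degree `n` -/
noncomputable def Dec (n : ℤ) : Submodule ℚ QA :=
  Submodule.span ℚ {h | ∃ (a b : ℤ) (f g : QA), 0 < a ∧ 0 < b ∧ a + b = n ∧ f ∈ Hom a ∧ g ∈ Hom b ∧ h = f * g}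

end Pool.Agent.Work.MP_be9894_co.AA
end

-- merged part: Pool.Agent.Work.MP_be9894_co.AA.SigInv
section
/-!
The inverse shift.  `ext φ` is the `X`-linear extension of `φ : QA →ₐ QA[X]` to `QA[X]`.

Plan.  `ext sig` is injective: `(ext sig p).coeff 0 = p.coeff 0` (`sig_coeff_zero`), induct on the degree with
`p = C (p.coeff 0) + X * divX p`.  It is surjective: its range is a subalgebra containing `X`, and `C f` for `f`
homogeneous by induction on the degree (`sig f - C f` is a sum of `C (coeff k) * X ^ k`, `k ≥ 1`, of smaller degree;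
use `all_span` and `Mq_hom`, or directly `sig_Mq` and induction on the list).  Take `AlgEquiv.ofBijective` and restrict
the inverse to `QA`.
-/

set_option autoImplicit false

namespace Pool.Agent.Work.MP_be9894_co.AA

open Polynomial

/-- `X`-linear extension -/
noncomputable def ext (φ : QA →ₐ[ℚ] QA[X]) : QA[X] →+* QA[X] := eval₂RingHom (φ : QA →+* QA[X]) X

lemma ext_C (φ : QA →ₐ[ℚ] QA[X]) (f : QA) : ext φ (C f) = φ f := by simp [ext]

lemma ext_X (φ : QA →ₐ[ℚ] QA[X]) : ext φ X = X := by simp [ext]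

lemma siginv_coeff (k : ℕ) : ∀ p : QA[X], ext sig p = 0 → p.coeff k = 0 := by
  have h0 : ∀ p : QA[X], ext sig p = 0 → p.coeff 0 = 0 ∧ ext sig (divX p) = 0 := fun p hp => by
    rw [← X_mul_divX_add p, map_add, map_mul, ext_X, ext_C] at hp
    have h1 := congrArg (fun q : QA[X] => q.coeff 0) hp
    simp only [coeff_add, mul_coeff_zero, coeff_X_zero, zero_mul, zero_add, sig_coeff_zero,
      coeff_zero] at h1
    rw [h1, map_zero, add_zero] at hp
    exact ⟨h1, (mul_eq_zero.1 hp).resolve_left X_ne_zero⟩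
  induction k with
  | zero => exact fun p hp => (h0 p hp).1
  | succ k ih => exact fun p hp => by rw [← coeff_divX]; exact ih _ (h0 p hp).2

lemma siginv_inj : Function.Injective (ext sig) :=
  (injective_iff_map_eq_zero _).2 fun p hp => Polynomial.ext fun k => siginv_coeff k p hp

lemma siginv_const (φ : QA →ₐ[ℚ] QA[X]) (c : ℚ) :
    ext φ (C (algebraMap ℚ QA c)) = C (algebraMap ℚ QA c) := by
  rw [ext_C, AlgHom.commutes, Polynomial.algebraMap_apply]

lemma siginv_C (f : QA) : ∃ p, ext sig p = C f := by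
  refine all_span (fun f => ∃ p, ext sig p = C f) ⟨0, by simp⟩ (fun al => ?_) ?_ ?_ f
  · induction al with
    | nil =>
      have h1 : Mq [] = 1 := ev_ext fun l => by rw [ev_Mq, map_one, Mf]
      exact ⟨1, by rw [h1, map_one, map_one]⟩
    | cons a al ih =>
      obtain ⟨p, hp⟩ := ih
      refine ⟨C (Mq (a :: al)) - X ^ (a + 1) * p, ?_⟩
      rw [map_sub, map_mul, map_pow, ext_X, ext_C, hp, sig_Mq, add_sub_cancel_right]
  · rintro f g ⟨p, hp⟩ ⟨q, hq⟩
    exact ⟨p + q, by rw [map_add, hp, hq, map_add]⟩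
  · rintro c f ⟨p, hp⟩
    exact ⟨C (algebraMap ℚ QA c) * p, by
      rw [map_mul, hp, siginv_const, Algebra.smul_def, map_mul]⟩

lemma siginv_surj : Function.Surjective (ext sig) := fun q => by
  induction q using Polynomial.induction_on' with
  | add p q hp hq =>
    obtain ⟨a, ha⟩ := hp
    obtain ⟨b, hb⟩ := hq
    exact ⟨a + b, by rw [map_add, ha, hb]⟩
  | monomial n f =>
    obtain ⟨p, hp⟩ := siginv_C f
    exact ⟨p * X ^ n, by rw [map_mul, map_pow, ext_X, hp, C_mul_X_pow_eq_monomial]⟩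

lemma exists_sigInv : ∃ φ : QA →ₐ[ℚ] QA[X],
    (∀ f, ext sig (φ f) = C f) ∧ ∀ f, ext φ (sig f) = C f := by
  let e : QA[X] ≃+* QA[X] := RingEquiv.ofBijective (ext sig) ⟨siginv_inj, siginv_surj⟩
  have he : ∀ p, ext sig (e.symm p) = p := fun p => e.apply_symm_apply p
  let φ : QA →ₐ[ℚ] QA[X] :=
    { (e.symm : QA[X] →+* QA[X]).comp C with
      commutes' := fun c => siginv_inj (by
        change ext sig (e.symm (C (algebraMap ℚ QA c))) = _
        rw [he, Polynomial.algebraMap_apply, siginv_const]) }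
  have h1 : ∀ f, ext sig (φ f) = C f := fun f => he (C f)
  have h2 : (ext sig).comp (ext φ) = RingHom.id _ :=
    Polynomial.ringHom_ext (fun f => by rw [RingHom.comp_apply, ext_C, h1, RingHom.id_apply])
      (by rw [RingHom.comp_apply, ext_X, ext_X, RingHom.id_apply])
  refine ⟨φ, h1, fun f => siginv_inj ?_⟩
  rw [ext_C]
  exact RingHom.congr_fun h2 (sig f)

/-- the inverse shift -/
noncomputable def sigInv : QA →ₐ[ℚ] QA[X] := exists_sigInv.choose

lemma ext_sig_sigInv (f : QA) : ext sig (sigInv f) = C f := exists_sigInv.choose_spec.1 f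

lemma ext_sigInv_sig (f : QA) : ext sigInv (sig f) = C f := exists_sigInv.choose_spec.2 f

/-- the shift by a number -/
noncomputable def atX (φ : QA →ₐ[ℚ] QA[X]) (x : ℚ) : QA →ₐ[ℚ] QA :=
  ((Polynomial.aeval (algebraMap ℚ QA x)).restrictScalars ℚ).comp φ

lemma siginv_atX (φ : QA →ₐ[ℚ] QA[X]) (x : ℚ) (f : QA) :
    atX φ x f = eval (algebraMap ℚ QA x) (φ f) := by
  change aeval (algebraMap ℚ QA x) (φ f) = _
  rw [coe_aeval_eq_eval]

lemma siginv_eval (φ : QA →ₐ[ℚ] QA[X]) (x : ℚ) (p : QA[X]) :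
    atX φ x (eval (algebraMap ℚ QA x) p) = eval (algebraMap ℚ QA x) (ext φ p) := by
  have h : (atX φ x : QA →+* QA).comp (evalRingHom (algebraMap ℚ QA x)) =
      (evalRingHom (algebraMap ℚ QA x)).comp (ext φ) :=
    Polynomial.ringHom_ext
      (fun f => by
        simp only [RingHom.comp_apply, coe_evalRingHom, eval_C, ext_C, RingHom.coe_coe]
        exact siginv_atX φ x f)
      (by
        simp only [RingHom.comp_apply, coe_evalRingHom, eval_X, ext_X, RingHom.coe_coe]
        exact AlgHom.commutes _ x)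
  exact RingHom.congr_fun h p

lemma atX_sig_sigInv (x : ℚ) (f : QA) : atX sig x (atX sigInv x f) = f := by
  rw [siginv_atX sigInv, siginv_eval, ext_sig_sigInv, eval_C]

lemma atX_sigInv_sig (x : ℚ) (f : QA) : atX sigInv x (atX sig x f) = f := by
  rw [siginv_atX sig, siginv_eval, ext_sigInv_sig, eval_C]

lemma ev_atX_sig (x : ℚ) (l : List ℚ) (f : QA) : ev l (atX sig x f) = ev (x :: l) f := by
  have h : (ev l : QA →+* ℚ).comp (evalRingHom (algebraMap ℚ QA x)) = evX x l :=
    Polynomial.ringHom_ext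
      (fun g => by
        simp only [RingHom.comp_apply, coe_evalRingHom, eval_C, evX_C, RingHom.coe_coe])
      (by
        simp only [RingHom.comp_apply, coe_evalRingHom, eval_X, evX_X, RingHom.coe_coe]
        exact AlgHom.commutes _ x)
  rw [siginv_atX, ev_cons]
  exact RingHom.congr_fun h (sig f)

end Pool.Agent.Work.MP_be9894_co.AA
end

-- merged part: Pool.Agent.Work.MP_be9894_co.AA.Der
section
/-!
Derivations commuting with the shift.

Plan.
* `exists_DX`: the linear map `Polynomial.lsum (fun k => monomial k ∘ D)`; Leibniz by `coeff_mul`; `Derivation.mk'`.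
* `IsDer.lie`: `Derivation.commutator_apply`.
* `Kil` lemmas: `D' (D f) = D (D' f) + ⁅D', D⁆ f`.
-/

set_option autoImplicit false

namespace Pool.Agent.Work.MP_be9894_co.AA

open Polynomial

abbrev Dn : Type := Derivation ℚ QA QA

/-- derivation lowering the degree by `m` and commuting with the shift -/
def IsDer (m : ℤ) (D : Dn) : Prop :=
  (∀ (d : ℤ) (f : QA), f ∈ Hom d → D f ∈ Hom (d - m)) ∧
    ∀ (f : QA) (k : ℕ), (sig (D f)).coeff k = D ((sig f).coeff k)

lemma exists_DX (D : Dn) : ∃ E : Derivation ℚ QA[X] QA[X], ∀ p k, (E p).coeff k = D (p.coeff k) :=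
  ⟨PolynomialModule.equivPolynomialSelf.compDer D.mapCoeffs, fun _ _ => rfl⟩

/-- coefficientwise extension to polynomials -/
noncomputable def DX (D : Dn) : Derivation ℚ QA[X] QA[X] := (exists_DX D).choose

lemma coeff_DX (D : Dn) (p : QA[X]) (k : ℕ) : (DX D p).coeff k = D (p.coeff k) :=
  (exists_DX D).choose_spec p k

lemma DX_C (D : Dn) (f : QA) : DX D (C f) = C (D f) := by
  ext k
  rw [coeff_DX, coeff_C, coeff_C]
  split_ifs <;> simp

lemma DX_X (D : Dn) : DX D X = 0 := by
  ext k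
  rw [coeff_DX, coeff_X]
  split_ifs <;> simp

lemma IsDer.DX_sig {m : ℤ} {D : Dn} (h : IsDer m D) (f : QA) : DX D (sig f) = sig (D f) := by
  ext k
  rw [coeff_DX, h.2]

lemma IsDer.DX_hom {m : ℤ} {D : Dn} (h : IsDer m D) {d : ℤ} {p : QA[X]} (hp : p ∈ HomX d) :
    DX D p ∈ HomX (d - m) := by
  intro k
  rw [coeff_DX, sub_right_comm]
  exact h.1 _ _ (hp k)

lemma IsDer.low {m : ℤ} {D : Dn} (h : IsDer m D) {d : ℤ} (hd : d < m) {f : QA} (hf : f ∈ Hom d) :
    D f = 0 := hom_neg (by omega) (h.1 d f hf)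

lemma IsDer.lowX {m : ℤ} {D : Dn} (h : IsDer m D) {d : ℤ} (hd : d < m) {p : QA[X]} (hp : p ∈ HomX d) :
    DX D p = 0 := homX_neg (by omega) (h.DX_hom hp)

lemma IsDer.smul {m : ℤ} {D : Dn} (h : IsDer m D) (c : ℚ) : IsDer m (c • D) := by
  refine ⟨fun d f hf => Submodule.smul_mem _ c (h.1 d f hf), fun f k => ?_⟩
  rw [Derivation.smul_apply, Derivation.smul_apply, map_smul, coeff_smul, h.2]

lemma IsDer.lie {i j : ℤ} {D E : Dn} (hD : IsDer i D) (hE : IsDer j E) : IsDer (i + j) ⁅D, E⁆ := by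
  refine ⟨fun d f hf => ?_, fun f k => ?_⟩
  · rw [Derivation.commutator_apply]
    have h1 := hD.1 _ _ (hE.1 d f hf)
    have h2 := hE.1 _ _ (hD.1 d f hf)
    rw [show d - j - i = d - (i + j) by ring] at h1
    rw [show d - i - j = d - (i + j) by ring] at h2
    exact sub_mem h1 h2
  · rw [Derivation.commutator_apply, Derivation.commutator_apply, map_sub, coeff_sub, hD.2, hE.2,
      hE.2, hD.2]

lemma IsDer.dec {n : ℤ} {D : Dn} (h : IsDer n D) {f : QA} (hf : f ∈ Dec n) : D f = 0 := by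
  induction hf using Submodule.span_induction with
  | mem x hx =>
    obtain ⟨a, b, f, g, ha, hb, e, hf, hg, rfl⟩ := hx
    rw [D.leibniz, h.low (by omega) hf, h.low (by omega) hg, smul_zero, smul_zero, add_zero]
  | zero => exact map_zero D
  | add x y _ _ hx hy => rw [map_add, hx, hy, add_zero]
  | smul c x _ hx => rw [D.map_smul, hx, smul_zero]

/-- killed by all admissible derivations of degree at least `m` -/
noncomputable def Kil (m : ℤ) : Submodule ℚ QA where
  carrier := {f | ∀ (j : ℤ) (D : Dn), m ≤ j → IsDer j D → D f = 0}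
  add_mem' := fun ha hb j D hj hD => by rw [map_add, ha j D hj hD, hb j D hj hD, add_zero]
  zero_mem' := fun j D _ _ => map_zero D
  smul_mem' := fun c f hf j D hj hD => by rw [D.map_smul, hf j D hj hD, smul_zero]

lemma mem_Kil {m : ℤ} {f : QA} :
    f ∈ Kil m ↔ ∀ (j : ℤ) (D : Dn), m ≤ j → IsDer j D → D f = 0 := Iff.rfl

lemma kil_mul {m : ℤ} {f g : QA} (hf : f ∈ Kil m) (hg : g ∈ Kil m) : f * g ∈ Kil m := by
  intro j D hj hD
  rw [D.leibniz, hf j D hj hD, hg j D hj hD, smul_zero, smul_zero, add_zero]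

lemma kil_hom {m d : ℤ} (hd : d < m) {f : QA} (hf : f ∈ Hom d) : f ∈ Kil m :=
  fun _ _ hj hD => hD.low (by omega) hf

lemma kil_der {m i : ℤ} (hi : 0 ≤ i) {D : Dn} (hD : IsDer i D) {f : QA} (hf : f ∈ Kil m) :
    D f ∈ Kil m := by
  intro j E hj hE
  have h := hf (j + i) _ (by omega) (hE.lie hD)
  rwa [Derivation.commutator_apply, hf j E hj hE, map_zero, sub_zero] at h

lemma kil_comm {m : ℤ} (hm : 1 ≤ m) {D E : Dn} (hD : IsDer m D) (hE : IsDer m E) {f : QA}
    (hf : f ∈ Kil (m + 1)) : D (E f) = E (D f) := by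
  have h := hf (m + m) _ (by omega) (hD.lie hE)
  rwa [Derivation.commutator_apply, sub_eq_zero] at h

section slice

variable {R : Type} [CommRing R] [Algebra ℚ R] (D : Derivation ℚ R R) (s : R) (m : ℤ)
  (P : ℤ → Submodule ℚ R)

lemma der_solve (hm : 1 ≤ m) (hs : D s = 1) (hneg : ∀ d < 0, ∀ f ∈ P d, f = 0)
    (hD : ∀ d, ∀ f ∈ P d, D f ∈ P (d - m)) (hmul : ∀ d, ∀ f ∈ P d, s * f ∈ P (d + m)) (n : ℕ) :
    ∀ d < (n : ℤ), ∀ g ∈ P d, ∀ c : ℚ, 0 < c → ∃ w ∈ P d, c • w + s * D w = g := by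
  induction n with
  | zero => exact fun d hd g hg c _ => ⟨0, zero_mem _, by simp [hneg d hd g hg]⟩
  | succ n ih =>
    intro d hd g hg c hc
    obtain ⟨w, hw, e⟩ := ih (d - m) (by omega) _ (hD d g hg) (c + 1) (by positivity)
    have h1 := hmul _ _ hw
    rw [sub_add_cancel] at h1
    have h2 : D (c⁻¹ • (g - s * w)) = w := by
      rw [D.map_smul, map_sub, D.leibniz, hs, ← e, add_smul, one_smul, smul_eq_mul, smul_eq_mul,
        mul_one, show c • w + w + s * D w - (s * D w + w) = c • w by ring, smul_smul,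
        inv_mul_cancel₀ hc.ne', one_smul]
    refine ⟨c⁻¹ • (g - s * w), Submodule.smul_mem _ _ (sub_mem hg h1), ?_⟩
    rw [h2, smul_smul, mul_inv_cancel₀ hc.ne', one_smul, sub_add_cancel]

lemma der_uniq (hm : 1 ≤ m) (hs : D s = 1) (hneg : ∀ d < 0, ∀ f ∈ P d, f = 0)
    (hD : ∀ d, ∀ f ∈ P d, D f ∈ P (d - m)) (n : ℕ) :
    ∀ d < (n : ℤ), ∀ w ∈ P d, ∀ c : ℚ, 0 < c → c • w + s * D w = 0 → w = 0 := by
  induction n with
  | zero => exact fun d hd w hw _ _ _ => hneg d hd w hw
  | succ n ih =>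
    intro d hd w hw c hc e
    have h1 := ih (d - m) (by omega) _ (hD d w hw) (c + 1) (by positivity) (by
      have := congrArg D e
      rw [map_add, D.map_smul, D.leibniz, hs, map_zero, smul_eq_mul, smul_eq_mul, mul_one] at this
      rw [← this, add_smul, one_smul]
      ring)
    rw [h1, mul_zero, add_zero] at e
    rw [← one_smul ℚ w, ← inv_mul_cancel₀ hc.ne', ← smul_smul, e, smul_zero]

/-- Solve `c • w + s * D w = g` in `P d` by induction on `d` (for all `c > 0`): if `w1` solves the equation with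
`c + 1` and `D g`, then `w = c⁻¹ • (g - s * w1)` has `D w = w1`.  Then take `g = D f`, `c = 1`. -/
lemma slice_exists (hm : 1 ≤ m) (hs : D s = 1) (hneg : ∀ d < 0, ∀ f ∈ P d, f = 0)
    (hD : ∀ d, ∀ f ∈ P d, D f ∈ P (d - m)) (hmul : ∀ d, ∀ f ∈ P d, s * f ∈ P (d + m))
    {d : ℤ} {f : R} (hf : f ∈ P d) :
    ∃ f0 f1 : R, f0 ∈ P d ∧ f1 ∈ P (d - m) ∧ D f0 = 0 ∧ f = f0 + s * f1 := by
  obtain ⟨w, hw, e⟩ := der_solve D s m P hm hs hneg hD hmul ((d - m).toNat + 1) (d - m) (by omega)
    _ (hD d f hf) 1 one_pos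
  have h1 := hmul _ _ hw
  rw [sub_add_cancel] at h1
  refine ⟨f - s * w, w, sub_mem hf h1, hw, ?_, by ring⟩
  rw [map_sub, D.leibniz, hs, ← e, one_smul, smul_eq_mul, smul_eq_mul]
  ring

/-- `c • w + s * D w = 0` gives the same equation for `D w` with `c + 1`. -/
lemma slice_unique (hm : 1 ≤ m) (hs : D s = 1) (hneg : ∀ d < 0, ∀ f ∈ P d, f = 0)
    (hD : ∀ d, ∀ f ∈ P d, D f ∈ P (d - m)) {d : ℤ} {w : R} (hw : w ∈ P d) (h : D (s * w) = 0) :
    w = 0 := by
  refine der_uniq D s m P hm hs hneg hD (d.toNat + 1) d (by omega) w hw 1 one_pos ?_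
  rw [D.leibniz, hs, smul_eq_mul, smul_eq_mul, mul_one] at h
  rw [one_smul, add_comm, h]

end slice

end Pool.Agent.Work.MP_be9894_co.AA
end

-- merged part: Pool.Agent.Work.MP_be9894_co.AA.BS
section
/-!
Branch systems: an abstract family of rooted trees with typed edges and their generating functions.
`ty i = true` means that the arc joining the branch `i` to its parent points to the parent.

Plan for `exists_y`: iterate `Y 0 = 0`, `Y (h+1) i = Binv (X * prod_{c in ch i} KK (ty c) (Y h c))`; by induction on `h`,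
`sz i ≤ h` and `sz i ≤ h'` give `Y h i = Y h' i` (children are smaller); put `y i = Y (sz i) i`.
(Or use well-founded recursion on `sz`.)
-/

set_option autoImplicit false

namespace Pool.Agent.Work.MP_be9894_co.AA

open Polynomial Finset

/-- the factor contributed by a branch -/
noncomputable def KK (b : Bool) (f : QA) : QA[X] := if b then C f else -sig f

/-- signed value -/
noncomputable def sg (b : Bool) (f : QA) : QA := if b then f else -f

/-- the shift used at a stage of type `b` -/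
noncomputable def hm (b : Bool) : QA →ₐ[ℚ] QA[X] := if b then sigInv else sig

structure BS (ι : Type) where
  ch : ι → Finset ι
  ty : ι → Bool
  sz : ι → ℕ
  y : ι → QA
  hsz : ∀ i, sz i = 1 + ∑ c ∈ ch i, sz c
  hy : ∀ i, y i ∈ Hom (sz i)
  hsig : ∀ i, sig (y i) = C (y i) + X * ∏ c ∈ ch i, KK (ty c) (y c)

lemma bs_KK (b : Bool) {d : ℤ} {f : QA} (hf : f ∈ Hom d) : KK b f ∈ HomX d := by
  unfold KK
  split_ifs
  · exact homX_C hf
  · exact neg_mem (sig_hom hf)

lemma bs_prod {ι : Type} (s : Finset ι) (f : ι → QA[X]) (n : ι → ℕ)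
    (h : ∀ c ∈ s, (f c).natDegree ≤ n c) : (∏ c ∈ s, f c).natDegree ≤ ∑ c ∈ s, n c ∧
      (∏ c ∈ s, f c).coeff (∑ c ∈ s, n c) = ∏ c ∈ s, (f c).coeff (n c) := by
  classical
  induction s using Finset.induction_on with
  | empty => simp
  | insert a s ha ih =>
    obtain ⟨h1, h2⟩ := ih fun c hc => h c (Finset.mem_insert_of_mem hc)
    have h3 := h a (Finset.mem_insert_self a s)
    rw [Finset.prod_insert ha, Finset.prod_insert ha, Finset.sum_insert ha,
      coeff_mul_add_eq_of_natDegree_le h3 h1, h2]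
    exact ⟨natDegree_mul_le.trans (add_le_add h3 h1), rfl⟩

lemma exists_y {ι : Type} (ch : ι → Finset ι) (ty : ι → Bool) (sz : ι → ℕ)
    (hsz : ∀ i, sz i = 1 + ∑ c ∈ ch i, sz c) :
    ∃ y : ι → QA, (∀ i, y i ∈ Hom (sz i)) ∧
      ∀ i, sig (y i) = C (y i) + X * ∏ c ∈ ch i, KK (ty c) (y c) := by
  let Y : ℕ → ι → QA := fun h => Nat.rec (fun _ => 0)
    (fun _ Z i => Binv (X * ∏ c ∈ ch i, KK (ty c) (Z c))) h
  have hlt : ∀ i, ∀ c ∈ ch i, sz c < sz i := fun i c hc => by
    have := Finset.single_le_sum (f := sz) (fun _ _ => Nat.zero_le _) hc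
    rw [hsz i]
    omega
  have h1 : ∀ h h' i, sz i ≤ h → sz i ≤ h' → Y h i = Y h' i := by
    intro h
    induction h with
    | zero => intro h' i hi; rw [hsz i] at hi; omega
    | succ h ih =>
      intro h' i hi hi'
      cases h' with
      | zero => rw [hsz i] at hi'; omega
      | succ h' =>
        change Binv (X * ∏ c ∈ ch i, KK (ty c) (Y h c)) = Binv (X * ∏ c ∈ ch i, KK (ty c) (Y h' c))
        rw [Finset.prod_congr rfl fun c hc => by
          rw [ih h' c (by have := hlt i c hc; omega) (by have := hlt i c hc; omega)]]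
  have h2 : ∀ i, Y (sz i) i = Binv (X * ∏ c ∈ ch i, KK (ty c) (Y (sz c) c)) := fun i => by
    rw [h1 _ (sz i + 1) i le_rfl (Nat.le_succ _)]
    change Binv (X * ∏ c ∈ ch i, KK (ty c) (Y (sz i) c)) = _
    rw [Finset.prod_congr rfl fun c hc => by rw [h1 _ (sz c) c (hlt i c hc).le le_rfl]]
  refine ⟨fun i => Y (sz i) i, fun i => ?_, fun i => ?_⟩
  · induction hn : sz i using Nat.strong_induction_on generalizing i with
    | _ n ih =>
      subst hn
      have h3 := homX_mul homX_X (homX_prod (ch i) (fun c => KK (ty c) (Y (sz c) c))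
        (fun c => (sz c : ℤ)) fun c hc => bs_KK _ (ih _ (hlt i c hc) c rfl))
      have h4 : (sz i : ℤ) = 1 + ∑ c ∈ ch i, (sz c : ℤ) := by exact_mod_cast hsz i
      rw [← h4] at h3
      change Y (sz i) i ∈ _
      rw [h2]
      exact Binv_hom h3
  · have h3 := sig_Binv (X * ∏ c ∈ ch i, KK (ty c) (Y (sz c) c)) (by simp)
    rwa [← h2] at h3

lemma KK_hom (b : Bool) {d : ℤ} {f : QA} (hf : f ∈ Hom d) : KK b f ∈ HomX d := by
  exact bs_KK b hf

namespace BS

variable {ι : Type} (B : BS ι)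

noncomputable def K (i : ι) : QA[X] := KK (B.ty i) (B.y i)

noncomputable def P (i : ι) : QA[X] := ∏ c ∈ B.ch i, B.K c

noncomputable def yh (i : ι) : QA := sg (B.ty i) (B.y i)

def key (i : ι) : Bool × QA := (B.ty i, B.y i)

lemma sig_y (i : ι) : sig (B.y i) = C (B.y i) + X * B.P i := B.hsig i

lemma sz_pos (i : ι) : 1 ≤ B.sz i := by rw [B.hsz]; omega

lemma sz_lt {i c : ι} (h : c ∈ B.ch i) : B.sz c < B.sz i := by
  rw [B.hsz i]
  have := Finset.single_le_sum (f := B.sz) (fun _ _ => Nat.zero_le _) h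
  omega

lemma ind (Q : ι → Prop) (h : ∀ i, (∀ c ∈ B.ch i, Q c) → Q i) (i : ι) : Q i := by
  induction hn : B.sz i using Nat.strong_induction_on generalizing i with
  | _ n ih => exact h i fun c hc => ih _ (hn ▸ B.sz_lt hc) c rfl

lemma K_hom (i : ι) : B.K i ∈ HomX (B.sz i) := KK_hom _ (B.hy i)

lemma P_hom (i : ι) : B.P i ∈ HomX ((B.sz i : ℤ) - 1) := by
  have h4 : (B.sz i : ℤ) - 1 = ∑ c ∈ B.ch i, (B.sz c : ℤ) := by
    rw [B.hsz i]
    push_cast
    ring
  rw [h4]
  exact homX_prod _ _ _ fun c _ => B.K_hom c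

lemma bs_y {i : ι} (h : B.P i ≠ 0) : B.y i ≠ 0 := fun e => by
  have h1 := B.sig_y i
  rw [e, map_zero, map_zero, zero_add] at h1
  exact mul_ne_zero X_ne_zero h h1.symm

lemma bs_K {i : ι} (h : B.y i ≠ 0) : B.K i ≠ 0 := by
  unfold K KK
  split_ifs
  · exact C_ne_zero.2 h
  · intro e
    have h1 := sig_coeff_zero (B.y i)
    rw [neg_eq_zero.1 e, coeff_zero] at h1
    exact h h1.symm

/-- joint induction: `P i ≠ 0` gives `y i ≠ 0` (by `sig_y`), which gives `K i ≠ 0` (`sig_coeff_zero`) -/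
lemma P_ne (i : ι) : B.P i ≠ 0 := by
  exact B.ind (fun i => B.P i ≠ 0)
    (fun i h => Finset.prod_ne_zero_iff.2 fun c hc => B.bs_K (B.bs_y (h c hc))) i

lemma y_ne (i : ι) : B.y i ≠ 0 := by
  exact B.bs_y (B.P_ne i)

lemma K_ne (i : ι) : B.K i ≠ 0 := by
  exact B.bs_K (B.y_ne i)

lemma yh_ne (i : ι) : B.yh i ≠ 0 := by
  unfold yh sg
  split_ifs
  · exact B.y_ne i
  · exact neg_ne_zero.2 (B.y_ne i)

lemma bs_P (i : ι) :
    B.P i = ∏ c ∈ B.ch i, (if B.ty c = false then hm false (B.yh c) else C (B.yh c)) := by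
  refine Finset.prod_congr rfl fun c _ => ?_
  unfold K KK yh sg hm
  cases B.ty c <;> simp

/-- for `ty i = true` apply `ext sigInv` to `sig_y` -/
lemma hm_yh (i : ι) : hm (B.ty i) (B.yh i) = C (B.yh i) -
    X * ∏ c ∈ B.ch i, (if B.ty c = B.ty i then hm (B.ty i) (B.yh c) else C (B.yh c)) := by
  have h1 := B.sig_y i
  cases e : B.ty i with
  | false =>
    rw [← B.bs_P i]
    unfold yh sg hm
    rw [e]
    simp only [Bool.false_eq_true, if_false, map_neg, h1]
    ring
  | true =>
    have h2 := congrArg (ext sigInv) h1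
    have h3 : ext sigInv (B.P i) =
        ∏ c ∈ B.ch i, (if B.ty c = true then hm true (B.yh c) else C (B.yh c)) := by
      rw [P, map_prod]
      refine Finset.prod_congr rfl fun c _ => ?_
      unfold K KK yh sg hm
      cases B.ty c <;> simp [ext_C, ext_sigInv_sig]
    rw [ext_sigInv_sig, map_add, map_mul, ext_C, ext_X, h3] at h2
    have h4 : B.yh i = B.y i := by
      unfold yh sg
      rw [e, if_pos rfl]
    rw [h4]
    exact eq_sub_of_add_eq h2.symm

lemma P_eq (i : ι) :
    B.P i = ∏ c ∈ B.ch i, (if B.ty c = false then hm false (B.yh c) else C (B.yh c)) := by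
  exact B.bs_P i

/-- Top coefficient of the expansion at a stage of type `τ`.  Induct with `B.ind`; use `hm_yh`,
`natDegree_prod_le`, `coeff_prod_of_natDegree_le`-type lemmas (`coeff_mul_add_eq_of_natDegree_le`). -/
lemma top_coeff (τ : Bool) (G : ι → Prop) (cnt : ι → ℕ) (bdp : ι → QA)
    (hG : ∀ i, G i → ∀ c ∈ B.ch i, B.ty c = τ → G c)
    (hc : ∀ i, G i → cnt i = 1 + ∑ c ∈ B.ch i, if B.ty c = τ then cnt c else 0)
    (hb : ∀ i, G i → bdp i = ∏ c ∈ B.ch i, if B.ty c = τ then bdp c else B.yh c)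
    (i : ι) (hi : G i) :
    ((∏ c ∈ B.ch i, (if B.ty c = τ then hm τ (B.yh c) else C (B.yh c))).natDegree ≤ cnt i - 1 ∧
      (∏ c ∈ B.ch i, (if B.ty c = τ then hm τ (B.yh c) else C (B.yh c))).coeff (cnt i - 1)
        = (-1) ^ (cnt i - 1) * bdp i) ∧
    (B.ty i = τ → (hm τ (B.yh i)).natDegree ≤ cnt i ∧
      (hm τ (B.yh i)).coeff (cnt i) = (-1) ^ (cnt i) * bdp i) := by
  induction i using B.ind with
  | h i ih =>
    have h1 : ∀ c ∈ B.ch i, (if B.ty c = τ then hm τ (B.yh c) else C (B.yh c)).natDegree ≤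
        (if B.ty c = τ then cnt c else 0) ∧
        (if B.ty c = τ then hm τ (B.yh c) else C (B.yh c)).coeff (if B.ty c = τ then cnt c else 0) =
          (-1) ^ (if B.ty c = τ then cnt c else 0) * if B.ty c = τ then bdp c else B.yh c := by
      intro c hc'
      split_ifs with e
      · exact (ih c hc' (hG i hi c hc' e)).2 e
      · simp
    obtain ⟨h2, h3⟩ := bs_prod (B.ch i) _ _ fun c hc' => (h1 c hc').1
    rw [Finset.prod_congr rfl fun c hc' => (h1 c hc').2, Finset.prod_mul_distrib,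
      Finset.prod_pow_eq_pow_sum, ← hb i hi] at h3
    rw [hc i hi, Nat.add_sub_cancel_left]
    refine ⟨⟨h2, h3⟩, fun e => ?_⟩
    have h4 := B.hm_yh i
    rw [e] at h4
    rw [h4]
    refine ⟨(natDegree_sub_le _ _).trans (max_le (by simp) (natDegree_mul_le.trans
      (add_le_add natDegree_X_le h2))), ?_⟩
    rw [add_comm 1, coeff_sub, coeff_C_succ, coeff_X_mul, h3]
    ring

/-- disjoint union of two branch systems -/
def sum {κ : Type} (B' : BS κ) : BS (ι ⊕ κ) where
  ch := Sum.elim (fun i => (B.ch i).map Function.Embedding.inl) (fun j => (B'.ch j).map Function.Embedding.inr)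
  ty := Sum.elim B.ty B'.ty
  sz := Sum.elim B.sz B'.sz
  y := Sum.elim B.y B'.y
  hsz := by
    rintro (i | j)
    · simpa using B.hsz i
    · simpa using B'.hsz j
  hy := by
    rintro (i | j)
    · exact B.hy i
    · exact B'.hy j
  hsig := by
    rintro (i | j)
    · simpa using B.hsig i
    · simpa using B'.hsig j

end BS

end Pool.Agent.Work.MP_be9894_co.AA
end

-- merged part: Pool.Agent.Work.MP_be9894_co.AA.Deform
section
/-!
The deformed values: `h L i` counts strict maps of the branch `i` into the levels of `L` whose root lies in the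
levels seen so far; `γ i` is the full strict generating function of the branch.

Plan.  Construct `h` and `γ` by recursion on `sz` (fuel, as in `exists_y`, or prove by `B.ind` the existence of
`(h i, γ i)` for each `i` together with uniqueness through the recursion; a clean way: first define the family
`h L i = Binv (X * prod_c (if ty c then C (h L c) else C (algebraMap (ev L (h L c))) - sig (h L c)))` for each fixed `L`,
by fuel).  Let `Np d` be the span, in `List ℚ → QA[X]`, of the functions `fun L => ev L κ • q` with `κ ∈ Hom a`, `0 < a`,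
`q ∈ HomX b`, `a + b = d`, and `Mp d` the span, in `List ℚ → QA`, of `fun L => ev L κ • f` with `0 < a`, `0 < b`,
`f ∈ Hom b`.  Show by `B.ind`: `(fun L => h L i - y i) ∈ Mp (sz i)`.  From it, `γ i = y i + (sum of κ * f)` satisfies
`ev L (γ i) = ev L (h L i)` and `y i - γ i ∈ Dec`.  Step: each factor is `K c` plus an element of `Np (sz c)`;
`Np` is stable under products with `Np` and with constant functions in `HomX`; `Binv (X * ·)` maps `Np (d-1)` into `Mp d`;
`y i = Binv (X * P i)` by `sig_inj`.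
-/

set_option autoImplicit false

namespace Pool.Agent.Work.MP_be9894_co.AA

open Polynomial

namespace BS

variable {ι : Type} (B : BS ι)
/-- spans of polynomial valued functions of the list -/
noncomputable def deform_N (e d : ℤ) : Submodule ℚ (List ℚ → QA[X]) :=
  Submodule.span ℚ {φ | ∃ (a b : ℤ) (κ : QA) (q : QA[X]), e ≤ a ∧ a + b = d ∧ κ ∈ Hom a ∧
    q ∈ HomX b ∧ φ = fun L => ev L κ • q}

/-- spans of ring valued functions of the list -/
noncomputable def deform_M (d : ℤ) : Submodule ℚ (List ℚ → QA) :=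
  Submodule.span ℚ {φ | ∃ (a b : ℤ) (κ f : QA), 0 < a ∧ 0 < b ∧ a + b = d ∧ κ ∈ Hom a ∧
    f ∈ Hom b ∧ φ = fun L => ev L κ • f}

lemma deform_mono {e e' d : ℤ} (h : e' ≤ e) : deform_N e d ≤ deform_N e' d :=
  Submodule.span_mono fun _ ⟨a, b, κ, q, h1, h2⟩ => ⟨a, b, κ, q, h.trans h1, h2⟩

lemma deform_const {d : ℤ} {q : QA[X]} (hq : q ∈ HomX d) : (fun _ => q) ∈ deform_N 0 d :=
  Submodule.subset_span ⟨0, d, 1, q, le_rfl, zero_add d, hom_one, hq, by simp⟩

lemma deform_mul {e e' d d' : ℤ} {φ ψ : List ℚ → QA[X]} (hφ : φ ∈ deform_N e d)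
    (hψ : ψ ∈ deform_N e' d') : φ * ψ ∈ deform_N (e + e') (d + d') := by
  induction hφ using Submodule.span_induction with
  | zero => rw [zero_mul]; exact zero_mem _
  | add x y _ _ hx hy => rw [add_mul]; exact add_mem hx hy
  | smul c x _ hx => rw [smul_mul_assoc]; exact Submodule.smul_mem _ c hx
  | mem φ hφ =>
    induction hψ using Submodule.span_induction with
    | zero => rw [mul_zero]; exact zero_mem _
    | add x y _ _ hx hy => rw [mul_add]; exact add_mem hx hy
    | smul c x _ hx => rw [mul_smul_comm]; exact Submodule.smul_mem _ c hx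
    | mem ψ hψ =>
      obtain ⟨a, b, κ, q, h1, h2, h3, h4, rfl⟩ := hφ
      obtain ⟨a', b', κ', q', k1, k2, k3, k4, rfl⟩ := hψ
      refine Submodule.subset_span ⟨a + a', b + b', κ * κ', q * q', add_le_add h1 k1,
        by omega, hom_mul h3 k3, homX_mul h4 k4, funext fun L => ?_⟩
      rw [Pi.mul_apply, map_mul, smul_mul_smul_comm]

lemma deform_prod {κ : Type} (s : Finset κ) (φ : κ → List ℚ → QA[X]) (q : κ → QA[X]) (d : κ → ℤ)
    (hq : ∀ c ∈ s, q c ∈ HomX (d c)) (h : ∀ c ∈ s, (fun L => φ c L - q c) ∈ deform_N 1 (d c)) :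
    (fun L => ∏ c ∈ s, φ c L - ∏ c ∈ s, q c) ∈ deform_N 1 (∑ c ∈ s, d c) := by
  classical
  induction s using Finset.induction_on with
  | empty =>
    simp only [Finset.prod_empty, sub_self]
    exact zero_mem _
  | insert a s ha ih =>
    have h1 := ih (fun c hc => hq c (Finset.mem_insert_of_mem hc))
      fun c hc => h c (Finset.mem_insert_of_mem hc)
    have h2 := homX_prod s q d fun c hc => hq c (Finset.mem_insert_of_mem hc)
    have h3 := deform_mul (h a (Finset.mem_insert_self _ _))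
      (add_mem (deform_mono zero_le_one h1) (deform_const h2))
    have h4 := deform_mul (deform_const (hq a (Finset.mem_insert_self _ _))) h1
    rw [add_zero] at h3
    rw [zero_add] at h4
    rw [Finset.sum_insert ha]
    refine (congrArg (· ∈ deform_N 1 _) (funext fun L => ?_)).mp (add_mem h3 h4)
    simp only [Pi.add_apply, Pi.mul_apply, Finset.prod_insert ha]
    ring

lemma deform_map {d : ℤ} (T : QA →ₗ[ℚ] QA[X]) (hT : ∀ b f, f ∈ Hom b → T f ∈ HomX b)
    {δ : List ℚ → QA} (h : δ ∈ deform_M d) : (fun L => T (δ L)) ∈ deform_N 1 d := by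
  induction h using Submodule.span_induction with
  | zero =>
    simp only [Pi.zero_apply, map_zero]
    exact zero_mem _
  | add x y _ _ hx hy =>
    simp only [Pi.add_apply, map_add]
    exact add_mem hx hy
  | smul c x _ hx =>
    simp only [Pi.smul_apply, map_smul]
    exact Submodule.smul_mem _ c hx
  | mem φ hφ =>
    obtain ⟨a, b, κ, f, h1, -, h2, h3, h4, rfl⟩ := hφ
    exact Submodule.subset_span ⟨a, b, κ, T f, h1, h2, h3, hT b f h4,
      funext fun L => map_smul T _ _⟩

lemma deform_binv {d : ℤ} {φ : List ℚ → QA[X]} (h : φ ∈ deform_N 1 d) :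
    (fun L => Binv (X * φ L)) ∈ deform_M (1 + d) := by
  induction h using Submodule.span_induction with
  | zero =>
    simp only [Pi.zero_apply, mul_zero, map_zero]
    exact zero_mem _
  | add x y _ _ hx hy =>
    simp only [Pi.add_apply, mul_add, map_add]
    exact add_mem hx hy
  | smul c x _ hx =>
    simp only [Pi.smul_apply, mul_smul_comm, map_smul]
    exact Submodule.smul_mem _ c hx
  | mem φ hφ =>
    obtain ⟨a, b, κ, q, h1, h2, h3, h4, rfl⟩ := hφ
    rcases lt_or_ge b 0 with hb | hb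
    · simp only [homX_neg hb h4, smul_zero, mul_zero, map_zero]
      exact zero_mem _
    · refine Submodule.subset_span ⟨a, 1 + b, κ, Binv (X * q), h1, by omega, by omega, h3,
        Binv_hom (homX_mul homX_X h4), funext fun L => ?_⟩
      rw [mul_smul_comm, map_smul]

lemma deform_dec {d : ℤ} {δ : List ℚ → QA} (h : δ ∈ deform_M d) :
    ∃ g ∈ Dec d, g ∈ Hom d ∧ ∀ L, ev L g = ev L (δ L) := by
  induction h using Submodule.span_induction with
  | zero => exact ⟨0, zero_mem _, zero_mem _, fun L => rfl⟩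
  | add x y _ _ hx hy =>
    obtain ⟨g, g1, g2, g3⟩ := hx
    obtain ⟨g', k1, k2, k3⟩ := hy
    exact ⟨g + g', add_mem g1 k1, add_mem g2 k2, fun L => by
      rw [Pi.add_apply, map_add, map_add, g3, k3]⟩
  | smul c x _ hx =>
    obtain ⟨g, g1, g2, g3⟩ := hx
    exact ⟨c • g, Submodule.smul_mem _ c g1, Submodule.smul_mem _ c g2, fun L => by
      rw [Pi.smul_apply, map_smul, map_smul, g3]⟩
  | mem φ hφ =>
    obtain ⟨a, b, κ, f, h1, h2, h3, h4, h5, rfl⟩ := hφ
    exact ⟨κ * f, Submodule.subset_span ⟨a, b, κ, f, h1, h2, h3, h4, h5, rfl⟩,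
      h3 ▸ hom_mul h4 h5, fun L => by rw [map_mul, map_smul, smul_eq_mul]⟩

lemma deform_fix (F : ι → (ι → QA) → QA)
    (hF : ∀ i u v, (∀ c ∈ B.ch i, u c = v c) → F i u = F i v) :
    ∃ h : ι → QA, ∀ i, h i = F i h := by
  refine ⟨(measure B.sz).wf.fix fun i r => F i fun c =>
    if hc : B.sz c < B.sz i then r c hc else 0, fun i => ?_⟩
  refine (WellFounded.fix_eq _ _ i).trans ?_
  exact hF _ _ _ fun c hc => dif_pos (B.sz_lt hc)

lemma deform_y (i : ι) : B.y i = Binv (X * B.P i) := by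
  have h1 : Binv (X * B.P i) ∈ Hom (B.sz i) := by
    have := Binv_hom (homX_mul homX_X (B.P_hom i))
    rwa [add_sub_cancel] at this
  refine sub_eq_zero.1 (sig_inj (d := B.sz i) (by exact_mod_cast B.sz_pos i)
    (sub_mem (B.hy i) h1) ?_)
  rw [map_sub, B.sig_y, sig_Binv _ (by simp), map_sub]
  ring

/-- the deformed factor -/
noncomputable def deform_F (L : List ℚ) (b : Bool) (f : QA) : QA[X] :=
  if b then C f else C (algebraMap ℚ QA (ev L f)) - sig f

lemma deform_step {d : ℤ} (hd : 0 < d) (b : Bool) {u : List ℚ → QA} {y : QA} (hy : y ∈ Hom d)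
    (h : (fun L => u L - y) ∈ deform_M d) :
    (fun L => deform_F L b (u L) - KK b y) ∈ deform_N 1 d := by
  cases b with
  | true =>
    have := deform_map (CAlgHom (R := ℚ) (A := QA)).toLinearMap (fun _ _ hf => homX_C hf) h
    refine (congrArg (· ∈ deform_N 1 _) (funext fun L => ?_)).mp this
    simp [deform_F, KK]
  | false =>
    obtain ⟨g, -, g2, g3⟩ := deform_dec h
    have h1 := deform_map sig.toLinearMap (fun _ _ hf => sig_hom hf) h
    have h2 : (fun L => ev L (y + g) • (1 : QA[X])) ∈ deform_N 1 d :=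
      Submodule.subset_span ⟨d, 0, y + g, 1, hd, add_zero d, add_mem hy g2, homX_one, rfl⟩
    refine (congrArg (· ∈ deform_N 1 _) (funext fun L => ?_)).mp (sub_mem h2 h1)
    have h3 : ev L (y + g) = ev L (u L) := by
      rw [map_add, g3, map_sub, add_sub_cancel]
    rw [Pi.sub_apply, h3, Algebra.smul_def, mul_one, Polynomial.algebraMap_apply]
    simp only [deform_F, KK, Bool.false_eq_true, if_false, AlgHom.toLinearMap_apply, map_sub]
    ring


theorem exists_deform : ∃ (h : List ℚ → ι → QA) (γ : ι → QA),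
    (∀ i, B.y i - γ i ∈ Dec (B.sz i)) ∧ (∀ L i, ev L (γ i) = ev L (h L i)) ∧
    (∀ L i, ev [] (h L i) = 0) ∧
    ∀ L i x l, ev (x :: l) (h L i) = ev l (h L i) +
      x * ∏ c ∈ B.ch i, (if B.ty c then ev l (h L c) else ev L (h L c) - ev (x :: l) (h L c)) := by
  choose h hh using fun L => B.deform_fix
    (fun i u => Binv (X * ∏ c ∈ B.ch i, deform_F L (B.ty c) (u c)))
    fun i u v huv => by rw [Finset.prod_congr rfl fun c hc => by rw [huv c hc]]
  have key : ∀ i, (fun L => h L i - B.y i) ∈ deform_M (B.sz i) := by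
    refine B.ind _ fun i ih => ?_
    have h1 := deform_binv (deform_prod (B.ch i) (fun c L => deform_F L (B.ty c) (h L c)) B.K
      (fun c => B.sz c) (fun c _ => B.K_hom c) fun c hc =>
        deform_step (by exact_mod_cast B.sz_pos c) _ (B.hy c) (ih c hc))
    have h2 : (B.sz i : ℤ) = 1 + ∑ c ∈ B.ch i, (B.sz c : ℤ) := by exact_mod_cast B.hsz i
    rw [h2]
    refine (congrArg (· ∈ deform_M _) (funext fun L => ?_)).mp h1
    rw [mul_sub, map_sub, ← hh L i, B.deform_y i, P]
  choose g g1 g2 g3 using fun i => deform_dec (key i)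
  refine ⟨h, fun i => B.y i + g i, fun i => ?_, fun L i => ?_, fun L i => ?_, fun L i x l => ?_⟩
  · rw [sub_add_cancel_left]
    exact neg_mem (g1 i)
  · rw [map_add, g3, map_sub, add_sub_cancel]
  · rw [hh L i, ev_nil_Binv]
  · have h1 := sig_Binv (X * ∏ c ∈ B.ch i, deform_F L (B.ty c) (h L c)) (by simp)
    rw [← hh L i] at h1
    rw [ev_cons, h1, map_add, evX_C, map_mul, evX_X, map_prod]
    refine congrArg (fun t => ev l (h L i) + x * t) (Finset.prod_congr rfl fun c _ => ?_)
    unfold deform_F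
    split_ifs
    · exact evX_C _ _ _
    · rw [map_sub, evX_C, ← ev_cons, AlgHom.commutes]
      rfl

end BS

end Pool.Agent.Work.MP_be9894_co.AA
end

-- merged part: Pool.Agent.Work.MP_be9894_co.AA.ThmQ
section
/-!
The statements `A`, `D`, `Q`, `L` for one branch; this file derives `D`, `Q` from `A`.

`exists_slice`: if every admissible `D` of degree `sz i` kills `y i`, then `y i ∈ Kil (sz i)` (larger degrees kill it by
`IsDer.low`), and `SA i` with `h = 1` gives `y i = 0`.  Otherwise `D (y i) ∈ Hom 0` is a nonzero constant; rescale.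

`QQ_of_AA`: strong induction on `n`.  For `D` admissible of degree `m = sz i`, `D φ` satisfies the same hypotheses in degree
`n - m` (`kil_der`, `kil_comm`, `DX D` kills `X * P i` by `lowX` since `P i` has degree `m - 1`).  So `D φ = 0` unless
`n = m`; then `φ ∈ Kil m` and `SA` applies.  If `n = m`, `h` is a constant `c`, `sig_inj` gives `φ = c • y i`, and
`D0 φ = c = 0`.
-/

set_option autoImplicit false

namespace Pool.Agent.Work.MP_be9894_co.AA

open Polynomial

namespace BS

variable {ι : Type} (B : BS ι)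

def SA (i : ι) : Prop :=
  ∀ (n : ℤ) (φ : QA) (h : QA[X]), 0 < n → φ ∈ Hom n → φ ∈ Kil (B.sz i) → h ∈ HomX (n - B.sz i) →
    sig φ = C φ + X * B.P i * h → φ = 0

def SQ (i : ι) : Prop :=
  ∀ (D0 : Dn), IsDer (B.sz i) D0 → D0 (B.y i) = 1 →
    ∀ (n : ℤ) (φ : QA) (h : QA[X]), 0 < n → φ ∈ Hom n → φ ∈ Kil (B.sz i + 1) → D0 φ = 0 →
      h ∈ HomX (n - B.sz i) → sig φ = C φ + X * B.P i * h → φ = 0

def SL (i : ι) : Prop :=
  ∀ (n : ℤ) (φ : QA) (h : QA[X]), 0 < n → φ ∈ Hom n → φ ∈ Kil (B.sz i + 1) → h ∈ HomX (n - B.sz i) →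
    sig φ = C φ + B.K i * h → φ = 0

lemma thmq_der {i : ι} {D : Dn} (hD : IsDer (B.sz i) D) {φ : QA} {h : QA[X]}
    (e : sig φ = C φ + X * B.P i * h) : sig (D φ) = C (D φ) + X * B.P i * DX D h := by
  have h1 : DX D (B.P i) = 0 := hD.lowX (by omega) (B.P_hom i)
  have h2 : DX D (X * B.P i) = 0 := by
    rw [Derivation.leibniz, h1, DX_X, smul_zero, smul_zero, add_zero]
  rw [← hD.DX_sig, e, map_add, DX_C, Derivation.leibniz, h2, smul_zero, add_zero, smul_eq_mul]

lemma thmq_top {i : ι} {φ : QA} {h : QA[X]} (hφ : φ ∈ Hom (B.sz i)) (hh : h ∈ HomX 0)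
    (e : sig φ = C φ + X * B.P i * h) : ∃ c : ℚ, φ = c • B.y i := by
  obtain ⟨c, rfl⟩ := homX_zero hh
  have hm := B.sz_pos i
  refine ⟨c, sub_eq_zero.1 (sig_inj (d := B.sz i) (by omega)
    (sub_mem hφ (Submodule.smul_mem _ c (B.hy i))) ?_)⟩
  have h1 : sig (algebraMap ℚ QA c) = C (algebraMap ℚ QA c) := by
    rw [AlgHom.commutes, Polynomial.algebraMap_apply]
  rw [Algebra.smul_def, map_sub, map_mul, map_sub, map_mul, e, h1, B.sig_y]
  ring

lemma exists_slice {i : ι} (hA : B.SA i) : ∃ D : Dn, IsDer (B.sz i) D ∧ D (B.y i) = 1 := by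
  have hm := B.sz_pos i
  by_cases h : ∀ D : Dn, IsDer (B.sz i) D → D (B.y i) = 0
  · refine absurd (hA (B.sz i) (B.y i) 1 (by omega) (B.hy i) (fun j D hj hD => ?_) ?_ ?_) (B.y_ne i)
    · rcases hj.eq_or_lt with rfl | hj
      · exact h D hD
      · exact hD.low hj (B.hy i)
    · rw [sub_self]
      exact homX_one
    · rw [mul_one, B.sig_y]
  · push Not at h
    obtain ⟨D, hD, hne⟩ := h
    have h1 := hD.1 _ _ (B.hy i)
    rw [sub_self] at h1
    obtain ⟨c, hc⟩ := hom_zero h1
    have h2 : c ≠ 0 := by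
      rintro rfl
      exact hne (by rw [hc, map_zero])
    refine ⟨c⁻¹ • D, hD.smul _, ?_⟩
    rw [Derivation.smul_apply, hc, Algebra.smul_def, ← map_mul, inv_mul_cancel₀ h2, map_one]

lemma QQ_of_AA {i : ι} (hA : B.SA i) : B.SQ i := by
  intro D0 hD0 h1
  have hm := B.sz_pos i
  have key : ∀ (k : ℕ) (n : ℤ) (φ : QA) (h : QA[X]), n ≤ k → 0 < n → φ ∈ Hom n →
      φ ∈ Kil (B.sz i + 1) → D0 φ = 0 → h ∈ HomX (n - B.sz i) →
      sig φ = C φ + X * B.P i * h → φ = 0 := by
    intro k
    induction k with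
    | zero =>
      intro n φ h h2 h3
      omega
    | succ k ih =>
      intro n φ h hk hn hφ hK h0 hh e
      by_cases hnm : n = B.sz i
      · subst hnm
        rw [sub_self] at hh
        obtain ⟨c, rfl⟩ := B.thmq_top hφ hh e
        rw [D0.map_smul, h1] at h0
        rw [← mul_one (B.y i), ← mul_smul_comm, h0, mul_zero]
      · refine hA n φ h hn hφ (fun j D hj hD => ?_) hh e
        rcases hj.eq_or_lt with rfl | hj
        · rcases lt_or_gt_of_ne hnm with h2 | h2
          · exact hD.low h2 hφ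
          · refine ih (n - B.sz i) (D φ) (DX D h) (by omega) (by omega) (hD.1 _ _ hφ)
              (kil_der (by omega) hD hK) ?_ (hD.DX_hom hh) (B.thmq_der hD e)
            rw [kil_comm (by omega) hD0 hD hK, h0, map_zero]
        · exact hK j D (by omega) hD
  exact fun n φ h => key n.toNat n φ h (Int.self_le_toNat n)

end BS

end Pool.Agent.Work.MP_be9894_co.AA
end

-- merged part: Pool.Agent.Work.MP_be9894_co.AA.ThmL
section
/-!
`L` from `A`.  Let `m = sz i`, `y = y i`, `R = X * P i`, `D0` from `exists_slice`, `E = DX D0`.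
Write `φ = φ0 + y * φ1` by `slice_exists` with `P d = Hom d ⊓ Kil (m+1)`.

Type `true` (`K = C y`, slice `C y` for `E` on `HomX`): `sig φ1 = u0 + C y * u1`, then
`sig φ0 - C φ0 + R * u0 = C y * w` with `w` homogeneous, and `E` kills the left side, so `w = 0` (`slice_unique`);
`SQ` gives `φ0 = 0`, then `u0 = 0` (`P_ne`).  Descent: if `f ∈ Hom e` and `sig f = C y * u` with `u ∈ HomX (e - m)` then
`f = 0` (`f = y * u.coeff 0`, repeat with `u.coeff 0`, induction on `e`).

Type `false` (`K = - sig y`, slice `s = sig y`): `C φ1 = u0 + s * u1`, `sig φ0 - C φ0 + R * u0 = s * w`, the same;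
then `C φ1 = s * u1` forces `u1 = 0` because `s = C y + R` has positive `natDegree`.
-/

set_option autoImplicit false

namespace Pool.Agent.Work.MP_be9894_co.AA

open Polynomial

namespace BS

variable {ι : Type} (B : BS ι)

lemma thml_R (i : ι) : X * B.P i ∈ HomX (B.sz i) := by
  have h := homX_mul homX_X (B.P_hom i)
  rwa [add_sub_cancel] at h

lemma thml_split {i : ι} {D : Dn} (hD : IsDer (B.sz i) D) (hy : D (B.y i) = 1) {s a w t : QA[X]}
    (hs : s ∈ HomX (B.sz i)) (h1 : DX D s = 1) {d : ℤ} (ha : a ∈ HomX d) (hw : w ∈ HomX d)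
    (ht : DX D t = 0) (e : t + X * B.P i * a = s * w) :
    ∃ u0 u1, u0 ∈ HomX d ∧ u1 ∈ HomX (d - B.sz i) ∧ a = u0 + s * u1 ∧
      t + X * B.P i * u0 = 0 := by
  have hm : (1 : ℤ) ≤ B.sz i := by exact_mod_cast B.sz_pos i
  obtain ⟨u0, u1, b1, b2, b3, rfl⟩ := slice_exists (DX D) s (B.sz i) HomX hm h1
    (fun d hd f hf => homX_neg hd hf) (fun d f hf => hD.DX_hom hf)
    (fun d f hf => add_comm (B.sz i : ℤ) d ▸ homX_mul hs hf) ha
  have hR : DX D (X * B.P i) = 0 := by
    have h := congrArg (DX D) (B.sig_y i)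
    rw [map_add, hD.DX_sig, DX_C, hy, map_one, map_one] at h
    exact (left_eq_add.1 h)
  have e2 : t + X * B.P i * u0 = s * (w - X * B.P i * u1) := by linear_combination e
  have h3 : w - X * B.P i * u1 ∈ HomX d := by
    have h := homX_mul (B.thml_R i) b2
    rw [add_sub_cancel] at h
    exact sub_mem hw h
  have h4 := slice_unique (DX D) s (B.sz i) HomX hm h1 (fun d hd f hf => homX_neg hd hf)
    (fun d f hf => hD.DX_hom hf) h3 (by
      rw [← e2, map_add, ht, Derivation.leibniz, b3, hR, smul_zero, smul_zero, add_zero, add_zero])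
  exact ⟨u0, u1, b1, b2, rfl, by rw [e2, h4, mul_zero]⟩

lemma thml_desc {i : ι} {D : Dn} (hD : IsDer (B.sz i) D) (hy : D (B.y i) = 1) (k : ℕ) :
    ∀ e : ℤ, (e + 1).toNat ≤ k → ∀ (f : QA) (u : QA[X]), f ∈ Hom e → u ∈ HomX (e - B.sz i) →
      sig f = C (B.y i) * u → f = 0 := by
  have hm : (1 : ℤ) ≤ B.sz i := by exact_mod_cast B.sz_pos i
  induction k with
  | zero => exact fun e he f u hf _ _ => hom_neg (by omega) hf
  | succ k ih =>
    intro e he f u hf hu h
    have h1 : f = B.y i * u.coeff 0 := by rw [← sig_coeff_zero f, h, coeff_C_mul]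
    have h2 : u.coeff 0 ∈ Hom (e - B.sz i) := by simpa using hu 0
    obtain ⟨u0, u1, -, b2, b3, b4⟩ := B.thml_split hD hy (homX_C (B.hy i))
      (by rw [DX_C, hy, map_one]) (sig_hom h2) (sub_mem hu (sig_hom h2)) (map_zero _)
      (by rw [h1, map_mul, B.sig_y] at h; linear_combination h)
    rw [zero_add] at b4
    rw [(mul_eq_zero.1 b4).resolve_left (mul_ne_zero X_ne_zero (B.P_ne i)), zero_add] at b3
    rw [h1, ih _ (by omega) _ u1 h2 b2 b3, mul_zero]

lemma LL_of_AA {i : ι} (hA : B.SA i) : B.SL i := by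
  intro n φ h hn hφ hk hh e
  obtain ⟨D, hD, hy⟩ := B.exists_slice hA
  have hQ := B.QQ_of_AA hA D hD hy
  have hm : (1 : ℤ) ≤ B.sz i := by exact_mod_cast B.sz_pos i
  obtain ⟨f0, f1, ⟨a1, a2⟩, ⟨a3, -⟩, a4, rfl⟩ := slice_exists D (B.y i) (B.sz i)
    (fun d => Hom d ⊓ Kil (B.sz i + 1)) hm hy (fun d hd f hf => hom_neg hd hf.1)
    (fun d f hf => ⟨hD.1 d f hf.1, kil_der (by omega) hD hf.2⟩)
    (fun d f hf => ⟨add_comm (B.sz i : ℤ) d ▸ hom_mul (B.hy i) hf.1,
      kil_mul (kil_hom (by omega) (B.hy i)) hf.2⟩) (f := φ) (d := n) ⟨hφ, hk⟩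
  have ht : DX D (sig f0 - C f0) = 0 := by
    rw [map_sub, hD.DX_sig, DX_C, a4, map_zero, map_zero, sub_self]
  have hR : X * B.P i ≠ 0 := mul_ne_zero X_ne_zero (B.P_ne i)
  have fin : ∀ u0 ∈ HomX (n - B.sz i), sig f0 - C f0 + X * B.P i * u0 = 0 →
      f0 = 0 ∧ u0 = 0 := fun u0 h0 h1 => by
    have h2 : f0 = 0 := hQ n f0 (-u0) hn a1 a2 a4 (neg_mem h0) (by linear_combination h1)
    rw [h2, map_zero, map_zero, sub_self, zero_add] at h1
    exact ⟨h2, (mul_eq_zero.1 h1).resolve_left hR⟩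
  rw [map_add, map_mul, map_add, map_mul, K, KK] at e
  split_ifs at e with hty
  · obtain ⟨u0, u1, b1, b2, b3, b4⟩ := B.thml_split hD hy (homX_C (B.hy i))
      (by rw [DX_C, hy, map_one]) (sig_hom a3)
      (sub_mem (add_mem (homX_C a3) hh) (sig_hom a3)) ht
      (by rw [B.sig_y] at e; linear_combination e)
    obtain ⟨rfl, rfl⟩ := fin u0 b1 b4
    rw [zero_add] at b3
    rw [B.thml_desc hD hy _ _ le_rfl f1 u1 a3 b2 b3, mul_zero, add_zero]
  · obtain ⟨u0, u1, b1, b2, b3, b4⟩ := B.thml_split hD hy (sig_hom (B.hy i))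
      (by rw [hD.DX_sig, hy, map_one]) (homX_C a3)
      (sub_mem (sub_mem (homX_C a3) hh) (sig_hom a3)) ht
      (by rw [B.sig_y] at e ⊢; linear_combination e)
    obtain ⟨rfl, rfl⟩ := fin u0 b1 b4
    rw [zero_add] at b3
    have hs : (sig (B.y i)).natDegree = (B.P i).natDegree + 1 := by
      rw [B.sig_y, natDegree_C_add, natDegree_X_mul (B.P_ne i)]
    have h1 : u1 = 0 := by
      by_contra h1
      have h2 := congrArg natDegree b3
      rw [natDegree_C, natDegree_mul (fun h3 => by rw [h3] at hs; simp at hs) h1] at h2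
      omega
    rw [h1, mul_zero, C_eq_zero] at b3
    rw [b3, mul_zero, add_zero]

end BS

end Pool.Agent.Work.MP_be9894_co.AA
end

-- merged part: Pool.Agent.Work.MP_be9894_co.AA.Sep
section
/-!
Enough derivations.  `rho` adds a new bottom level; `rk k f` is the coefficient of `X ^ k` in `rho f`.

Plan.
* `exists_rho`: `exists_hom` with `s x l = l ++ [x]`; for `Mf`: induction on `l` gives
  `Mf (al ++ [a]) (l ++ [t]) = Mf (al ++ [a]) l + t ^ (a+1) * Mf al l` (and `Mf [] = 1`).
* `rk 0 = id`, `rk k` lowers the degree by `k`, `rk k (f * g) = sum over antidiagonal` (`coeff_mul`), and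
  `(sig (rk k f)).coeff i = rk k ((sig f).coeff i)` (evaluate `f` at `x :: l ++ [t]` in the two ways; use `poly_ext` twice,
  or check on `Mq al`).
* Define linear maps `Dk` by strong recursion: `Dk k = k • rk k - sum_{1 ≤ j < k} rk (k - j) ∘ Dk j`, so
  `k • rk k f = sum_{1 ≤ j ≤ k} rk (k - j) (Dk j f)`.  Leibniz by strong induction on `k`: with
  `e j = Dk j (f g) - f Dk j g - g Dk j f` one gets `sum_{1 ≤ j ≤ k} rk (k-j) (e j) = 0` from
  `k • rk k (f g) = sum_{a+b=k} (a • rk a f) * rk b g + rk a f * (b • rk b g)`.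
* If all `Dk k f = 0` (`k ≥ 1`) then `rk k f = 0`, so `ev (l ++ [t]) f = ev l f`, so `ev l f = ev [] f = 0`.
-/

set_option autoImplicit false

namespace Pool.Agent.Work.MP_be9894_co.AA

open Polynomial

lemma sep_Mf_append (a : ℕ) (t : ℚ) (l : List ℚ) : ∀ al : List ℕ,
    Mf (al ++ [a]) (l ++ [t]) = Mf (al ++ [a]) l + t ^ (a + 1) * Mf al l := by
  induction l with
  | nil =>
    intro al
    cases al with
    | nil => simp [Mf]
    | cons b al =>
      cases al with
      | nil => simp [Mf]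
      | cons c al => simp [Mf]
  | cons x l ih =>
    intro al
    cases al with
    | nil =>
      have h := ih []
      simp only [List.nil_append, List.cons_append, Mf] at h ⊢
      rw [h]; ring
    | cons b al =>
      have h1 := ih (b :: al)
      have h2 := ih al
      simp only [List.cons_append, Mf] at h1 h2 ⊢
      rw [h1, h2]; ring

lemma exists_rho : ∃ φ : QA →ₐ[ℚ] QA[X], ∀ f t l, ev (l ++ [t]) f = evX t l (φ f) := by
  refine exists_hom (fun x l => l ++ [x]) ?_
  intro al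
  induction al using List.reverseRecOn with
  | nil => exact ⟨1, fun x l => by simp [Mf]⟩
  | append_singleton al a _ =>
    refine ⟨C (Mq (al ++ [a])) + X ^ (a + 1) * C (Mq al), fun x l => ?_⟩
    rw [map_add, map_mul, map_pow, evX_C, evX_C, evX_X, ev_Mq, ev_Mq, sep_Mf_append]

/-- add a new bottom level -/
noncomputable def sep_rho : QA →ₐ[ℚ] QA[X] := exists_rho.choose

lemma sep_ev_append (f : QA) (t : ℚ) (l : List ℚ) : ev (l ++ [t]) f = evX t l (sep_rho f) :=
  exists_rho.choose_spec f t l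

lemma sep_Mq_nil : Mq [] = 1 := ev_ext fun l => by rw [ev_Mq, map_one]; simp [Mf]

lemma sep_rho_Mq (a : ℕ) (al : List ℕ) :
    sep_rho (Mq (al ++ [a])) = C (Mq (al ++ [a])) + X ^ (a + 1) * C (Mq al) := by
  refine poly_ext fun x l => ?_
  rw [← sep_ev_append, map_add, map_mul, map_pow, evX_C, evX_C, evX_X, ev_Mq, ev_Mq, ev_Mq,
    sep_Mf_append]

/-- the coefficients of `sep_rho` -/
noncomputable def sep_rk (k : ℕ) : QA →ₗ[ℚ] QA :=
  ((lcoeff QA k).restrictScalars ℚ).comp sep_rho.toLinearMap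

lemma sep_rk_apply (k : ℕ) (f : QA) : sep_rk k f = (sep_rho f).coeff k := rfl

/-- the coefficients of `sig` -/
noncomputable def sep_S (k : ℕ) : QA →ₗ[ℚ] QA :=
  ((lcoeff QA k).restrictScalars ℚ).comp sig.toLinearMap

lemma sep_S_apply (k : ℕ) (f : QA) : sep_S k f = (sig f).coeff k := rfl

lemma sep_rk_nil (k : ℕ) : sep_rk (k + 1) (Mq []) = 0 := by
  rw [sep_rk_apply, sep_Mq_nil, map_one, coeff_one]; simp

lemma sep_S_nil (k : ℕ) : sep_S (k + 1) (Mq []) = 0 := by
  rw [sep_S_apply, sep_Mq_nil, map_one, coeff_one]; simp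

lemma sep_rk_Mq (k a : ℕ) (al : List ℕ) :
    sep_rk (k + 1) (Mq (al ++ [a])) = if k = a then Mq al else 0 := by
  rw [sep_rk_apply, sep_rho_Mq, coeff_add, coeff_C, coeff_mul_C, coeff_X_pow]
  by_cases h : k = a <;> simp [h]

lemma sep_S_Mq (k a : ℕ) (al : List ℕ) :
    sep_S (k + 1) (Mq (a :: al)) = if k = a then Mq al else 0 := by
  rw [sep_S_apply, sig_Mq, coeff_add, coeff_C, coeff_mul_C, coeff_X_pow]
  by_cases h : k = a <;> simp [h]

lemma sep_rk_zero (f : QA) : sep_rk 0 f = f := by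
  refine all_span (fun f => sep_rk 0 f = f) (map_zero _) ?_ ?_ ?_ f
  · intro al
    induction al using List.reverseRecOn with
    | nil => rw [sep_rk_apply, sep_Mq_nil, map_one, coeff_one]; simp
    | append_singleton al a _ =>
      rw [sep_rk_apply, sep_rho_Mq, coeff_add, coeff_C, coeff_mul_C, coeff_X_pow]; simp
  · intro f g hf hg
    rw [map_add, hf, hg]
  · intro c f hf
    rw [map_smul, hf]

lemma sep_rk_hom (k : ℕ) {d : ℤ} {f : QA} (hf : f ∈ Hom d) : sep_rk k f ∈ Hom (d - k) := by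
  cases k with
  | zero => simpa [sep_rk_zero] using hf
  | succ k =>
    refine hom_span (fun f => sep_rk (k + 1) f ∈ Hom (d - (k + 1 : ℕ))) ?_ ?_ ?_ ?_ hf
    · rw [map_zero]; exact zero_mem _
    · intro al hal
      induction al using List.reverseRecOn with
      | nil => rw [sep_rk_nil]; exact zero_mem _
      | append_singleton al a _ =>
        rw [sep_rk_Mq]
        split_ifs with h
        · have h1 : d - (k + 1 : ℕ) = (wt al : ℤ) := by
            rw [← hal, h]; simp [wt]
          rw [h1]; exact Mq_hom al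
        · exact zero_mem _
    · intro f g hf hg
      rw [map_add]; exact add_mem hf hg
    · intro c f hf
      rw [map_smul]; exact Submodule.smul_mem _ c hf

lemma sep_comm (i k : ℕ) (f : QA) : sep_S i (sep_rk k f) = sep_rk k (sep_S i f) := by
  cases i with
  | zero => rw [sep_S_apply, sep_S_apply, sig_coeff_zero, sig_coeff_zero]
  | succ i =>
  cases k with
  | zero => rw [sep_rk_zero, sep_rk_zero]
  | succ k =>
    refine all_span (fun f => sep_S (i + 1) (sep_rk (k + 1) f) = sep_rk (k + 1) (sep_S (i + 1) f))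
      (by simp) ?_ ?_ ?_ f
    · intro al
      induction al using List.reverseRecOn with
      | nil => rw [sep_rk_nil, sep_S_nil, map_zero, map_zero]
      | append_singleton al b _ =>
        rw [sep_rk_Mq]
        cases al with
        | nil =>
          rw [List.nil_append, sep_S_Mq]
          split_ifs <;> simp [sep_S_nil, sep_rk_nil]
        | cons a al =>
          rw [List.cons_append, sep_S_Mq]
          split_ifs with h1 h2 h2 <;> simp [sep_S_Mq, sep_rk_Mq, h1, h2]
    · intro f g hf hg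
      simp only [map_add, hf, hg]
    · intro c f hf
      simp only [map_smul, hf]

/-- the logarithmic derivative of `sep_rho` -/
noncomputable def sep_D : ℕ → QA →ₗ[ℚ] QA
  | k => (k : ℚ) • sep_rk k - ∑ j : Fin k, (sep_rk (k - j)).comp (sep_D j)
decreasing_by exact j.2

lemma sep_D_apply (k : ℕ) (f : QA) :
    sep_D k f = (k : ℚ) • sep_rk k f - ∑ j ∈ Finset.range k, sep_rk (k - j) (sep_D j f) := by
  rw [sep_D, LinearMap.sub_apply, LinearMap.smul_apply, LinearMap.sum_apply,
    ← Fin.sum_univ_eq_sum_range (fun j => sep_rk (k - j) (sep_D j f)) k]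
  rfl

lemma sep_D_sum (k : ℕ) (f : QA) :
    ∑ j ∈ Finset.range (k + 1), sep_rk (k - j) (sep_D j f) = (k : ℚ) • sep_rk k f := by
  rw [Finset.sum_range_succ, Nat.sub_self, sep_rk_zero, sep_D_apply k f]
  abel

lemma sep_D_hom (k : ℕ) : ∀ {d : ℤ} {f : QA}, f ∈ Hom d → sep_D k f ∈ Hom (d - k) := by
  induction k using Nat.strong_induction_on with
  | _ k ih =>
    intro d f hf
    rw [sep_D_apply]
    refine sub_mem (Submodule.smul_mem _ _ (sep_rk_hom k hf)) (Submodule.sum_mem _ fun j hj => ?_)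
    have hj' := Finset.mem_range.1 hj
    have h := sep_rk_hom (k - j) (ih j hj' hf)
    have e : d - j - (k - j : ℕ) = d - k := by
      rw [Nat.cast_sub hj'.le]; ring
    rwa [e] at h

lemma sep_D_comm (i k : ℕ) : ∀ f : QA, sep_S i (sep_D k f) = sep_D k (sep_S i f) := by
  induction k using Nat.strong_induction_on with
  | _ k ih =>
    intro f
    rw [sep_D_apply, sep_D_apply, map_sub, map_smul, map_sum, sep_comm]
    congr 1
    refine Finset.sum_congr rfl fun j hj => ?_
    rw [sep_comm, ih j (Finset.mem_range.1 hj)]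

/-- extension of `sep_rho` to polynomials -/
noncomputable def sep_R : QA[X] →+* QA[X] := eval₂RingHom (sep_rho : QA →+* QA[X]) X

lemma sep_R_C (f : QA) : sep_R (C f) = sep_rho f := by simp [sep_R]

lemma sep_R_coeff (p : QA[X]) (k : ℕ) :
    (sep_R p).coeff k = ∑ j ∈ Finset.range (k + 1), sep_rk (k - j) (p.coeff j) := by
  induction p using Polynomial.induction_on' with
  | add p q hp hq =>
    simp only [map_add, coeff_add, hp, hq, Finset.sum_add_distrib]
  | monomial n a =>
    have h1 : sep_R (monomial n a) = sep_rho a * X ^ n := by simp [sep_R]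
    rw [h1, coeff_mul_X_pow']
    split_ifs with h
    · rw [Finset.sum_eq_single n]
      · rw [coeff_monomial, if_pos rfl, sep_rk_apply]
      · intro j _ hj
        rw [coeff_monomial, if_neg (Ne.symm hj), map_zero]
      · intro hn
        exact absurd (Finset.mem_range.2 (by omega)) hn
    · refine (Finset.sum_eq_zero fun j hj => ?_).symm
      have hj' := Finset.mem_range.1 hj
      rw [coeff_monomial, if_neg (by omega), map_zero]

lemma sep_R_inj (p : QA[X]) (N : ℕ) (h : ∀ k ≤ N, (sep_R p).coeff k = 0) :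
    ∀ k ≤ N, p.coeff k = 0 := by
  intro k
  induction k using Nat.strong_induction_on with
  | _ k ih =>
    intro hk
    have h1 := h k hk
    rw [sep_R_coeff, Finset.sum_range_succ, Nat.sub_self, sep_rk_zero,
      Finset.sum_eq_zero, zero_add] at h1
    · exact h1
    · intro j hj
      have hj' := Finset.mem_range.1 hj
      rw [ih j hj' (by omega), map_zero]

/-- truncated generating polynomial of the `sep_D` -/
noncomputable def sep_P (N : ℕ) (f : QA) : QA[X] :=
  ∑ j ∈ Finset.range (N + 1), monomial j (sep_D j f)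

lemma sep_P_coeff {N k : ℕ} (hk : k ≤ N) (f : QA) : (sep_P N f).coeff k = sep_D k f := by
  rw [sep_P, finsetSum_coeff, Finset.sum_eq_single k]
  · rw [coeff_monomial, if_pos rfl]
  · intro j _ hj
    rw [coeff_monomial, if_neg hj]
  · intro hn
    exact absurd (Finset.mem_range.2 (by omega)) hn

lemma sep_RP {N k : ℕ} (hk : k ≤ N) (f : QA) :
    (sep_R (sep_P N f)).coeff k = (k : ℚ) • sep_rk k f := by
  rw [sep_R_coeff, ← sep_D_sum]
  refine Finset.sum_congr rfl fun j hj => ?_
  have hj' := Finset.mem_range.1 hj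
  rw [sep_P_coeff (by omega)]

lemma sep_leibniz (N : ℕ) (f g : QA) : sep_D N (f * g) = f • sep_D N g + g • sep_D N f := by
  have h := sep_R_inj (sep_P N (f * g) - (C f * sep_P N g + sep_P N f * C g)) N ?_ N le_rfl
  · rw [coeff_sub, coeff_add, coeff_C_mul, coeff_mul_C, sep_P_coeff le_rfl, sep_P_coeff le_rfl,
      sep_P_coeff le_rfl, sub_eq_zero] at h
    rw [h, smul_eq_mul, smul_eq_mul, mul_comm g]
  · intro k hk
    rw [map_sub, map_add, map_mul, map_mul, sep_R_C, sep_R_C, coeff_sub, coeff_add, sep_RP hk,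
      sep_rk_apply, map_mul, coeff_mul, coeff_mul, coeff_mul, Finset.smul_sum,
      ← Finset.sum_add_distrib, sub_eq_zero]
    refine Finset.sum_congr rfl fun x hx => ?_
    have hx' : x.1 + x.2 = k := by simpa using hx
    rw [sep_RP (by omega), sep_RP (by omega), sep_rk_apply, sep_rk_apply, ← hx', Nat.cast_add,
      add_smul, mul_smul_comm, smul_mul_assoc, add_comm]

/-- the derivations -/
noncomputable def sep_Der (k : ℕ) : Dn := Derivation.mk' (sep_D k) (sep_leibniz k)

lemma sep_isDer (k : ℕ) : IsDer k (sep_Der k) :=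
  ⟨fun _ _ hf => sep_D_hom k hf, fun f i => sep_D_comm i k f⟩

theorem sep {d : ℤ} (hd : 0 < d) {f : QA} (hf : f ∈ Hom d) (h : f ∈ Kil 1) : f = 0 := by
  have hD : ∀ k : ℕ, sep_D k f = 0 := by
    intro k
    cases k with
    | zero => rw [sep_D_apply]; simp
    | succ k => exact h (k + 1 : ℕ) (sep_Der (k + 1)) (by push_cast; omega) (sep_isDer (k + 1))
  have hr : sep_rho f = C f := by
    ext k
    rw [← sep_rk_apply, coeff_C]
    cases k with
    | zero => rw [sep_rk_zero, if_pos rfl]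
    | succ k =>
      have h1 := sep_D_sum (k + 1) f
      rw [Finset.sum_eq_zero (fun j _ => by rw [hD, map_zero])] at h1
      rw [if_neg (Nat.succ_ne_zero k)]
      have h2 : ((k + 1 : ℕ) : ℚ) ≠ 0 := by positivity
      exact (smul_eq_zero.1 h1.symm).resolve_left h2
  refine ev_inj fun l => ?_
  induction l using List.reverseRecOn with
  | nil => exact ev_nil hd hf
  | append_singleton l t ih => rw [sep_ev_append, hr, evX_C, ih]

end Pool.Agent.Work.MP_be9894_co.AA
end

-- merged part: Pool.Agent.Work.MP_be9894_co.AA.ThmA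
section
/-!
Theorem A and the matching lemma.

`thmA`: `B.ind`.  Let `m` be the largest size of a child (`0` if none).  Strong induction on `n` shows `φ ∈ Kil (m+1)`:
for `D` admissible of degree `j > m`, `DX D` kills `X * P i` (each `K c` by `lowX`), so `D φ` satisfies the hypotheses in
degree `n - j` (`kil_der`); `n - j > 0`: induction; `n - j < 0`: `IsDer.low`; `n = j`: either `j ≥ sz i` (hypothesis) or
`h = 0` by `homX_neg` and `φ = 0` by `sig_inj`.  No child: `sep`.  Otherwise `LL_of_AA` for a largest child `c`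
(`Finset.mul_prod_erase`).

`K_prime`: with the slice `s = C y` or `sig y` (so `K i = ± s`) for `DX D0` on `HomX`: write `a = a0 + s a1`,
`b = b0 + s b1`; `a0 * b0 = s * w` and `slice_unique` give `a0 * b0 = 0`.

`matching`: induction on the total size.  Take `i` of largest size in `s ∪ t`, say in `s` (symmetry); `K_prime` and induction
over the product give `j ∈ t` with `K j = K i * w`, `w ∈ HomX (sz j - sz i)`, so `w` is a nonzero constant `λ`
(the constant `C (algebraMap a')` alone is not a multiple: degree).  Types agree (compare coefficient `0` and use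
`P_ne`), `y j = λ • y i`, `P j = λ • P i`; induction gives equal keys of the children, so `P j = P i`, `λ = 1`.
Cancel `K i` and induct on `s.erase i`, `t.erase j`.
-/

set_option autoImplicit false

namespace Pool.Agent.Work.MP_be9894_co.AA

open Polynomial

namespace BS

variable {ι : Type} (B : BS ι)

lemma thma_DX_P {i : ι} {j : ℤ} {D : Dn} (hD : IsDer j D) (hj : ∀ c ∈ B.ch i, (B.sz c : ℤ) < j) :
    DX D (X * B.P i) = 0 := by
  have hP : DX D (B.P i) = 0 := by
    unfold BS.P
    refine Finset.prod_induction _ (fun p => DX D p = 0) ?_ ?_ ?_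
    · intro p q hp hq
      rw [Derivation.leibniz, hp, hq]
      simp
    · exact (DX D).map_one_eq_zero
    · intro c hc
      exact hD.lowX (hj c hc) (B.K_hom c)
  rw [Derivation.leibniz, hP, DX_X]
  simp

lemma thma_fin {i : ι} (ih : ∀ c ∈ B.ch i, B.SA c) {n : ℤ} {φ : QA} {h : QA[X]} (hn : 0 < n)
    (hφ : φ ∈ Hom n) (hK : φ ∈ Kil ((((B.ch i).sup B.sz : ℕ) : ℤ) + 1)) (hh : h ∈ HomX (n - B.sz i))
    (he : sig φ = C φ + X * B.P i * h) : φ = 0 := by
  classical
  rcases (B.ch i).eq_empty_or_nonempty with h0 | h0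
  · rw [h0] at hK
    exact sep hn hφ (by simpa using hK)
  · obtain ⟨c, hc, hm⟩ := Finset.exists_mem_eq_sup (B.ch i) h0 B.sz
    rw [hm] at hK
    have hP : B.K c * ∏ c' ∈ (B.ch i).erase c, B.K c' = B.P i := Finset.mul_prod_erase _ _ hc
    have hS : B.sz c + ∑ c' ∈ (B.ch i).erase c, B.sz c' = ∑ c' ∈ B.ch i, B.sz c' :=
      Finset.add_sum_erase _ _ hc
    have hQ : ∏ c' ∈ (B.ch i).erase c, B.K c' ∈ HomX (∑ c' ∈ (B.ch i).erase c, (B.sz c' : ℤ)) :=
      homX_prod _ _ _ fun c' _ => B.K_hom c'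
    have hz : (B.sz i : ℤ) = 1 + (B.sz c + ∑ c' ∈ (B.ch i).erase c, (B.sz c' : ℤ)) := by
      rw [B.hsz i, ← hS]
      push_cast
      ring
    refine B.LL_of_AA (ih c hc) n φ (X * (∏ c' ∈ (B.ch i).erase c, B.K c') * h) hn hφ hK ?_ ?_
    · have := homX_mul (homX_mul homX_X hQ) hh
      convert this using 2
      rw [hz]
      ring
    · rw [he, ← hP]
      ring

lemma thma_step {i : ι} (ih : ∀ c ∈ B.ch i, B.SA c) (N : ℕ) :
    ∀ (n : ℤ) (φ : QA) (h : QA[X]), n ≤ N → 0 < n → φ ∈ Hom n → φ ∈ Kil (B.sz i) →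
      h ∈ HomX (n - B.sz i) → sig φ = C φ + X * B.P i * h → φ = 0 := by
  induction N with
  | zero =>
    intro n φ h hN hn
    exfalso
    simp only [Nat.cast_zero] at hN
    omega
  | succ N IH =>
    intro n φ h hN hn hφ hK hh he
    refine B.thma_fin ih hn hφ ?_ hh he
    rw [mem_Kil]
    intro j D hj hD
    have hc : ∀ c ∈ B.ch i, (B.sz c : ℤ) < j := by
      intro c hc
      have : B.sz c ≤ (B.ch i).sup B.sz := Finset.le_sup hc
      omega
    have hj1 : 1 ≤ j := by omega
    rcases lt_trichotomy n j with hlt | heq | hgt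
    · exact hD.low hlt hφ
    · by_cases hs : (B.sz i : ℤ) ≤ j
      · exact mem_Kil.1 hK j D hs hD
      · have h0 : h = 0 := homX_neg (by omega) hh
        rw [h0, mul_zero, add_zero] at he
        rw [sig_inj hn hφ he, map_zero]
    · refine IH (n - j) (D φ) (DX D h) (by push_cast at hN; omega) (by omega) (hD.1 n φ hφ)
        (kil_der (by omega) hD hK) ?_ ?_
      · have := hD.DX_hom hh
        convert this using 2
        ring
      · rw [← hD.DX_sig, he, map_add, DX_C, Derivation.leibniz, B.thma_DX_P hD hc]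
        simp

theorem thmA (i : ι) : B.SA i := by
  refine B.ind _ (fun i ih => ?_) i
  intro n φ h hn
  exact B.thma_step ih n.toNat n φ h (Int.self_le_toNat n) hn

lemma thma_prime {m : ℤ} (hm : 1 ≤ m) {D : Dn} (hD : IsDer m D) {s : QA[X]} (hs : s ∈ HomX m)
    (h1 : DX D s = 1) {d e : ℤ} {a b u : QA[X]} (ha : a ∈ HomX d) (hb : b ∈ HomX e)
    (hu : u ∈ HomX (d + e - m)) (h : a * b = s * u) :
    (∃ w ∈ HomX (d - m), a = s * w) ∨ ∃ w ∈ HomX (e - m), b = s * w := by
  have hneg : ∀ d < (0 : ℤ), ∀ f ∈ HomX d, f = 0 := fun d hd f hf => homX_neg hd hf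
  have hE : ∀ d : ℤ, ∀ f ∈ HomX d, DX D f ∈ HomX (d - m) := fun d f hf => hD.DX_hom hf
  have hmul : ∀ d : ℤ, ∀ f ∈ HomX d, s * f ∈ HomX (d + m) := fun d f hf => by
    rw [add_comm]
    exact homX_mul hs hf
  obtain ⟨a0, a1, ha0, ha1, hDa, rfl⟩ := slice_exists (DX D) s m HomX hm h1 hneg hE hmul ha
  obtain ⟨b0, b1, hb0, hb1, hDb, rfl⟩ := slice_exists (DX D) s m HomX hm h1 hneg hE hmul hb
  have hw : u - a0 * b1 - a1 * b0 - s * (a1 * b1) ∈ HomX (d + e - m) := by
    refine sub_mem (sub_mem (sub_mem hu ?_) ?_) ?_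
    · have := homX_mul ha0 hb1
      convert this using 2
      ring
    · have := homX_mul ha1 hb0
      convert this using 2
      ring
    · have := homX_mul hs (homX_mul ha1 hb1)
      convert this using 2
      ring
  have he : s * (u - a0 * b1 - a1 * b0 - s * (a1 * b1)) = a0 * b0 := by
    linear_combination -h
  have hz := slice_unique (DX D) s m HomX hm h1 hneg hE hw (by
    rw [he, Derivation.leibniz, hDa, hDb]
    simp)
  rw [hz, mul_zero] at he
  rcases mul_eq_zero.1 he.symm with h0 | h0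
  · exact Or.inl ⟨a1, ha1, by rw [h0, zero_add]⟩
  · exact Or.inr ⟨b1, hb1, by rw [h0, zero_add]⟩

lemma K_prime (i : ι) {d e : ℤ} {a b u : QA[X]} (ha : a ∈ HomX d) (hb : b ∈ HomX e)
    (hu : u ∈ HomX (d + e - B.sz i)) (h : a * b = B.K i * u) :
    (∃ w ∈ HomX (d - B.sz i), a = B.K i * w) ∨ ∃ w ∈ HomX (e - B.sz i), b = B.K i * w := by
  obtain ⟨D, hD, h1⟩ := B.exists_slice (B.thmA i)
  have hm : (1 : ℤ) ≤ B.sz i := by exact_mod_cast B.sz_pos i
  cases ht : B.ty i with
  | true =>
    have hK : B.K i = C (B.y i) := by simp [BS.K, KK, ht]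
    rw [hK] at h ⊢
    exact thma_prime hm hD (homX_C (B.hy i)) (by rw [DX_C, h1, map_one]) ha hb hu h
  | false =>
    have hK : B.K i = -sig (B.y i) := by simp [BS.K, KK, ht]
    rw [hK] at h ⊢
    rcases thma_prime hm hD (sig_hom (B.hy i)) (by rw [hD.DX_sig, h1, map_one]) ha hb
      (neg_mem hu) (by rw [h]; ring) with ⟨w, hw, h2⟩ | ⟨w, hw, h2⟩
    · exact Or.inl ⟨-w, neg_mem hw, by rw [h2]; ring⟩
    · exact Or.inr ⟨-w, neg_mem hw, by rw [h2]; ring⟩

end BS

end Pool.Agent.Work.MP_be9894_co.AA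
end

-- merged part: Pool.Agent.Work.MP_be9894_co.AA.Match
section
/-!
The matching lemma (plan in the header of `ThmA.lean`).
-/

set_option autoImplicit false

namespace Pool.Agent.Work.MP_be9894_co.AA

open Polynomial

lemma match_Mf (c : ℚ) (l : List ℚ) : ∀ al : List ℕ, Mf al (l.map (c * ·)) = c ^ wt al * Mf al l := by
  induction l with
  | nil =>
    intro al
    cases al <;> simp [Mf, wt]
  | cons x l ih =>
    intro al
    cases al with
    | nil => simp [Mf, wt]
    | cons a al =>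
      have h : wt (a :: al) = a + 1 + wt al := by simp [wt]
      simp only [List.map_cons, Mf, ih, h]
      ring

lemma match_scale {d : ℤ} {f : QA} (hf : f ∈ Hom d) (l : List ℚ) :
    ev (l.map (2 * ·)) f = 2 ^ d * ev l f := by
  refine hom_span (fun f => ev (l.map (2 * ·)) f = 2 ^ d * ev l f) (by simp) (fun al h => ?_)
    (fun f g h h' => ?_) (fun c f h => ?_) hf
  · rw [ev_Mq, ev_Mq, match_Mf, ← h, zpow_natCast]
  · rw [map_add, map_add, h, h', mul_add]
  · rw [map_smul, map_smul, h, smul_eq_mul, smul_eq_mul, mul_left_comm]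

lemma match_deg {d e : ℤ} {f : QA} (hd : f ∈ Hom d) (he : f ∈ Hom e) (h : f ≠ 0) : d = e := by
  by_contra hne
  refine h (ev_inj fun l => by_contra fun h0 => hne ?_)
  exact zpow_right_injective₀ (a := (2 : ℚ)) two_pos (by norm_num)
    (mul_right_cancel₀ h0 ((match_scale hd l).symm.trans (match_scale he l)))

lemma match_degX {d e : ℤ} {p : QA[X]} (hd : p ∈ HomX d) (he : p ∈ HomX e) (h : p ≠ 0) : d = e := by
  have := match_deg (hd p.natDegree) (he p.natDegree) (leadingCoeff_ne_zero.2 h)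
  omega

lemma match_X {p : QA[X]} {f : QA} (h : X * p = C f) : p = 0 := by
  ext k
  simpa using congrArg (coeff · (k + 1)) h

namespace BS

variable {ι : Type} (B : BS ι)

lemma match_hom (s : Finset ι) (a : ℚ) : a • ∏ i ∈ s, B.K i ∈ HomX (∑ i ∈ s, (B.sz i : ℤ)) :=
  Submodule.smul_mem _ _ (homX_prod s _ _ fun i _ => B.K_hom i)

lemma match_ne (s : Finset ι) {a : ℚ} (ha : a ≠ 0) : a • ∏ i ∈ s, B.K i ≠ 0 :=
  smul_ne_zero ha (Finset.prod_ne_zero_iff.2 fun i _ => B.K_ne i)

lemma match_dvd (i : ι) (t : Finset ι) {a : ℚ} (ha : a ≠ 0) {u : QA[X]}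
    (hu : u ∈ HomX (∑ j ∈ t, (B.sz j : ℤ) - B.sz i)) (h : a • ∏ j ∈ t, B.K j = B.K i * u) :
    ∃ j ∈ t, ∃ w ∈ HomX ((B.sz j : ℤ) - B.sz i), B.K j = B.K i * w := by
  classical
  induction t using Finset.induction_on generalizing u with
  | empty =>
    have h1 := B.sz_pos i
    rw [homX_neg (by rw [Finset.sum_empty]; omega) hu, mul_zero] at h
    exact absurd h (B.match_ne _ ha)
  | insert j t hj ih =>
    rw [Finset.prod_insert hj, ← mul_smul_comm] at h
    rw [Finset.sum_insert hj] at hu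
    rcases B.K_prime i (B.K_hom j) (B.match_hom t a) hu h with h1 | ⟨w, h1, h2⟩
    · exact ⟨j, Finset.mem_insert_self _ _, h1⟩
    · obtain ⟨k, hk, h3⟩ := ih h1 h2
      exact ⟨k, Finset.mem_insert_of_mem hk, h3⟩

lemma match_step {s t : Finset ι} {a a' : ℚ} (ha : a ≠ 0)
    (h : a • ∏ i ∈ s, B.K i = a' • ∏ i ∈ t, B.K i) {i : ι} (hi : i ∈ s) :
    ∃ j ∈ t, B.sz i ≤ B.sz j ∧ ∃ w ∈ HomX ((B.sz j : ℤ) - B.sz i), B.K j = B.K i * w := by
  classical
  have h0 := B.match_ne s ha
  have ha' : a' ≠ 0 := fun e => h0 (by rw [h, e, zero_smul])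
  have h1 := match_degX (B.match_hom s a) (h ▸ B.match_hom t a') h0
  rw [← Finset.mul_prod_erase s _ hi, ← mul_smul_comm] at h
  rw [← Finset.add_sum_erase s _ hi] at h1
  obtain ⟨j, hj, w, hw, e⟩ := B.match_dvd i t ha' (by
    rw [← h1, add_sub_cancel_left]
    exact B.match_hom _ a) h.symm
  refine ⟨j, hj, not_lt.1 fun h2 => B.K_ne j ?_, w, hw, e⟩
  rw [e, homX_neg (by omega) hw, mul_zero]

lemma match_P {i j : ι} {c : ℚ} (h : B.y j = c • B.y i) : B.P j = c • B.P i := by
  have h1 := B.sig_y j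
  rw [h, map_smul, B.sig_y i, smul_add, smul_C, add_right_inj, ← mul_smul_comm] at h1
  exact (mul_left_cancel₀ X_ne_zero h1).symm

lemma match_ty {i j : ι} {c : ℚ} (h : B.K j = c • B.K i) :
    B.ty j = B.ty i ∧ B.y j = c • B.y i := by
  have hc : c ≠ 0 := fun e => B.K_ne j (by rw [h, e, zero_smul])
  have h0 := congrArg (coeff · 0) h
  unfold K KK at h h0
  cases hi : B.ty i <;> cases hj : B.ty j <;> simp only [hi, hj, if_true, Bool.false_eq_true,
    if_false, coeff_smul, coeff_neg, sig_coeff_zero, coeff_C_zero, smul_neg, neg_inj] at h h0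
  · exact ⟨rfl, h0⟩
  · refine absurd (match_X (p := c • B.P i) (f := -B.y j - c • B.y i) ?_)
      (smul_ne_zero hc (B.P_ne i))
    rw [map_sub, map_neg, h, B.sig_y, smul_add, smul_C, mul_smul_comm]
    ring
  · refine absurd (match_X (p := B.P j) (f := -(c • B.y i) - B.y j) ?_) (B.P_ne j)
    rw [map_sub, map_neg, ← smul_C, ← h, B.sig_y]
    ring
  · exact ⟨rfl, h0⟩

lemma match_prod {s t : Finset ι} (h : s.val.map B.key = t.val.map B.key) :
    ∏ i ∈ s, B.K i = ∏ i ∈ t, B.K i := by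
  have h1 := congrArg (fun m => (Multiset.map (fun z : Bool × QA => KK z.1 z.2) m).prod) h
  simp only [Multiset.map_map] at h1
  exact h1

theorem matching (s t : Finset ι) (a a' : ℚ) (ha : a ≠ 0)
    (h : a • ∏ i ∈ s, B.K i = a' • ∏ i ∈ t, B.K i) : s.val.map B.key = t.val.map B.key := by
  classical
  induction hn : ∑ i ∈ s, B.sz i using Nat.strong_induction_on generalizing s t a a' with
  | _ n ih =>
    have ha' : a' ≠ 0 := fun e => B.match_ne s ha (by rw [h, e, zero_smul])
    rcases s.eq_empty_or_nonempty with rfl | hs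
    · rcases t.eq_empty_or_nonempty with rfl | ⟨j, hj⟩
      · rfl
      · obtain ⟨i, hi, -⟩ := B.match_step ha' h.symm hj
        simp at hi
    obtain ⟨i, hi, hmax⟩ := s.exists_max_image B.sz hs
    obtain ⟨j, hj, h1, w, hw, e⟩ := B.match_step ha h hi
    obtain ⟨k, hk, h2, -⟩ := B.match_step ha' h.symm hj
    have h3 : B.sz j = B.sz i := le_antisymm (h2.trans (hmax k hk)) h1
    rw [h3, sub_self] at hw
    obtain ⟨c, rfl⟩ := homX_zero hw
    rw [mul_comm, ← Polynomial.algebraMap_apply, ← Algebra.smul_def] at e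
    obtain ⟨e1, e2⟩ := B.match_ty e
    have e3 := B.match_P e2
    have h4 := Finset.add_sum_erase s B.sz hi
    have h5 := B.hsz j
    have h6 := B.sz_pos i
    have e4 : B.P j = B.P i := B.match_prod
      (ih _ (by omega) (B.ch j) (B.ch i) 1 c one_ne_zero ((one_smul _ _).trans e3) rfl)
    have e5 : c = 1 := by
      rw [e4] at e3
      exact smul_left_injective ℚ (B.P_ne i) (e3.symm.trans (one_smul _ _).symm)
    rw [e5, one_smul] at e e2
    rw [← Finset.mul_prod_erase s _ hi, ← Finset.mul_prod_erase t _ hj, e, ← mul_smul_comm,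
      ← mul_smul_comm] at h
    have h7 := ih _ (by omega) _ _ a a' ha (mul_left_cancel₀ (B.K_ne i) h) rfl
    rw [← Multiset.cons_erase (show i ∈ s.val from hi), ← Multiset.cons_erase (show j ∈ t.val from hj),
      Multiset.map_cons, Multiset.map_cons, ← Finset.erase_val, ← Finset.erase_val, h7, key, key,
      e1, e2]

/-- apply `C` (type `true`) or `sig` (type `false`) -/
theorem matching_yh (τ : Bool) (s t : Finset ι) (hs : ∀ i ∈ s, B.ty i = τ) (ht : ∀ i ∈ t, B.ty i = τ)
    (a a' : ℚ) (ha : a ≠ 0) (h : a • ∏ i ∈ s, B.yh i = a' • ∏ i ∈ t, B.yh i) :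
    s.val.map B.key = t.val.map B.key := by
  obtain ⟨φ, hφ⟩ : ∃ φ : QA →ₐ[ℚ] QA[X], ∀ i, B.ty i = τ → φ (B.yh i) = B.K i := by
    cases τ
    · exact ⟨sig, fun i hi => by simp [yh, K, KK, sg, hi]⟩
    · exact ⟨CAlgHom, fun i hi => by simp [yh, K, KK, sg, hi]⟩
  have h1 := congrArg φ h
  rw [map_smul, map_smul, map_prod, map_prod, Finset.prod_congr rfl fun i hi => hφ i (hs i hi),
    Finset.prod_congr rfl fun i hi => hφ i (ht i hi)] at h1
  exact B.matching s t a a' ha h1

theorem ch_of_y {i j : ι} (h : B.y i = B.y j) :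
    (B.ch i).val.map B.key = (B.ch j).val.map B.key :=
  B.matching _ _ 1 1 one_ne_zero
    ((one_smul _ _).trans (B.match_P (h.trans (one_smul _ _).symm)))

/-- a nonzero element lies in one homogeneous component only: use a slice (`exists_slice`, `thmA`) -/
theorem sz_of_y {i j : ι} (h : B.y i = B.y j) : B.sz i = B.sz j := by
  exact_mod_cast match_deg (B.hy i) (h ▸ B.hy j) (B.y_ne i)

lemma P_of_y {i j : ι} (h : B.y i = B.y j) : B.P i = B.P j :=
  B.match_prod (B.ch_of_y h)

end BS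

end Pool.Agent.Work.MP_be9894_co.AA
end
end

-- merged part: Pool.Agent.Work.MP_be9894_co.AA.Transfer
section
-- merged part: Pool.Agent.Work.MP_be9894_co.AA.HullDef
section
/-!
Greedy closures in a digraph `r` (an arc `a → b` is `r a b`).  Stage `0` from `v` takes the descendants
(if `b = false`), stage `1` the ancestors of these, and so on.
-/

set_option autoImplicit false

namespace Pool.Agent.Work.MP_be9894_co.AA

open Finset

variable {V : Type}

/-- one move of type `τ`: along an arc (`false`) or against an arc (`true`) -/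
def step (r : V → V → Prop) (τ : Bool) (x y : V) : Prop := if τ then r y x else r x y

/-- type of stage `j` when stage `0` has type `b` -/
def tp (b : Bool) : ℕ → Bool
  | 0 => b
  | j + 1 => !tp b j

/-- `u` is reached from `v` by stage `j` -/
def inH (r : V → V → Prop) (b : Bool) (v : V) : ℕ → V → Prop
  | 0, u => Relation.ReflTransGen (step r b) v u
  | j + 1, u => ∃ s, inH r b v j s ∧ Relation.ReflTransGen (step r (tp b (j + 1))) s u

variable [Fintype V]

open Classical in
noncomputable def hull (r : V → V → Prop) (v : V) (j : ℕ) : Finset V := univ.filter (inH r false v j)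

lemma mem_hull {r : V → V → Prop} {v u : V} {j : ℕ} : u ∈ hull r v j ↔ inH r false v j u := by
  simp [hull]

open Classical in
/-- the lexicographically best starting points -/
noncomputable def top (r : V → V → Prop) : ℕ → Finset V
  | 0 => univ.filter fun v => ∀ w, (hull r w 0).card ≤ (hull r v 0).card
  | j + 1 => (top r j).filter fun v => ∀ w ∈ top r j, (hull r w (j + 1)).card ≤ (hull r v (j + 1)).card

lemma mem_top_zero {r : V → V → Prop} {v : V} :
    v ∈ top r 0 ↔ ∀ w, (hull r w 0).card ≤ (hull r v 0).card := by simp [top]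

lemma mem_top_succ {r : V → V → Prop} {v : V} {j : ℕ} : v ∈ top r (j + 1) ↔
    v ∈ top r j ∧ ∀ w ∈ top r j, (hull r w (j + 1)).card ≤ (hull r v (j + 1)).card := by
  simp only [top, mem_filter]

open Classical in
/-- component of `u` after deleting `H` -/
noncomputable def comp (r : V → V → Prop) (H : Finset V) (u : V) : Finset V :=
  univ.filter (Relation.ReflTransGen (fun a b => (r a b ∨ r b a) ∧ a ∉ H ∧ b ∉ H) u)

lemma mem_comp {r : V → V → Prop} {H : Finset V} {u w : V} : w ∈ comp r H u ↔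
    Relation.ReflTransGen (fun a b => (r a b ∨ r b a) ∧ a ∉ H ∧ b ∉ H) u w := by simp [comp]

/-- all best starting points have the same hull -/
def Uniq (r : V → V → Prop) (k : ℕ) : Prop := ∀ v ∈ top r k, ∀ w ∈ top r k, hull r v k = hull r w k

/-- a best hull leaves a component with more than half of the vertices -/
def Big (r : V → V → Prop) (k : ℕ) : Prop :=
  ∃ v ∈ top r k, ∃ u, u ∉ hull r v k ∧ Fintype.card V < 2 * (comp r (hull r v k) u).card

def UU (r : V → V → Prop) (k : ℕ) : Prop := Uniq r k ∧ Big r k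

/-- vertices first reached from `v` at stage `i` and not reached from `w` by stage `i` -/
def Zs (r : V → V → Prop) (v w : V) (i : ℕ) (u : V) : Prop :=
  inH r false v i u ∧ (∀ i' < i, ¬ inH r false v i' u) ∧ ¬ inH r false w i u

end Pool.Agent.Work.MP_be9894_co.AA
end

-- merged part: Pool.Agent.Work.MP_be9894_co.AA.Hull
section
/-!
Elementary facts on the closures (any relation).  All proofs are inductions on the stage and on
`Relation.ReflTransGen`.
-/

set_option autoImplicit false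

namespace Pool.Agent.Work.MP_be9894_co.AA

open Finset

variable {V : Type} {r : V → V → Prop}

lemma tp_add (b : Bool) (i j : ℕ) : tp b (i + j) = tp (tp b i) j := by
  induction j with
  | zero => rfl
  | succ j ih => exact congrArg (!·) ih

lemma tp_not (b : Bool) (j : ℕ) : tp (!b) j = !tp b j := by
  induction j with
  | zero => rfl
  | succ j ih => exact congrArg (!·) ih

lemma step_not (τ : Bool) (x y : V) : step r (!τ) x y ↔ step r τ y x := by
  cases τ <;> exact Iff.rfl

lemma inH_self (b : Bool) (v : V) (j : ℕ) : inH r b v j v := by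
  induction j with
  | zero => exact Relation.ReflTransGen.refl
  | succ j ih => exact ⟨v, ih, Relation.ReflTransGen.refl⟩

lemma inH_mono {b : Bool} {v u : V} {i j : ℕ} (hij : i ≤ j) (h : inH r b v i u) : inH r b v j u := by
  induction hij with
  | refl => exact h
  | step _ ih => exact ⟨u, ih, Relation.ReflTransGen.refl⟩

lemma inH_step {b : Bool} {v x y : V} {j : ℕ} (h : inH r b v j x) (hs : step r (tp b j) x y) :
    inH r b v j y := by
  cases j with
  | zero => exact Relation.ReflTransGen.tail h hs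
  | succ j =>
    obtain ⟨s, h1, h2⟩ := h
    exact ⟨s, h1, h2.tail hs⟩

lemma inH_adj {b : Bool} {v x y : V} {j : ℕ} (h : inH r b v j x) (hs : r x y ∨ r y x) :
    inH r b v (j + 1) y := by
  have : step r (tp b j) x y ∨ step r (!tp b j) x y := by
    cases tp b j
    · exact hs
    · exact hs.symm
  rcases this with h1 | h1
  · exact inH_mono j.le_succ (inH_step h h1)
  · exact ⟨x, h, Relation.ReflTransGen.single h1⟩

lemma hull_ind {b : Bool} {v : V} (P : ℕ → V → Prop) (h0 : P 0 v)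
    (hm : ∀ j x, P j x → P (j + 1) x)
    (hs : ∀ j x y, inH r b v j x → P j x → step r (tp b j) x y → P j y) :
    ∀ j u, inH r b v j u → P j u := by
  have key : ∀ j s u, inH r b v j s → P j s → Relation.ReflTransGen (step r (tp b j)) s u →
      inH r b v j u ∧ P j u := by
    intro j s u h1 h2 h3
    induction h3 with
    | refl => exact ⟨h1, h2⟩
    | tail _ h4 ih => exact ⟨inH_step ih.1 h4, hs _ _ _ ih.1 ih.2 h4⟩
  intro j
  induction j with
  | zero => exact fun u h => (key 0 v u (inH_self b v 0) h0 h).2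
  | succ j ih =>
    rintro u ⟨s, h1, h2⟩
    exact (key (j + 1) s u (inH_mono j.le_succ h1) (hm j s (ih s h1)) h2).2

lemma hull_or {τ : Bool} {x y : V} (h : step r τ x y) : r x y ∨ r y x := by
  cases τ
  · exact Or.inl h
  · exact Or.inr h

lemma hull_trans {b : Bool} {u x z : V} {i j : ℕ} (h1 : inH r b u i x)
    (h2 : inH r (tp b i) x j z) : inH r b u (i + j) z :=
  hull_ind (fun j z => inH r b u (i + j) z) h1 (fun j _ h => inH_mono (i + j).le_succ h)
    (fun j _ _ _ h hs => inH_step h (by rwa [tp_add])) j z h2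

lemma hull_swap {τ : Bool} {x y : V} (h : Relation.ReflTransGen (step r τ) x y) :
    Relation.ReflTransGen (step r (!τ)) y x := by
  induction h with
  | refl => exact Relation.ReflTransGen.refl
  | tail _ h2 ih => exact ih.head ((step_not τ _ _).2 h2)

lemma inH_trans {b : Bool} {u x z : V} {i j : ℕ} (h1 : inH r b u i x)
    (h2 : inH r (tp b (i + 1)) x j z) : inH r b u (i + 1 + j) z := by
  exact hull_trans (inH_mono i.le_succ h1) h2

/-- triangle inequality -/
lemma inH_tri {u x z : V} {i j : ℕ} (h1 : inH r false u i x) (h2 : inH r false x j z) :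
    inH r false u (i + 1 + j) z := by
  cases e : tp false i
  · exact inH_mono (by omega) (hull_trans h1 (e.symm ▸ h2))
  · have e' : tp false (i + 1) = false := congrArg (!·) e
    exact inH_trans h1 (e'.symm ▸ h2)

lemma inH_rev' {b : Bool} {w u : V} {j : ℕ} (h : inH r b w j u) : inH r (!tp b j) u j w := by
  induction j generalizing u with
  | zero => exact hull_swap h
  | succ j ih =>
    obtain ⟨s, h1, h2⟩ := h
    have h3 : inH r (!tp b (j + 1)) u 0 s := hull_swap h2
    have h4 := inH_trans h3 (j := j) (z := w) (by simpa [tp] using ih h1)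
    rwa [zero_add, add_comm 1 j] at h4

lemma inH_rev {w u : V} {j : ℕ} (h : inH r false w j u) : inH r false u (j + 1) w := by
  have h1 := inH_rev' h
  cases e : tp false j
  · rw [e] at h1
    have h2 := inH_trans (inH_self false u 0) h1
    rwa [zero_add, add_comm] at h2
  · rw [e] at h1
    exact inH_mono j.le_succ h1

lemma inH_rel {r' : V → V → Prop} (hr : ∀ a b, r a b → r' a b) {b : Bool} {v u : V} {j : ℕ}
    (h : inH r b v j u) : inH r' b v j u := by
  refine hull_ind (fun j u => inH r' b v j u) (inH_self b v 0) (fun j _ h => inH_mono j.le_succ h)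
    (fun j x y _ h hs => inH_step h ?_) j u h
  revert hs
  cases tp b j <;> exact hr _ _

/-- arcs at a vertex that is not reached are not used -/
lemma inH_unused {r' : V → V → Prop} {y : V} (hr : ∀ a b, r' a b → r a b ∨ a = y ∨ b = y)
    {b : Bool} {v u : V} {j : ℕ} (hy : ¬ inH r' b v j y) (h : inH r' b v j u) : inH r b v j u := by
  refine hull_ind (fun j u => ¬ inH r' b v j y → inH r b v j u) (fun _ => inH_self b v 0)
    (fun j _ h h1 => inH_mono j.le_succ (h fun h2 => h1 (inH_mono j.le_succ h2)))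
    (fun j x z h0 h hs h1 => inH_step (h h1) ?_) j u h hy
  have hx : x ≠ y := fun e => h1 (e ▸ h0)
  have hz : z ≠ y := fun e => h1 (e ▸ inH_step h0 hs)
  revert hs
  cases tp b j
  · exact fun hs => (hr _ _ hs).resolve_right (not_or.2 ⟨hx, hz⟩)
  · exact fun hs => (hr _ _ hs).resolve_right (not_or.2 ⟨hz, hx⟩)

/-- a set left only through the edge `s t` -/
lemma inH_cut (S : Set V) {s t : V}
    (hS : ∀ a b, a ∈ S → b ∉ S → (r a b ∨ r b a) → a = s ∧ b = t) {b : Bool} {v u : V} {j : ℕ}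
    (hv : v ∈ S) (hu : u ∉ S) (h : inH r b v j u) :
    ∃ j' ≤ j, inH r b v j' s ∧ step r (tp b j') s t := by
  refine hull_ind (fun j u => u ∉ S → ∃ j' ≤ j, inH r b v j' s ∧ step r (tp b j') s t)
    (fun h => absurd hv h) (fun j _ h h1 => (h h1).imp fun j' h2 => ⟨h2.1.trans j.le_succ, h2.2⟩)
    (fun j x y h0 h hs hy => ?_) j u h hu
  by_cases hx : x ∈ S
  · obtain ⟨rfl, rfl⟩ := hS x y hx hy (hull_or hs)
    exact ⟨j, le_rfl, h0, hs⟩
  · exact h hx

/-- a set closed under adjacency -/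
lemma inH_closed (S : Set V) (hS : ∀ a b, a ∈ S → (r a b ∨ r b a) → b ∈ S) {b : Bool} {v u : V} {j : ℕ}
    (hv : v ∈ S) (h : inH r b v j u) : u ∈ S := by
  exact hull_ind (fun _ u => u ∈ S) hv (fun _ _ h => h)
    (fun _ x y _ h hs => hS x y h (hull_or hs)) j u h

section leaf

variable {r' : V → V → Prop} {l u : V} {τ : Bool}

/-- `r'` is `r` plus a pendant vertex `l` attached to `u`, reached from `u` by a move of type `τ` -/
structure Pend (r r' : V → V → Prop) (l u : V) (τ : Bool) : Prop where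
  ne : u ≠ l
  iso : ∀ a, ¬ r a l ∧ ¬ r l a
  iff : ∀ a b, r' a b ↔ r a b ∨ (τ = true ∧ a = l ∧ b = u) ∨ (τ = false ∧ a = u ∧ b = l)

lemma Pend.hull_step (h : Pend r r' l u τ) {c : Bool} {x y : V} : step r' c x y ↔
    step r c x y ∨ (c = τ ∧ x = u ∧ y = l) ∨ (c = (!τ) ∧ x = l ∧ y = u) := by
  cases c <;> cases τ <;> simp [step, h.iff, and_comm]

lemma Pend.hull_ne (h : Pend r r' l u τ) {c : Bool} {x y : V} (hs : step r c x y) :
    x ≠ l ∧ y ≠ l := by
  constructor <;> rintro rfl <;> rcases hull_or hs with h1 | h1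
  exacts [(h.iso _).2 h1, (h.iso _).1 h1, (h.iso _).1 h1, (h.iso _).2 h1]

lemma Pend.hull_key (h : Pend r r' l u τ) {b : Bool} {v x : V} {j : ℕ} (hv : v ≠ l)
    (hx : inH r' b v j x) : (x ≠ l → inH r b v j x) ∧
      (x = l → ∃ j' ≤ j, tp b j' = τ ∧ inH r b v j' u) := by
  refine hull_ind (fun j x => (x ≠ l → inH r b v j x) ∧
    (x = l → ∃ j' ≤ j, tp b j' = τ ∧ inH r b v j' u))
    ⟨fun _ => inH_self b v 0, fun e => absurd e hv⟩ (fun j x h1 => ⟨fun e => inH_mono j.le_succ (h1.1 e),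
      fun e => (h1.2 e).imp fun j' h2 => ⟨h2.1.trans j.le_succ, h2.2⟩⟩) (fun j x y _ h1 hs => ?_) j x hx
  rcases h.hull_step.1 hs with h2 | ⟨h2, rfl, rfl⟩ | ⟨-, rfl, rfl⟩
  · exact ⟨fun _ => inH_step (h1.1 (h.hull_ne h2).1) h2, fun e => absurd e (h.hull_ne h2).2⟩
  · exact ⟨fun e => absurd rfl e, fun _ => ⟨j, le_rfl, h2, h1.1 h.ne⟩⟩
  · obtain ⟨j', h2, -, h3⟩ := h1.2 rfl
    exact ⟨fun _ => inH_mono h2 h3, fun e => absurd e h.ne⟩

lemma Pend.other (h : Pend r r' l u τ) {b : Bool} {v x : V} {j : ℕ} (hv : v ≠ l) (hx : x ≠ l) :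
    inH r' b v j x ↔ inH r b v j x := by
  exact ⟨fun h1 => (h.hull_key hv h1).1 hx, inH_rel fun a b h1 => (h.iff a b).2 (Or.inl h1)⟩

lemma Pend.leaf (h : Pend r r' l u τ) {b : Bool} {v : V} {j : ℕ} (hv : v ≠ l) :
    inH r' b v j l ↔ ∃ j' ≤ j, tp b j' = τ ∧ inH r b v j' u := by
  refine ⟨fun h1 => (h.hull_key hv h1).2 rfl, fun ⟨j', h1, h2, h3⟩ => inH_mono h1 (inH_step
    (inH_rel (fun a b h1 => (h.iff a b).2 (Or.inl h1)) h3) ?_)⟩
  exact h.hull_step.2 (Or.inr (Or.inl ⟨h2, rfl, rfl⟩))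

lemma Pend.not_leaf (h : Pend r r' l u τ) {b : Bool} {v : V} {j : ℕ} (hv : v ≠ l) : ¬ inH r b v j l := by
  intro h1
  refine inH_closed {x | x ≠ l} (fun a c _ h2 e => ?_) hv h1 rfl
  subst e
  exact h2.elim (h.iso a).1 (h.iso a).2

lemma Pend.start (h : Pend r r' l u τ) {x : V} :
    inH r' false l 0 x ↔ x = l ∨ (τ = true ∧ inH r false u 0 x) := by
  constructor
  · intro h1
    induction h1 with
    | refl => exact Or.inl rfl
    | tail _ h2 ih =>
      rcases h.hull_step.1 h2 with h3 | ⟨-, -, h3⟩ | ⟨h3, -, rfl⟩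
      · have h4 := ih.resolve_left (h.hull_ne h3).1
        exact Or.inr ⟨h4.1, inH_step h4.2 h3⟩
      · exact Or.inl h3
      · exact Or.inr ⟨by simpa using h3, inH_self false _ 0⟩
  · rintro (rfl | ⟨rfl, h1⟩)
    · exact inH_self false x 0
    · exact Relation.ReflTransGen.head (h.hull_step.2 (Or.inr (Or.inr ⟨rfl, rfl, rfl⟩)))
        (inH_rel (j := 0) (fun a b h1 => (h.iff a b).2 (Or.inl h1)) h1)

end leaf

end Pool.Agent.Work.MP_be9894_co.AA
end

-- merged part: Pool.Agent.Work.MP_be9894_co.AA.Par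
section
/-!
The sample space: a parent map with one root, and one bit per vertex that orients the edge to the parent.
`mv ω y x b` re-attaches `y` below `x` with the bit `b`.

Plan.  `par_not_mem_sub`: if `p^[k] (p y) = y` then `y` is periodic, so the root is `p^[j] y` and `y` is an iterate of the
root.  `sub_update`: compare the first time the orbit of `u` meets `y` (induction on `k`).  `update_RT`: same root; the
orbit of `x` avoids `y`, so it is unchanged; an orbit either avoids `y` or meets it a first time.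
-/

set_option autoImplicit false

namespace Pool.Agent.Work.MP_be9894_co.AA

open Finset

abbrev Om (V : Type) : Type := (V → V) × (V → Bool)

variable {V : Type}

/-- parent map of a rooted tree -/
def IsRT (p : V → V) : Prop := ∃ ρ, p ρ = ρ ∧ ∀ u, ∃ k, p^[k] u = ρ

/-- the oriented tree -/
def rel (ω : Om V) (a b : V) : Prop :=
  (ω.1 a = b ∧ a ≠ b ∧ ω.2 a = true) ∨ (ω.1 b = a ∧ a ≠ b ∧ ω.2 b = false)

/-- the oriented tree without the edge from `y` to its parent -/
def relX (ω : Om V) (y a b : V) : Prop :=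
  (a ≠ y ∧ ω.1 a = b ∧ a ≠ b ∧ ω.2 a = true) ∨ (b ≠ y ∧ ω.1 b = a ∧ a ≠ b ∧ ω.2 b = false)

lemma rel_adj {ω : Om V} {a b : V} :
    (rel ω a b ∨ rel ω b a) ↔ a ≠ b ∧ (ω.1 a = b ∨ ω.1 b = a) := by
  unfold rel
  grind

lemma relX_le {ω : Om V} {y a b : V} (h : relX ω y a b) : rel ω a b :=
  h.imp And.right And.right

lemma rel_cases {ω : Om V} (y : V) {a b : V} (h : rel ω a b) : relX ω y a b ∨ a = y ∨ b = y := by
  unfold rel relX at *
  grind

lemma IsRT.fix_eq {p : V → V} (h : IsRT p) {a b : V} (ha : p a = a) (hb : p b = b) : a = b := by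
  obtain ⟨ρ, -, h⟩ := h
  obtain ⟨k, hk⟩ := h a
  obtain ⟨j, hj⟩ := h b
  rw [Function.iterate_fixed ha] at hk
  rw [Function.iterate_fixed hb] at hj
  rw [hk, hj]

lemma IsRT.two {p : V → V} (h : IsRT p) {a b : V} (ha : p a = b) (hb : p b = a) : a = b := by
  obtain ⟨ρ, hρ, h⟩ := h
  obtain ⟨k, hk⟩ := h a
  have key : ∀ k, p^[k] a = a ∨ p^[k] a = b := fun k => by
    induction k with
    | zero => exact Or.inl rfl
    | succ k ih =>
      rw [Function.iterate_succ_apply']
      rcases ih with e | e <;> rw [e]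
      exacts [Or.inr ha, Or.inl hb]
  have := key k
  grind

lemma rel_asym {ω : Om V} (h : IsRT ω.1) (a b : V) (hab : rel ω a b) : ¬ rel ω b a := by
  intro hba
  have := @h.two _ _ a b
  unfold rel at *
  grind

lemma rel_conn {ω : Om V} (h : IsRT ω.1) (S : Set V) (hS : S.Nonempty)
    (hc : ∀ a b, a ∈ S → (rel ω a b ∨ rel ω b a) → b ∈ S) (x : V) : x ∈ S := by
  obtain ⟨ρ, -, h⟩ := h
  have h1 : ∀ u, ω.1 u ∈ S ↔ u ∈ S := fun u => by
    by_cases e : ω.1 u = u
    · rw [e]
    · exact ⟨fun hu => hc _ _ hu (rel_adj.2 ⟨e, Or.inr rfl⟩),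
        fun hu => hc _ _ hu (rel_adj.2 ⟨Ne.symm e, Or.inl rfl⟩)⟩
  have h2 : ∀ k u, ω.1^[k] u ∈ S ↔ u ∈ S := fun k u => by
    induction k with
    | zero => rfl
    | succ k ih => rw [Function.iterate_succ_apply', h1, ih]
  obtain ⟨s, hs⟩ := hS
  obtain ⟨k, hk⟩ := h s
  obtain ⟨j, hj⟩ := h x
  rwa [← h2 j, hj, ← hk, h2]

section fin

variable [Fintype V]

open Classical in
/-- `y` and everything below it -/
noncomputable def sub (p : V → V) (y : V) : Finset V := univ.filter fun u => ∃ k, p^[k] u = y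

lemma mem_sub {p : V → V} {y u : V} : u ∈ sub p y ↔ ∃ k, p^[k] u = y := by simp [sub]

open Classical in
noncomputable def kids (p : V → V) (v : V) : Finset V := univ.filter fun u => p u = v ∧ u ≠ v

lemma mem_kids {p : V → V} {v u : V} : u ∈ kids p v ↔ p u = v ∧ u ≠ v := by simp [kids]

open Classical in
noncomputable def leaves (p : V → V) : Finset V := univ.filter fun u => ∀ t, p t ≠ u

lemma mem_leaves {p : V → V} {u : V} : u ∈ leaves p ↔ ∀ t, p t ≠ u := by simp [leaves]

open Classical in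
/-- vertices whose descendant count is within `i` of the maximum -/
noncomputable def near (r : V → V → Prop) (i : ℕ) : Finset V :=
  univ.filter fun v => ∀ w, (hull r w 0).card ≤ (hull r v 0).card + i

lemma mem_near {r : V → V → Prop} {i : ℕ} {v : V} :
    v ∈ near r i ↔ ∀ w, (hull r w 0).card ≤ (hull r v 0).card + i := by simp [near]

lemma self_mem_sub (p : V → V) (y : V) : y ∈ sub p y := mem_sub.2 ⟨0, rfl⟩

lemma sub_up {p : V → V} {y u : V} (h : u ∈ sub p y) (hu : u ≠ y) : p u ∈ sub p y := by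
  obtain ⟨_ | k, hk⟩ := mem_sub.1 h
  · exact absurd hk hu
  · exact mem_sub.2 ⟨k, hk⟩

lemma sub_down {p : V → V} {y u : V} (h : p u ∈ sub p y) : u ∈ sub p y :=
  let ⟨k, hk⟩ := mem_sub.1 h; mem_sub.2 ⟨k + 1, hk⟩

lemma par_not_mem_sub {p : V → V} (h : IsRT p) {y : V} (hy : p y ≠ y) : p y ∉ sub p y := by
  intro h1
  obtain ⟨k, hk⟩ := mem_sub.1 h1
  obtain ⟨ρ, hρ, h⟩ := h
  obtain ⟨j, hj⟩ := h y
  have h2 : (p^[k + 1])^[j] y = y := Function.iterate_fixed hk j
  rw [← Function.iterate_mul, add_mul, one_mul, Function.iterate_add_apply, hj,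
    Function.iterate_fixed hρ] at h2
  exact hy (h2 ▸ hρ)

lemma sub_leaf {p : V → V} {l : V} (hl : l ∈ leaves p) : sub p l = {l} := by
  refine eq_singleton_iff_unique_mem.2 ⟨self_mem_sub p l, fun u hu => ?_⟩
  obtain ⟨_ | k, hk⟩ := mem_sub.1 hu
  · exact hk
  · rw [Function.iterate_succ_apply'] at hk
    exact absurd hk (mem_leaves.1 hl _)

/-- the only edge leaving `sub y` -/
lemma sub_cut {ω : Om V} {y a b : V} (ha : a ∈ sub ω.1 y) (hb : b ∉ sub ω.1 y)
    (h : rel ω a b ∨ rel ω b a) : a = y ∧ b = ω.1 y := by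
  rcases (rel_adj.1 h).2 with e | e
  · have h1 : a = y := by_contra fun h1 => hb (e ▸ sub_up ha h1)
    exact ⟨h1, by rw [← e, h1]⟩
  · exact absurd (sub_down (e.symm ▸ ha)) hb

lemma pend_leaf {ω : Om V} {l : V} (hl : l ∈ leaves ω.1) :
    Pend (relX ω l) (rel ω) l (ω.1 l) (ω.2 l) := by
  have h := mem_leaves.1 hl
  refine ⟨h l, fun a => ?_, fun a b => ?_⟩
  · have := h a
    unfold relX
    grind
  · have := h l
    unfold rel relX
    grind

variable [DecidableEq V]

open Classical in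
noncomputable def OmF (V : Type) [Fintype V] [DecidableEq V] : Finset (Om V) := univ.filter fun ω => IsRT ω.1

lemma mem_OmF {ω : Om V} : ω ∈ OmF V ↔ IsRT ω.1 := by simp [OmF]

open Classical in
/-- an event -/
noncomputable def evt (Q : Om V → Prop) : Finset (Om V) := (OmF V).filter Q

lemma mem_evt {Q : Om V → Prop} {ω : Om V} : ω ∈ evt Q ↔ IsRT ω.1 ∧ Q ω := by simp [evt, mem_OmF]

lemma evt_subset (Q : Om V → Prop) : evt Q ⊆ OmF V := fun _ h => mem_OmF.2 (mem_evt.1 h).1

lemma OmF_nonempty [Nonempty V] : (OmF V).Nonempty :=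
  let ⟨ρ⟩ := ‹Nonempty V›
  ⟨(fun _ => ρ, fun _ => true), mem_OmF.2 ⟨ρ, rfl, fun _ => ⟨1, rfl⟩⟩⟩

omit [DecidableEq V] in
lemma par_sub {p p' : V → V} {y : V} (h : ∀ u, u ≠ y → p' u = p u) : sub p y ⊆ sub p' y := by
  intro u hu
  obtain ⟨k, hk⟩ := mem_sub.1 hu
  clear hu
  induction k generalizing u with
  | zero => exact mem_sub.2 ⟨0, hk⟩
  | succ k ih =>
    by_cases e : u = y
    · exact mem_sub.2 ⟨0, e⟩
    · exact sub_down (h u e ▸ ih hk)

lemma sub_update (p : V → V) (y x : V) : sub (Function.update p y x) y = sub p y :=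
  Subset.antisymm (par_sub fun _ hu => (Function.update_of_ne hu x p).symm)
    (par_sub fun _ hu => Function.update_of_ne hu x p)

lemma update_RT {p : V → V} (h : IsRT p) {y x : V} (hy : p y ≠ y) (hx : x ∉ sub p y) :
    IsRT (Function.update p y x) := by
  obtain ⟨ρ, hρ, h⟩ := h
  have h1 : ∀ k u, u ∉ sub p y → (Function.update p y x)^[k] u = p^[k] u := fun k => by
    induction k with
    | zero => exact fun _ _ => rfl
    | succ k ih =>
      intro u hu
      rw [Function.iterate_succ_apply, Function.iterate_succ_apply,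
        Function.update_of_ne fun e : u = y => hu (mem_sub.2 ⟨0, e⟩), ih _ fun e => hu (sub_down e)]
  refine ⟨ρ, by rw [Function.update_of_ne fun e : ρ = y => hy (e ▸ hρ), hρ], fun u => ?_⟩
  by_cases hu : u ∈ sub p y
  · rw [← sub_update p y x] at hu
    obtain ⟨j, hj⟩ := mem_sub.1 hu
    obtain ⟨k, hk⟩ := h x
    refine ⟨k + 1 + j, ?_⟩
    rw [Function.iterate_add_apply, hj, Function.iterate_succ_apply, Function.update_self, h1 k x hx,
      hk]
  · obtain ⟨k, hk⟩ := h u
    exact ⟨k, by rw [h1 k u hu, hk]⟩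

lemma leaf_update {p : V → V} {l x : V} (hl : l ∈ leaves p) (hx : x ≠ l) :
    l ∈ leaves (Function.update p l x) := by
  refine mem_leaves.2 fun t => ?_
  by_cases e : t = l
  · rwa [e, Function.update_self]
  · rw [Function.update_of_ne e]
    exact mem_leaves.1 hl t

lemma leaves_update (p : V → V) (y x : V) :
    (leaves p).card ≤ (leaves (Function.update p y x)).card + 1 := by
  refine (card_le_card (t := insert x (leaves (Function.update p y x))) fun u hu => ?_).trans
    (card_insert_le _ _)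
  by_cases e : u = x
  · exact mem_insert.2 (Or.inl e)
  refine mem_insert_of_mem (mem_leaves.2 fun t => ?_)
  by_cases e' : t = y
  · rw [e', Function.update_self]
    exact Ne.symm e
  · rw [Function.update_of_ne e']
    exact mem_leaves.1 hu t

lemma leaves_update' (p : V → V) (y x : V) :
    (leaves (Function.update p y x)).card ≤ (leaves p).card + 1 := by
  simpa using leaves_update (Function.update p y x) y (p y)

end fin

section move

variable [DecidableEq V]

def mv (ω : Om V) (y x : V) (b : Bool) : Om V := (Function.update ω.1 y x, Function.update ω.2 y b)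

lemma mv_fst (ω : Om V) (y x : V) (b : Bool) : (mv ω y x b).1 = Function.update ω.1 y x := rfl

lemma mv_par (ω : Om V) (y x : V) (b : Bool) : (mv ω y x b).1 y = x := by simp [mv]

lemma mv_bit (ω : Om V) (y x : V) (b : Bool) : (mv ω y x b).2 y = b := by simp [mv]

lemma mv_mv (ω : Om V) (y x : V) (b : Bool) : mv (mv ω y x b) y (ω.1 y) (ω.2 y) = ω := by simp [mv]

lemma relX_mv (ω : Om V) (y x : V) (b : Bool) : relX (mv ω y x b) y = relX ω y := by
  funext a c
  unfold relX mv
  grind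

/-- moving a leaf -/
lemma pend_mv [Fintype V] {ω : Om V} {l x : V} (hl : l ∈ leaves ω.1) (hx : x ≠ l) (b : Bool) :
    Pend (relX ω l) (rel (mv ω l x b)) l x b := by
  have := pend_leaf (ω := mv ω l x b) (leaf_update hl hx)
  rwa [relX_mv, mv_par, mv_bit] at this

lemma leaf_mv_RT [Fintype V] {ω : Om V} (h : IsRT ω.1) {l x : V} (hl : l ∈ leaves ω.1) (hx : x ≠ l) (b : Bool) :
    IsRT (mv ω l x b).1 :=
  update_RT h (mem_leaves.1 hl l) (by rw [sub_leaf hl]; simpa using hx)

end move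

end Pool.Agent.Work.MP_be9894_co.AA
end

-- merged part: Pool.Agent.Work.MP_be9894_co.AA.Pitman
section
/-!
Prescribing the parents of a set `Y` of vertices costs a factor `n` per vertex (Pitman's coalescent count).

Let `n = card V`, `m = n - card Y`, and let `FF Y Φ j` be the forests with `j` roots that agree with `Φ` on `Y` and have no
root in `Y`.  `FF_step`: count the triples `(p, ρ, x)` with `p ∈ FF (j+1)`, `ρ` a root, `x ∉ sub p ρ`; the sets `sub p ρ`
partition `V`, so each `p` has `(j+1) n - n` of them.  The map to `(update p ρ x, ρ)` is a bijection onto the pairs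
`(p', ρ)` with `p' ∈ FF j`, `ρ ∉ Y` not a root of `p'` (inverse: `p = update p' ρ ρ`, `x = p' ρ`; use `sub_update`), and each
`p'` has `m - j` of them.  `FF_top`: the only candidate is `Φ` on `Y`, the identity elsewhere; for `Y = ∅` it is a forest.
Downward induction on `j` gives
`card (FF j) = card (FF m) * n ^ (m - j) * (m - 1).choose (j - 1)` for `1 ≤ j ≤ m`.  `FF 1` is the set of rooted trees.
The bits are independent of the parent map: `OmF` is a product.
-/

set_option autoImplicit false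

namespace Pool.Agent.Work.MP_be9894_co.AA

open Finset

variable {V : Type} [Fintype V] [DecidableEq V]

open Classical in
noncomputable def FF (Y : Finset V) (Φ : V → V) (j : ℕ) : Finset (V → V) :=
  univ.filter fun p => (∀ u, ∃ k, p (p^[k] u) = p^[k] u) ∧ (univ.filter fun u => p u = u).card = j ∧
    ∀ y ∈ Y, p y = Φ y ∧ Φ y ≠ y

lemma pitman_mem {Y : Finset V} {Φ p : V → V} {j : ℕ} :
    p ∈ FF Y Φ j ↔ (∀ u, ∃ k, p (p^[k] u) = p^[k] u) ∧ (univ.filter fun u => p u = u).card = j ∧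
      ∀ y ∈ Y, p y = Φ y ∧ Φ y ≠ y := by
  simp only [FF, mem_filter, mem_univ, true_and]

/-- an orbit outside `sub p ρ` does not see the change at `ρ` -/
lemma pitman_orbit {p : V → V} {ρ u : V} (x : V) (hu : u ∉ sub p ρ) (k : ℕ) :
    (Function.update p ρ x)^[k] u = p^[k] u := by
  induction k with
  | zero => rfl
  | succ k ih =>
    rw [Function.iterate_succ_apply', Function.iterate_succ_apply', ih,
      Function.update_of_ne fun e => hu (mem_sub.2 ⟨k, e⟩)]

lemma pitman_out {p : V → V} (hp : ∀ u, ∃ k, p (p^[k] u) = p^[k] u) {ρ u : V} (x : V)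
    (hu : u ∉ sub p ρ) :
    ∃ k, Function.update p ρ x ((Function.update p ρ x)^[k] u) = (Function.update p ρ x)^[k] u := by
  obtain ⟨k, hk⟩ := hp u
  refine ⟨k, ?_⟩
  rw [pitman_orbit x hu, Function.update_of_ne fun e => hu (mem_sub.2 ⟨k, e⟩), hk]

lemma pitman_join {p : V → V} (hp : ∀ u, ∃ k, p (p^[k] u) = p^[k] u) {ρ x : V}
    (hx : x ∉ sub p ρ) (u : V) :
    ∃ k, Function.update p ρ x ((Function.update p ρ x)^[k] u) = (Function.update p ρ x)^[k] u := by
  by_cases hu : u ∈ sub p ρ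
  · rw [← sub_update p ρ x] at hu
    obtain ⟨k, hk⟩ := mem_sub.1 hu
    obtain ⟨l, hl⟩ := pitman_out hp x hx
    refine ⟨l + (k + 1), ?_⟩
    rw [Function.iterate_add_apply, Function.iterate_succ_apply', hk, Function.update_self, hl]
  · exact pitman_out hp x hu

lemma pitman_cut {p : V → V} (hp : ∀ u, ∃ k, p (p^[k] u) = p^[k] u) (ρ u : V) :
    ∃ k, Function.update p ρ ρ ((Function.update p ρ ρ)^[k] u) = (Function.update p ρ ρ)^[k] u := by
  by_cases hu : u ∈ sub p ρ
  · rw [← sub_update p ρ ρ] at hu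
    obtain ⟨k, hk⟩ := mem_sub.1 hu
    exact ⟨k, by rw [hk, Function.update_self]⟩
  · exact pitman_out hp ρ hu

omit [DecidableEq V] in
lemma pitman_par {p : V → V} (hp : ∀ u, ∃ k, p (p^[k] u) = p^[k] u) {ρ : V} (h : p ρ ≠ ρ) :
    p ρ ∉ sub p ρ := by
  intro hm
  obtain ⟨k, hk⟩ := mem_sub.1 hm
  obtain ⟨l, hl⟩ := hp ρ
  have h1 : p^[k + 1] ρ = ρ := by rw [Function.iterate_succ_apply, hk]
  have h2 : p^[(k + 1) * l] ρ = ρ := by
    rw [Function.iterate_mul]; exact Function.iterate_fixed h1 l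
  have h3 : p^[(k + 1) * l] ρ = p^[l] ρ := by
    rw [show (k + 1) * l = k * l + l by ring, Function.iterate_add_apply]
    exact Function.iterate_fixed hl _
  rw [← h3, h2] at hl
  exact h hl

lemma pitman_part {p : V → V} (hp : ∀ u, ∃ k, p (p^[k] u) = p^[k] u) :
    ∑ ρ ∈ univ.filter fun u => p u = u, (sub p ρ).card = Fintype.card V := by
  rw [← card_biUnion, ← card_univ]
  · congr 1
    refine eq_univ_of_forall fun u => ?_
    obtain ⟨k, hk⟩ := hp u
    exact mem_biUnion.2 ⟨p^[k] u, mem_filter.2 ⟨mem_univ _, hk⟩, mem_sub.2 ⟨k, rfl⟩⟩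
  · intro a ha b hb hab
    refine disjoint_left.2 fun u h1 h2 => hab ?_
    obtain ⟨k, hk⟩ := mem_sub.1 h1
    obtain ⟨l, hl⟩ := mem_sub.1 h2
    have ha' : p a = a := (mem_filter.1 (mem_coe.1 ha)).2
    have hb' : p b = b := (mem_filter.1 (mem_coe.1 hb)).2
    have e1 : p^[l + k] u = a := by
      rw [Function.iterate_add_apply, hk]; exact Function.iterate_fixed ha' l
    have e2 : p^[l + k] u = b := by
      rw [add_comm, Function.iterate_add_apply, hl]; exact Function.iterate_fixed hb' k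
    rw [← e1, e2]

lemma pitman_triples {p : V → V} (hp : ∀ u, ∃ k, p (p^[k] u) = p^[k] u) {j : ℕ}
    (hj : (univ.filter fun u => p u = u).card = j + 1) :
    ∑ ρ ∈ univ.filter fun u => p u = u, (sub p ρ)ᶜ.card = j * Fintype.card V := by
  have h1 : ∑ ρ ∈ univ.filter fun u => p u = u, ((sub p ρ)ᶜ.card + (sub p ρ).card) =
      (j + 1) * Fintype.card V := by
    rw [sum_congr rfl fun ρ _ => card_compl_add_card (sub p ρ), sum_const, hj, smul_eq_mul]
  rw [sum_add_distrib, pitman_part hp, add_mul, one_mul] at h1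
  exact Nat.add_right_cancel h1

lemma pitman_roots_sub {Y : Finset V} {Φ p : V → V} (h : ∀ y ∈ Y, p y = Φ y ∧ Φ y ≠ y) :
    (univ.filter fun u => p u = u) ⊆ Yᶜ := by
  intro u hu
  refine mem_compl.2 fun hY => (h u hY).2 ?_
  rw [← (h u hY).1]; exact (mem_filter.1 hu).2

lemma pitman_pairs {Y : Finset V} {Φ p : V → V} {j : ℕ} (h : p ∈ FF Y Φ j) :
    (Yᶜ \ univ.filter fun u => p u = u).card = Fintype.card V - Y.card - j := by
  obtain ⟨-, h2, h3⟩ := pitman_mem.1 h
  rw [card_sdiff_of_subset (pitman_roots_sub h3), card_compl, h2]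

lemma FF_step (Y : Finset V) (Φ : V → V) (j : ℕ) :
    (FF Y Φ (j + 1)).card * (j * Fintype.card V) = (FF Y Φ j).card * (Fintype.card V - Y.card - j) := by
  have hA : ((FF Y Φ (j + 1)).sigma fun p =>
      (univ.filter fun u => p u = u).sigma fun ρ => (sub p ρ)ᶜ).card =
      (FF Y Φ (j + 1)).card * (j * Fintype.card V) := by
    rw [card_sigma, ← smul_eq_mul, ← sum_const]
    refine sum_congr rfl fun p hp => ?_
    rw [card_sigma]
    exact pitman_triples (pitman_mem.1 hp).1 (pitman_mem.1 hp).2.1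
  have hB : ((FF Y Φ j).sigma fun p => Yᶜ \ univ.filter fun u => p u = u).card =
      (FF Y Φ j).card * (Fintype.card V - Y.card - j) := by
    rw [card_sigma, ← smul_eq_mul, ← sum_const]
    exact sum_congr rfl fun p hp => pitman_pairs hp
  rw [← hA, ← hB]
  refine card_nbij' (fun t => ⟨Function.update t.1 t.2.1 t.2.2, t.2.1⟩)
    (fun s => ⟨Function.update s.1 s.2 s.2, s.2, s.1 s.2⟩) ?_ ?_ ?_ ?_
  · rintro ⟨p, ρ, x⟩ ht
    obtain ⟨hp, ht⟩ := mem_sigma.1 (mem_coe.1 ht)
    obtain ⟨hρ, hx⟩ := mem_sigma.1 ht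
    obtain ⟨h1, h2, h3⟩ := pitman_mem.1 hp
    dsimp only at h1 h2 h3 hρ hx ⊢
    have hx' : x ∉ sub p ρ := mem_compl.1 hx
    have hne : x ≠ ρ := fun e => hx' (e ▸ self_mem_sub p x)
    have hY : ρ ∉ Y := mem_compl.1 (pitman_roots_sub h3 hρ)
    have hr : (univ.filter fun u => Function.update p ρ x u = u) =
        (univ.filter fun u => p u = u).erase ρ := by
      ext u
      by_cases hu : u = ρ
      · subst hu; simp [hne]
      · simp [hu]
    refine mem_coe.2 (mem_sigma.2 ⟨pitman_mem.2 ⟨pitman_join h1 hx', ?_, fun y hy => ?_⟩, ?_⟩)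
    · dsimp only
      rw [hr, card_erase_of_mem hρ, h2, Nat.add_sub_cancel]
    · dsimp only
      rw [Function.update_of_ne fun e : y = ρ => hY (e ▸ hy)]; exact h3 y hy
    · dsimp only
      rw [hr]
      exact mem_sdiff.2 ⟨mem_compl.2 hY, notMem_erase _ _⟩
  · rintro ⟨p, ρ⟩ hs
    obtain ⟨hp, hρ⟩ := mem_sigma.1 (mem_coe.1 hs)
    obtain ⟨h1, h2, h3⟩ := pitman_mem.1 hp
    dsimp only at h1 h2 h3 hρ ⊢
    obtain ⟨hY, hρ⟩ := mem_sdiff.1 hρ
    have hY' : ρ ∉ Y := mem_compl.1 hY
    have hne : p ρ ≠ ρ := fun e => hρ (mem_filter.2 ⟨mem_univ _, e⟩)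
    have hr : (univ.filter fun u => Function.update p ρ ρ u = u) =
        insert ρ (univ.filter fun u => p u = u) := by
      ext u
      by_cases hu : u = ρ
      · subst hu; simp
      · simp [hu]
    refine mem_coe.2 (mem_sigma.2 ⟨pitman_mem.2 ⟨pitman_cut h1 ρ, ?_, fun y hy => ?_⟩,
      mem_sigma.2 ⟨?_, ?_⟩⟩)
    · dsimp only
      rw [hr, card_insert_of_notMem hρ, h2]
    · dsimp only
      rw [Function.update_of_ne fun e : y = ρ => hY' (e ▸ hy)]; exact h3 y hy
    · dsimp only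
      rw [hr]; exact mem_insert_self _ _
    · dsimp only
      rw [sub_update]; exact mem_compl.2 (pitman_par h1 hne)
  · rintro ⟨p, ρ, x⟩ ht
    obtain ⟨-, ht⟩ := mem_sigma.1 (mem_coe.1 ht)
    obtain ⟨hρ, -⟩ := mem_sigma.1 ht
    have hρ' : p ρ = ρ := (mem_filter.1 hρ).2
    dsimp only
    rw [Function.update_idem, Function.update_self, Function.update_eq_self_iff.2 hρ'.symm]
  · rintro ⟨p, ρ⟩ -
    dsimp only
    rw [Function.update_idem, Function.update_eq_self]

lemma FF_top (Y : Finset V) (Φ : V → V) : (FF Y Φ (Fintype.card V - Y.card)).card ≤ 1 := by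
  have key : ∀ p ∈ FF Y Φ (Fintype.card V - Y.card), ∀ u, p u = if u ∈ Y then Φ u else u := by
    intro p hp u
    obtain ⟨-, h2, h3⟩ := pitman_mem.1 hp
    have hr : (univ.filter fun u => p u = u) = Yᶜ :=
      eq_of_subset_of_card_le (pitman_roots_sub h3) (by rw [card_compl, h2])
    split_ifs with hu
    · exact (h3 u hu).1
    · have := mem_compl.2 hu
      rw [← hr] at this
      exact (mem_filter.1 this).2
  exact card_le_one.2 fun p hp q hq => funext fun u => by rw [key p hp, key q hq]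

lemma pitman_closed (Y : Finset V) (Φ : V → V) (d i : ℕ)
    (h : i + 1 + d = Fintype.card V - Y.card) :
    (FF Y Φ (i + 1)).card = (FF Y Φ (Fintype.card V - Y.card)).card * Fintype.card V ^ d *
      (Fintype.card V - Y.card - 1).choose i := by
  induction d generalizing i with
  | zero =>
    rw [← h, add_zero, Nat.add_sub_cancel, Nat.choose_self, pow_zero, mul_one, mul_one]
  | succ d ih =>
    have h1 := FF_step Y Φ (i + 1)
    rw [ih (i + 1) (by omega)] at h1
    have h2 := Nat.choose_succ_right_eq (Fintype.card V - Y.card - 1) i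
    have h3 : Fintype.card V - Y.card - 1 - i = d + 1 := by omega
    have h4 : Fintype.card V - Y.card - (i + 1) = d + 1 := by omega
    rw [h3] at h2
    rw [h4] at h1
    refine Nat.eq_of_mul_eq_mul_right (Nat.succ_pos d) ?_
    rw [← h1, mul_assoc _ (Nat.choose _ i), ← h2]
    ring

lemma pitman_one (Y : Finset V) (Φ Ψ : V → V) :
    (FF Y Φ 1).card * Fintype.card V ^ Y.card ≤ (FF ∅ Ψ 1).card := by
  rcases (FF Y Φ 1).eq_empty_or_nonempty with h | ⟨p, hp⟩
  · rw [h, card_empty, zero_mul]; exact Nat.zero_le _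
  obtain ⟨-, h2, h3⟩ := pitman_mem.1 hp
  have h4 := card_le_card (pitman_roots_sub h3)
  rw [h2, card_compl] at h4
  have h5 := pitman_closed Y Φ (Fintype.card V - Y.card - 1) 0 (by omega)
  have h6 := pitman_closed ∅ Ψ (Fintype.card V - 1) 0 (by rw [card_empty]; omega)
  have h7 : 1 ≤ (FF ∅ Ψ (Fintype.card V - (∅ : Finset V).card)).card := by
    refine card_pos.2 ⟨id, pitman_mem.2 ⟨fun u => ⟨0, rfl⟩, by simp, fun y hy => ?_⟩⟩
    simp at hy
  rw [zero_add, Nat.choose_zero_right, mul_one] at h5 h6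
  rw [h5, h6, mul_assoc, ← pow_add, show Fintype.card V - Y.card - 1 + Y.card =
    Fintype.card V - 1 by omega]
  exact Nat.mul_le_mul_right _ ((FF_top Y Φ).trans h7)

lemma pitman_RT {p : V → V} : IsRT p ↔ (∀ u, ∃ k, p (p^[k] u) = p^[k] u) ∧
    (univ.filter fun u => p u = u).card = 1 := by
  constructor
  · intro h
    obtain ⟨ρ, h1, h2⟩ := id h
    refine ⟨fun u => ?_, card_eq_one.2 ⟨ρ, ?_⟩⟩
    · obtain ⟨k, hk⟩ := h2 u
      exact ⟨k, by rw [hk, h1]⟩
    · ext u
      simp only [mem_filter, mem_univ, true_and, mem_singleton]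
      exact ⟨fun hu => h.fix_eq hu h1, fun hu => hu ▸ h1⟩
  · rintro ⟨h1, h2⟩
    obtain ⟨ρ, hρ⟩ := card_eq_one.1 h2
    have key : ∀ u, p u = u ↔ u = ρ := fun u => by
      rw [← mem_singleton (b := u), ← hρ]; simp
    refine ⟨ρ, (key ρ).2 rfl, fun u => ?_⟩
    obtain ⟨k, hk⟩ := h1 u
    exact ⟨k, (key _).1 hk⟩

lemma pitman_OmF (Ψ : V → V) : (OmF V).card = (FF ∅ Ψ 1).card * 2 ^ Fintype.card V := by
  have : OmF V = FF ∅ Ψ 1 ×ˢ (univ : Finset (V → Bool)) := by
    ext ω
    rw [mem_OmF, mem_product, pitman_mem, pitman_RT]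
    simp
  rw [this, card_product, card_univ, Fintype.card_fun, Fintype.card_bool]

lemma pitman_bits_card (Y : Finset V) (β : V → Bool) :
    (Fintype.piFinset fun v => if v ∈ Y then {β v} else (univ : Finset Bool)).card * 2 ^ Y.card =
      2 ^ Fintype.card V := by
  have h1 : 2 ^ Y.card = ∏ v, if v ∈ Y then 2 else 1 := by
    rw [prod_ite_mem, univ_inter, prod_const]
  rw [Fintype.card_piFinset, h1, ← prod_mul_distrib, ← card_univ, ← prod_const]
  refine prod_congr rfl fun v _ => ?_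
  split_ifs <;> simp

theorem pitman (Y : Finset V) (Φ : V → V) :
    (evt fun ω : Om V => ∀ y ∈ Y, ω.1 y = Φ y ∧ Φ y ≠ y).card * Fintype.card V ^ Y.card ≤ (OmF V).card := by
  have : (evt fun ω : Om V => ∀ y ∈ Y, ω.1 y = Φ y ∧ Φ y ≠ y) =
      FF Y Φ 1 ×ˢ (univ : Finset (V → Bool)) := by
    ext ω
    rw [mem_evt, mem_product, pitman_mem, pitman_RT]
    simp only [mem_univ, and_true, and_assoc]
  rw [this, card_product, card_univ, Fintype.card_fun, Fintype.card_bool, pitman_OmF Φ,
    mul_right_comm]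
  exact Nat.mul_le_mul_right _ (pitman_one Y Φ Φ)

theorem pitman_bits (Y : Finset V) (Φ : V → V) (β : V → Bool) :
    (evt fun ω : Om V => ∀ y ∈ Y, ω.1 y = Φ y ∧ Φ y ≠ y ∧ ω.2 y = β y).card * (2 * Fintype.card V) ^ Y.card
      ≤ (OmF V).card := by
  have : (evt fun ω : Om V => ∀ y ∈ Y, ω.1 y = Φ y ∧ Φ y ≠ y ∧ ω.2 y = β y) =
      FF Y Φ 1 ×ˢ Fintype.piFinset fun v => if v ∈ Y then {β v} else (univ : Finset Bool) := by
    ext ω
    rw [mem_evt, mem_product, pitman_mem, pitman_RT, Fintype.mem_piFinset]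
    constructor
    · rintro ⟨⟨h1, h2⟩, h3⟩
      refine ⟨⟨h1, h2, fun y hy => ⟨(h3 y hy).1, (h3 y hy).2.1⟩⟩, fun v => ?_⟩
      split_ifs with hv
      · exact mem_singleton.2 (h3 v hv).2.2
      · exact mem_univ _
    · rintro ⟨⟨h1, h2, h3⟩, h4⟩
      refine ⟨⟨h1, h2⟩, fun y hy => ⟨(h3 y hy).1, (h3 y hy).2, ?_⟩⟩
      have := h4 y
      rw [if_pos hy] at this
      exact mem_singleton.1 this
  rw [this, card_product, pitman_OmF Φ, mul_pow, ← pitman_bits_card Y β]
  calc _ = (FF Y Φ 1).card * Fintype.card V ^ Y.card * (_ * 2 ^ Y.card) := by ring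
    _ ≤ _ := Nat.mul_le_mul_right _ (pitman_one Y Φ Φ)

end Pool.Agent.Work.MP_be9894_co.AA
end

-- merged part: Pool.Agent.Work.MP_be9894_co.AA.PDeg
section
/-!
Large degrees are rare; balls are small when degrees are small.

`deg_count`: union bound over `v` and `Y ∈ powersetCard Δ univ` with `Φ = fun _ => v` (`pitman`), and
`n.choose Δ * Δ! = n.descFactorial Δ ≤ n ^ Δ`.

-/

set_option autoImplicit false

namespace Pool.Agent.Work.MP_be9894_co.AA

open Finset

variable {V : Type} [Fintype V]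

open Classical in
/-- vertices within `D` steps -/
noncomputable def ball (r : V → V → Prop) (x : V) : ℕ → Finset V
  | 0 => {x}
  | D + 1 => univ.filter fun y => y ∈ ball r x D ∨ ∃ t ∈ ball r x D, r t y ∨ r y t

lemma mem_ball_zero {r : V → V → Prop} {x y : V} : y ∈ ball r x 0 ↔ y = x := by simp [ball]

lemma mem_ball_succ {r : V → V → Prop} {x y : V} {D : ℕ} :
    y ∈ ball r x (D + 1) ↔ y ∈ ball r x D ∨ ∃ t ∈ ball r x D, r t y ∨ r y t := by
  simp only [ball, mem_filter, mem_univ, true_and]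

lemma ball_mono {r : V → V → Prop} {x : V} {D D' : ℕ} (h : D ≤ D') : ball r x D ⊆ ball r x D' := by
  induction h with
  | refl => exact Subset.refl _
  | step _ ih => exact fun y hy => mem_ball_succ.2 (Or.inl (ih hy))

lemma card_ball {ω : Om V} {Δ : ℕ} (h : ∀ v, (kids ω.1 v).card < Δ) (x : V) (D : ℕ) :
    (ball (rel ω) x D).card ≤ (Δ + 1) ^ D := by
  classical
  induction D with
  | zero => simp [ball]
  | succ D ih =>
    have h1 : ball (rel ω) x (D + 1) ⊆
        (ball (rel ω) x D).biUnion fun t => insert t (insert (ω.1 t) (kids ω.1 t)) := by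
      intro y hy
      rw [mem_biUnion]
      rcases mem_ball_succ.1 hy with hy | ⟨t, ht, hy⟩
      · exact ⟨y, hy, mem_insert_self _ _⟩
      · refine ⟨t, ht, mem_insert_of_mem ?_⟩
        obtain ⟨hne, hp | hp⟩ := rel_adj.1 hy
        · exact hp ▸ mem_insert_self _ _
        · exact mem_insert_of_mem (mem_kids.2 ⟨hp, hne.symm⟩)
    have h2 : ∀ t ∈ ball (rel ω) x D, (insert t (insert (ω.1 t) (kids ω.1 t))).card ≤ Δ + 1 := by
      intro t _
      have a1 := card_insert_le t (insert (ω.1 t) (kids ω.1 t))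
      have a2 := card_insert_le (ω.1 t) (kids ω.1 t)
      have := h t
      omega
    calc _ ≤ _ := card_le_card h1
      _ ≤ (ball (rel ω) x D).card * (Δ + 1) := card_biUnion_le_card_mul _ _ _ h2
      _ ≤ (Δ + 1) ^ D * (Δ + 1) := Nat.mul_le_mul_right _ ih
      _ = _ := (pow_succ _ _).symm

variable [DecidableEq V]

theorem deg_count (Δ : ℕ) :
    (evt fun ω : Om V => ∃ v, Δ ≤ (kids ω.1 v).card).card * Δ.factorial ≤ Fintype.card V * (OmF V).card := by
  set n := Fintype.card V with hn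
  rcases Nat.eq_zero_or_pos n with h0 | hpos
  · have : IsEmpty V := Fintype.card_eq_zero_iff.1 h0
    have he : (evt fun ω : Om V => ∃ v, Δ ≤ (kids ω.1 v).card) = ∅ := by
      rw [eq_empty_iff_forall_notMem]
      intro ω hω
      obtain ⟨_, v, _⟩ := mem_evt.1 hω
      exact isEmptyElim v
    rw [he]
    simp
  have h1 : (evt fun ω : Om V => ∃ v, Δ ≤ (kids ω.1 v).card) ⊆
      ((univ : Finset V) ×ˢ powersetCard Δ (univ : Finset V)).biUnion fun e =>
        evt fun ω : Om V => ∀ y ∈ e.2, ω.1 y = (fun _ => e.1) y ∧ (fun _ => e.1) y ≠ y := by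
    intro ω hω
    obtain ⟨hRT, v, hv⟩ := mem_evt.1 hω
    obtain ⟨Y, hY, hc⟩ := exists_subset_card_eq hv
    rw [mem_biUnion]
    refine ⟨(v, Y), by simp [mem_powersetCard, hc], mem_evt.2 ⟨hRT, fun y hy => ?_⟩⟩
    obtain ⟨a, b⟩ := mem_kids.1 (hY hy)
    exact ⟨a, b.symm⟩
  have h2 := le_trans (card_le_card h1) card_biUnion_le
  have h3 : (∑ e ∈ (univ : Finset V) ×ˢ powersetCard Δ (univ : Finset V),
      (evt fun ω : Om V => ∀ y ∈ e.2, ω.1 y = (fun _ => e.1) y ∧ (fun _ => e.1) y ≠ y).card) * n ^ Δ ≤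
        (n * n.choose Δ) * (OmF V).card := by
    rw [sum_mul]
    refine le_trans (sum_le_card_nsmul _ _ (OmF V).card ?_) ?_
    · intro e he
      have hc : e.2.card = Δ := (mem_powersetCard.1 (mem_product.1 he).2).2
      have := pitman (V := V) e.2 (fun _ => e.1)
      rwa [hc] at this
    · simp [card_product, card_powersetCard, hn]
  have h4 : n.choose Δ * Δ.factorial ≤ n ^ Δ := by
    rw [mul_comm, ← Nat.descFactorial_eq_factorial_mul_choose]
    exact Nat.descFactorial_le_pow n Δ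
  refine Nat.le_of_mul_le_mul_right ?_ (pow_pos hpos Δ)
  calc _ = (evt fun ω : Om V => ∃ v, Δ ≤ (kids ω.1 v).card).card * n ^ Δ * Δ.factorial := by ring
    _ ≤ (n * n.choose Δ) * (OmF V).card * Δ.factorial :=
        Nat.mul_le_mul_right _ (le_trans (Nat.mul_le_mul_right _ h2) h3)
    _ = n * (OmF V).card * (n.choose Δ * Δ.factorial) := by ring
    _ ≤ _ := Nat.mul_le_mul_left _ h4

end Pool.Agent.Work.MP_be9894_co.AA
end

-- merged part: Pool.Agent.Work.MP_be9894_co.AA.Walk
section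
/-!
A vertex of a hull is reached along a self-avoiding walk with monotone stage labels.

`inH_walk`: first without injectivity (induction on the stage and on `ReflTransGen`, appending a step); then take the least
length `d` (`Nat.find`); if `z i = z j` with `i < j ≤ d`, cutting out the loop gives a shorter walk.

`walk_apex`: each step has `p (z i) = z (i+1)` or `p (z (i+1)) = z i` (unfold `step`, `rel`); a down step cannot be followed by
an up step by injectivity.  Let `a` be the first index of a step that is not an up step of the stated form.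

`mono_count`: `s` is determined by the numbers `card {i | s i ≤ j}`, `j : Fin K`, each in `Fin (d+1)`, because for monotone
`s` the set `{i | s i ≤ j}` is an initial segment.
-/

set_option autoImplicit false

namespace Pool.Agent.Work.MP_be9894_co.AA

open Finset

variable {V : Type}

/-- a walk of length `d` with monotone labels at most `K` -/
def walk_W (r : V → V → Prop) (b : Bool) (x : V) (K : ℕ) (y : V) (d : ℕ) : Prop :=
  ∃ (z : ℕ → V) (s : ℕ → ℕ), z 0 = x ∧ z d = y ∧
    (∀ i j, i ≤ j → j < d → s i ≤ s j) ∧ ∀ i < d, s i ≤ K ∧ step r (tp b (s i)) (z i) (z (i + 1))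

lemma walk_snoc {r : V → V → Prop} {b : Bool} {x y y' : V} {K d : ℕ} (h : walk_W r b x K y d)
    (hs : step r (tp b K) y y') : walk_W r b x K y' (d + 1) := by
  obtain ⟨z, s, h0, hd, hm, hst⟩ := h
  refine ⟨fun i => if i ≤ d then z i else y', fun i => if i < d then s i else K, by simp [h0], by simp, ?_, ?_⟩
  · intro i j hij hj
    by_cases c1 : j < d
    · simp only [c1, lt_of_le_of_lt hij c1, if_true]
      exact hm i j hij c1
    · by_cases c2 : i < d
      · simp only [c1, c2, if_true, if_false]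
        exact (hst i c2).1
      · simp only [c1, c2, if_false, le_refl]
  · intro i hi
    by_cases c : i < d
    · simp only [c, c.le, Nat.succ_le_of_lt c, if_true]
      exact hst i c
    · have e : i = d := by omega
      subst e
      simp only [lt_irrefl, if_false, le_refl, if_true, Nat.add_one_le_iff, hd, true_and]
      exact hs

lemma walk_rtg {r : V → V → Prop} {b : Bool} {x y y' : V} {K d : ℕ} (h : walk_W r b x K y d)
    (hs : Relation.ReflTransGen (step r (tp b K)) y y') : ∃ d', walk_W r b x K y' d' := by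
  induction hs with
  | refl => exact ⟨d, h⟩
  | tail _ h2 ih =>
    obtain ⟨d', h'⟩ := ih
    exact ⟨d' + 1, walk_snoc h' h2⟩

lemma walk_ex {r : V → V → Prop} {b : Bool} {x : V} (K : ℕ) :
    ∀ y, inH r b x K y → ∃ d, walk_W r b x K y d := by
  induction K with
  | zero =>
    intro y h
    exact walk_rtg (d := 0) (y := x) ⟨fun _ => x, fun _ => 0, rfl, rfl, by simp, by simp⟩ h
  | succ K ih =>
    rintro y ⟨t, h1, h2⟩
    obtain ⟨d, z, s, h0, hd, hm, hst⟩ := ih t h1
    exact walk_rtg (d := d) ⟨z, s, h0, hd, hm, fun i hi => ⟨(hst i hi).1.trans (Nat.le_succ K), (hst i hi).2⟩⟩ h2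

lemma walk_cut {r : V → V → Prop} {b : Bool} {x y : V} {K d : ℕ} {z : ℕ → V} {s : ℕ → ℕ} (h0 : z 0 = x) (hd : z d = y)
    (hm : ∀ i j, i ≤ j → j < d → s i ≤ s j) (hst : ∀ i < d, s i ≤ K ∧ step r (tp b (s i)) (z i) (z (i + 1)))
    {i c : ℕ} (hj : i + c ≤ d) (he : z i = z (i + c)) : walk_W r b x K y (d - c) := by
  have hz : ∀ t, i ≤ t → (if t ≤ i then z t else z (t + c)) = z (t + c) := by
    intro t ht
    by_cases c1 : t ≤ i
    · have e : t = i := by omega
      subst e
      simp [he.symm]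
    · simp [c1]
  refine ⟨fun t => if t ≤ i then z t else z (t + c), fun t => if t < i then s t else s (t + c), by simp [h0], ?_, ?_, ?_⟩
  · show (if d - c ≤ i then z (d - c) else z (d - c + c)) = y
    rw [hz (d - c) (by omega), Nat.sub_add_cancel (by omega), hd]
  · intro a a' haa ha'
    show (if a < i then s a else s (a + c)) ≤ (if a' < i then s a' else s (a' + c))
    split_ifs with c1 c2 c2
    · exact hm _ _ haa (by omega)
    · exact hm _ _ (by omega) (by omega)
    · omega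
    · exact hm _ _ (by omega) (by omega)
  · intro t ht
    show (if t < i then s t else s (t + c)) ≤ K ∧ step r (tp b (if t < i then s t else s (t + c)))
      (if t ≤ i then z t else z (t + c)) (if t + 1 ≤ i then z (t + 1) else z (t + 1 + c))
    by_cases c1 : t < i
    · rw [if_pos c1, if_pos c1.le, if_pos (Nat.succ_le_of_lt c1)]
      exact hst t (by omega)
    · rw [if_neg c1, hz t (by omega), if_neg (by omega), show t + 1 + c = t + c + 1 by omega]
      exact hst (t + c) (by omega)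

lemma inH_walk {r : V → V → Prop} {b : Bool} {x y : V} {K : ℕ} (h : inH r b x K y) :
    ∃ (d : ℕ) (z : ℕ → V) (s : ℕ → ℕ), z 0 = x ∧ z d = y ∧ (∀ i ≤ d, ∀ j ≤ d, z i = z j → i = j) ∧
      (∀ i j, i ≤ j → j < d → s i ≤ s j) ∧ ∀ i < d, s i ≤ K ∧ step r (tp b (s i)) (z i) (z (i + 1)) := by
  classical
  have hex := walk_ex K y h
  obtain ⟨z, s, h0, hd, hm, hst⟩ := Nat.find_spec hex
  have key : ∀ i j, i < j → j ≤ Nat.find hex → z i ≠ z j := by
    intro i j hij hj he
    obtain ⟨c, rfl⟩ := Nat.exists_eq_add_of_le hij.le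
    exact Nat.find_min hex (by omega) (walk_cut h0 hd hm hst hj he)
  refine ⟨Nat.find hex, z, s, h0, hd, fun i hi j hj he => ?_, hm, hst⟩
  rcases lt_trichotomy i j with c | c | c
  · exact absurd he (key i j c hj)
  · exact c
  · exact absurd he.symm (key j i c hi)

lemma walk_apex {ω : Om V} {d : ℕ} {z : ℕ → V} {τ : ℕ → Bool} (hz : ∀ i ≤ d, ∀ j ≤ d, z i = z j → i = j)
    (hs : ∀ i < d, step (rel ω) (τ i) (z i) (z (i + 1))) :
    ∃ a ≤ d, (∀ i < a, ω.1 (z i) = z (i + 1) ∧ ω.2 (z i) = !τ i) ∧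
      ∀ i, a ≤ i → i < d → ω.1 (z (i + 1)) = z i ∧ ω.2 (z (i + 1)) = τ i := by
  classical
  have hc : ∀ i < d, (ω.1 (z i) = z (i + 1) ∧ ω.2 (z i) = !τ i) ∨
      (ω.1 (z (i + 1)) = z i ∧ ω.2 (z (i + 1)) = τ i) := by
    intro i hi
    have := hs i hi
    cases hτ : τ i
    · rw [hτ] at this
      rcases (by simpa [step] using this : rel ω (z i) (z (i + 1))) with h | h
      · exact Or.inl ⟨h.1, by simpa using h.2.2⟩
      · exact Or.inr ⟨h.1, h.2.2⟩
    · rw [hτ] at this
      rcases (by simpa [step] using this : rel ω (z (i + 1)) (z i)) with h | h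
      · exact Or.inr ⟨h.1, h.2.2⟩
      · exact Or.inl ⟨h.1, by simpa using h.2.2⟩
  have hex : ∃ a, d ≤ a ∨ ¬ (ω.1 (z a) = z (a + 1) ∧ ω.2 (z a) = !τ a) := ⟨d, Or.inl le_rfl⟩
  refine ⟨Nat.find hex, Nat.find_min' hex (Or.inl le_rfl), fun i hi => ?_, fun i hi => ?_⟩
  · have := Nat.find_min hex hi
    push Not at this
    exact this.2
  · induction hi with
    | refl =>
      intro hi
      rcases Nat.find_spec hex with h | h
      · omega
      · exact (hc _ hi).resolve_left h
    | @step m _ ih =>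
      intro hi
      have h1 := (ih (by omega)).1
      rcases hc _ hi with h | h
      · have := hz m (by omega) (m + 1 + 1) (by omega) (h1.symm.trans h.1)
        omega
      · exact h

open Classical in
lemma mono_count (d K : ℕ) :
    (univ.filter fun s : Fin d → Fin (K + 1) => Monotone s).card ≤ (d + 1) ^ K := by
  have hb : ∀ (s : Fin d → Fin (K + 1)) (j : Fin K), (univ.filter fun i => s i ≤ j.castSucc).card < d + 1 := by
    intro s j
    have := card_filter_le (univ : Finset (Fin d)) (fun i => s i ≤ j.castSucc)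
    rw [card_univ, Fintype.card_fin] at this
    omega
  have hc : (univ : Finset (Fin K → Fin (d + 1))).card = (d + 1) ^ K := by simp
  rw [← hc]
  refine card_le_card_of_injOn (fun s j => ⟨_, hb s j⟩) (fun _ _ => mem_coe.2 (mem_univ _)) ?_
  have key : ∀ s s' : Fin d → Fin (K + 1), Monotone s → Monotone s' →
      (∀ j : Fin K, (univ.filter fun i => s i ≤ j.castSucc).card = (univ.filter fun i => s' i ≤ j.castSucc).card) →
      ∀ i, s' i ≤ s i := by
    intro s s' hs hs' h i
    rcases Fin.eq_castSucc_or_eq_last (s i) with ⟨j, hj⟩ | hl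
    · have h1 : (i : ℕ) < (univ.filter fun i => s i ≤ j.castSucc).card :=
        (Tuple.lt_card_le_iff_apply_le_of_monotone hs).2 hj.le
      rw [h j] at h1
      rw [hj]
      exact (Tuple.lt_card_le_iff_apply_le_of_monotone hs').1 h1
    · rw [hl]
      exact Fin.le_last _
  intro s hs s' hs' he
  have hs1 : Monotone s := by simpa using hs
  have hs2 : Monotone s' := by simpa using hs'
  have h : ∀ j : Fin K,
      (univ.filter fun i => s i ≤ j.castSucc).card = (univ.filter fun i => s' i ≤ j.castSucc).card :=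
    fun j => congrArg Fin.val (congrFun he j)
  funext i
  exact le_antisymm (key s' s hs2 hs1 (fun j => (h j).symm) i) (key s s' hs1 hs2 h i)

end Pool.Agent.Work.MP_be9894_co.AA
end

-- merged part: Pool.Agent.Work.MP_be9894_co.AA.Far
section
/-!
Distant pairs inside a hull are rare, hence hulls are small.

`far_sum`: a far pair `(x, y)` of `ω` gives (`inH_walk`, `walk_apex`) a length `d` with `D < d < n` (a walk of length `≤ D` ends
in the ball), an injective `z : Fin (d+1) → V`, an apex `a : Fin (d+1)` and a monotone `s : Fin d → Fin (K+1)`, and `(x, y)` is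
read off from `z`.  For fixed `(d, z, a, s)` the event prescribes parent and bit on the `d` vertices `z i`, `i ≠ a`, so it has
at most `card OmF / (2 n) ^ d` elements (`pitman_bits`).  There are at most `n ^ (d+1) * (d+1) * (d+1) ^ K` such data
(`mono_count`).

-/

set_option autoImplicit false

namespace Pool.Agent.Work.MP_be9894_co.AA

open Finset

/-- truncated tail sum -/
noncomputable def tl (K D N : ℕ) : ℝ := ∑ d ∈ Ioo D N, ((d : ℝ) + 1) ^ (K + 1) / 2 ^ d

variable {V : Type} [Fintype V]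

open Classical in
noncomputable def farP (r : V → V → Prop) (K D : ℕ) : Finset (V × V) :=
  univ.filter fun e => inH r false e.1 K e.2 ∧ e.2 ∉ ball r e.1 D

lemma mem_farP {r : V → V → Prop} {K D : ℕ} {e : V × V} :
    e ∈ farP r K D ↔ inH r false e.1 K e.2 ∧ e.2 ∉ ball r e.1 D := by simp [farP]

variable [DecidableEq V]

lemma far_pit {ι : Type} [Fintype ι] (c par : ι → V) (bit : ι → Bool) (hc : Function.Injective c)
    (hp : ∀ i, par i ≠ c i) :
    (evt fun ω : Om V => ∀ i, ω.1 (c i) = par i ∧ ω.2 (c i) = bit i).card *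
      (2 * Fintype.card V) ^ Fintype.card ι ≤ (OmF V).card := by
  have h := pitman_bits (V := V) (univ.map ⟨c, hc⟩) (Function.extend c par id)
    (Function.extend c bit fun _ => false)
  rw [card_map, card_univ] at h
  refine le_trans (Nat.mul_le_mul_right _ (card_le_card fun ω hω => ?_)) h
  obtain ⟨h1, h2⟩ := mem_evt.1 hω
  refine mem_evt.2 ⟨h1, fun y hy => ?_⟩
  obtain ⟨i, -, rfl⟩ := mem_map.1 hy
  simp only [Function.Embedding.coeFn_mk, hc.extend_apply]
  exact ⟨(h2 i).1, hp i, (h2 i).2⟩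

/-- walks with an apex and stage labels -/
abbrev far_T (V : Type) (K d : ℕ) : Type := (Fin (d + 1) → V) × Fin (d + 1) × (Fin d → Fin (K + 1))

open Classical in
/-- the admissible data -/
noncomputable def far_data (V : Type) [Fintype V] [DecidableEq V] (K d : ℕ) : Finset (far_T V K d) :=
  (univ.filter Function.Injective) ×ˢ univ ×ˢ univ.filter Monotone

/-- the event attached to a datum -/
def far_ev {K d : ℕ} (t : far_T V K d) (ω : Om V) : Prop :=
  ∀ i : Fin d, ω.1 (t.1 (t.2.1.succAbove i)) =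
      (if i.castSucc < t.2.1 then t.1 i.succ else t.1 i.castSucc) ∧
    ω.2 (t.1 (t.2.1.succAbove i)) =
      if i.castSucc < t.2.1 then !tp false (t.2.2 i) else tp false (t.2.2 i)

lemma far_data_card (K d : ℕ) :
    (far_data V K d).card ≤ Fintype.card V ^ (d + 1) * ((d + 1) * (d + 1) ^ K) := by
  classical
  rw [far_data, card_product, card_product]
  refine Nat.mul_le_mul ((card_filter_le _ _).trans (by simp)) (Nat.mul_le_mul (by simp) ?_)
  convert mono_count d K

lemma far_ev_card {K d : ℕ} {t : far_T V K d} (ht : t ∈ far_data V K d) :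
    (evt (far_ev t)).card * (2 * Fintype.card V) ^ d ≤ (OmF V).card := by
  classical
  have hz : Function.Injective t.1 := (mem_filter.1 (mem_product.1 ht).1).2
  have h := far_pit (fun i : Fin d => t.1 (t.2.1.succAbove i))
    (fun i => if i.castSucc < t.2.1 then t.1 i.succ else t.1 i.castSucc)
    (fun i => if i.castSucc < t.2.1 then !tp false (t.2.2 i) else tp false (t.2.2 i))
    (hz.comp Fin.succAbove_right_injective) fun i => by
      simp only [Fin.succAbove]
      split_ifs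
      · exact hz.ne (Fin.castSucc_lt_succ (i := i)).ne'
      · exact hz.ne (Fin.castSucc_lt_succ (i := i)).ne
  rwa [Fintype.card_fin] at h

omit [DecidableEq V] in
lemma far_ball {r : V → V → Prop} {d : ℕ} {z : ℕ → V} {τ : ℕ → Bool}
    (hs : ∀ i < d, step r (τ i) (z i) (z (i + 1))) : ∀ i ≤ d, z i ∈ ball r (z 0) i := by
  intro i
  induction i with
  | zero => exact fun _ => mem_ball_zero.2 rfl
  | succ i ih =>
    intro hi
    refine mem_ball_succ.2 (Or.inr ⟨z i, ih (by omega), ?_⟩)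
    have := hs i (by omega)
    unfold step at this
    split_ifs at this
    · exact Or.inr this
    · exact Or.inl this

lemma far_datum {ω : Om V} {K D : ℕ} {e : V × V} (he : e ∈ farP (rel ω) K D) :
    ∃ d ∈ Ioo D (Fintype.card V), ∃ t ∈ far_data V K d, far_ev t ω ∧
      (t.1 0, t.1 (Fin.last d)) = e := by
  classical
  obtain ⟨h1, h2⟩ := mem_farP.1 he
  obtain ⟨d, z, s, z0, zd, hz, hm, hs⟩ := inH_walk h1
  obtain ⟨a, ha, up, dn⟩ := walk_apex (τ := fun i => tp false (s i)) hz fun i hi => (hs i hi).2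
  have hi : Function.Injective fun i : Fin (d + 1) => z i := fun i j h =>
    Fin.ext (hz i (by omega) j (by omega) h)
  refine ⟨d, mem_Ioo.2 ⟨?_, ?_⟩, (fun i => z i, ⟨a, by omega⟩,
    fun i => ⟨s i, Nat.lt_succ_of_le (hs i i.2).1⟩), ?_, fun i => ?_, ?_⟩
  · by_contra h
    have := far_ball (τ := fun i => tp false (s i)) (fun i hi => (hs i hi).2) d le_rfl
    rw [z0, zd] at this
    exact h2 (ball_mono (not_lt.1 h) this)
  · have := Fintype.card_le_of_injective _ hi
    rw [Fintype.card_fin] at this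
    omega
  · refine mem_product.2 ⟨mem_filter.2 ⟨mem_univ _, hi⟩, mem_product.2 ⟨mem_univ _,
      mem_filter.2 ⟨mem_univ _, fun i j h => ?_⟩⟩⟩
    exact hm i j h j.2
  · simp only [Fin.succAbove]
    split_ifs with h
    · exact up i h
    · exact dn i (not_lt.1 h) i.2
  · exact Prod.ext z0 zd

open Classical in
lemma far_card (ω : Om V) (K D : ℕ) : (farP (rel ω) K D).card ≤
    ∑ d ∈ Ioo D (Fintype.card V), ((far_data V K d).filter fun t => far_ev t ω).card := by
  have h : farP (rel ω) K D ⊆ (Ioo D (Fintype.card V)).biUnion fun d =>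
      ((far_data V K d).filter fun t => far_ev t ω).image fun t => (t.1 0, t.1 (Fin.last d)) := by
    intro e he
    obtain ⟨d, hd, t, ht, h1, h2⟩ := far_datum he
    exact mem_biUnion.2 ⟨d, hd, mem_image.2 ⟨t, mem_filter.2 ⟨ht, h1⟩, h2⟩⟩
  exact (card_le_card h).trans (card_biUnion_le.trans (sum_le_sum fun d _ => card_image_le))

open Classical in
lemma far_level (K d : ℕ) (hn : 0 < Fintype.card V) :
    ∑ ω ∈ OmF V, (((far_data V K d).filter fun t => far_ev t ω).card : ℝ) ≤
      Fintype.card V * (OmF V).card * (((d : ℝ) + 1) ^ (K + 1) / 2 ^ d) := by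
  have h1 : ∑ ω ∈ OmF V, ((far_data V K d).filter fun t => far_ev t ω).card =
      ∑ t ∈ far_data V K d, (evt (far_ev t)).card := by
    simp only [card_filter, evt]
    exact sum_comm
  have h2 : (∑ t ∈ far_data V K d, (evt (far_ev t)).card) * (2 * Fintype.card V) ^ d ≤
      Fintype.card V ^ (d + 1) * ((d + 1) * (d + 1) ^ K) * (OmF V).card := by
    rw [sum_mul]
    exact (sum_le_card_nsmul _ _ _ fun t ht => far_ev_card ht).trans
      (Nat.mul_le_mul_right _ (far_data_card K d))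
  rw [← h1] at h2
  have h3 := (Nat.cast_le (α := ℝ)).2 h2
  push_cast at h3
  have h4 : (0 : ℝ) < (Fintype.card V : ℝ) ^ d := pow_pos (Nat.cast_pos.2 hn) d
  rw [← mul_div_assoc, le_div_iff₀ (by positivity)]
  refine le_of_mul_le_mul_right ?_ h4
  rw [mul_assoc, ← mul_pow]
  refine h3.trans (le_of_eq ?_)
  ring

theorem far_sum (K D : ℕ) : ∑ ω ∈ OmF V, ((farP (rel ω) K D).card : ℝ) ≤
    Fintype.card V * (OmF V).card * tl K D (Fintype.card V) := by
  classical
  rw [tl, mul_sum]
  refine le_trans (sum_le_sum fun ω _ => (Nat.cast_le (α := ℝ)).2 (far_card ω K D)) ?_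
  push_cast
  rw [sum_comm]
  refine sum_le_sum fun d hd => far_level K d ?_
  have := (mem_Ioo.1 hd).2
  omega

end Pool.Agent.Work.MP_be9894_co.AA
end

-- merged part: Pool.Agent.Work.MP_be9894_co.AA.Params
section
/-!
Choice of the constants (pure analysis).

`tl_small`: the series of `(d+1) ^ (K+1) / 2 ^ d` is summable (`summable_pow_mul_geometric_of_norm_lt_one`), so its tails tend to zero.

`params`: make each of the six terms at most `ε / 6`.  Order: `c ≥ 16` with `12 / c ≤ ε / 6`, `θ = n / c` (so `n ≤ 2 c θ` for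
`n ≥ c`); `r` with `64 c ^ 3 / r ≤ ε / 6`; `K` with `8 c (r+1) ^ 2 / K ≤ ε / 6`; `k = 3 K + 2`; `q` with `32 / q ≤ ε / 6`,
`M = sqrt n / q` (so `sqrt n ≤ 2 q M` and `n ≤ 16 q ^ 2 M ^ 2` for large `n`, and `2 M + 7 ≤ θ` for large `n`); `D` with
`32 q ^ 2 * tl ≤ ε / 6`; `Δ = Nat.log 2 n`, so `2 ^ Δ ≤ n < 2 ^ (Δ+1)`; `2 ^ (Δ+1) / Δ!` tends to zero, and
`16 q ^ 2 * 4 * (Δ+1) ^ (2 D) ≤ 2 ^ Δ` for large `Δ`.
-/

set_option autoImplicit false

namespace Pool.Agent.Work.MP_be9894_co.AA

open Finset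

lemma tl_small (K : ℕ) {ε : ℝ} (hε : 0 < ε) : ∃ D, ∀ N, tl K D N ≤ ε := by
  have h1 : Summable fun d : ℕ => (d : ℝ) ^ (K + 1) * (1 / 2 : ℝ) ^ d :=
    summable_pow_mul_geometric_of_norm_lt_one (K + 1) (by norm_num)
  have h2 : Summable fun d : ℕ => ((d : ℝ) + 1) ^ (K + 1) / 2 ^ d := by
    refine (((summable_nat_add_iff 1).2 h1).mul_left 2).congr fun d => ?_
    push_cast
    rw [one_div, inv_pow, pow_succ (2 : ℝ) d]
    field_simp
  obtain ⟨s, hs⟩ := h2.vanishing (Iic_mem_nhds hε)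
  refine ⟨s.sup id, fun N => hs _ (disjoint_left.2 fun d hd hd' => ?_)⟩
  exact absurd (le_sup (f := id) hd') (not_le.2 (mem_Ioo.1 hd).1)

/-- the union bound -/
noncomputable def bnd (n k θ M Δ D r K : ℕ) : ℝ :=
  4 * ((θ : ℝ) + 2 * M + 7) / n + (n : ℝ) / Δ.factorial + 2 * n * tl (2 * k + 2) D n / (M : ℝ) ^ 2 +
    (2 * (n : ℝ)) ^ 3 / (r * (θ : ℝ) ^ 3) + 4 * n * ((r : ℝ) + 1) ^ 2 / (K * θ) +
    16 * M * ((Nat.sqrt n : ℝ) + 1) / n

lemma params_inv (a : ℝ) {η : ℝ} (hη : 0 < η) : ∃ m : ℕ, 8 ≤ m ∧ a / m ≤ η := by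
  obtain ⟨m, hm⟩ := exists_nat_ge (max 8 (a / η))
  have h1 : (8 : ℝ) ≤ m := (le_max_left _ _).trans hm
  have h2 := (div_le_iff₀ hη).1 ((le_max_right _ _).trans hm)
  exact ⟨m, by exact_mod_cast h1, (div_le_iff₀ (by linarith)).2 (by linarith)⟩

lemma params_log (q D : ℕ) {η : ℝ} (hη : 0 < η) : ∃ Δ0 : ℕ, ∀ Δ ≥ Δ0,
    (2 : ℝ) ^ (Δ + 1) / Δ.factorial ≤ η ∧ 4 * q ^ 2 * (2 * (Δ + 1) ^ D) ^ 2 ≤ 2 ^ Δ := by
  have h1 := (FloorSemiring.tendsto_pow_div_factorial_atTop (2 : ℝ)).const_mul 2
  have h2 := ((tendsto_pow_const_div_const_pow_of_one_lt (2 * D) (one_lt_two (α := ℝ))).comp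
    (Filter.tendsto_add_atTop_nat 1)).const_mul (32 * (q : ℝ) ^ 2)
  rw [mul_zero] at h1 h2
  obtain ⟨Δ0, h⟩ := Filter.eventually_atTop.1
    ((h1.eventually (Iic_mem_nhds hη)).and (h2.eventually (Iic_mem_nhds one_pos)))
  refine ⟨Δ0, fun Δ hΔ => ⟨?_, ?_⟩⟩
  · rw [pow_succ', mul_div_assoc]
    exact (h Δ hΔ).1
  · have h3 : 32 * (q : ℝ) ^ 2 * (((Δ + 1 : ℕ) : ℝ) ^ (2 * D) / 2 ^ (Δ + 1)) ≤ 1 := (h Δ hΔ).2
    rw [← mul_div_assoc, div_le_one (by positivity), pow_succ (2 : ℝ) Δ, pow_mul'] at h3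
    have h4 : 4 * (q : ℝ) ^ 2 * (2 * ((Δ + 1 : ℕ) : ℝ) ^ D) ^ 2 ≤ 2 ^ Δ := by linarith
    exact_mod_cast h4

theorem params {ε : ℝ} (hε : 0 < ε) : ∃ k n0 : ℕ, ∀ n ≥ n0, ∃ θ M Δ D r K : ℕ,
    0 < θ ∧ 0 < M ∧ 0 < r ∧ 0 < K ∧ 4 * (θ + 2 * M + 6) + 4 ≤ n ∧ 2 * (Δ + 1) ^ D ≤ M ∧ 3 * K + 2 ≤ k ∧
      bnd n k θ M Δ D r K ≤ ε := by
  have hη : 0 < ε / 6 := by positivity
  obtain ⟨c, c8, hc⟩ := params_inv 8 hη
  obtain ⟨r, r8, hr⟩ := params_inv (64 * (c : ℝ) ^ 3) hη
  obtain ⟨K, K8, hK⟩ := params_inv (8 * c * ((r : ℝ) + 1) ^ 2) hη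
  obtain ⟨q, q8, hq⟩ := params_inv 32 hη
  have q0 : (0 : ℝ) < q := by exact_mod_cast (by omega : 0 < q)
  have c0 : (0 : ℝ) < c := by exact_mod_cast (by omega : 0 < c)
  have r0 : (0 : ℝ) < r := by exact_mod_cast (by omega : 0 < r)
  have K0 : (0 : ℝ) < K := by exact_mod_cast (by omega : 0 < K)
  obtain ⟨D, hD⟩ := tl_small (2 * (3 * K + 2) + 2) (ε := ε / 6 / (8 * (q : ℝ) ^ 2)) (by positivity)
  obtain ⟨Δ0, hΔ⟩ := params_log q D hη
  refine ⟨3 * K + 2, max (2 ^ Δ0) ((18 * c + q) ^ 2), fun n hn => ?_⟩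
  obtain ⟨d1, d2⟩ := hΔ (Nat.log 2 n)
    (Nat.le_log_of_pow_le one_lt_two ((le_max_left _ _).trans hn))
  have s1 : 18 * c + q ≤ n.sqrt := Nat.le_sqrt'.2 ((le_max_right _ _).trans hn)
  have s2 : n.sqrt ^ 2 ≤ n := Nat.sqrt_le' n
  have s3 : n < (n.sqrt + 1) ^ 2 := Nat.lt_succ_sqrt' n
  have s4 : n.sqrt ≤ n := Nat.sqrt_le_self n
  have l1 : 2 ^ Nat.log 2 n ≤ n := Nat.pow_log_le_self 2 (by omega)
  have l2 : n < 2 ^ (Nat.log 2 n + 1) := Nat.lt_pow_succ_log_self one_lt_two n
  have t1 : c * (n / c) ≤ n := Nat.mul_div_le n c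
  have t2 : n < c * (n / c + 1) := Nat.lt_mul_div_succ n (by omega)
  have t3 : 0 < n / c := Nat.div_pos (by omega) (by omega)
  have m1 : q * (n.sqrt / q) ≤ n.sqrt := Nat.mul_div_le _ q
  have m2 : n.sqrt < q * (n.sqrt / q + 1) := Nat.lt_mul_div_succ _ (by omega)
  have m3 : 0 < n.sqrt / q := Nat.div_pos (by omega) (by omega)
  have m4 : n.sqrt / q ≤ n.sqrt := Nat.div_le_self _ _
  generalize n / c = θ at *
  generalize n.sqrt / q = M at *
  generalize Nat.log 2 n = Δ at *
  have hs : bnd n (3 * K + 2) θ M Δ D r K = 4 * ((θ : ℝ) + 2 * M + 7) / n + (n : ℝ) / Δ.factorial +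
      2 * n * tl (2 * (3 * K + 2) + 2) D n / (M : ℝ) ^ 2 + (2 * (n : ℝ)) ^ 3 / (r * (θ : ℝ) ^ 3) +
      4 * n * ((r : ℝ) + 1) ^ 2 / (K * θ) + 16 * M * ((n.sqrt : ℝ) + 1) / n := rfl
  generalize n.sqrt = s at *
  have t4 : n ≤ 2 * c * θ := by linarith only [c8, q8, t2, s1, s4, Nat.mul_le_mul_left c t3]
  have m5 : s + 1 ≤ 2 * q * M := by linarith only [m3, m2, Nat.mul_le_mul_left q m3]
  have m6 : n < (2 * q * M) ^ 2 := s3.trans_le (Nat.pow_le_pow_left m5 2)
  have t5 : 2 * M + 7 ≤ θ := by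
    refine Nat.le_of_mul_le_mul_left (c := 2 * c) ?_ (by omega)
    have : 2 * c * (2 * M + 7) ≤ 2 * c * (9 * s) := Nat.mul_le_mul_left _ (by omega)
    have : 18 * c * s ≤ s * s := Nat.mul_le_mul_right _ (by omega)
    linarith
  have t6 : 8 * θ ≤ c * θ := Nat.mul_le_mul_right _ c8
  refine ⟨θ, M, Δ, D, r, K, t3, m3, by omega, by omega, by omega, ?_, le_rfl, ?_⟩
  · have h1 : 4 * q ^ 2 * (2 * (Δ + 1) ^ D) ^ 2 < 4 * q ^ 2 * M ^ 2 :=
      (d2.trans l1).trans_lt (m6.trans_eq (by ring))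
    exact (lt_of_pow_lt_pow_left₀ 2 (Nat.zero_le _) (Nat.lt_of_mul_lt_mul_left h1)).le
  have n0 : (0 : ℝ) < n := by exact_mod_cast (by omega : 0 < n)
  have θ0 : (0 : ℝ) < θ := by exact_mod_cast t3
  have M0 : (0 : ℝ) < M := by exact_mod_cast m3
  have T1 : (c : ℝ) * θ ≤ n := by exact_mod_cast t1
  have T4 : (n : ℝ) ≤ 2 * c * θ := by exact_mod_cast t4
  have T5 : 2 * (M : ℝ) + 7 ≤ θ := by exact_mod_cast t5
  have M1 : (q : ℝ) * M ≤ s := by exact_mod_cast m1
  have M6 : (n : ℝ) ≤ (2 * q * M) ^ 2 := by exact_mod_cast m6.le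
  have S1 : (1 : ℝ) ≤ s := by exact_mod_cast (by omega : 1 ≤ s)
  have S2 : (s : ℝ) ^ 2 ≤ n := by exact_mod_cast s2
  have L2 : (n : ℝ) ≤ 2 ^ (Δ + 1) := by exact_mod_cast l2.le
  have e1 : 4 * ((θ : ℝ) + 2 * M + 7) / n ≤ ε / 6 := by
    refine le_trans ?_ hc
    rw [div_le_div_iff₀ n0 c0]
    linarith only [c0, T1, T5, mul_le_mul_of_nonneg_left T5 c0.le]
  have e2 : (n : ℝ) / Δ.factorial ≤ ε / 6 :=
    (div_le_div_of_nonneg_right L2 (Nat.cast_nonneg _)).trans d1
  have e3 : 2 * n * tl (2 * (3 * K + 2) + 2) D n / (M : ℝ) ^ 2 ≤ ε / 6 := by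
    rw [div_le_iff₀ (by positivity)]
    calc 2 * n * tl (2 * (3 * K + 2) + 2) D n ≤ 2 * n * (ε / 6 / (8 * (q : ℝ) ^ 2)) :=
          mul_le_mul_of_nonneg_left (hD n) (by positivity)
      _ ≤ 2 * (2 * q * M) ^ 2 * (ε / 6 / (8 * (q : ℝ) ^ 2)) := by gcongr
      _ = ε / 6 * (M : ℝ) ^ 2 := by field_simp; ring
  have e4 : (2 * (n : ℝ)) ^ 3 / (r * (θ : ℝ) ^ 3) ≤ ε / 6 := by
    refine le_trans ?_ hr
    calc (2 * (n : ℝ)) ^ 3 / (r * (θ : ℝ) ^ 3) ≤ (2 * (2 * c * θ)) ^ 3 / (r * (θ : ℝ) ^ 3) := by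
          gcongr
      _ = 64 * (c : ℝ) ^ 3 / r := by field_simp; ring
  have e5 : 4 * n * ((r : ℝ) + 1) ^ 2 / (K * θ) ≤ ε / 6 := by
    refine le_trans ?_ hK
    calc 4 * n * ((r : ℝ) + 1) ^ 2 / (K * θ) ≤ 4 * (2 * c * θ) * ((r : ℝ) + 1) ^ 2 / (K * θ) := by
          gcongr
      _ = 8 * c * ((r : ℝ) + 1) ^ 2 / K := by field_simp; ring
  have e6 : 16 * M * ((s : ℝ) + 1) / n ≤ ε / 6 := by
    refine le_trans ?_ hq
    rw [div_le_div_iff₀ n0 q0]
    have : (q : ℝ) * M * (s + 1) ≤ s * (s + 1) := mul_le_mul_of_nonneg_right M1 (by positivity)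
    linarith only [S1, S2, this, mul_le_mul_of_nonneg_left S1 (zero_le_one.trans S1)]
  rw [hs]
  linarith only [e1, e2, e3, e4, e5, e6]

end Pool.Agent.Work.MP_be9894_co.AA
end

-- merged part: Pool.Agent.Work.MP_be9894_co.AA.BParams
section
/-!
Choice of the constants (pure analysis); reuse the lemmas of `Params.lean`.  Make each of the seven terms at most `ε / 7`.  As there: `c`, `θ = n / c`, `r`, `K`, `k = 3 K + 2`.
Let `s` be the integer with `s ^ 40 ≤ n < (s+1) ^ 40 ≤ (2 s) ^ 40` (`Nat.findGreatest` or `Nat.nthRoot`); it tends to infinity.  Put `D = s`, `M = s ^ 4`, `t = s ^ 12`, `h = s ^ 24`, `j = 41`.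
Then `n * tl K' s n ≤ 2 ^ 40 * tl (K' + 40) s n` (each `d > s`), which is small by `tl_small` and monotonicity in `D`; the ball term is at most `(2 s) ^ 40 * (168 / s) ^ 41`;
`36 M / √t = 36 / s ^ 2`; `n * exp (- h ^ 2 / (2 n)) ≤ (2 s) ^ 40 * exp (- s ^ 8 / 2 ^ 41)` (use `x ^ 6 / 6! ≤ exp x`); `(2 h + 1) t ≤ 3 s ^ 36 < s ^ 40`; `(2 M + 7) c ≤ s ^ 40`.
-/

set_option autoImplicit false

namespace Pool.Agent.Work.MP_be9894_co.AA

open Finset

/-- the union bound -/
noncomputable def bnd2 (n k θ M D r K t h j : ℕ) : ℝ :=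
  4 * ((θ : ℝ) + 2 * M + 7) / n +
    (n * tl (2 * k + 2) D n + n * ((1 + (j : ℝ) * D) * ((D : ℝ) + 1) ^ 2) ^ j / (M : ℝ) ^ j) +
    (2 * (n : ℝ)) ^ 3 / (r * (θ : ℝ) ^ 3) + 4 * n * ((r : ℝ) + 1) ^ 2 / (K * θ) +
    36 * M / √t + n * Real.exp (-((h : ℝ) ^ 2) / (2 * n))

lemma bparams_tl (K D s n m : ℕ) (h1 : D ≤ s) (h2 : n ≤ (s + 1) ^ m) :
    n * tl K s n ≤ tl (K + m) D n := by
  rw [tl, tl, mul_sum]
  refine (sum_le_sum fun d hd => ?_).trans (sum_le_sum_of_subset_of_nonneg
    (Ioo_subset_Ioo_left h1) fun _ _ _ => by positivity)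
  have h3 : n ≤ (d + 1) ^ m :=
    h2.trans (Nat.pow_le_pow_left (Nat.succ_le_succ (mem_Ioo.1 hd).1.le) _)
  have h4 : (n : ℝ) ≤ ((d : ℝ) + 1) ^ m := by exact_mod_cast h3
  rw [← mul_div_assoc, show K + m + 1 = m + (K + 1) by ring, pow_add _ m]
  gcongr

lemma bparams_ball {s n : ℝ} (h1 : 1 ≤ s) (h2 : n ≤ (2 * s) ^ 40) :
    n * ((1 + 41 * s) * (s + 1) ^ 2) ^ 41 / (s ^ 4) ^ 41 ≤ 2 ^ 40 * 168 ^ 41 / s := by
  have h3 : (1 + 41 * s) * (s + 1) ^ 2 ≤ 42 * s * (2 * s) ^ 2 := by
    gcongr <;> linarith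
  calc n * ((1 + 41 * s) * (s + 1) ^ 2) ^ 41 / (s ^ 4) ^ 41
      ≤ (2 * s) ^ 40 * (42 * s * (2 * s) ^ 2) ^ 41 / (s ^ 4) ^ 41 := by gcongr
    _ = 2 ^ 40 * 168 ^ 41 / s := by
      field_simp
      norm_num

lemma bparams_sqrt {s : ℝ} (h1 : 1 ≤ s) : 36 * s ^ 4 / √(s ^ 12) ≤ 36 / s := by
  rw [show s ^ 12 = (s ^ 6) ^ 2 by ring, Real.sqrt_sq (by positivity),
    div_le_div_iff₀ (by positivity) (by positivity), mul_assoc, ← pow_succ]
  exact mul_le_mul_of_nonneg_left (pow_le_pow_right₀ h1 (by norm_num)) (by norm_num)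

lemma bparams_exp {s n : ℝ} (h1 : 1 ≤ s) (h0 : 0 < n) (h2 : n ≤ (2 * s) ^ 40) :
    n * Real.exp (-((s ^ 24) ^ 2) / (2 * n)) ≤ 2 ^ 40 * (720 * (2 ^ 41) ^ 6) / s := by
  have h3 : s ^ 8 / 2 ^ 41 ≤ (s ^ 24) ^ 2 / (2 * n) := by
    calc s ^ 8 / 2 ^ 41 = (s ^ 24) ^ 2 / (2 * (2 * s) ^ 40) := by field_simp
      _ ≤ _ := by gcongr
  have h4 := Real.pow_div_factorial_le_exp (s ^ 8 / 2 ^ 41) (by positivity) 6
  have h5 : (s ^ 8 / 2 ^ 41) ^ 6 / 720 ≤ Real.exp ((s ^ 24) ^ 2 / (2 * n)) := by
    refine le_trans (le_of_eq ?_) (h4.trans (Real.exp_le_exp.2 h3))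
    norm_num [Nat.factorial]
  rw [neg_div, Real.exp_neg]
  calc n * (Real.exp ((s ^ 24) ^ 2 / (2 * n)))⁻¹
      ≤ (2 * s) ^ 40 * ((s ^ 8 / 2 ^ 41) ^ 6 / 720)⁻¹ := by gcongr
    _ = 2 ^ 40 * (720 * (2 ^ 41) ^ 6) / s ^ 8 := by field_simp
    _ ≤ _ := div_le_div_of_nonneg_left (by positivity) (by positivity)
      (le_self_pow₀ h1 (by norm_num))

theorem params2 {ε : ℝ} (hε : 0 < ε) : ∃ k n0 : ℕ, ∀ n ≥ n0, ∃ θ M D r K t h j : ℕ,
    0 < θ ∧ 0 < M ∧ 0 < r ∧ 0 < K ∧ 0 < h ∧ 4 * (θ + 2 * M + 6) + 4 ≤ n ∧ 3 * K + 2 ≤ k ∧ 2 * M ≤ t ∧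
      (2 * h + 1) * t < n ∧ bnd2 n k θ M D r K t h j ≤ ε := by
  have hη : 0 < ε / 7 := by positivity
  obtain ⟨c, c8, hc⟩ := params_inv 8 hη
  obtain ⟨r, r8, hr⟩ := params_inv (64 * (c : ℝ) ^ 3) hη
  obtain ⟨K, K8, hK⟩ := params_inv (8 * c * ((r : ℝ) + 1) ^ 2) hη
  obtain ⟨q1, p1, hq1⟩ := params_inv (2 ^ 40 * 168 ^ 41) hη
  obtain ⟨q2, p2, hq2⟩ := params_inv 36 hη
  obtain ⟨q3, p3, hq3⟩ := params_inv (2 ^ 40 * (720 * (2 ^ 41) ^ 6)) hη
  have q0 : ∀ {a : ℝ} {q s : ℕ}, 0 ≤ a → a / q ≤ ε / 7 → q ≤ s → 8 ≤ q → a / s ≤ ε / 7 :=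
    fun {a q s} ha h hs hq => le_trans (div_le_div_of_nonneg_left ha
      (Nat.cast_pos.2 (by omega)) (Nat.cast_le.2 hs)) h
  have c0 : (0 : ℝ) < c := by exact_mod_cast (by omega : 0 < c)
  have r0 : (0 : ℝ) < r := by exact_mod_cast (by omega : 0 < r)
  have K0 : (0 : ℝ) < K := by exact_mod_cast (by omega : 0 < K)
  obtain ⟨D, hD⟩ := tl_small (2 * (3 * K + 2) + 2 + 40) hη
  refine ⟨3 * K + 2, (18 * c + q1 + q2 + q3 + D) ^ 40, fun n hn => ?_⟩
  have s1 : 18 * c + q1 + q2 + q3 + D ≤ Nat.nthRoot 40 n := (Nat.le_nthRoot_iff (by norm_num)).2 hn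
  have s2 : Nat.nthRoot 40 n ^ 40 ≤ n := Nat.pow_nthRoot_le (Or.inl (by norm_num))
  have s3 : n < (Nat.nthRoot 40 n + 1) ^ 40 := Nat.lt_pow_nthRoot_add_one (by norm_num) n
  clear hn
  revert s2 s3
  generalize Nat.nthRoot 40 n = s at s1
  have u1 : s + 1 ≤ 2 * s := by omega
  have u2 : 0 < s := by omega
  have u3 : 18 * c ≤ s := by omega
  have u4 : 2 ≤ s := by omega
  have u5 : 3 < s := by omega
  have u6 : 0 < c := by omega
  have u7 : c ≤ 18 * c := by omega
  have u8 : q1 ≤ s := by omega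
  have u9 : q2 ≤ s := by omega
  have u10 : q3 ≤ s := by omega
  have u11 : D ≤ s := by omega
  have u12 : 0 < 2 * c := by omega
  have u13 : 0 < r := by omega
  have u14 : 0 < K := by omega
  intro s2 s3
  have s4 : n ≤ (2 * s) ^ 40 := s3.le.trans (Nat.pow_le_pow_left u1 _)
  have s5 : ∀ {a b : ℕ}, a ≤ b → s ^ a ≤ s ^ b := fun h => Nat.pow_le_pow_right u2 h
  have s6 : 0 < s ^ 4 := Nat.pow_pos u2
  have s7 : 0 < s ^ 24 := Nat.pow_pos u2
  have s8 : 18 * c * s ^ 4 ≤ n :=
    (Nat.mul_le_mul_right _ u3).trans ((pow_succ' s 4).ge.trans ((s5 (by norm_num)).trans s2))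
  have s9 : 2 * s ^ 4 ≤ s ^ 12 :=
    (Nat.mul_le_mul_right _ u4).trans ((pow_succ' s 4).ge.trans (s5 (by norm_num)))
  have s10 : (2 * s ^ 24 + 1) * s ^ 12 < n := by
    have h1 : 2 * s ^ 24 + 1 < s * s ^ 24 :=
      lt_of_le_of_lt (by linarith only [s7]) (Nat.mul_lt_mul_of_pos_right u5 s7)
    refine (Nat.mul_lt_mul_of_pos_right h1 (Nat.pow_pos u2)).trans_le (le_trans ?_ s2)
    rw [← pow_succ', ← pow_add]
    exact s5 (by norm_num)
  have s11 : c ≤ n := le_trans (Nat.le_mul_of_pos_right c s6) (le_trans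
    (Nat.mul_le_mul_right _ u7) s8)
  have t1 : c * (n / c) ≤ n := Nat.mul_div_le n c
  have t2 : n < c * (n / c + 1) := Nat.lt_mul_div_succ n u6
  have t3 : 0 < n / c := Nat.div_pos s11 u6
  generalize n / c = θ at t1 t2 t3
  have t4 : n ≤ 2 * c * θ := by linarith only [t2, Nat.mul_le_mul_left c t3]
  have t5 : 2 * s ^ 4 + 7 ≤ θ := by
    refine Nat.le_of_mul_le_mul_left (c := 2 * c) ?_ u12
    have h1 : 2 * c * (2 * s ^ 4 + 7) ≤ 2 * c * (9 * s ^ 4) :=
      Nat.mul_le_mul_left _ (by linarith only [s6])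
    linarith only [h1, s8, t4]
  have t6 : 8 * θ ≤ c * θ := Nat.mul_le_mul_right _ c8
  refine ⟨θ, s ^ 4, s, r, K, s ^ 12, s ^ 24, 41, t3, s6, u13, u14, s7,
    by linarith only [t1, t5, t6], le_rfl, s9, s10, ?_⟩
  have n0 : (0 : ℝ) < n := Nat.cast_pos.2 (u6.trans_le s11)
  have θ0 : (0 : ℝ) < θ := by exact_mod_cast t3
  have T1 : (c : ℝ) * θ ≤ n := by exact_mod_cast t1
  have T4 : (n : ℝ) ≤ 2 * c * θ := by exact_mod_cast t4
  have T5 : 2 * (s : ℝ) ^ 4 + 7 ≤ θ := by exact_mod_cast t5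
  have S1 : (1 : ℝ) ≤ s := Nat.one_le_cast.2 u2
  have S4 : (n : ℝ) ≤ (2 * s) ^ 40 := by exact_mod_cast s4
  have e2 := (bparams_tl (2 * (3 * K + 2) + 2) D s n 40 u11 s3.le).trans (hD n)
  clear s2 s3 s4 s5 s6 s7 s8 s9 s10 t5
  have e1 : 4 * ((θ : ℝ) + 2 * (s : ℝ) ^ 4 + 7) / n ≤ ε / 7 := by
    refine le_trans ?_ hc
    rw [div_le_div_iff₀ n0 c0]
    linarith only [T1, mul_le_mul_of_nonneg_left T5 c0.le]
  have e3 := (bparams_ball S1 S4).trans (q0 (by positivity) hq1 u8 p1)
  have e4 : (2 * (n : ℝ)) ^ 3 / (r * (θ : ℝ) ^ 3) ≤ ε / 7 := by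
    refine le_trans ?_ hr
    calc (2 * (n : ℝ)) ^ 3 / (r * (θ : ℝ) ^ 3) ≤ (2 * (2 * c * θ)) ^ 3 / (r * (θ : ℝ) ^ 3) := by
          gcongr
      _ = 64 * (c : ℝ) ^ 3 / r := by field_simp; ring
  have e5 : 4 * n * ((r : ℝ) + 1) ^ 2 / (K * θ) ≤ ε / 7 := by
    refine le_trans ?_ hK
    calc 4 * n * ((r : ℝ) + 1) ^ 2 / (K * θ) ≤ 4 * (2 * c * θ) * ((r : ℝ) + 1) ^ 2 / (K * θ) := by
          gcongr
      _ = 8 * c * ((r : ℝ) + 1) ^ 2 / K := by field_simp; ring
  have e6 := (bparams_sqrt S1).trans (q0 (by positivity) hq2 u9 p2)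
  have e7 := (bparams_exp S1 n0 S4).trans (q0 (by positivity) hq3 u10 p3)
  rw [bnd2]
  simp only [Nat.cast_pow, Nat.cast_ofNat]
  exact (add_le_add (add_le_add (add_le_add (add_le_add (add_le_add e1 (add_le_add e2 e3)) e4)
    e5) e6) e7).trans_eq (by ring)

end Pool.Agent.Work.MP_be9894_co.AA
end

-- merged part: Pool.Agent.Work.MP_be9894_co.AA.Depth
section
/-!
Expected total depth.

`depth_sum`: a pair `u ∈ sub p y` gives the least `d` with `p^[d] u = y`; then `z i = p^[i] u` is an embedding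
`Fin (d+1) ↪ V` with `p (z i) = z (i+1)`.  So the left side is at most the sum over `d < n` and embeddings `z` of the size of
the event `∀ i < d, p (z i) = z (i+1)`, which is at most `card OmF / n ^ d` (`pitman` with `Y` the image of the first `d`
indices).  There are `n.descFactorial (d+1)` embeddings (`Fintype.card_embedding_eq`).  Finish with `desc_sum`.

`desc_sum`: with `a d = n.descFactorial (d+1) / n ^ (d+1)` one has `a d ≤ 1` and `(d+1) * a d = n * (a d - a (d+1))`, so with
`s = sqrt n + 1` the terms `d ≥ s` sum to at most `n / (s+1) ≤ s`.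
-/

set_option autoImplicit false

namespace Pool.Agent.Work.MP_be9894_co.AA

open Finset

lemma desc_sum (n : ℕ) :
    ∑ d ∈ range n, (n.descFactorial (d + 1) : ℝ) / (n : ℝ) ^ d ≤ 2 * ((Nat.sqrt n : ℝ) + 1) * n := by
  rcases Nat.eq_zero_or_pos n with rfl | hn
  · simp
  have hn' : (0 : ℝ) < n := Nat.cast_pos.2 hn
  obtain ⟨D, hD⟩ : ∃ D : ℕ → ℝ, D = fun d => (n.descFactorial (d + 1) : ℝ) / (n : ℝ) ^ d := ⟨_, rfl⟩
  obtain ⟨s, hs⟩ : ∃ s : ℕ, s = Nat.sqrt n + 1 := ⟨_, rfl⟩
  have h0 : ∀ d, 0 ≤ D d := fun d => by rw [hD]; positivity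
  have h1 : ∀ d, D d ≤ n := fun d => by
    rw [hD, div_le_iff₀ (by positivity), ← pow_succ']
    exact_mod_cast Nat.descFactorial_le_pow n (d + 1)
  have h2 : ∀ d ∈ range n, s * D d ≤ (if d < s then (s * n : ℝ) else 0) + n * (D d - D (d + 1)) := by
    intro d hd
    have h3 : n * (D d - D (d + 1)) = (d + 1) * D d := by
      simp only [hD]
      rw [Nat.descFactorial_succ n (d + 1), Nat.cast_mul, Nat.cast_sub (mem_range.1 hd)]
      push_cast
      field_simp
      ring
    rw [h3]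
    split_ifs with h
    · have := mul_le_mul_of_nonneg_left (h1 d) (Nat.cast_nonneg (α := ℝ) s)
      have := mul_nonneg (show (0 : ℝ) ≤ d + 1 by positivity) (h0 d)
      linarith
    · rw [zero_add]
      exact mul_le_mul_of_nonneg_right (by exact_mod_cast (by omega)) (h0 d)
  have h3 := sum_le_sum h2
  rw [sum_add_distrib, ← mul_sum, ← mul_sum, sum_range_sub', ← sum_filter] at h3
  have h4 : ∑ d ∈ range n with d < s, (s * n : ℝ) ≤ ∑ d ∈ range s, (s * n : ℝ) :=
    sum_le_sum_of_subset_of_nonneg (fun d hd => mem_range.2 (mem_filter.1 hd).2)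
      fun _ _ _ => by positivity
  rw [sum_const (s := range s), card_range, nsmul_eq_mul] at h4
  have h5 : (n : ℝ) ≤ s * s := by
    rw [hs]
    exact_mod_cast (Nat.lt_succ_sqrt n).le
  have h6 : (0 : ℝ) < s := by rw [hs]; positivity
  have h7 : ((Nat.sqrt n : ℝ) + 1) = s := by rw [hs]; push_cast; rfl
  rw [h7]
  refine le_of_mul_le_mul_left ?_ h6
  have h8 := mul_le_mul_of_nonneg_left (show D 0 - D n ≤ s * s by linarith [h1 0, h0 n]) hn'.le
  simp only [hD] at h3 h8
  linarith only [h4, h3, h8]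

variable {V : Type} [Fintype V] [DecidableEq V]

open Classical in
lemma depth_anc (p : V → V) (u : V) : (univ.filter fun y => u ∈ sub p y).card ≤
    ((range (Fintype.card V)).filter fun d =>
      Function.Injective fun i : Fin (d + 1) => p^[i] u).card := by
  refine card_le_card_of_surjOn (fun d => p^[d] u) fun y hy => ?_
  have h := mem_sub.1 (mem_filter.1 hy).2
  have key : ∀ i j, i < j → j ≤ Nat.find h → p^[i] u ≠ p^[j] u := fun i j hij hj e =>
    Nat.find_min h (show Nat.find h - j + i < Nat.find h by omega) (by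
      rw [Function.iterate_add_apply, e, ← Function.iterate_add_apply, Nat.sub_add_cancel hj]
      exact Nat.find_spec h)
  have hi : Function.Injective fun i : Fin (Nat.find h + 1) => p^[i] u := fun i j e => by
    rcases lt_trichotomy i j with h1 | h1 | h1
    · exact absurd e (key i j h1 (Nat.lt_succ_iff.1 j.2))
    · exact h1
    · exact absurd e.symm (key j i h1 (Nat.lt_succ_iff.1 i.2))
  refine ⟨Nat.find h, mem_coe.2 (mem_filter.2 ⟨mem_range.2 ?_, hi⟩), Nat.find_spec h⟩
  simpa [Nat.succ_le_iff] using Fintype.card_le_of_injective _ hi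

open Classical in
lemma depth_emb (p : V → V) (d : ℕ) :
    (univ.filter fun u => Function.Injective fun i : Fin (d + 1) => p^[i] u).card ≤
      (univ.filter fun z : Fin (d + 1) ↪ V => ∀ i : Fin d, p (z i.castSucc) = z i.succ).card := by
  refine card_le_card_of_surjOn (fun z => z 0) fun u hu => ?_
  exact ⟨⟨_, (mem_filter.1 hu).2⟩, mem_coe.2 (mem_filter.2 ⟨mem_univ _, fun i =>
    (Function.iterate_succ_apply' p i u).symm⟩), rfl⟩

lemma depth_one (p : V → V) : ∑ y, (sub p y).card ≤ ∑ d ∈ range (Fintype.card V),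
    (univ.filter fun z : Fin (d + 1) ↪ V => ∀ i : Fin d, p (z i.castSucc) = z i.succ).card := by
  classical
  calc ∑ y, (sub p y).card = ∑ y, (univ.filter fun u => u ∈ sub p y).card := by simp
    _ = ∑ u, (univ.filter fun y => u ∈ sub p y).card := by
        simp only [card_filter]
        exact sum_comm
    _ ≤ _ := sum_le_sum fun u _ => depth_anc p u
    _ = ∑ d ∈ range (Fintype.card V),
        (univ.filter fun u => Function.Injective fun i : Fin (d + 1) => p^[i] u).card := by
        simp only [card_filter]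
        exact sum_comm
    _ ≤ _ := sum_le_sum fun d _ => depth_emb p d

lemma depth_evt {d : ℕ} (z : Fin (d + 1) ↪ V) :
    ((OmF V).filter fun ω => ∀ i : Fin d, ω.1 (z i.castSucc) = z i.succ).card * Fintype.card V ^ d
      ≤ (OmF V).card := by
  have h := pitman (univ.map (Fin.castSuccEmb.trans z))
    (Function.extend (Fin.castSuccEmb.trans z) (fun i => z i.succ) id)
  rw [card_map, card_univ, Fintype.card_fin] at h
  refine le_trans (Nat.mul_le_mul_right _ (card_le_card fun ω hω => ?_)) h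
  refine mem_evt.2 ⟨mem_OmF.1 (mem_filter.1 hω).1, fun y hy => ?_⟩
  obtain ⟨i, -, rfl⟩ := mem_map.1 hy
  rw [(Fin.castSuccEmb.trans z).injective.extend_apply]
  exact ⟨(mem_filter.1 hω).2 i, z.injective.ne (Fin.castSucc_lt_succ (i := i)).ne'⟩

theorem depth_sum : ∑ ω ∈ OmF V, ∑ y, (sub ω.1 y).card ≤
    2 * (Nat.sqrt (Fintype.card V) + 1) * Fintype.card V * (OmF V).card := by
  have h1 : ∑ ω ∈ OmF V, ∑ y, (sub ω.1 y).card ≤ ∑ d ∈ range (Fintype.card V),
      ∑ z : Fin (d + 1) ↪ V,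
        ((OmF V).filter fun ω => ∀ i : Fin d, ω.1 (z i.castSucc) = z i.succ).card := by
    refine (sum_le_sum fun ω _ => depth_one ω.1).trans (le_of_eq ?_)
    rw [sum_comm]
    refine sum_congr rfl fun d _ => ?_
    simp only [card_filter]
    exact sum_comm
  refine h1.trans ?_
  have h2 := mul_le_mul_of_nonneg_right (desc_sum (Fintype.card V))
    (Nat.cast_nonneg (α := ℝ) (OmF V).card)
  rw [sum_mul] at h2
  refine Nat.cast_le (α := ℝ).1 ?_
  push_cast
  refine le_trans (sum_le_sum fun d hd => ?_) h2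
  have hn : (0 : ℝ) < Fintype.card V := Nat.cast_pos.2 (Nat.zero_lt_of_lt (mem_range.1 hd))
  refine (sum_le_card_nsmul _ _ ((OmF V).card / (Fintype.card V : ℝ) ^ d) fun z _ => ?_).trans
    (le_of_eq ?_)
  · rw [le_div_iff₀ (by positivity)]
    exact_mod_cast depth_evt z
  · rw [card_univ, Fintype.card_embedding_eq, Fintype.card_fin, nsmul_eq_mul]
    ring

end Pool.Agent.Work.MP_be9894_co.AA
end

-- merged part: Pool.Agent.Work.MP_be9894_co.AA.BHeight
section
/-!
Height.  `height_count`: if `p^[h] u` is not the root then `z i = p^[i] u`, `i ≤ h + 1`, are distinct (a repetition makes the orbit periodic, and it contains the root), so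
the event is covered by the events `∀ i ≤ h, p (z i) = z (i+1)` over embeddings `z : Fin (h+2) ↪ V`, each of size at most `card OmF / n ^ (h+1)` (`pitman`; compare `depth_sum`).
`desc_exp`: `n - i ≤ n * exp (- i / n)` (`Real.one_sub_le_exp_neg` or `Real.add_one_le_exp`), induction.
`reach_all`: `p^[h] u` is the root for all `u` (`IsRT.fix_eq`); `inH v i (p^[i] v)` and then `inH v (h + i) (p^[h - i] x)` by `inH_adj`, `inH_mono`, `rel_adj`.
-/

set_option autoImplicit false

namespace Pool.Agent.Work.MP_be9894_co.AA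

open Finset

lemma bheight_desc (n : ℕ) (hn : 0 < n) (m : ℕ) :
    (n.descFactorial m : ℝ) ≤ (n : ℝ) ^ m * Real.exp (-((m : ℝ) * (m - 1)) / (2 * n)) := by
  have hn' : (0 : ℝ) < n := Nat.cast_pos.2 hn
  induction m with
  | zero => simp
  | succ m ih =>
    have h1 : ((n - m : ℕ) : ℝ) ≤ n * Real.exp (-(m / n)) := by
      rcases le_total m n with h | h
      · rw [Nat.cast_sub h]
        have := mul_le_mul_of_nonneg_left (Real.one_sub_le_exp_neg ((m : ℝ) / n)) hn'.le
        rwa [mul_sub, mul_one, mul_div_cancel₀ _ hn'.ne'] at this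
      · rw [Nat.sub_eq_zero_of_le h, Nat.cast_zero]
        positivity
    rw [Nat.descFactorial_succ, Nat.cast_mul]
    refine (mul_le_mul h1 ih (Nat.cast_nonneg _) (by positivity)).trans (le_of_eq ?_)
    rw [mul_mul_mul_comm, ← Real.exp_add, ← pow_succ']
    congr 2
    push_cast
    field_simp
    ring

lemma desc_exp (n h : ℕ) (hn : 0 < n) :
    (n.descFactorial (h + 2) : ℝ) ≤ (n : ℝ) ^ (h + 2) * Real.exp (-((h : ℝ) ^ 2) / (2 * n)) := by
  have hn' : (0 : ℝ) < n := Nat.cast_pos.2 hn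
  refine (bheight_desc n hn (h + 2)).trans (mul_le_mul_of_nonneg_left (Real.exp_le_exp.2 ?_) (by positivity))
  refine div_le_div_of_nonneg_right ?_ (by positivity)
  have : (0 : ℝ) ≤ h := Nat.cast_nonneg h
  push_cast
  linarith

variable {V : Type} [Fintype V]

lemma reach_all {ω : Om V} (hω : IsRT ω.1) {h : ℕ} (hh : ∀ u, ω.1 (ω.1^[h] u) = ω.1^[h] u) (v x : V) :
    inH (rel ω) false v (2 * h) x := by
  have step : ∀ (j : ℕ) (a b : V), inH (rel ω) false v j a → (ω.1 a = b ∨ ω.1 b = a) →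
      inH (rel ω) false v (j + 1) b := by
    intro j a b ha hab
    by_cases e : a = b
    · exact e ▸ inH_mono (Nat.le_succ j) ha
    · exact inH_adj ha (rel_adj.2 ⟨e, hab⟩)
  have up : ∀ i, inH (rel ω) false v i (ω.1^[i] v) := fun i => by
    induction i with
    | zero => exact inH_self _ _ _
    | succ i ih => exact step i _ _ ih (Or.inl (Function.iterate_succ_apply' _ _ _).symm)
  have down : ∀ (i j : ℕ) (y : V), inH (rel ω) false v j (ω.1^[i] y) → inH (rel ω) false v (j + i) y := by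
    intro i
    induction i with
    | zero => exact fun _ _ h => h
    | succ i ih => exact fun j y h => step (j + i) _ _ (ih j (ω.1 y) h) (Or.inr rfl)
  rw [two_mul]
  exact down h h x (hω.fix_eq (hh v) (hh x) ▸ up h)

omit [Fintype V] in
lemma bheight_inj {p : V → V} (hp : IsRT p) {h : ℕ} {u : V} (hu : p (p^[h] u) ≠ p^[h] u) :
    Function.Injective fun i : Fin (h + 1 + 1) => p^[i] u := by
  obtain ⟨ρ, hρ, hr⟩ := hp
  have key : ∀ i j, i < j → j ≤ h + 1 → p^[i] u ≠ p^[j] u := by
    intro i j hij hj e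
    obtain ⟨c, rfl⟩ := Nat.exists_eq_add_of_lt hij
    obtain ⟨k, hk⟩ := hr (p^[i] u)
    have h1 : p^[c + 1] (p^[i] u) = p^[i] u := by
      rw [← Function.iterate_add_apply, add_comm (c + 1) i, ← add_assoc]
      exact e.symm
    have h2 : (p^[c + 1])^[k] (p^[i] u) = p^[i] u := Function.iterate_fixed h1 k
    rw [← Function.iterate_mul, add_mul, one_mul, Function.iterate_add_apply, hk,
      Function.iterate_fixed hρ] at h2
    obtain ⟨d, rfl⟩ : ∃ d, h = d + i := ⟨h - i, by omega⟩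
    rw [Function.iterate_add_apply, ← h2, Function.iterate_fixed hρ] at hu
    exact hu hρ
  intro i j e
  rcases lt_trichotomy i j with h1 | h1 | h1
  · exact absurd e (key i j h1 (Nat.lt_succ_iff.1 j.2))
  · exact h1
  · exact absurd e.symm (key j i h1 (Nat.lt_succ_iff.1 i.2))

variable [DecidableEq V]

theorem height_count (h : ℕ) :
    ((evt fun ω : Om V => ∃ u, ω.1 (ω.1^[h] u) ≠ ω.1^[h] u).card : ℝ) ≤
      Fintype.card V * Real.exp (-((h : ℝ) ^ 2) / (2 * Fintype.card V)) * (OmF V).card := by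
  rcases isEmpty_or_nonempty V with hV | hV
  · rw [card_eq_zero.2 (eq_empty_of_forall_notMem fun ω hω => ?_), Nat.cast_zero]
    · positivity
    · obtain ⟨u, -⟩ := (mem_evt.1 hω).2
      exact isEmptyElim u
  have hn : (0 : ℝ) < Fintype.card V := Nat.cast_pos.2 Fintype.card_pos
  have h1 : (evt fun ω : Om V => ∃ u, ω.1 (ω.1^[h] u) ≠ ω.1^[h] u).card ≤ ∑ z : Fin (h + 1 + 1) ↪ V,
      ((OmF V).filter fun ω => ∀ i : Fin (h + 1), ω.1 (z i.castSucc) = z i.succ).card := by
    refine le_trans (card_le_card fun ω hω => ?_) card_biUnion_le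
    obtain ⟨hω, u, hu⟩ := mem_evt.1 hω
    exact mem_biUnion.2 ⟨⟨_, bheight_inj hω hu⟩, mem_univ _, mem_filter.2 ⟨mem_OmF.2 hω, fun i =>
      (Function.iterate_succ_apply' ω.1 i u).symm⟩⟩
  refine (Nat.cast_le.2 h1).trans ?_
  push_cast
  refine (sum_le_card_nsmul _ _ ((OmF V).card / (Fintype.card V : ℝ) ^ (h + 1)) fun z _ => ?_).trans ?_
  · rw [le_div_iff₀ (by positivity)]
    exact_mod_cast depth_evt z
  · rw [card_univ, Fintype.card_embedding_eq, Fintype.card_fin, nsmul_eq_mul]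
    refine (mul_le_mul_of_nonneg_right (desc_exp _ h Fintype.card_pos) (by positivity)).trans
      (le_of_eq ?_)
    field_simp
    ring

end Pool.Agent.Work.MP_be9894_co.AA
end

-- merged part: Pool.Agent.Work.MP_be9894_co.AA.HullTop
section
/-!
Facts on `top` and the tie-breaking lemma.

`Zs_pred`: `u` is reached at stage `i+1` from some `s` of stage `≤ i`; `s` works (if `s` had stage `< i` then `u` would be
reached at stage `≤ i`, because stages `i - 1` and `i + 1` have the same type).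

`Zs_many`: take `x` in `hull v k` outside `hull w k` and its first stage `a`; `Zs a x` holds.  If `K ≤ a + 1` use
`Zs_pred`.  Otherwise `v` is not reached from `w` by stage `k - K` (`inH_tri`), so no `u` is reached by stage `K` from both
(`inH_rev`, `inH_tri`, `3 K + 2 ≤ k`).  If no vertex has first stage exactly `K` (and `K ≥ 1`), the set reached by stage
`K - 1` is closed under adjacency, so it contains `w` by `hconn`, a contradiction.  So `Zs K u` for some `u`.

`top_cut`: let `r ≤ r'`, `v` best for `r'` with the same hulls in `r`.  By induction on `j ≤ k`: `v ∈ top r j`,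
`top r j ⊆ top r' j`, and the hulls of members of `top r j` agree for `r` and `r'` up to stage `j`.
-/

set_option autoImplicit false

namespace Pool.Agent.Work.MP_be9894_co.AA

open Finset

variable {V : Type} {r : V → V → Prop}

lemma hulltop_rtg {b : Bool} {v x y : V} {j : ℕ} (h : inH r b v j x)
    (hs : Relation.ReflTransGen (step r (tp b j)) x y) : inH r b v j y := by
  induction hs with
  | refl => exact h
  | tail _ h2 ih => exact inH_step ih h2

lemma Zs_pred {v w u : V} {i : ℕ} (h : Zs r v w (i + 1) u) : ∃ s, Zs r v w i s := by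
  obtain ⟨⟨s, hs, hu⟩, h2, h3⟩ := h
  refine ⟨s, hs, fun i' hi h => ?_, fun h => h3 ⟨s, h, hu⟩⟩
  obtain ⟨m, rfl⟩ : ∃ m, i = m + 1 := ⟨i - 1, by omega⟩
  have e : tp false (m + 1 + 1) = tp false m := Bool.not_not _
  exact h2 m (by omega) (hulltop_rtg (inH_mono (by omega) h) (e ▸ hu))

lemma hulltop_down {v w u : V} {i a : ℕ} (hi : i ≤ a) (h : Zs r v w a u) : ∃ s, Zs r v w i s := by
  induction hi generalizing u with
  | refl => exact ⟨u, h⟩
  | step _ ih => exact (Zs_pred h).elim fun _ => ih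

lemma Zs_many (hconn : ∀ S : Set V, S.Nonempty → (∀ a b, a ∈ S → (r a b ∨ r b a) → b ∈ S) → ∀ x, x ∈ S)
    {v w x : V} {k K : ℕ} (hK : 3 * K + 2 ≤ k) (h1 : inH r false v k x) (h2 : ¬ inH r false w k x)
    {i : ℕ} (hi : i < K) : ∃ u, Zs r v w i u := by
  classical
  have hex : ∃ a, inH r false v a x := ⟨k, h1⟩
  have ha := Nat.find_spec hex
  rcases le_or_gt i (Nat.find hex) with h | h
  · exact hulltop_down h ⟨ha, fun _ => Nat.find_min hex,
      fun h => h2 (inH_mono (Nat.find_min' hex h1) h)⟩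
  have hc : ∀ u, inH r false v i u → ¬ inH r false w i u := fun u h3 h4 =>
    h2 (inH_mono (by omega) (inH_tri (inH_tri h4 (inH_rev h3)) ha))
  obtain ⟨m, rfl⟩ : ∃ m, i = m + 1 := ⟨i - 1, by omega⟩
  by_contra hn
  refine hc w (inH_mono m.le_succ (hconn {u | inH r false v m u} ⟨v, inH_self _ _ _⟩
    (fun a b h3 h4 => ?_) w)) (inH_self _ _ _)
  by_contra h5
  exact hn ⟨b, inH_adj h3 h4, fun i' hi' h6 => h5 (inH_mono (Nat.lt_succ_iff.1 hi') h6),
    hc b (inH_adj h3 h4)⟩

variable [Fintype V]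

lemma top_nonempty [Nonempty V] (j : ℕ) : (top r j).Nonempty := by
  induction j with
  | zero =>
    obtain ⟨v, -, h⟩ := exists_max_image univ (fun v => (hull r v 0).card) univ_nonempty
    exact ⟨v, mem_top_zero.2 fun w => h w (mem_univ w)⟩
  | succ j ih =>
    obtain ⟨v, h⟩ := exists_max_image _ (fun v => (hull r v (j + 1)).card) ih
    exact ⟨v, mem_top_succ.2 h⟩

lemma top_anti {i j : ℕ} (h : i ≤ j) : top r j ⊆ top r i := by
  induction h with
  | refl => exact Subset.rfl
  | step _ ih => exact fun v hv => ih (mem_top_succ.1 hv).1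

lemma top_card {v w : V} {k j : ℕ} (hv : v ∈ top r k) (hw : w ∈ top r k) (hj : j ≤ k) :
    (hull r v j).card = (hull r w j).card := by
  have h1 := top_anti hj hv
  have h2 := top_anti hj hw
  cases j with
  | zero => exact le_antisymm (mem_top_zero.1 h2 v) (mem_top_zero.1 h1 w)
  | succ j =>
    rw [mem_top_succ] at h1 h2
    exact le_antisymm (h2.2 v h1.1) (h1.2 w h2.1)

lemma top_cut {r' : V → V → Prop} (hr : ∀ a b, r a b → r' a b) {k : ℕ} {v : V} (hv : v ∈ top r' k)
    (hh : ∀ j ≤ k, hull r v j = hull r' v j) :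
    v ∈ top r k ∧ ∀ x ∈ top r k, x ∈ top r' k ∧ hull r x k = hull r' x k := by
  have hs : ∀ x j, hull r x j ⊆ hull r' x j := fun x j u hu =>
    mem_hull.2 (inH_rel hr (mem_hull.1 hu))
  have hc := fun x j => card_le_card (hs x j)
  induction k with
  | zero =>
    have h0 := mem_top_zero.1 hv
    rw [← hh 0 le_rfl] at h0
    refine ⟨mem_top_zero.2 fun w => (hc w 0).trans (h0 w), fun x hx => ?_⟩
    have h1 := fun w => (h0 w).trans (mem_top_zero.1 hx v)
    exact ⟨mem_top_zero.2 fun w => (h1 w).trans (hc x 0), eq_of_subset_of_card_le (hs x 0) (h1 x)⟩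
  | succ k ih =>
    obtain ⟨hv', h0⟩ := mem_top_succ.1 hv
    obtain ⟨h2, h3⟩ := ih hv' fun j hj => hh j (hj.trans k.le_succ)
    rw [← hh _ le_rfl] at h0
    refine ⟨mem_top_succ.2 ⟨h2, fun w hw => (hc w _).trans (h0 w (h3 w hw).1)⟩, fun x hx => ?_⟩
    obtain ⟨h4, h5⟩ := mem_top_succ.1 hx
    have h1 := fun w hw => (h0 w hw).trans (h5 v h2)
    exact ⟨mem_top_succ.2 ⟨(h3 x h4).1, fun w hw => (h1 w hw).trans (hc x _)⟩,
      eq_of_subset_of_card_le (hs x _) (h1 x (h3 x h4).1)⟩

end Pool.Agent.Work.MP_be9894_co.AA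
end

-- merged part: Pool.Agent.Work.MP_be9894_co.AA.OT
section
/-!
Oriented trees with, for every vertex `w`, the parent map `par w` of the tree rooted at `w`.
Darts: `(u, some v)` is the side at `u` of the edge `u v`; `(u, none)` is the whole tree rooted at `u`.

Plan.  `exists_OT`: adapt `exists_RT` of `Work/MP_be9894_co/H2Tree.lean` to `G = SimpleGraph.fromRel r`
(`dep w u = G.dist u w`).  `side_eq`: for `w ≠ u` put `t = par w u`; `w ∈ side (t, some u)` by depth; conversely
`adj_cases` at the root `w`.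
-/

set_option autoImplicit false

namespace Pool.Agent.Work.MP_be9894_co.AA

open Finset

structure OT (V : Type) where
  r : V → V → Prop
  par : V → V → V
  dep : V → V → ℕ
  asym : ∀ a b, r a b → ¬ r b a
  par_self : ∀ w, par w w = w
  dep_self : ∀ w, dep w w = 0
  dep_par : ∀ w u, u ≠ w → dep w u = dep w (par w u) + 1
  adj_par : ∀ w u, u ≠ w → r u (par w u) ∨ r (par w u) u
  all : ∀ w a b, r a b → (a ≠ w ∧ par w a = b) ∨ (b ≠ w ∧ par w b = a)

lemma exists_OT {V : Type} [Fintype V] (r : V → V → Prop) (hT : (SimpleGraph.fromRel r).IsTree)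
    (ha : ∀ a b, r a b → ¬ r b a) : ∃ T : OT V, T.r = r := by
  classical
  set G := SimpleGraph.fromRel r with hG
  have hc := hT.connected
  have ex : ∀ w v, v ≠ w → ∃ u, G.Adj v u ∧ G.dist v w = G.dist u w + 1 := by
    intro w v hv
    obtain ⟨p, hp⟩ := hc.exists_walk_length_eq_dist v w
    cases p with
    | nil => exact absurd rfl hv
    | cons hadj p' =>
      rename_i u
      refine ⟨u, hadj, ?_⟩
      have h1 := SimpleGraph.dist_le p'
      have h2 : G.dist v w ≤ G.dist v u + G.dist u w := hc.dist_triangle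
      rw [SimpleGraph.dist_eq_one_iff_adj.2 hadj] at h2
      simp only [SimpleGraph.Walk.length_cons] at hp
      omega
  choose! q hq1 hq2 using ex
  let p : V → V → V := fun w v => if v = w then w else q w v
  have hp : ∀ w v, v ≠ w → p w v = q w v := fun w v hv => if_neg hv
  have hsurj : ∀ w a b, G.Adj a b → (a ≠ w ∧ p w a = b) ∨ (b ≠ w ∧ p w b = a) := by
    intro w
    have hmap : ∀ v ∈ univ.erase w, s(v, q w v) ∈ G.edgeFinset := by
      intro v hv
      simpa using hq1 w v (Finset.ne_of_mem_erase hv)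
    have hinj : Set.InjOn (fun v => s(v, q w v)) (univ.erase w : Finset V) := by
      intro u hu v hv huv
      have hu := Finset.ne_of_mem_erase (Finset.mem_coe.1 hu)
      have hv := Finset.ne_of_mem_erase (Finset.mem_coe.1 hv)
      rcases Sym2.eq_iff.1 huv with ⟨h1, _⟩ | ⟨h1, h2⟩
      · exact h1
      · have a1 := hq2 w u hu
        have a2 := hq2 w v hv
        rw [h2] at a1; rw [← h1] at a2; omega
    have hcard : G.edgeFinset.card ≤ (univ.erase w).card := by
      have := hT.card_edgeFinset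
      rw [Finset.card_erase_of_mem (mem_univ w), Finset.card_univ]; omega
    have hs := Finset.surjOn_of_injOn_of_card_le _ (fun v hv => hmap v hv) hinj hcard
    intro a b hab
    obtain ⟨v, hv, hv2⟩ := hs (show s(a, b) ∈ (G.edgeFinset : Set (Sym2 V)) from
      Finset.mem_coe.2 (SimpleGraph.mem_edgeFinset.2 hab))
    have hv := Finset.ne_of_mem_erase (Finset.mem_coe.1 hv)
    rcases Sym2.eq_iff.1 hv2 with ⟨h1, h2⟩ | ⟨h1, h2⟩
    · left; subst h1; exact ⟨hv, by rw [hp _ _ hv, h2]⟩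
    · right; subst h1; exact ⟨hv, by rw [hp _ _ hv, h2]⟩
  refine ⟨⟨r, p, fun w v => G.dist v w, ha, fun w => if_pos rfl, fun w => by simp,
    fun w v hv => ?_, fun w v hv => ?_, fun w a b hab => hsurj w a b ?_⟩, rfl⟩
  · rw [hp w v hv]; exact hq2 w v hv
  · rw [hp w v hv]; exact ((SimpleGraph.fromRel_adj r _ _).1 (hq1 w v hv)).2
  · refine (SimpleGraph.fromRel_adj r _ _).2 ⟨?_, Or.inl hab⟩
    rintro rfl
    exact ha _ _ hab hab

namespace OT

variable {V : Type} (T : OT V)

lemma adj_cases (w : V) {a b : V} (h : T.r a b ∨ T.r b a) :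
    (a ≠ w ∧ T.par w a = b) ∨ (b ≠ w ∧ T.par w b = a) := by
  rcases h with h | h
  · exact T.all w a b h
  · exact (T.all w b a h).symm

lemma not_both (w : V) {a b : V} (h1 : a ≠ w) (h2 : T.par w a = b) (h3 : b ≠ w) : T.par w b ≠ a := by
  intro h4
  have e1 := T.dep_par w a h1
  have e2 := T.dep_par w b h3
  rw [h2] at e1
  rw [h4] at e2
  omega

/-- induction from the root `w` outwards -/
lemma ind_down (w : V) (Q : V → Prop) (h0 : Q w) (h1 : ∀ u, u ≠ w → Q (T.par w u) → Q u) (u : V) : Q u := by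
  induction hn : T.dep w u using Nat.strong_induction_on generalizing u with
  | _ n ih =>
    by_cases hu : u = w
    · exact hu ▸ h0
    · exact h1 u hu (ih _ (by rw [← hn, T.dep_par w u hu]; omega) _ rfl)

variable [Fintype V]

open Classical in
noncomputable def nb (u : V) : Finset V := univ.filter fun t => T.r t u ∨ T.r u t

lemma mem_nb {u t : V} : t ∈ T.nb u ↔ T.r t u ∨ T.r u t := by simp [nb]

open Classical in
noncomputable def ch (d : V × Option V) : Finset (V × Option V) :=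
  univ.filter fun c => (T.r c.1 d.1 ∨ T.r d.1 c.1) ∧ c.2 = some d.1 ∧ d.2 ≠ some c.1

lemma mem_ch {d c : V × Option V} :
    c ∈ T.ch d ↔ (T.r c.1 d.1 ∨ T.r d.1 c.1) ∧ c.2 = some d.1 ∧ d.2 ≠ some c.1 := by simp [ch]

open Classical in
noncomputable def ty (d : V × Option V) : Bool := decide (∃ v, d.2 = some v ∧ T.r d.1 v)

lemma ty_some (u v : V) : T.ty (u, some v) = true ↔ T.r u v := by simp [ty]

open Classical in
noncomputable def side (d : V × Option V) : Finset V :=
  univ.filter fun w => ¬ (d.1 ≠ w ∧ d.2 = some (T.par w d.1))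

lemma mem_side {d : V × Option V} {w : V} :
    w ∈ T.side d ↔ ¬ (d.1 ≠ w ∧ d.2 = some (T.par w d.1)) := by simp only [side, mem_filter, mem_univ, true_and]

lemma side_none (u : V) : T.side (u, none) = univ := by
  ext w; simp [mem_side]

lemma self_mem_side (d : V × Option V) : d.1 ∈ T.side d := by simp [mem_side]

lemma ot_par {d c : V × Option V} (hc : c ∈ T.ch d) {w : V} (h : w ∈ T.side c) :
    d.1 ≠ w ∧ T.par w d.1 = c.1 := by
  obtain ⟨h1, h2, _⟩ := T.mem_ch.1 hc
  rcases T.adj_cases w h1 with ⟨h3, h4⟩ | h3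
  · exact absurd ⟨h3, by rw [h2, h4]⟩ (T.mem_side.1 h)
  · exact h3

lemma side_eq (d : V × Option V) (w : V) :
    w ∈ T.side d ↔ w = d.1 ∨ ∃ c ∈ T.ch d, w ∈ T.side c := by
  constructor
  · intro h
    by_cases hw : w = d.1
    · exact Or.inl hw
    · have hw' : d.1 ≠ w := fun e => hw e.symm
      refine Or.inr ⟨(T.par w d.1, some d.1), T.mem_ch.2 ⟨(T.adj_par w d.1 hw').symm, rfl, ?_⟩, ?_⟩
      · intro e
        exact T.mem_side.1 h ⟨hw', e⟩
      · rw [mem_side]
        rintro ⟨h1, h2⟩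
        exact T.not_both w hw' rfl h1 (Option.some.inj h2).symm
  · rintro (rfl | ⟨c, hc, h⟩)
    · exact T.self_mem_side d
    · rw [mem_side]
      rintro ⟨_, h2⟩
      rw [(T.ot_par hc h).2] at h2
      exact (T.mem_ch.1 hc).2.2 h2

lemma root_not_mem_side {d c : V × Option V} (hc : c ∈ T.ch d) : d.1 ∉ T.side c := fun h =>
  (T.ot_par hc h).1 rfl

lemma side_disj {d c c' : V × Option V} (hc : c ∈ T.ch d) (hc' : c' ∈ T.ch d) {w : V}
    (h : w ∈ T.side c) (h' : w ∈ T.side c') : c = c' := by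
  refine Prod.ext ?_ ?_
  · rw [← (T.ot_par hc h).2, ← (T.ot_par hc' h').2]
  · rw [(T.mem_ch.1 hc).2.1, (T.mem_ch.1 hc').2.1]

lemma side_compl {u v : V} (h : T.r u v ∨ T.r v u) (w : V) :
    w ∈ T.side (u, some v) ↔ w ∉ T.side (v, some u) := by
  rw [mem_side, mem_side, not_not]
  constructor
  · intro h1
    rcases T.adj_cases w h with ⟨h2, h3⟩ | ⟨h2, h3⟩
    · exact absurd ⟨h2, by rw [h3]⟩ h1
    · exact ⟨h2, by rw [h3]⟩
  · rintro ⟨h1, h2⟩ ⟨h3, h4⟩
    exact T.not_both w h3 (Option.some.inj h4).symm h1 (Option.some.inj h2).symm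

lemma ot_side [DecidableEq V] (d : V × Option V) :
    T.side d = insert d.1 ((T.ch d).biUnion T.side) := by
  ext w
  rw [mem_insert, mem_biUnion, side_eq]

lemma ot_not_mem [DecidableEq V] (d : V × Option V) : d.1 ∉ (T.ch d).biUnion T.side := by
  rw [mem_biUnion]
  rintro ⟨c, hc, h⟩
  exact T.root_not_mem_side hc h

lemma ot_disj (d : V × Option V) : (T.ch d : Set (V × Option V)).PairwiseDisjoint T.side := by
  intro c hc c' hc' hne
  exact disjoint_left.2 fun w h h' => hne (T.side_disj hc hc' h h')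

lemma prod_side {M : Type} [CommMonoid M] (d : V × Option V) (φ : V → M) :
    ∏ w ∈ T.side d, φ w = φ d.1 * ∏ c ∈ T.ch d, ∏ w ∈ T.side c, φ w := by
  classical
  rw [T.ot_side d, prod_insert (T.ot_not_mem d), prod_biUnion (T.ot_disj d)]

lemma sum_side {M : Type} [AddCommMonoid M] (d : V × Option V) (φ : V → M) :
    ∑ w ∈ T.side d, φ w = φ d.1 + ∑ c ∈ T.ch d, ∑ w ∈ T.side c, φ w := by
  classical
  rw [T.ot_side d, sum_insert (T.ot_not_mem d), sum_biUnion (T.ot_disj d)]

lemma card_side (d : V × Option V) : (T.side d).card = 1 + ∑ c ∈ T.ch d, (T.side c).card := by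
  simpa using T.sum_side d (fun _ => (1 : ℕ))

lemma card_side_add {u v : V} (h : T.r u v ∨ T.r v u) :
    (T.side (u, some v)).card + (T.side (v, some u)).card = Fintype.card V := by
  classical
  have e : T.side (u, some v) = (T.side (v, some u))ᶜ := by
    ext w
    rw [mem_compl]
    exact T.side_compl h w
  rw [e, add_comm, card_add_card_compl]

/-- products over the children of a dart are products over neighbours -/
lemma prod_ch_none {M : Type} [CommMonoid M] (u : V) (φ : V × Option V → M) :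
    ∏ c ∈ T.ch (u, none), φ c = ∏ t ∈ T.nb u, φ (t, some u) := by
  symm
  refine prod_nbij' (fun t => (t, some u)) (fun c => c.1) (fun t ht => ?_) (fun c hc => ?_)
    (fun _ _ => rfl) (fun c hc => ?_) (fun _ _ => rfl)
  · exact T.mem_ch.2 ⟨T.mem_nb.1 ht, rfl, by simp⟩
  · exact T.mem_nb.2 (T.mem_ch.1 hc).1
  · exact Prod.ext rfl (T.mem_ch.1 hc).2.1.symm

lemma prod_ch_split {M : Type} [CommMonoid M] {u v : V} (h : T.r u v ∨ T.r v u) (φ : V × Option V → M) :
    ∏ c ∈ T.ch (u, none), φ c = (∏ c ∈ T.ch (u, some v), φ c) * φ (v, some u) := by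
  classical
  have e : T.ch (u, none) = insert (v, some u) (T.ch (u, some v)) := by
    ext c
    rw [mem_insert, mem_ch, mem_ch]
    constructor
    · rintro ⟨h1, h2, _⟩
      by_cases hc : c.1 = v
      · exact Or.inl (Prod.ext hc h2)
      · exact Or.inr ⟨h1, h2, fun e => hc (Option.some.inj e).symm⟩
    · rintro (rfl | ⟨h1, h2, _⟩)
      · exact ⟨h.symm, rfl, by simp⟩
      · exact ⟨h1, h2, by simp⟩
  have hn : (v, some u) ∉ T.ch (u, some v) := fun hc => (T.mem_ch.1 hc).2.2 rfl
  rw [e, prod_insert hn, mul_comm]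

/-- the branch system of the darts -/
noncomputable def bs : BS (V × Option V) where
  ch := T.ch
  ty := T.ty
  sz := fun d => (T.side d).card
  y := (exists_y T.ch T.ty (fun d => (T.side d).card) T.card_side).choose
  hsz := T.card_side
  hy := (exists_y T.ch T.ty (fun d => (T.side d).card) T.card_side).choose_spec.1
  hsig := (exists_y T.ch T.ty (fun d => (T.side d).card) T.card_side).choose_spec.2

lemma bs_ch : T.bs.ch = T.ch := rfl
lemma bs_ty : T.bs.ty = T.ty := rfl
lemma bs_sz (d : V × Option V) : T.bs.sz d = (T.side d).card := rfl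

/-- the Hamiltonian -/
noncomputable def HH : Polynomial QA := ∑ v, T.bs.P (v, none)

/-- the dart of `u` towards the root `v` -/
def dt (v u : V) : V × Option V := (u, some (T.par v u))

open Classical in
/-- vertices outside the hull whose parent is inside -/
noncomputable def bd (v : V) (j : ℕ) : Finset V :=
  univ.filter fun u => u ∉ hull T.r v j ∧ T.par v u ∈ hull T.r v j

lemma mem_bd {v u : V} {j : ℕ} : u ∈ T.bd v j ↔ u ∉ hull T.r v j ∧ T.par v u ∈ hull T.r v j := by
  simp only [bd, mem_filter, mem_univ, true_and]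

/-- product of the hanging sides -/
noncomputable def Fm (v : V) (j : ℕ) : QA := ∏ u ∈ T.bd v j, T.bs.yh (T.dt v u)

end OT

end Pool.Agent.Work.MP_be9894_co.AA
end

-- merged part: Pool.Agent.Work.MP_be9894_co.AA.Sympl
section
/-!
The invariant one-form.  For an arc `u → v` let `α = y (u, some v)`, `β = - y (v, some u)`.
With `a = P (u, some v)`, `b = P (v, some u)`: `sig α = C α + X a`, `C β = sig β + X b`,
`P (u, none) = a * sig β`, `P (v, none) = b * C α` (`prod_ch_split`), and for the dual part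
`snd ψ (P (w, none)) = sum over neighbours t of fst ψ (P (w, some t)) * snd ψ (K (t, some w))` (Leibniz rule for a finite
product of dual numbers).  Summing over `w` and regrouping by arcs gives `dH = Σ b dα + Σ a dβ'`.  Then
`Σ β dα - Σ β' dα' = d (X H~) - H dX` with `H~ = Σ_v (1 - outdeg v) P (v, none)`, and `sig W = C W - X H~`.

`sum_outdeg`: root at any `z`; arcs correspond to the vertices `u ≠ z` (`all`, `adj_par`, `not_both`, `asym`).
-/

set_option autoImplicit false

namespace Pool.Agent.Work.MP_be9894_co.AA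

open Finset Polynomial

lemma sympl_leibniz {ι : Type} [DecidableEq ι] (s : Finset ι) (f : ι → DualNumber ℚ) :
    (∏ i ∈ s, f i).snd = ∑ i ∈ s, (∏ j ∈ s.erase i, f j).fst * (f i).snd := by
  induction s using Finset.induction_on with
  | empty => simp
  | insert a s ha ih =>
    rw [prod_insert ha, sum_insert ha, erase_insert ha, DualNumber.snd_mul, ih, mul_sum, add_comm,
      mul_comm]
    refine congrArg _ (sum_congr rfl fun i hi => ?_)
    rw [erase_insert_of_ne (ne_of_mem_of_not_mem hi ha).symm,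
      prod_insert fun h => ha (mem_of_mem_erase h), TrivSqZeroExt.fst_mul, mul_assoc]

namespace OT

variable {V : Type} [Fintype V] (T : OT V)

open Classical in
noncomputable def arcs : Finset (V × V) := univ.filter fun e => T.r e.1 e.2

lemma mem_arcs {e : V × V} : e ∈ T.arcs ↔ T.r e.1 e.2 := by simp [arcs]

open Classical in
noncomputable def outdeg (v : V) : ℕ := (univ.filter fun t => T.r v t).card

noncomputable def WW : QA := -∑ v, (1 - (T.outdeg v : ℚ)) • T.bs.y (v, none)

noncomputable def theta (ψ : QA →+* DualNumber ℚ) : ℚ :=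
  (ψ T.WW).snd - ∑ e ∈ T.arcs, (ψ (-T.bs.y (e.2, some e.1))).fst * (ψ (T.bs.y (e.1, some e.2))).snd

open Classical in
lemma sympl_arcs {M : Type} [AddCommMonoid M] (g : V → V → M) :
    ∑ e ∈ T.arcs, g e.1 e.2 = ∑ u, ∑ v, if T.r u v then g u v else 0 := by
  rw [arcs, sum_filter, Fintype.sum_prod_type]

lemma sympl_out {M : Type} [AddCommMonoid M] (g : V → M) :
    ∑ e ∈ T.arcs, g e.1 = ∑ u, T.outdeg u • g u := by
  classical
  rw [T.sympl_arcs fun u _ => g u]
  exact sum_congr rfl fun u _ => by rw [← sum_filter, sum_const, outdeg]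

lemma sympl_nb {M : Type} [AddCommMonoid M] (g : V → V → M) :
    ∑ w, ∑ t ∈ T.nb w, g w t = ∑ e ∈ T.arcs, (g e.1 e.2 + g e.2 e.1) := by
  classical
  rw [sum_add_distrib, T.sympl_arcs g, T.sympl_arcs fun u v => g v u, sum_comm (f := fun u v =>
    if T.r u v then g v u else 0), ← sum_add_distrib]
  refine sum_congr rfl fun w _ => ?_
  rw [nb, sum_filter, ← sum_add_distrib]
  refine sum_congr rfl fun t _ => ?_
  by_cases h : T.r w t
  · simp [h, T.asym w t h]
  · simp [h]

lemma sympl_split {u v : V} (h : T.r u v ∨ T.r v u) :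
    T.bs.P (u, none) = T.bs.P (u, some v) * T.bs.K (v, some u) := T.prod_ch_split h _

lemma sympl_dH (ψ : QA[X] →+* DualNumber ℚ) : (ψ T.HH).snd = ∑ w, ∑ t ∈ T.nb w,
    (ψ (T.bs.P (w, some t))).fst * (ψ (T.bs.K (t, some w))).snd := by
  classical
  rw [HH, map_sum, TrivSqZeroExt.snd_sum]
  refine sum_congr rfl fun w _ => ?_
  have h1 : T.bs.P (w, none) = ∏ t ∈ T.nb w, T.bs.K (t, some w) := T.prod_ch_none w _
  rw [h1, map_prod, sympl_leibniz]
  refine sum_congr rfl fun t ht => ?_
  have h2 := T.sympl_split (T.mem_nb.1 ht).symm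
  rw [h1, ← prod_erase_mul _ _ ht] at h2
  rw [← map_prod, mul_right_cancel₀ (T.bs.K_ne (t, some w)) h2]

lemma sympl_W : sig T.WW = C T.WW -
    X * (T.HH - ∑ e ∈ T.arcs, T.bs.P (e.1, some e.2) * T.bs.K (e.2, some e.1)) := by
  rw [← sum_congr rfl fun e he => T.sympl_split (Or.inl (T.mem_arcs.1 he)),
    T.sympl_out fun u => T.bs.P (u, none), HH, ← sum_sub_distrib, mul_sum, WW, map_neg, map_neg,
    map_sum, map_sum, ← neg_add', ← sum_add_distrib]
  refine congrArg _ (sum_congr rfl fun v _ => ?_)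
  rw [sub_smul, one_smul, Nat.cast_smul_eq_nsmul, map_sub, map_sub, map_nsmul, map_nsmul,
    T.bs.sig_y]
  ring

theorem theta_step (ψ : QA[X] →+* DualNumber ℚ) :
    T.theta (ψ.comp (sig : QA →+* QA[X])) = T.theta (ψ.comp C) - (ψ X).snd * (ψ T.HH).fst := by
  have h1 : ∀ e ∈ T.arcs, T.bs.K (e.1, some e.2) = C (T.bs.y (e.1, some e.2)) := fun e he =>
    if_pos ((T.ty_some _ _).2 (T.mem_arcs.1 he))
  have h2 : ∀ e ∈ T.arcs, T.bs.K (e.2, some e.1) = -sig (T.bs.y (e.2, some e.1)) := fun e he =>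
    if_neg fun h => T.asym _ _ (T.mem_arcs.1 he) ((T.ty_some _ _).1 h)
  have h3 := T.sympl_dH ψ
  rw [T.sympl_nb fun w t => (ψ (T.bs.P (w, some t))).fst * (ψ (T.bs.K (t, some w))).snd] at h3
  have h4 : ∑ e ∈ T.arcs, (ψ (sig (-T.bs.y (e.2, some e.1)))).fst *
      (ψ (sig (T.bs.y (e.1, some e.2)))).snd = ∑ e ∈ T.arcs, (ψ (T.bs.K (e.2, some e.1))).fst *
      (ψ (T.bs.K (e.1, some e.2) + X * T.bs.P (e.1, some e.2))).snd :=
    sum_congr rfl fun e he => by rw [h1 e he, h2 e he, map_neg sig, T.bs.sig_y (e.1, some e.2)]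
  have h5 : ∑ e ∈ T.arcs, (ψ (C (-T.bs.y (e.2, some e.1)))).fst *
      (ψ (C (T.bs.y (e.1, some e.2)))).snd = ∑ e ∈ T.arcs,
      (ψ (T.bs.K (e.2, some e.1) + X * T.bs.P (e.2, some e.1))).fst *
      (ψ (T.bs.K (e.1, some e.2))).snd :=
    sum_congr rfl fun e he => by
      rw [h1 e he, h2 e he, T.bs.sig_y (e.2, some e.1), neg_add, neg_add_cancel_right, C_neg]
  simp only [theta, RingHom.comp_apply, RingHom.coe_coe]
  rw [h4, h5, T.sympl_W]
  simp only [map_sub, map_add, map_mul, map_sum, TrivSqZeroExt.snd_sub, TrivSqZeroExt.snd_add,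
    DualNumber.snd_mul, TrivSqZeroExt.fst_add, TrivSqZeroExt.fst_mul, TrivSqZeroExt.snd_sum, h3,
    mul_sub, mul_sum]
  simp only [sub_sub, sub_add, ← sum_sub_distrib]
  rw [add_sub_right_comm, ← sum_sub_distrib]
  exact congrArg (_ - ·) (congrArg (· + _) (sum_congr rfl fun e _ => by ring))

lemma sum_outdeg [Nonempty V] : ∑ v, (1 - (T.outdeg v : ℚ)) = 1 := by
  classical
  obtain ⟨z⟩ := ‹Nonempty V›
  have h1 : (univ.erase z).card = T.arcs.card := by
    refine card_bij (fun u _ => if T.r u (T.par z u) then (u, T.par z u) else (T.par z u, u))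
      (fun u hu => ?_) (fun u hu v hv h => ?_) fun e he => ?_
    · rw [mem_arcs]
      split_ifs with h
      · exact h
      · exact (T.adj_par z u (ne_of_mem_erase hu)).resolve_left h
    · split_ifs at h <;> obtain ⟨h1, h2⟩ := Prod.ext_iff.1 h
      · exact h1
      · exact absurd h1.symm (T.not_both z (ne_of_mem_erase hu) h2 (ne_of_mem_erase hv))
      · exact absurd h2.symm (T.not_both z (ne_of_mem_erase hu) h1 (ne_of_mem_erase hv))
      · exact h2
    · have h := T.mem_arcs.1 he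
      rcases T.all z _ _ h with ⟨h1, h2⟩ | ⟨h1, h2⟩
      · exact ⟨e.1, by simp [h1], by rw [h2, if_pos h]⟩
      · exact ⟨e.2, by simp [h1], by rw [h2, if_neg (T.asym _ _ h)]⟩
  have h2 := T.sympl_out fun _ => (1 : ℚ)
  have h3 := card_erase_add_one (mem_univ z)
  simp only [sum_const, nsmul_eq_mul, mul_one] at h2
  rw [sum_sub_distrib, ← h2, ← h1, sum_const, ← h3]
  simp

end OT

end Pool.Agent.Work.MP_be9894_co.AA
end

-- merged part: Pool.Agent.Work.MP_be9894_co.AA.HInv
section
/-!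
Invariance of the Hamiltonian.  Claim for every list `l`: for all ring maps `ψ : QA →+* DualNumber ℚ` with
`(ψ f).fst = ev l f` one has `T.theta ψ = T'.theta ψ`.
* `l = []`: the `fst` factors vanish (`ev_nil`, `sz_pos`); `WW - WW'` lies in `Dec n` (`sum_outdeg`: both are
  `-y (z, none)` modulo `Dec n`, using the hypothesis also inside one tree through a vertex of the other), and
  `(ψ (f * g)).snd = 0` when both `fst` vanish; a ring map from a `ℚ`-algebra is `ℚ`-linear (`map_rat_smul`, `map_ratCast`).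
* `x :: l`: `ψ1 = ψ ∘ atX sigInv x`, `ψ~ = eval₂RingHom ψ1 (inl x)`; `ψ~ ∘ sig = ψ1 ∘ atX sig x = ψ`, and `theta_step`.
Finally `ψ1 = inl ∘ ev l`, `ψ~ X = inl x + inr 1`: `theta ψ1 = 0`, so `evX x l HH` agree, and `poly_ext`.
-/

set_option autoImplicit false

namespace Pool.Agent.Work.MP_be9894_co.AA

open Finset Polynomial

lemma hinv_dec (ψ : QA →+* DualNumber ℚ) (hψ : ∀ f, (ψ f).fst = ev [] f) {n : ℤ} {f : QA}
    (hf : f ∈ Dec n) : (ψ f).snd = 0 := by
  induction hf using Submodule.span_induction with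
  | mem h hh =>
    obtain ⟨a, b, f, g, ha, hb, -, hf, hg, rfl⟩ := hh
    rw [map_mul, DualNumber.snd_mul, hψ, hψ, ev_nil ha hf, ev_nil hb hg]
    simp
  | zero => simp
  | add f g _ _ h1 h2 => rw [map_add, TrivSqZeroExt.snd_add, h1, h2, add_zero]
  | smul c f _ h1 => rw [map_rat_smul, TrivSqZeroExt.snd_smul, h1, smul_zero]

lemma hinv_WW {V : Type} [Fintype V] [Nonempty V] (T : OT V) (ψ : QA →+* DualNumber ℚ) (s : ℚ)
    (hs : ∀ v, (ψ (T.bs.y (v, none))).snd = s) : (ψ T.WW).snd = -s := by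
  unfold OT.WW
  rw [map_neg, TrivSqZeroExt.snd_neg, map_sum, TrivSqZeroExt.snd_sum]
  have e : ∀ v, (ψ ((1 - (T.outdeg v : ℚ)) • T.bs.y (v, none))).snd = (1 - (T.outdeg v : ℚ)) * s := by
    intro v
    rw [map_rat_smul, TrivSqZeroExt.snd_smul, hs, smul_eq_mul]
  simp only [e]
  rw [← Finset.sum_mul, T.sum_outdeg, one_mul]

lemma hinv_theta_nil {V : Type} [Fintype V] (T : OT V) (ψ : QA →+* DualNumber ℚ)
    (hψ : ∀ f, (ψ f).fst = ev [] f) : T.theta ψ = (ψ T.WW).snd := by
  unfold OT.theta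
  rw [Finset.sum_eq_zero, sub_zero]
  intro e _
  have h0 : ev [] (T.bs.y (e.2, some e.1)) = 0 :=
    ev_nil (by exact_mod_cast T.bs.sz_pos (e.2, some e.1)) (T.bs.hy _)
  rw [hψ, map_neg, h0, neg_zero, zero_mul]

lemma hinv_rat (ψ : QA →+* DualNumber ℚ) (x : ℚ) :
    ψ (algebraMap ℚ QA x) = TrivSqZeroExt.inl x := by
  rw [Algebra.algebraMap_eq_smul_one, map_rat_smul, map_one]
  ext <;> simp

lemma hinv_step {V : Type} [Fintype V] (T : OT V) (ψ : QA →+* DualNumber ℚ) (x : ℚ) :
    T.theta ψ = T.theta (ψ.comp (atX sigInv x : QA →+* QA)) := by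
  set ψ1 := ψ.comp (atX sigInv x : QA →+* QA) with h1
  have h := T.theta_step (eval₂RingHom ψ1 (TrivSqZeroExt.inl x))
  have e1 : (eval₂RingHom ψ1 (TrivSqZeroExt.inl x)).comp (sig : QA →+* QA[X]) = ψ := by
    ext1 f
    have e : atX sig x f = (sig f).eval (algebraMap ℚ QA x) := by
      simp [atX, Polynomial.coe_aeval_eq_eval]
    show eval₂ ψ1 (TrivSqZeroExt.inl x) (sig f) = ψ f
    rw [← hinv_rat ψ1 x, eval₂_at_apply, ← e]
    show ψ (atX sigInv x (atX sig x f)) = ψ f
    rw [atX_sigInv_sig]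
  have e2 : (eval₂RingHom ψ1 (TrivSqZeroExt.inl x)).comp C = ψ1 := by
    ext1 f
    simp
  rw [e1, e2] at h
  rw [h]
  simp

lemma hinv_theta {V V' : Type} [Fintype V] [Fintype V'] [Nonempty V] [Nonempty V'] (T : OT V) (T' : OT V')
    (n : ℤ) (h : ∀ z z', T.bs.y (z, none) - T'.bs.y (z', none) ∈ Dec n) (l : List ℚ) :
    ∀ ψ : QA →+* DualNumber ℚ, (∀ f, (ψ f).fst = ev l f) → T.theta ψ = T'.theta ψ := by
  induction l with
  | nil =>
    intro ψ hψ
    obtain ⟨z0⟩ := ‹Nonempty V›
    obtain ⟨z0'⟩ := ‹Nonempty V'›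
    have key : ∀ z z', (ψ (T.bs.y (z, none))).snd = (ψ (T'.bs.y (z', none))).snd := by
      intro z z'
      have := hinv_dec ψ hψ (h z z')
      rw [map_sub, TrivSqZeroExt.snd_sub] at this
      exact sub_eq_zero.1 this
    rw [hinv_theta_nil T ψ hψ, hinv_theta_nil T' ψ hψ,
      hinv_WW T ψ (ψ (T'.bs.y (z0', none))).snd (fun v => key v z0'),
      hinv_WW T' ψ (ψ (T'.bs.y (z0', none))).snd (fun v => (key z0 v).symm.trans (key z0 z0'))]
  | cons x l ih =>
    intro ψ hψ
    rw [hinv_step T ψ x, hinv_step T' ψ x]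
    apply ih
    intro f
    show (ψ (atX sigInv x f)).fst = ev l f
    rw [hψ, ← ev_atX_sig, atX_sig_sigInv]

lemma hinv_final {V : Type} [Fintype V] (T : OT V) (x : ℚ) (l : List ℚ) :
    ∃ ψ : QA →+* DualNumber ℚ, (∀ f, (ψ f).fst = ev (x :: l) f) ∧
      ψ = (eval₂RingHom ((algebraMap ℚ (DualNumber ℚ)).comp (ev l : QA →+* ℚ))
        (TrivSqZeroExt.inl x + TrivSqZeroExt.inr 1)).comp (sig : QA →+* QA[X]) ∧
      T.theta ψ = -evX x l T.HH := by
  set ψ1 := (algebraMap ℚ (DualNumber ℚ)).comp (ev l : QA →+* ℚ) with h1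
  set Ψ : QA[X] →+* DualNumber ℚ :=
    eval₂RingHom ψ1 (TrivSqZeroExt.inl x + TrivSqZeroExt.inr 1) with hΨ
  have hfst : ∀ p, (Ψ p).fst = evX x l p := by
    intro p
    have e : ((TrivSqZeroExt.fstHom ℚ ℚ ℚ : DualNumber ℚ →+* ℚ).comp Ψ) = evX x l := by
      apply Polynomial.ringHom_ext
      · intro f
        simp [hΨ, h1, evX, TrivSqZeroExt.algebraMap_eq_inl]
      · simp [hΨ, evX]
    exact DFunLike.congr_fun e p
  have hsnd : ∀ f, (ψ1 f).snd = 0 := by
    intro f
    simp [h1, TrivSqZeroExt.algebraMap_eq_inl]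
  refine ⟨Ψ.comp (sig : QA →+* QA[X]), fun f => ?_, rfl, ?_⟩
  · show (Ψ (sig f)).fst = _
    rw [hfst, ev_cons]
  · have e2 : Ψ.comp C = ψ1 := by
      ext1 f
      simp [hΨ]
    have e3 : T.theta ψ1 = 0 := by
      unfold OT.theta
      simp only [hsnd, mul_zero, Finset.sum_const_zero, sub_zero]
    have e4 : (Ψ X).snd = 1 := by simp [hΨ]
    rw [T.theta_step, e2, e3, e4, hfst]
    ring

theorem HH_eq {V V' : Type} [Fintype V] [Fintype V'] [Nonempty V] [Nonempty V'] (T : OT V) (T' : OT V')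
    (n : ℤ) (h : ∀ z z', T.bs.y (z, none) - T'.bs.y (z', none) ∈ Dec n) : T.HH = T'.HH := by
  apply poly_ext
  intro x l
  obtain ⟨ψ, h1, h2, h3⟩ := hinv_final T x l
  obtain ⟨ψ', -, h2', h3'⟩ := hinv_final T' x l
  have e := hinv_theta T T' n h (x :: l) ψ h1
  rw [h3, h2, ← h2', h3'] at e
  exact neg_injective e

end Pool.Agent.Work.MP_be9894_co.AA
end

-- merged part: Pool.Agent.Work.MP_be9894_co.AA.Tie
section
/-!
Breaking a tie by moving a leaf.  Let `r = rel ω`, `r' = rel ω'`, `r0 = relX ω l`.  `pend_leaf` and `pend_mv` give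
`inH r x ↔ inH r0 x ↔ inH r' x` for start and end different from `l` (`Pend.other`); `Pend.leaf` says when `l` is reached in `r'`:
from `v` exactly at the stages `≥ i`, from `w` not by stage `i`.  `top_card` gives the equal sizes in `r`.
For `near`: with `h`, `h0`, `h'` the descendant counts, `h0 t ≤ h t`, `h' t ≤ h0 t + 1` for `t ≠ l`, `h' l ≤ h0 u + 1`
(`Pend.start`), `h v = h0 v ≤ h' v`, the same for `w`, and `v, w ∈ top r 0` (`top_anti`).
-/

set_option autoImplicit false

namespace Pool.Agent.Work.MP_be9894_co.AA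

open Finset

variable {V : Type} [Fintype V] [DecidableEq V]

lemma tie_pair {r : V → V → Prop} {k : ℕ} (h : ¬ Uniq r k) :
    ∃ v ∈ top r k, ∃ w ∈ top r k, ∃ x, inH r false v k x ∧ ¬ inH r false w k x := by
  unfold Uniq at h
  push Not at h
  obtain ⟨v, hv, w, hw, hne⟩ := h
  have hs : ¬ hull r v k ⊆ hull r w k := fun hs =>
    hne (eq_of_subset_of_card_le hs (top_card hw hv le_rfl).le)
  obtain ⟨x, h1, h2⟩ := not_subset.1 hs
  exact ⟨v, hv, w, hw, x, mem_hull.1 h1, fun h3 => h2 (mem_hull.2 h3)⟩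

section pend

variable {r r' : V → V → Prop} {l u t : V} {τ : Bool} {j : ℕ}

omit [DecidableEq V] in
lemma tie_not (h : Pend r r' l u τ) (ht : t ≠ l) (hn : ¬ inH r' false t j l) :
    hull r' t j = hull r t j := by
  ext x
  rw [mem_hull, mem_hull]
  by_cases hx : x = l
  · rw [hx]
    exact iff_of_false hn (h.not_leaf ht)
  · exact h.other ht hx

lemma tie_yes (h : Pend r r' l u τ) (ht : t ≠ l) (hy : inH r' false t j l) :
    (hull r' t j).card = (hull r t j).card + 1 := by
  rw [← card_insert_of_notMem fun h1 => h.not_leaf ht (mem_hull.1 h1)]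
  refine congrArg card (Finset.ext fun x => ?_)
  rw [mem_insert, mem_hull, mem_hull]
  by_cases hx : x = l
  · rw [hx]
    exact iff_of_true hy (Or.inl rfl)
  · rw [h.other ht hx, or_iff_right hx]

omit [DecidableEq V] in
lemma tie_le (h : Pend r r' l u τ) (t : V) (j : ℕ) : (hull r t j).card ≤ (hull r' t j).card :=
  card_le_card fun _ hx =>
    mem_hull.2 (inH_rel (fun a b h1 => (h.iff a b).2 (Or.inl h1)) (mem_hull.1 hx))

lemma tie_le' (h : Pend r r' l u τ) (ht : t ≠ l) (j : ℕ) :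
    (hull r' t j).card ≤ (hull r t j).card + 1 := by
  by_cases hy : inH r' false t j l
  · exact (tie_yes h ht hy).le
  · rw [tie_not h ht hy]
    exact Nat.le_succ _

lemma tie_start (h : Pend r r' l u τ) : (hull r' l 0).card ≤ (hull r u 0).card + 1 :=
  (card_le_card fun _ hx => mem_insert.2
    ((h.start.1 (mem_hull.1 hx)).imp_right fun h1 => mem_hull.2 h1.2)).trans (card_insert_le l _)

end pend

theorem tie_move {ω : Om V} {k i : ℕ} (hi : i ≤ k) {v w l u : V} (hv : v ∈ top (rel ω) k) (hw : w ∈ top (rel ω) k)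
    (hl : l ∈ leaves ω.1) (hlv : l ∉ hull (rel ω) v k) (hlw : l ∉ hull (rel ω) w k) (hu : Zs (rel ω) v w i u) :
    u ≠ l ∧
    (∀ j < i, (hull (rel (mv ω l u (tp false i))) v j).card = (hull (rel (mv ω l u (tp false i))) w j).card) ∧
    (hull (rel (mv ω l u (tp false i))) v i).card ≠ (hull (rel (mv ω l u (tp false i))) w i).card ∧
    (∀ t, Zs (rel (mv ω l u (tp false i))) v w i t ↔ t = l ∨ Zs (rel ω) v w i t) ∧
    ¬ Zs (rel ω) v w i l ∧
    v ∈ near (rel (mv ω l u (tp false i))) 1 ∧ w ∈ near (rel (mv ω l u (tp false i))) 1 ∧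
    near (rel (mv ω l u (tp false i))) 1 ⊆ insert l (near (rel ω) 2) := by
  rw [mem_hull] at hlv hlw
  have hul : u ≠ l := fun e => hlv (e ▸ inH_mono hi hu.1)
  have hvl : v ≠ l := fun e => hlv (e ▸ inH_self false v k)
  have hwl : w ≠ l := fun e => hlw (e ▸ inH_self false w k)
  have P := pend_leaf hl
  have P' := pend_mv hl hul (tp false i)
  generalize rel (mv ω l u (tp false i)) = r' at P' ⊢
  generalize relX ω l = r0 at P P'
  generalize rel ω = r at *
  have hlv' : ∀ j ≤ k, ¬ inH r false v j l := fun j hj h => hlv (inH_mono hj h)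
  have hlw' : ∀ j ≤ k, ¬ inH r false w j l := fun j hj h => hlw (inH_mono hj h)
  have a1 : inH r' false v i l := (P'.leaf hvl).2 ⟨i, le_rfl, rfl, (P.other hvl hul).1 hu.1⟩
  have a2 : ∀ j < i, ¬ inH r' false v j l := fun j hj h => by
    obtain ⟨j', h1, -, h2⟩ := (P'.leaf hvl).1 h
    exact hu.2.1 j' (by omega) ((P.other hvl hul).2 h2)
  have a3 : ∀ j ≤ i, ¬ inH r' false w j l := fun j hj h => by
    obtain ⟨j', h1, -, h2⟩ := (P'.leaf hwl).1 h
    exact hu.2.2 (inH_mono (h1.trans hj) ((P.other hwl hul).2 h2))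
  have b1 := mem_top_zero.1 (top_anti (Nat.zero_le k) hv)
  have b2 := mem_top_zero.1 (top_anti (Nat.zero_le k) hw)
  have c1 := tie_not P hvl (hlv' 0 (Nat.zero_le k))
  have c2 := tie_not P hwl (hlw' 0 (Nat.zero_le k))
  have c3 : ∀ t, (hull r' t 0).card ≤ (hull r v 0).card + 1 := fun t => by
    by_cases ht : t = l
    · have h1 := tie_start P'
      have h2 := tie_le P u 0
      have h3 := b1 u
      rw [ht]
      omega
    · have h1 := tie_le' P' ht 0
      have h2 := tie_le P t 0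
      have h3 := b1 t
      omega
  refine ⟨hul, fun j hj => ?_, ?_, fun t => ?_, fun h => hlv' i hi h.1, mem_near.2 fun t => ?_,
    mem_near.2 fun t => ?_, fun t ht => ?_⟩
  · rw [tie_not P' hvl (a2 j hj), tie_not P' hwl (a3 j hj.le), ← tie_not P hvl (hlv' j (by omega)),
      ← tie_not P hwl (hlw' j (by omega))]
    exact top_card hv hw (by omega)
  · rw [tie_yes P' hvl a1, tie_not P' hwl (a3 i le_rfl), ← tie_not P hvl (hlv' i hi),
      ← tie_not P hwl (hlw' i hi), top_card hv hw hi]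
    omega
  · by_cases ht : t = l
    · rw [ht]
      exact iff_of_true ⟨a1, a2, a3 i le_rfl⟩ (Or.inl rfl)
    · simp only [Zs, P'.other hvl ht, P'.other hwl ht, P.other hvl ht, P.other hwl ht, ht, false_or]
  · have h1 := c3 t
    have h2 := tie_le P' v 0
    rw [c1] at h1
    omega
  · have h1 := c3 t
    have h2 := tie_le P' w 0
    have h3 := b2 v
    rw [c2] at h3
    omega
  · by_cases htl : t = l
    · rw [htl]
      exact mem_insert_self _ _
    · refine mem_insert_of_mem (mem_near.2 fun s => ?_)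
      have h1 := b1 s
      have h2 := tie_le P' v 0
      have h3 := mem_near.1 ht v
      have h4 := tie_le' P' htl 0
      have h5 := tie_le P t 0
      rw [c1] at h1
      omega

end Pool.Agent.Work.MP_be9894_co.AA
end

-- merged part: Pool.Agent.Work.MP_be9894_co.AA.Transfer
section
/-!
The sample space covers the labelled oriented trees.

`rel_tree`: connected by `rel_conn` (or along the orbits); for `IsTree` use `SimpleGraph.isTree_iff_connected_and_card`
(edges are the pairs `s(u, p u)`, `u` not the root, at most `card V - 1` of them; a connected graph has at least that many), or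
show that each edge `s(y, p y)` is a bridge using `sub_cut` and `par_not_mem_sub` (`isAcyclic_iff_forall_adj_isBridge`).

`fibre_ge`: for `r` in `OTs` take `T` from `exists_OT`; for each root `ρ` put `ω = (T.par ρ, fun u => decide (r u (T.par ρ u)))`;
then `rel ω = r` (`all`, `adj_par`, `asym`) and `ρ` is the fixed point, so `(r, ρ) ↦ ω` is injective.

`fibre_le`: `ω ↦ (rel ω, root, bit of the root)` is injective on `OmF`: for two rooted trees with the same root and the same
adjacency (`rel_adj`), `p u = p' u` (if not, `p' u` is a `p`-child of `u` and again a counterexample, closer to the root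
for `p'`; or induct on `k` with `p^[k] u = ρ`), and then the bits agree off the root.
-/

set_option autoImplicit false

namespace Pool.Agent.Work.MP_be9894_co.AA

open Finset

/-- labelled oriented trees -/
def OTs (V : Type) : Set (V → V → Prop) :=
  {r | (SimpleGraph.fromRel r).IsTree ∧ ∀ a b, r a b → ¬ r b a}

variable {V : Type} [Fintype V] [DecidableEq V]

lemma rel_tree {ω : Om V} (h : IsRT ω.1) : rel ω ∈ OTs V := by
  classical
  refine ⟨?_, rel_asym h⟩
  obtain ⟨ρ, hρ, -⟩ := id h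
  have hc : (SimpleGraph.fromRel (rel ω)).Connected := by
    have key := rel_conn h {x | (SimpleGraph.fromRel (rel ω)).Reachable ρ x}
      ⟨ρ, SimpleGraph.Reachable.refl ρ⟩ fun a b ha hab =>
        SimpleGraph.Reachable.trans ha (SimpleGraph.Adj.reachable
          ((SimpleGraph.fromRel_adj _ _ _).2 ⟨(rel_adj.1 hab).1, hab⟩))
    have : Nonempty V := ⟨ρ⟩
    exact ⟨fun a b => (key a).symm.trans (key b)⟩
  refine SimpleGraph.isTree_iff_connected_and_card.2
    ⟨hc, le_antisymm ?_ hc.card_vert_le_card_edgeSet_add_one⟩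
  have hsub : (SimpleGraph.fromRel (rel ω)).edgeSet ⊆
      (((univ.erase ρ).image fun u => s(u, ω.1 u) : Finset (Sym2 V)) : Set (Sym2 V)) := by
    intro e he
    induction e using Sym2.ind with
    | _ a b =>
      obtain ⟨h1, h2⟩ := rel_adj.1 ((SimpleGraph.fromRel_adj _ _ _).1 he).2
      refine mem_coe.2 (mem_image.2 ?_)
      rcases h2 with h2 | h2
      · refine ⟨a, mem_erase.2 ⟨?_, mem_univ _⟩, by rw [h2]⟩
        rintro rfl
        exact h1 (hρ.symm.trans h2)
      · refine ⟨b, mem_erase.2 ⟨?_, mem_univ _⟩, by rw [h2, Sym2.eq_swap]⟩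
        rintro rfl
        exact h1 (h2.symm.trans hρ)
  have h3 := Set.ncard_le_ncard hsub (Set.toFinite _)
  rw [Set.ncard_coe_finset] at h3
  have h4 := h3.trans card_image_le
  rw [card_erase_of_mem (mem_univ _), card_univ] at h4
  have h5 : 0 < Fintype.card V := Fintype.card_pos_iff.2 ⟨ρ⟩
  rw [Nat.card_coe_set_eq, Nat.card_eq_fintype_card]
  omega

omit [DecidableEq V] in
lemma transfer_exists {r : V → V → Prop} (hr : r ∈ OTs V) (ρ : V) :
    ∃ ω : Om V, IsRT ω.1 ∧ rel ω = r ∧ ω.1 ρ = ρ := by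
  classical
  obtain ⟨T, rfl⟩ := exists_OT r hr.1 hr.2
  refine ⟨(T.par ρ, fun u => decide (T.r u (T.par ρ u))), ⟨ρ, T.par_self ρ, fun u => ?_⟩, ?_,
    T.par_self ρ⟩
  · refine T.ind_down ρ (fun u => ∃ k, (T.par ρ)^[k] u = ρ) ⟨0, rfl⟩ (fun u _ ⟨k, hk⟩ => ⟨k + 1, hk⟩) u
  · funext a b
    refine propext ⟨?_, fun hab => ?_⟩
    · rintro (⟨h1, -, h3⟩ | ⟨h1, h2, h3⟩)
      · have h4 := of_decide_eq_true h3
        rwa [show T.par ρ a = b from h1] at h4
      · have h4 := of_decide_eq_false h3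
        have h5 : T.par ρ b = a := h1
        have h6 : b ≠ ρ := by
          rintro rfl
          exact h2 (h5.symm.trans (T.par_self _))
        have h7 := (T.adj_par ρ b h6).resolve_left h4
        rwa [h5] at h7
    · have hne : a ≠ b := by
        rintro rfl
        exact T.asym _ _ hab hab
      rcases T.all ρ a b hab with ⟨-, h2⟩ | ⟨-, h2⟩
      · exact Or.inl ⟨h2, hne, decide_eq_true (by rwa [h2])⟩
      · exact Or.inr ⟨h2, hne, decide_eq_false (by rw [h2]; exact T.asym _ _ hab)⟩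

theorem fibre_ge (Q : (V → V → Prop) → Prop) :
    Set.ncard {r | r ∈ OTs V ∧ Q r} * Fintype.card V ≤ (evt fun ω : Om V => Q (rel ω)).card := by
  classical
  rw [Set.ncard_eq_toFinset_card _ (Set.toFinite _), ← card_univ, ← card_product]
  refine card_le_card_of_forall_subsingleton (fun a ω => rel ω = a.1 ∧ ω.1 a.2 = a.2)
    (fun a ha => ?_) fun ω hω a ha b hb => ?_
  · obtain ⟨h1, h2⟩ := (Set.Finite.mem_toFinset _).1 (mem_product.1 ha).1
    obtain ⟨ω, h3, h4, h5⟩ := transfer_exists h1 a.2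
    exact ⟨ω, mem_evt.2 ⟨h3, by rwa [h4]⟩, h4, h5⟩
  · exact Prod.ext (ha.2.1.symm.trans hb.2.1) ((mem_evt.1 hω).1.fix_eq ha.2.2 hb.2.2)

omit [Fintype V] [DecidableEq V] in
lemma transfer_inj {ω ω' : Om V} (h : IsRT ω.1) {ρ : V} (h1 : ω.1 ρ = ρ)
    (h2 : ω'.1 ρ = ρ) (h3 : ω.2 ρ = ω'.2 ρ) (h4 : rel ω = rel ω') : ω = ω' := by
  have hp : ∀ k u, ω.1^[k] u = ρ → ω'.1 u = ω.1 u := by
    intro k
    induction k with
    | zero =>
      rintro u rfl
      exact h2.trans h1.symm
    | succ k ih =>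
      intro u hu
      by_cases hf : ω.1 u = u
      · rw [h.fix_eq hf h1, h1, h2]
      · have h5 := (rel_adj (ω := ω)).2 ⟨Ne.symm hf, Or.inl rfl⟩
        rw [h4] at h5
        refine (rel_adj.1 h5).2.resolve_right fun h6 => hf ?_
        rw [ih _ hu] at h6
        exact (h.two rfl h6).symm
  have he : ω'.1 = ω.1 := by
    obtain ⟨ρ', h5, h6⟩ := id h
    funext u
    obtain ⟨k, hk⟩ := h6 u
    exact hp k u (hk.trans (h.fix_eq h5 h1))
  refine Prod.ext he.symm (funext fun u => ?_)
  by_cases hf : ω.1 u = u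
  · rw [h.fix_eq hf h1, h3]
  · have hn : ω'.1 (ω.1 u) ≠ u := fun h6 => hf (h.two rfl (he ▸ h6)).symm
    cases hb : ω.2 u with
    | true =>
      have h5 : rel ω u (ω.1 u) := Or.inl ⟨rfl, Ne.symm hf, hb⟩
      rw [h4] at h5
      exact (h5.resolve_right fun h6 => hn h6.1).2.2.symm
    | false =>
      have h5 : rel ω (ω.1 u) u := Or.inr ⟨rfl, hf, hb⟩
      rw [h4] at h5
      exact (h5.resolve_left fun h6 => hn h6.1).2.2.symm

theorem fibre_le : (OmF V).card ≤ 2 * Fintype.card V * Set.ncard (OTs V) := by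
  classical
  rw [Set.ncard_eq_toFinset_card _ (Set.toFinite _), ← card_univ, ← Fintype.card_bool,
    ← card_univ, ← card_product, ← card_product]
  refine card_le_card_of_forall_subsingleton
    (fun ω a => ω.1 a.1.2 = a.1.2 ∧ ω.2 a.1.2 = a.1.1 ∧ rel ω = a.2) (fun ω hω => ?_)
    fun a _ ω hω ω' hω' => ?_
  · obtain ⟨ρ, hρ, -⟩ := mem_OmF.1 hω
    exact ⟨((ω.2 ρ, ρ), rel ω), mem_product.2 ⟨mem_product.2 ⟨mem_univ _, mem_univ _⟩,
      (Set.Finite.mem_toFinset _).2 (rel_tree (mem_OmF.1 hω))⟩, hρ, rfl, rfl⟩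
  · exact transfer_inj (mem_OmF.1 hω.1) hω.2.1 hω'.2.1
      (hω.2.2.1.trans hω'.2.2.1.symm) (hω.2.2.2.trans hω'.2.2.2.symm)

end Pool.Agent.Work.MP_be9894_co.AA
end
end
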