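import Pool.Agent.Work.MP_be9894_co.AA.Union
import Pool.Agent.Work.MP_be9894_co.AA.Transfer
import Pool.Agent.Work.MP_be9894_co.AA.Det

/-!
Assembly.  `dens`: `fibre_ge` for the bad trees, `prob_small`, `fibre_le`; good and bad trees partition `OTs`, which is
nonempty for `n ≥ 1` (`OmF_nonempty`, `rel_tree`).  `main`: for each `n` take `k` maximising the number of good trees
(the values are bounded by `ncard (OTs (Fin n))`); `exists_OT` and `det`.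
-/

set_option autoImplicit false

namespace Pool.Agent.Work.MP_be9894_co.AA

open Filter Topology

theorem dens {ε : ℝ} (hε : 0 < ε) : ∃ k n0 : ℕ, ∀ n ≥ n0, 0 < Set.ncard (OTs (Fin n)) ∧
    (1 - ε) * (Set.ncard (OTs (Fin n)) : ℝ) ≤ (Set.ncard {r | r ∈ OTs (Fin n) ∧ UU r k} : ℝ) := by
  obtain ⟨k, n0, h⟩ := prob_small (ε := ε / 2) (by positivity)
  refine ⟨k, n0 + 1, fun n hn => ?_⟩
  have hn1 : 0 < n := by omega
  have : Nonempty (Fin n) := ⟨⟨0, hn1⟩⟩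
  obtain ⟨ω, hω⟩ := OmF_nonempty (V := Fin n)
  have hfin : (OTs (Fin n)).Finite := Set.toFinite _
  refine ⟨(Set.ncard_pos hfin).2 ⟨rel ω, rel_tree (mem_OmF.1 hω)⟩, ?_⟩
  have h1 := fibre_ge (V := Fin n) (fun r => ¬ UU r k)
  have h2 := fibre_le (V := Fin n)
  have h3 := h n (by omega)
  rw [Fintype.card_fin] at h1 h2
  have h4 : Set.ncard (OTs (Fin n)) ≤
      Set.ncard {r | r ∈ OTs (Fin n) ∧ UU r k} + Set.ncard {r | r ∈ OTs (Fin n) ∧ ¬ UU r k} := by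
    refine le_trans (Set.ncard_le_ncard (t := {r | r ∈ OTs (Fin n) ∧ UU r k} ∪ {r | r ∈ OTs (Fin n) ∧ ¬ UU r k})
      ?_ (Set.toFinite _)) (Set.ncard_union_le _ _)
    intro r hr
    by_cases hU : UU r k
    · exact Or.inl ⟨hr, hU⟩
    · exact Or.inr ⟨hr, hU⟩
  have h1' : (Set.ncard {r | r ∈ OTs (Fin n) ∧ ¬ UU r k} : ℝ) * n ≤
      ((evt fun ω : Om (Fin n) => ¬ UU (rel ω) k).card : ℝ) := by exact_mod_cast h1
  have h2' : ((OmF (Fin n)).card : ℝ) ≤ 2 * n * (Set.ncard (OTs (Fin n)) : ℝ) := by exact_mod_cast h2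
  have h4' : (Set.ncard (OTs (Fin n)) : ℝ) ≤
      (Set.ncard {r | r ∈ OTs (Fin n) ∧ UU r k} : ℝ) + (Set.ncard {r | r ∈ OTs (Fin n) ∧ ¬ UU r k} : ℝ) := by
    exact_mod_cast h4
  have hnp : (0 : ℝ) < n := by exact_mod_cast hn1
  have h5 : (Set.ncard {r | r ∈ OTs (Fin n) ∧ ¬ UU r k} : ℝ) * n ≤ (ε * (Set.ncard (OTs (Fin n)) : ℝ)) * n := by
    have : ε / 2 * ((OmF (Fin n)).card : ℝ) ≤ ε / 2 * (2 * n * (Set.ncard (OTs (Fin n)) : ℝ)) :=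
      mul_le_mul_of_nonneg_left h2' (by positivity)
    nlinarith
  have h6 := le_of_mul_le_mul_right h5 hnp
  linarith

theorem main : ∃ U : (n : ℕ) → Set (Fin n → Fin n → Prop), (∀ n, U n ⊆ OTs (Fin n)) ∧
    Tendsto (fun n => ((U n).ncard : ℝ) / ((OTs (Fin n)).ncard : ℝ)) atTop (𝓝 1) ∧
    ∀ n, ∀ r ∈ U n, ∀ s ∈ U n, SameG r s → Nonempty (r ≃r s) := by
  have hle : ∀ n k : ℕ, Set.ncard {r | r ∈ OTs (Fin n) ∧ UU r k} ≤ Set.ncard (OTs (Fin n)) :=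
    fun n k => Set.ncard_le_ncard (fun _ h => h.1) (Set.toFinite _)
  have hbest : ∀ n : ℕ, ∃ k0 : ℕ, ∀ k : ℕ,
      Set.ncard {r | r ∈ OTs (Fin n) ∧ UU r k} ≤ Set.ncard {r | r ∈ OTs (Fin n) ∧ UU r k0} := by
    intro n
    have hb : BddAbove (Set.range fun k : ℕ => Set.ncard {r | r ∈ OTs (Fin n) ∧ UU r k}) :=
      ⟨Set.ncard (OTs (Fin n)), by rintro _ ⟨k, rfl⟩; exact hle n k⟩
    obtain ⟨k0, hk0⟩ := Nat.sSup_mem (Set.range_nonempty _) hb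
    exact ⟨k0, fun k => le_trans (le_csSup hb ⟨k, rfl⟩) hk0.ge⟩
  choose kk hkk using hbest
  refine ⟨fun n => {r | r ∈ OTs (Fin n) ∧ UU r (kk n)}, fun n _ h => h.1, ?_, ?_⟩
  · rw [Metric.tendsto_atTop]
    intro ε hε
    obtain ⟨k, n0, h⟩ := dens (ε := ε / 2) (by positivity)
    refine ⟨n0, fun n hn => ?_⟩
    obtain ⟨h1, h2⟩ := h n hn
    have h1' : (0 : ℝ) < (Set.ncard (OTs (Fin n)) : ℝ) := by exact_mod_cast h1
    have h3 : (Set.ncard {r | r ∈ OTs (Fin n) ∧ UU r k} : ℝ) ≤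
        (Set.ncard {r | r ∈ OTs (Fin n) ∧ UU r (kk n)} : ℝ) := by exact_mod_cast hkk n k
    have h4 : (Set.ncard {r | r ∈ OTs (Fin n) ∧ UU r (kk n)} : ℝ) ≤ (Set.ncard (OTs (Fin n)) : ℝ) := by
      exact_mod_cast hle n (kk n)
    have h5 : (Set.ncard {r | r ∈ OTs (Fin n) ∧ UU r (kk n)} : ℝ) / (Set.ncard (OTs (Fin n)) : ℝ) ≤ 1 :=
      (div_le_one h1').2 h4
    have h6 : 1 - ε / 2 ≤
        (Set.ncard {r | r ∈ OTs (Fin n) ∧ UU r (kk n)} : ℝ) / (Set.ncard (OTs (Fin n)) : ℝ) :=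
      (le_div_iff₀ h1').2 (le_trans h2 h3)
    rw [Real.dist_eq, abs_lt]
    constructor <;> linarith
  · intro n r hr s hs hG
    obtain ⟨T, rfl⟩ := exists_OT r hr.1.1 hr.1.2
    obtain ⟨T', rfl⟩ := exists_OT s hs.1.1 hs.1.2
    exact det T T' rfl hG (kk n) hr.2 hs.2

end Pool.Agent.Work.MP_be9894_co.AA
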