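import Pool.Agent.Work.MP_be9894_co.AA.Params
import Pool.Agent.Work.MP_be9894_co.AA.Leaves
import Pool.Agent.Work.MP_be9894_co.AA.NearTop
import Pool.Agent.Work.MP_be9894_co.AA.TieCount
import Pool.Agent.Work.MP_be9894_co.AA.CutCount
import Pool.Agent.Work.MP_be9894_co.AA.Depth
import Pool.Agent.Work.MP_be9894_co.AA.BigHull

/-!
The union bound.  If `¬ UU` then one of six events holds: at most `θ + 2 M + 6` leaves (`leaves_count`); a vertex with `Δ`
children (`deg_count`); a hull with more than `M` elements (`big_hull`); otherwise `gap (θ + 6)` holds (`inH_mono`) and either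
`near 2` is large (`near_count`), or a tie (`tie_count`), or no big component (`cut_count` with `depth_sum`).
-/

set_option autoImplicit false

namespace Pool.Agent.Work.MP_be9894_co.AA

open Finset

theorem bad_bound {V : Type} [Fintype V] [DecidableEq V] (k θ M Δ D r K : ℕ) (h1 : 0 < θ) (h2 : 0 < M) (h3 : 0 < r)
    (h4 : 0 < K) (h5 : 4 * (θ + 2 * M + 6) + 4 ≤ Fintype.card V) (h6 : 2 * (Δ + 1) ^ D ≤ M) (h7 : 3 * K + 2 ≤ k) :
    ((evt fun ω : Om V => ¬ UU (rel ω) k).card : ℝ) ≤ bnd (Fintype.card V) k θ M Δ D r K * (OmF V).card := by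
  classical
  set E1 := evt fun ω : Om V => (leaves ω.1).card ≤ θ + 2 * M + 6 with hE1
  set E2 := evt fun ω : Om V => ∃ v, Δ ≤ (kids ω.1 v).card with hE2
  set E3 := evt fun ω : Om V => (∀ v, (kids ω.1 v).card < Δ) ∧ ∃ v, M < (hull (rel ω) v k).card with hE3
  set E4 := evt fun ω : Om V => gap (θ + 6) ω ∧ r < (near (rel ω) 2).card with hE4
  set E5 := evt fun ω : Om V => ¬ Uniq (rel ω) k ∧ (near (rel ω) 2).card ≤ r ∧
        ∀ v, 2 * (hull (rel ω) v k).card + θ ≤ (leaves ω.1).card with hE5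
  set E6 := evt fun ω : Om V => Uniq (rel ω) k ∧ ¬ Big (rel ω) k ∧ ∀ v, (hull (rel ω) v k).card ≤ M with hE6
  have hsub : (evt fun ω : Om V => ¬ UU (rel ω) k) ⊆ E1 ∪ (E2 ∪ (E3 ∪ (E4 ∪ (E5 ∪ E6)))) := by
    intro ω hω
    obtain ⟨hRT, hU⟩ := mem_evt.1 hω
    simp only [mem_union, hE1, hE2, hE3, hE4, hE5, hE6, mem_evt]
    by_cases c1 : (leaves ω.1).card ≤ θ + 2 * M + 6
    · exact Or.inl ⟨hRT, c1⟩
    by_cases c2 : ∃ v, Δ ≤ (kids ω.1 v).card
    · exact Or.inr (Or.inl ⟨hRT, c2⟩)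
    push Not at c1 c2
    by_cases c3 : ∃ v, M < (hull (rel ω) v k).card
    · exact Or.inr (Or.inr (Or.inl ⟨hRT, c2, c3⟩))
    push Not at c3
    by_cases c4 : r < (near (rel ω) 2).card
    · refine Or.inr (Or.inr (Or.inr (Or.inl ⟨hRT, fun v => ?_, c4⟩)))
      have hs : hull (rel ω) v 0 ⊆ hull (rel ω) v k :=
        fun u hu => mem_hull.2 (inH_mono (Nat.zero_le k) (mem_hull.1 hu))
      have := card_le_card hs
      have := c3 v
      omega
    push Not at c4
    by_cases c5 : Uniq (rel ω) k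
    · exact Or.inr (Or.inr (Or.inr (Or.inr (Or.inr ⟨hRT, c5, fun hB => hU ⟨c5, hB⟩, c3⟩))))
    · refine Or.inr (Or.inr (Or.inr (Or.inr (Or.inl ⟨hRT, c5, c4, fun v => ?_⟩))))
      have := c3 v
      omega
  have hcard : (evt fun ω : Om V => ¬ UU (rel ω) k).card ≤
      E1.card + (E2.card + (E3.card + (E4.card + (E5.card + E6.card)))) := by
    refine le_trans (card_le_card hsub) ?_
    refine le_trans (card_union_le _ _) (Nat.add_le_add_left ?_ _)
    refine le_trans (card_union_le _ _) (Nat.add_le_add_left ?_ _)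
    refine le_trans (card_union_le _ _) (Nat.add_le_add_left ?_ _)
    refine le_trans (card_union_le _ _) (Nat.add_le_add_left ?_ _)
    exact card_union_le _ _
  have hn : (0 : ℝ) < Fintype.card V := by exact_mod_cast (by omega : 0 < Fintype.card V)
  have hθ : (0 : ℝ) < θ := by exact_mod_cast h1
  have hM : (0 : ℝ) < M := by exact_mod_cast h2
  have hr : (0 : ℝ) < r := by exact_mod_cast h3
  have hK : (0 : ℝ) < K := by exact_mod_cast h4
  have hf : (0 : ℝ) < Δ.factorial := by exact_mod_cast Nat.factorial_pos Δ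
  have b1 : (E1.card : ℝ) ≤ 4 * ((θ : ℝ) + 2 * M + 7) / Fintype.card V * (OmF V).card := by
    have h := leaves_count (V := V) (θ + 2 * M + 6) h5
    have h' : (E1.card : ℝ) * Fintype.card V ≤ 4 * ((θ : ℝ) + 2 * M + 6 + 1) * (OmF V).card := by
      exact_mod_cast h
    rw [div_mul_eq_mul_div, le_div_iff₀ hn]
    linarith
  have b2 : (E2.card : ℝ) ≤ (Fintype.card V : ℝ) / Δ.factorial * (OmF V).card := by
    have h := deg_count (V := V) Δ
    have h' : (E2.card : ℝ) * Δ.factorial ≤ Fintype.card V * (OmF V).card := by exact_mod_cast h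
    rw [div_mul_eq_mul_div, le_div_iff₀ hf]
    exact h'
  have b3 : (E3.card : ℝ) ≤ 2 * (Fintype.card V : ℝ) * tl (2 * k + 2) D (Fintype.card V) / (M : ℝ) ^ 2 *
      (OmF V).card := by
    have h := big_hull (V := V) k D Δ M h6
    rw [div_mul_eq_mul_div, le_div_iff₀ (by positivity)]
    linarith
  have b4 : (E4.card : ℝ) ≤ (2 * (Fintype.card V : ℝ)) ^ 3 / (r * (θ : ℝ) ^ 3) * (OmF V).card := by
    have h := near_count (V := V) θ r
    have h' : (E4.card : ℝ) * r * (θ : ℝ) ^ 3 ≤ (2 * (Fintype.card V : ℝ)) ^ 3 * (OmF V).card := by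
      exact_mod_cast h
    rw [div_mul_eq_mul_div, le_div_iff₀ (by positivity)]
    linarith
  have b5 : (E5.card : ℝ) ≤ 4 * (Fintype.card V : ℝ) * ((r : ℝ) + 1) ^ 2 / (K * θ) * (OmF V).card := by
    have h := tie_count (V := V) k K r θ h7
    have h' : (E5.card : ℝ) * K * θ ≤ 4 * (Fintype.card V : ℝ) * ((r : ℝ) + 1) ^ 2 * (OmF V).card := by
      exact_mod_cast h
    rw [div_mul_eq_mul_div, le_div_iff₀ (by positivity)]
    linarith
  have b6 : (E6.card : ℝ) ≤ 16 * (M : ℝ) * ((Nat.sqrt (Fintype.card V) : ℝ) + 1) / Fintype.card V *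
      (OmF V).card := by
    have h := le_trans (cut_count (V := V) k M (by omega)) (Nat.mul_le_mul_left _ (depth_sum (V := V)))
    have h' : (E6.card : ℝ) * (Fintype.card V : ℝ) ^ 2 ≤
        8 * M * (2 * ((Nat.sqrt (Fintype.card V) : ℝ) + 1) * Fintype.card V * (OmF V).card) := by
      exact_mod_cast h
    rw [div_mul_eq_mul_div, le_div_iff₀ hn]
    refine le_of_mul_le_mul_right ?_ hn
    nlinarith
  have hc : ((evt fun ω : Om V => ¬ UU (rel ω) k).card : ℝ) ≤
      E1.card + (E2.card + (E3.card + (E4.card + (E5.card + E6.card)))) := by exact_mod_cast hcard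
  unfold bnd
  linarith

theorem prob_small {ε : ℝ} (hε : 0 < ε) : ∃ k n0 : ℕ, ∀ n ≥ n0,
    ((evt fun ω : Om (Fin n) => ¬ UU (rel ω) k).card : ℝ) ≤ ε * (OmF (Fin n)).card := by
  obtain ⟨k, n0, h⟩ := params hε
  refine ⟨k, n0, fun n hn => ?_⟩
  obtain ⟨θ, M, Δ, D, r, K, h1, h2, h3, h4, h5, h6, h7, h8⟩ := h n hn
  have hb := bad_bound (V := Fin n) k θ M Δ D r K h1 h2 h3 h4 (by rw [Fintype.card_fin]; exact h5) h6 h7
  rw [Fintype.card_fin] at hb
  exact le_trans hb (mul_le_mul_of_nonneg_right h8 (Nat.cast_nonneg _))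

end Pool.Agent.Work.MP_be9894_co.AA
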